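import Pool.Agent.Helper41.Fish3241

/-!
Fishburn permutations avoiding 2413.
-/

namespace Fish41

open Finset

namespace P2413

def Av (n : ℕ) (p : ℕ → ℕ) : Prop :=
  ∀ a b c d, a < b → b < c → c < d → d < n → ¬ (p b < p d ∧ p d < p a ∧ p a < p c)

def NoR (n : ℕ) (p : ℕ → ℕ) (v : ℕ) : Prop :=
  ∀ a b d, a < b → b < v → v ≤ d → d < n → ¬ (p b < p d ∧ p d < p a)

def Good (n : ℕ) (p : ℕ → ℕ) : Prop := FishP n p ∧ Av n p

def al (n : ℕ) (p : ℕ → ℕ) (v : ℕ) : Prop := alF n p v ∧ NoR n p v

theorem av_app {n : ℕ} {p : ℕ → ℕ} {l : ℕ} (h : Valid n p l) {v : ℕ} (hv : v ≤ n) :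
    Av (n + 1) (app p n v) ↔ Av n p ∧ NoR n p v := by
  constructor
  · intro H
    constructor
    · intro a b c d hab hbc hcd hd hc
      apply H (sh v a) (sh v b) (sh v c) (sh v d) (sh_lt_sh.mpr hab) (sh_lt_sh.mpr hbc)
        (sh_lt_sh.mpr hcd) ((sh_lt_succ hv).mpr hd)
      simp only [app_sh]
      exact hc
    · intro a b d hab hbv hvd hd hc
      apply H a b v (d + 1) hab hbv (by omega) (by omega)
      rw [app_lt hbv, app_lt (show a < v by omega), app_succ (by omega), app_eq]
      exact ⟨hc.1, hc.2, h.lt a (by omega)⟩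
  · rintro ⟨H1, H2⟩ a b c d hab hbc hcd hd ⟨e1, e2, e3⟩
    have ha : a < n + 1 := by omega
    have hc : c < n + 1 := by omega
    obtain ⟨b', hb', rfl⟩ := app_not_max h hv (by omega) hd e1
    obtain ⟨d', hd', rfl⟩ := app_not_max h hv hd (by omega) e2
    obtain ⟨a', ha', rfl⟩ := app_not_max h hv ha (by omega) e3
    rw [app_sh, app_sh] at e1 e2
    rw [sh_lt_sh] at hab
    rcases sh_cases hv hc with rfl | ⟨c', hc', rfl⟩
    · exact H2 a' b' d' hab (sh_lt.mp hbc) (lt_sh.mp hcd) hd' ⟨e1, e2⟩
    · rw [app_sh, app_sh] at e3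
      exact H1 a' b' c' d' hab (sh_lt_sh.mp hbc) (sh_lt_sh.mp hcd) hd' ⟨e1, e2, e3⟩

theorem good_app {n : ℕ} {p : ℕ → ℕ} {l : ℕ} (h : Valid n p l) {v : ℕ} (hv : v ≤ n) :
    Good (n + 1) (app p n v) ↔ Good n p ∧ al n p v := by
  unfold Good al alF
  rw [fish_app h hv, av_app h hv]
  tauto

theorem NoR_l {n : ℕ} {p : ℕ → ℕ} {l : ℕ} (h : Valid n p l) (hA : Av n p) : NoR n p l := by
  rintro a b d h1 h2 h3 h4 ⟨e1, e2⟩
  rcases Nat.eq_or_lt_of_le h3 with rfl | h3
  · have := h.lt_pl (x := a) (by omega) (by omega)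
    omega
  · exact hA a b l d h1 h2 h3 h4 ⟨e1, e2, h.lt_pl (by omega) (by omega)⟩

theorem al_l {n : ℕ} {p : ℕ → ℕ} {l : ℕ} (h : Valid n p l) (hA : Av n p) : al n p l :=
  ⟨alF_l h, NoR_l h hA⟩

theorem al_succ {n : ℕ} {p : ℕ → ℕ} {l : ℕ} (h : Valid n p l) {v x : ℕ} (hv : v ≤ n)
    (hx : v ≤ x) :
    al (n + 1) (app p n v) (x + 1) ↔ al n p x ∧ Cut n p v x := by
  have key : NoR (n + 1) (app p n v) (x + 1) ↔ NoR n p x ∧ Cut n p v x := by
    constructor
    · intro H
      constructor
      · rintro a b d h1 h2 h3 h4 ⟨e1, e2⟩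
        apply H (sh v a) (sh v b) (sh v d) (sh_lt_sh.mpr h1)
          (by unfold sh; split_ifs <;> omega) (by unfold sh; split_ifs <;> omega)
          ((sh_lt_succ hv).mpr h4)
        simp only [app_sh]
        exact ⟨e1, e2⟩
      · intro b d h1 h2 h3 h4
        by_contra hc
        apply H v (b + 1) (d + 1) (by omega) (by omega) (by omega) (by omega)
        rw [app_succ h1, app_succ (by omega), app_eq]
        refine ⟨?_, h.lt d h4⟩
        have : p b ≠ p d := fun e => by
          have := h.inj b (by omega) d h4 e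
          omega
        omega
    · rintro ⟨H1, H2⟩ a b d h1 h2 h3 h4 ⟨e1, e2⟩
      have ha : a < n + 1 := by omega
      obtain ⟨b', hb', rfl⟩ := app_not_max h hv (by omega) h4 e1
      obtain ⟨d', hd', rfl⟩ := app_not_max h hv h4 (by omega) e2
      rw [app_sh, app_sh] at e1
      have h2' : b' < x := by unfold sh at h2; split_ifs at h2 <;> omega
      have h3' : x ≤ d' := by unfold sh at h3; split_ifs at h3 <;> omega
      rcases sh_cases hv ha with rfl | ⟨a', ha', rfl⟩
      · have := H2 b' d' (lt_sh.mp h1) h2' h3' hd'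
        omega
      · rw [app_sh, app_sh] at e2
        exact H1 a' b' d' (sh_lt_sh.mp h1) h2' h3' hd' ⟨e1, e2⟩
  unfold al
  rw [alF_succ hx, key]
  tauto

theorem al_lt {n : ℕ} {p : ℕ → ℕ} {l : ℕ} (h : Valid n p l) {v w : ℕ} (hv : v ≤ n) (hw : w < v) :
    al (n + 1) (app p n v) w ↔ al n p w ∧ w ≠ l := by
  have key : NoR (n + 1) (app p n v) w ↔ NoR n p w := by
    constructor
    · rintro H a b d h1 h2 h3 h4 ⟨e1, e2⟩
      apply H (sh v a) (sh v b) (sh v d) (sh_lt_sh.mpr h1)
        (by unfold sh; split_ifs <;> omega) (by unfold sh; split_ifs <;> omega)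
        ((sh_lt_succ hv).mpr h4)
      simp only [app_sh]
      exact ⟨e1, e2⟩
    · rintro H a b d h1 h2 h3 h4 ⟨e1, e2⟩
      obtain ⟨d', hd', rfl⟩ := app_not_max h hv h4 (by omega) e2
      rw [app_lt (show b < v by omega), app_sh] at e1
      rw [app_lt (show a < v by omega), app_sh] at e2
      exact H a b d' h1 h2 (by unfold sh at h3; split_ifs at h3 <;> omega) hd' ⟨e1, e2⟩
  unfold al
  rw [alF_lt h hv hw, key]
  tauto

theorem al_self {n : ℕ} {p : ℕ → ℕ} {l : ℕ} (h : Valid n p l) (hG : Good n p) {v : ℕ} (hv : v ≤ n)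
    (ha : al n p v) : al (n + 1) (app p n v) v :=
  al_l (h.child hv) ((good_app h hv).mpr ⟨hG, ha⟩).2

/-- upper allowed slots cut -/
theorem cut_upper {n : ℕ} {p : ℕ → ℕ} {l : ℕ} (h : Valid n p l) {x : ℕ} (hx : l < x)
    (ha : al n p x) : Cut n p l x := by
  intro b d h1 h2 h3 h4
  rcases Nat.eq_or_lt_of_le h1 with rfl | h1
  · exact h.lt_pl h4 (by omega)
  · by_contra hc
    have : p b ≠ p d := fun e => by
      have := h.inj b (by omega) d h4 e
      omega
    exact ha.2 l b d h1 h2 h3 h4 ⟨by omega, h.lt_pl h4 (by omega)⟩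

theorem cut_not_low {n : ℕ} {p : ℕ → ℕ} {l : ℕ} (h : Valid n p l) {w x : ℕ} (hw : w < x)
    (hx : x ≤ l) : ¬ Cut n p w x := by
  intro H
  have h1 := H w l le_rfl hw hx h.ln
  have h2 := h.lt_pl (x := w) (by have := h.ln; omega) (by omega)
  omega

theorem cut_mono {n : ℕ} {p : ℕ → ℕ} {l : ℕ} (h : Valid n p l) {w x x' : ℕ} (hx' : l < x')
    (hxx : x' ≤ x) (ha : al n p x) (hc : Cut n p w x') : Cut n p w x := by
  intro b d h1 h2 h3 h4
  rcases Nat.lt_or_ge b x' with h5 | h5
  · exact hc b d h1 h5 (by omega) h4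
  · exact cut_upper h (by omega) ha b d (by omega) h2 h3 h4

open Classical in
/-- number of allowed slots `≤ l` which do not cut at `x` -/
noncomputable def cv (n : ℕ) (p : ℕ → ℕ) (l x : ℕ) : ℕ :=
  Nat.count (fun w => al n p w ∧ ¬ Cut n p w x) (l + 1)

theorem count_congr {P Q : ℕ → Prop} [DecidablePred P] [DecidablePred Q] : ∀ k, (∀ w < k, (P w ↔ Q w)) → Nat.count P k = Nat.count Q k := by
  intro k
  induction k with
  | zero => intro _; simp
  | succ k ih =>
    intro H
    rw [Nat.count_succ, Nat.count_succ, ih (fun w hw => H w (by omega))]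
    simp only [H k (by omega)]

/-- if the predicate fails above `k` the count is constant -/
theorem count_stop {P : ℕ → Prop} [DecidablePred P] {k : ℕ} : ∀ k', k ≤ k' → (∀ w, k ≤ w → w < k' → ¬ P w) →
    Nat.count P k' = Nat.count P k := by
  intro k' hk
  induction k', hk using Nat.le_induction with
  | base => intro _; rfl
  | succ k' hk ih =>
    intro H
    rw [Nat.count_succ, ih (fun w h1 h2 => H w h1 (by omega)), if_neg (H k' hk (by omega))]
    rfl

open Classical in
theorem cut_iff {n : ℕ} {p : ℕ → ℕ} {l : ℕ} {v x : ℕ} (hv : v ≤ l)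
    (ha : al n p v) : Cut n p v x ↔ cv n p l x ≤ Nat.count (al n p) v := by
  constructor
  · intro hc
    unfold cv
    rw [count_stop (k := v) (l + 1) (by omega) (by
      rintro w h1 h2 ⟨_, h3⟩
      exact h3 (hc.mono h1))]
    exact Nat.count_mono_left (fun w _ hw => hw.1)
  · intro hle
    by_contra hc
    have h1 : Nat.count (fun w => al n p w ∧ ¬ Cut n p w x) (v + 1) =
        Nat.count (al n p) (v + 1) := by
      apply count_congr
      intro w hw
      constructor
      · exact fun h => h.1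
      · exact fun h => ⟨h, fun h' => hc (h'.mono (by omega))⟩
    have h2 : Nat.count (fun w => al n p w ∧ ¬ Cut n p w x) (v + 1) ≤ cv n p l x :=
      Nat.count_monotone _ (by omega)
    rw [h1, Nat.count_succ, if_pos ha] at h2
    omega

open Classical in
theorem cv_low {n : ℕ} {p : ℕ → ℕ} {l : ℕ} (h : Valid n p l) {v x : ℕ} (hvn : v ≤ n)
    (hv : v ≤ l) (hx : l < x) (hc : Cut n p v x) :
    cv (n + 1) (app p n v) v (x + 1) = cv n p l x := by
  unfold cv
  rw [count_stop (P := fun w => al n p w ∧ ¬ Cut n p w x) (k := v) (l + 1) (by omega) (by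
      rintro w h1 h2 ⟨_, h3⟩
      exact h3 (hc.mono h1))]
  rw [Nat.count_succ, if_neg]
  · rw [add_zero]
    apply count_congr
    intro w hw
    rw [al_lt h hvn hw, Cut_succ h hvn (by omega) (by omega)]
    constructor
    · rintro ⟨⟨h1, _⟩, h2⟩; exact ⟨h1, h2⟩
    · rintro ⟨h1, h2⟩; exact ⟨⟨h1, by omega⟩, h2⟩
  · rintro ⟨_, h2⟩
    rw [Cut_succ h hvn (by omega) le_rfl] at h2
    exact h2 hc

open Classical in
theorem cv_low_self {n : ℕ} {p : ℕ → ℕ} {l : ℕ} (h : Valid n p l) {v : ℕ} (hvn : v ≤ n)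
    (hv : v ≤ l) :
    cv (n + 1) (app p n v) v (v + 1) = Nat.count (al n p) v := by
  unfold cv
  rw [Nat.count_succ, if_neg]
  · rw [add_zero]
    apply count_congr
    intro w hw
    rw [al_lt h hvn hw, Cut_succ h hvn le_rfl (by omega)]
    constructor
    · rintro ⟨⟨h1, _⟩, h2⟩; exact h1
    · intro h1; exact ⟨⟨h1, by omega⟩, cut_not_low h hw hv⟩
  · rintro ⟨_, h2⟩
    rw [Cut_succ h hvn le_rfl le_rfl] at h2
    exact h2 (fun b d h1 h2 => by omega)

open Classical in
theorem cv_high {n : ℕ} {p : ℕ → ℕ} {l : ℕ} (h : Valid n p l) {v x : ℕ} (hvn : v ≤ n)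
    (hv : l < v) (hx : v ≤ x) (ha : al n p x) :
    cv (n + 1) (app p n v) v (x + 1) = cv n p l x := by
  have hcl := cut_upper h (by omega) ha
  unfold cv
  rw [count_stop (P := fun w => al n p w ∧ ¬ Cut n p w x) (k := l) (l + 1) (by omega) (by
      rintro w h1 h2 ⟨_, h3⟩
      exact h3 (hcl.mono h1))]
  rw [count_stop (k := l) (v + 1) (by omega) (by
      rintro w h1 h2 ⟨_, h3⟩
      rw [Cut_succ h hvn hx (by omega)] at h3
      exact h3 (hcl.mono h1))]
  apply count_congr
  intro w hw
  rw [al_lt h hvn (by omega), Cut_succ h hvn hx (by omega)]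
  constructor
  · rintro ⟨⟨h1, _⟩, h2⟩; exact ⟨h1, h2⟩
  · rintro ⟨h1, h2⟩; exact ⟨⟨h1, by omega⟩, h2⟩

open Classical in
theorem okl_Sg {n : ℕ} {p : ℕ → ℕ} {l : ℕ} (h : Valid n p l) : ∀ (k prev : ℕ),
    prev ≤ Nat.count (al n p) (l + 1) →
    (∀ x, l + 1 ≤ x → x < k → al n p x → prev ≤ cv n p l x) →
    okl prev (Nat.count (al n p) (l + 1)) (Sg (al n p) (cv n p l) (l + 1) k) := by
  intro k
  induction k with
  | zero => intro prev hp _; exact hp
  | succ k ih =>
    intro prev hp H
    by_cases hk : l + 1 ≤ k ∧ al n p k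
    · rw [Sg_pos hk.1 hk.2]
      refine ⟨H k hk.1 (by omega) hk.2, Nat.count_mono_left (fun w _ hw => hw.1), ?_⟩
      apply ih
      · exact Nat.count_mono_left (fun w _ hw => hw.1)
      · intro x hx hxk hax
        apply Nat.count_mono_left
        rintro w _ ⟨h1, h2⟩
        exact ⟨h1, fun h3 => h2 (cut_mono h (by omega) (by omega) hk.2 h3)⟩
    · rw [Sg, if_neg hk]
      exact ih prev hp (fun x h1 h2 h3 => H x h1 (by omega) h3)

open Classical in
theorem sum_low {M : Type*} [AddCommMonoid M] (P : ℕ → Prop) (g : ℕ → M) : ∀ k,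
    ∑ v ∈ range k, (if P v then g (Nat.count P v) else 0) = ∑ j ∈ range (Nat.count P k), g j := by
  intro k
  induction k with
  | zero => simp
  | succ k ih =>
    rw [Finset.sum_range_succ, ih, Nat.count_succ]
    by_cases hk : P k
    · rw [if_pos hk, if_pos hk, Finset.sum_range_succ]
    · rw [if_neg hk, if_neg hk, add_zero, add_zero]

open Classical in
theorem sum_high {M : Type*} [AddCommMonoid M] (P : ℕ → Prop) (c : ℕ → ℕ) (lo : ℕ) :
    ∀ k, lo ≤ k → ∀ (g : List ℕ → ℕ → M),
    ∑ v ∈ Ico lo k, (if P v then g (Sg P c v k) (Sg P c lo v).length else 0) =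
    ∑ t ∈ range (Sg P c lo k).length, g ((Sg P c lo k).take (t + 1))
      ((Sg P c lo k).length - 1 - t) := by
  intro k hk
  induction k, hk using Nat.le_induction with
  | base => intro g; rw [Sg_le le_rfl]; simp
  | succ k hk ih =>
    intro g
    rw [Finset.sum_Ico_succ_top hk]
    by_cases hP : P k
    · rw [if_pos hP, Sg_pos hk hP, Sg_pos (lo := k) le_rfl hP, Sg_le (lo := k) le_rfl,
        List.length_cons, Finset.sum_range_succ']
      have e1 : ∑ v ∈ Ico lo k, (if P v then g (Sg P c v (k + 1)) (Sg P c lo v).length else 0) =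
          ∑ v ∈ Ico lo k, (if P v then g (c k :: Sg P c v k) (Sg P c lo v).length else 0) := by
        apply Finset.sum_congr rfl
        intro v hv
        rw [Finset.mem_Ico] at hv
        rw [Sg_pos (by omega) hP]
      rw [e1, ih (fun L => g (c k :: L))]
      congr 1
      apply Finset.sum_congr rfl
      intro t ht
      rw [List.take_succ_cons]
      congr 1
      omega
    · rw [if_neg hP, Sg_neg hP, add_zero, ← ih g]
      apply Finset.sum_congr rfl
      intro v hv
      rw [Sg_neg hP]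

open Classical in
theorem cnt_low {n : ℕ} {p : ℕ → ℕ} {l : ℕ} (h : Valid n p l) (hG : Good n p) {v : ℕ}
    (hvn : v ≤ n) (hv : v ≤ l) (ha : al n p v) :
    Nat.count (al (n + 1) (app p n v)) (v + 1) = Nat.count (al n p) v + 1 := by
  rw [Nat.count_succ, if_pos (al_self h hG hvn ha)]
  congr 1
  apply count_congr
  intro w hw
  rw [al_lt h hvn hw]
  exact ⟨fun h => h.1, fun h => ⟨h, by omega⟩⟩

open Classical in
theorem cnt_high {n : ℕ} {p : ℕ → ℕ} {l : ℕ} (h : Valid n p l) (hG : Good n p) {v : ℕ}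
    (hvn : v ≤ n) (hv : l < v) (ha : al n p v) :
    Nat.count (al (n + 1) (app p n v)) (v + 1) = Nat.count (al n p) v := by
  rw [Nat.count_succ, if_pos (al_self h hG hvn ha)]
  have h0 : ∀ k ≤ v, Nat.count (al (n + 1) (app p n v)) k + (if l < k then 1 else 0) =
      Nat.count (al n p) k := by
    intro k
    induction k with
    | zero => intro _; simp
    | succ k ih =>
      intro hk
      have ih := ih (by omega)
      rw [Nat.count_succ, Nat.count_succ]
      have h1 := al_lt h hvn (show k < v by omega)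
      by_cases hal : al n p k
      · rcases eq_or_ne k l with rfl | hne
        · rw [if_neg (by rw [h1]; tauto), if_pos hal, if_pos (by omega)]
          rw [if_neg (by omega)] at ih
          omega
        · rw [if_pos (by rw [h1]; tauto), if_pos hal]
          by_cases hlk : l < k
          · rw [if_pos (by omega)]; rw [if_pos hlk] at ih; omega
          · rw [if_neg (by omega)]; rw [if_neg hlk] at ih; omega
      · rw [if_neg (by rw [h1]; tauto), if_neg hal]
        have hne : k ≠ l := by
          rintro rfl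
          exact hal (al_l h hG.2)
        by_cases hlk : l < k
        · rw [if_pos (by omega)]; rw [if_pos hlk] at ih; omega
        · rw [if_neg (by omega)]; rw [if_neg hlk] at ih; omega
  have := h0 v le_rfl
  rw [if_pos hv] at this
  exact this

open Classical in
theorem Sg_length2 {β : Type*} (P : ℕ → Prop) (c : ℕ → β) (lo : ℕ) : ∀ k, lo ≤ k →
    Nat.count P k = Nat.count P lo + (Sg P c lo k).length := by
  intro k hk
  induction k, hk using Nat.le_induction with
  | base => rw [Sg_le le_rfl]; rfl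
  | succ k hk ih =>
    rw [Nat.count_succ, ih]
    by_cases hP : P k
    · rw [Sg_pos hk hP, if_pos hP]; rfl
    · rw [Sg_neg hP, if_neg hP]; rfl

/-- the child list, high case -/
theorem cs_high {n : ℕ} {p : ℕ → ℕ} {l : ℕ} (h : Valid n p l) {v : ℕ}
    (hvn : v ≤ n) (hv : l < v) : ∀ k,
    Sg (al (n + 1) (app p n v)) (cv (n + 1) (app p n v) v) (v + 1) (k + 1) =
      Sg (al n p) (cv n p l) v k := by
  intro k
  induction k with
  | zero => rw [Sg_le (by omega), Sg_le (by omega)]
  | succ k ih =>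
    rcases Nat.lt_or_ge k v with h1 | h1
    · rw [Sg_le (by omega), Sg_le (by omega)]
    · by_cases hk : al n p k
      · have hc : Cut n p v k := (cut_upper h (by omega) hk).mono (by omega)
        rw [Sg_pos (by omega) ((al_succ h hvn h1).mpr ⟨hk, hc⟩), Sg_pos h1 hk, ih,
          cv_high h hvn hv h1 hk]
      · rw [Sg_neg (fun h' => hk ((al_succ h hvn h1).mp h').1), Sg_neg hk, ih]

open Classical in
/-- the child list, low case -/
theorem cs_low {n : ℕ} {p : ℕ → ℕ} {l : ℕ} (h : Valid n p l) {v : ℕ}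
    (hvn : v ≤ n) (hv : v ≤ l) (ha : al n p v) : ∀ k, l + 1 ≤ k →
    Sg (al (n + 1) (app p n v)) (cv (n + 1) (app p n v) v) (v + 1) (k + 1) =
      (Sg (al n p) (cv n p l) (l + 1) k).filter (fun c => decide (c ≤ Nat.count (al n p) v)) ++
        [Nat.count (al n p) v] := by
  intro k hk
  induction k, hk using Nat.le_induction with
  | base =>
    rw [Sg_le le_rfl]
    have h0 : ∀ k, v + 1 ≤ k → k ≤ l + 1 →
        Sg (al (n + 1) (app p n v)) (cv (n + 1) (app p n v) v) (v + 1) (k + 1) =
        [Nat.count (al n p) v] := by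
      intro k hk
      induction k, hk using Nat.le_induction with
      | base =>
        intro _
        rw [Sg_pos le_rfl ((al_succ h hvn le_rfl).mpr ⟨ha, fun b d h1 h2 => by omega⟩),
          Sg_le le_rfl, cv_low_self h hvn hv]
      | succ k hk ih =>
        intro hkl
        rw [Sg_neg, ih (by omega)]
        rw [al_succ h hvn (by omega)]
        rintro ⟨_, hc⟩
        exact cut_not_low h (by omega) (by omega) hc
    exact h0 (l + 1) (by omega) le_rfl
  | succ k hk ih =>
    by_cases hal : al n p k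
    · by_cases hc : Cut n p v k
      · rw [Sg_pos (by omega) ((al_succ h hvn (by omega)).mpr ⟨hal, hc⟩), Sg_pos hk hal, ih,
          cv_low h hvn hv (by omega) hc,
          List.filter_cons_of_pos (by simpa using (cut_iff hv ha).mp hc)]
        rfl
      · rw [Sg_neg (fun h' => hc ((al_succ h hvn (by omega)).mp h').2), Sg_pos hk hal, ih,
          List.filter_cons_of_neg (by
            intro h'
            exact hc ((cut_iff hv ha).mpr (by simpa using h')))]
    · rw [Sg_neg (fun h' => hal ((al_succ h hvn (by omega)).mp h').1), Sg_neg hal, ih]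

open Classical in
theorem main : ∀ (m n : ℕ) (p : ℕ → ℕ) (l : ℕ) (_ : Valid n p l) (_ : Good n p),
    DD Good m n p = Nb a1 m (enc 0 (Sg (al n p) (cv n p l) (l + 1) (n + 1))
      (Nat.count (al n p) (l + 1))) := by
  intro m
  induction m with
  | zero => intro n p l _ _; rfl
  | succ m ih =>
    intro n p l h hG
    have hok := okl_Sg h (n + 1) 0 (Nat.zero_le _) (fun _ _ _ _ => Nat.zero_le _)
    rw [DD, Nb, spl_enc _ _ _ hok]
    have hln := h.ln
    rw [← Finset.sum_range_add_sum_Ico _ (show l + 1 ≤ n + 1 by omega), add_comm]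
    congr 1
    · rw [← sum_high (al n p) (cv n p l) (l + 1) (n + 1) (by omega)
        (fun L b => Nb a1 m (enc 0 L (Nat.count (al n p) (l + 1) + b)))]
      apply Finset.sum_congr rfl
      intro v hv
      rw [Finset.mem_Ico] at hv
      have hvn : v ≤ n := by omega
      by_cases ha : al n p v
      · have hG' := (good_app h hvn).mpr ⟨hG, ha⟩
        rw [if_pos hG', if_pos ha, ih _ _ _ (h.child hvn) hG', cs_high h hvn (by omega),
          cnt_high h hG hvn (by omega) ha, Sg_length2 (al n p) (cv n p l) (l + 1) v (by omega)]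
      · rw [if_neg (fun h' => ha ((good_app h hvn).mp h').2), if_neg ha]
    · rw [← Finset.range_eq_Ico, ← sum_low (al n p) (fun j => Nb a1 m (enc 0
        ((Sg (al n p) (cv n p l) (l + 1) (n + 1)).filter (fun c => decide (c ≤ j)) ++ [j])
        (j + 1)))]
      apply Finset.sum_congr rfl
      intro v hv
      rw [Finset.mem_range] at hv
      have hvn : v ≤ n := by omega
      by_cases ha : al n p v
      · have hG' := (good_app h hvn).mpr ⟨hG, ha⟩
        rw [if_pos hG', if_pos ha, ih _ _ _ (h.child hvn) hG', cs_low h hvn (by omega) ha _ (by omega),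
          cnt_low h hG hvn (by omega) ha]
      · rw [if_neg (fun h' => ha ((good_app h hvn).mp h').2), if_neg ha]

end P2413

end Fish41
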