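import Pool.Agent.Helper41.FishModel

/-!
Fishburn permutations avoiding 2431.
-/

namespace Fish41

open Finset

theorem app_not_max {n : ℕ} {p : ℕ → ℕ} {l : ℕ} (h : Valid n p l) {v : ℕ} (hv : v ≤ n)
    {x y : ℕ} (hx : x < n + 1) (hy : y < n + 1) (hlt : app p n v x < app p n v y) :
    ∃ x' < n, x = sh v x' := by
  rcases sh_cases hv hx with rfl | h'
  · rw [app_eq] at hlt
    have := (h.child hv).lt y hy
    omega
  · exact h'

/-- all elements with value in `[w, x)` are to the right of all elements with value `≥ x` -/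
def Cut (n : ℕ) (p : ℕ → ℕ) (w x : ℕ) : Prop := ∀ b d, w ≤ b → b < x → x ≤ d → d < n → p d < p b

theorem Cut.mono {n : ℕ} {p : ℕ → ℕ} {w w' x : ℕ} (h : Cut n p w x) (hw : w ≤ w') :
    Cut n p w' x := fun b d h1 h2 h3 h4 => h b d (hw.trans h1) h2 h3 h4

theorem Cut_succ {n : ℕ} {p : ℕ → ℕ} {l : ℕ} (h : Valid n p l) {v w x : ℕ} (hv : v ≤ n)
    (hx : v ≤ x) (hw : w ≤ v) : Cut (n + 1) (app p n v) w (x + 1) ↔ Cut n p w x := by
  constructor
  · intro H b d h1 h2 h3 h4
    have := H (sh v b) (sh v d) (by unfold sh; split_ifs <;> omega)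
      (by unfold sh; split_ifs <;> omega) (by unfold sh; split_ifs <;> omega)
      (by unfold sh; split_ifs <;> omega)
    rw [app_sh, app_sh] at this
    exact this
  · intro H b d h1 h2 h3 h4
    obtain ⟨d', rfl⟩ : ∃ d', d = d' + 1 := ⟨d - 1, by omega⟩
    rcases sh_cases hv (show b < n + 1 by omega) with rfl | ⟨b', hb', rfl⟩
    · rw [app_eq, app_succ (by omega)]
      exact h.lt d' (by omega)
    · rw [app_sh, app_succ (by omega)]
      refine H b' d' ?_ ?_ (by omega) (by omega)
      · unfold sh at h1; split_ifs at h1 <;> omega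
      · unfold sh at h2; split_ifs at h2 <;> omega

theorem Cut_shift {n : ℕ} {p : ℕ → ℕ} {v x : ℕ}
    (hx : v ≤ x) : Cut (n + 1) (app p n v) (v + 1) (x + 1) ↔ Cut n p v x := by
  constructor
  · intro H b d h1 h2 h3 h4
    have := H (b + 1) (d + 1) (by omega) (by omega) (by omega) (by omega)
    rw [app_succ (by omega), app_succ (by omega)] at this
    exact this
  · intro H b d h1 h2 h3 h4
    obtain ⟨d', rfl⟩ : ∃ d', d = d' + 1 := ⟨d - 1, by omega⟩
    obtain ⟨b', rfl⟩ : ∃ b', b = b' + 1 := ⟨b - 1, by omega⟩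
    rw [app_succ (by omega), app_succ (by omega)]
    exact H b' d' (by omega) (by omega) (by omega) (by omega)

namespace P2431

def Av (n : ℕ) (p : ℕ → ℕ) : Prop :=
  ∀ a b c d, a < b → b < c → c < d → d < n → ¬ (p b < p d ∧ p d < p c ∧ p c < p a)

def NoP (n : ℕ) (p : ℕ → ℕ) (v : ℕ) : Prop :=
  ∀ b c d, v ≤ b → b < c → c < d → d < n → ¬ (p b < p d ∧ p d < p c)

def Good (n : ℕ) (p : ℕ → ℕ) : Prop := FishP n p ∧ Av n p

def al (n : ℕ) (p : ℕ → ℕ) (v : ℕ) : Prop := alF n p v ∧ NoP n p v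

theorem av_app {n : ℕ} {p : ℕ → ℕ} {l : ℕ} (h : Valid n p l) {v : ℕ} (hv : v ≤ n) :
    Av (n + 1) (app p n v) ↔ Av n p ∧ NoP n p v := by
  constructor
  · intro H
    constructor
    · intro a b c d hab hbc hcd hd hc
      apply H (sh v a) (sh v b) (sh v c) (sh v d) (sh_lt_sh.mpr hab) (sh_lt_sh.mpr hbc)
        (sh_lt_sh.mpr hcd) ((sh_lt_succ hv).mpr hd)
      simp only [app_sh]
      exact hc
    · intro b c d hvb hbc hcd hd hc
      apply H v (b + 1) (c + 1) (d + 1) (by omega) (by omega) (by omega) (by omega)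
      rw [app_succ (by omega), app_succ (by omega), app_succ (by omega), app_eq]
      exact ⟨hc.1, hc.2, h.lt c (by omega)⟩
  · rintro ⟨H1, H2⟩ a b c d hab hbc hcd hd ⟨e1, e2, e3⟩
    have ha : a < n + 1 := by omega
    obtain ⟨b', hb', rfl⟩ := app_not_max h hv (by omega) hd e1
    obtain ⟨d', hd', rfl⟩ := app_not_max h hv hd (by omega) e2
    obtain ⟨c', hc', rfl⟩ := app_not_max h hv (by omega) (by omega) e3
    rw [app_sh, app_sh] at e1 e2
    rw [sh_lt_sh] at hbc hcd
    rcases sh_cases hv ha with rfl | ⟨a', ha', rfl⟩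
    · exact H2 b' c' d' (lt_sh.mp hab) hbc hcd hd' ⟨e1, e2⟩
    · rw [app_sh, app_sh] at e3
      exact H1 a' b' c' d' (sh_lt_sh.mp hab) hbc hcd hd' ⟨e1, e2, e3⟩

theorem good_app {n : ℕ} {p : ℕ → ℕ} {l : ℕ} (h : Valid n p l) {v : ℕ} (hv : v ≤ n) :
    Good (n + 1) (app p n v) ↔ Good n p ∧ al n p v := by
  unfold Good al alF
  rw [fish_app h hv, av_app h hv]
  tauto

theorem NoP_l {n : ℕ} {p : ℕ → ℕ} {l : ℕ} (h : Valid n p l) (hA : Av n p) : NoP n p l := by
  rintro b c d h1 h2 h3 h4 ⟨e1, e2⟩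
  rcases Nat.eq_or_lt_of_le h1 with rfl | h1
  · have := h.lt_pl (x := d) h4 (by omega)
    omega
  · exact hA l b c d h1 h2 h3 h4 ⟨e1, e2, h.lt_pl (by omega) (by omega)⟩

theorem al_l {n : ℕ} {p : ℕ → ℕ} {l : ℕ} (h : Valid n p l) (hA : Av n p) : al n p l :=
  ⟨alF_l h, NoP_l h hA⟩

theorem al_succ {n : ℕ} {p : ℕ → ℕ} {v x : ℕ} (hx : v ≤ x) :
    al (n + 1) (app p n v) (x + 1) ↔ al n p x := by
  unfold al
  rw [alF_succ hx]
  apply and_congr_right
  intro _
  constructor
  · rintro H b c d h1 h2 h3 h4 ⟨e1, e2⟩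
    apply H (b + 1) (c + 1) (d + 1) (by omega) (by omega) (by omega) (by omega)
    rw [app_succ (by omega), app_succ (by omega), app_succ (by omega)]
    exact ⟨e1, e2⟩
  · rintro H b c d h1 h2 h3 h4 ⟨e1, e2⟩
    obtain ⟨b', rfl⟩ : ∃ b', b = b' + 1 := ⟨b - 1, by omega⟩
    obtain ⟨c', rfl⟩ : ∃ b', c = b' + 1 := ⟨c - 1, by omega⟩
    obtain ⟨d', rfl⟩ : ∃ b', d = b' + 1 := ⟨d - 1, by omega⟩
    rw [app_succ (by omega), app_succ (by omega)] at e1 e2
    exact H b' c' d' (by omega) (by omega) (by omega) (by omega) ⟨e1, e2⟩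

theorem al_lt {n : ℕ} {p : ℕ → ℕ} {l : ℕ} (h : Valid n p l) {v w : ℕ} (hv : v ≤ n) (hw : w < v) :
    al (n + 1) (app p n v) w ↔ al n p w ∧ w ≠ l ∧ Cut n p w v := by
  have key : NoP (n + 1) (app p n v) w ↔ NoP n p w ∧ Cut n p w v := by
    constructor
    · intro H
      constructor
      · rintro b c d h1 h2 h3 h4 ⟨e1, e2⟩
        apply H (sh v b) (sh v c) (sh v d) (by unfold sh; split_ifs <;> omega)
          (sh_lt_sh.mpr h2) (sh_lt_sh.mpr h3) ((sh_lt_succ hv).mpr h4)
        simp only [app_sh]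
        exact ⟨e1, e2⟩
      · intro b d h1 h2 h3 h4
        by_contra hc
        apply H b v (d + 1) h1 h2 (by omega) (by omega)
        rw [app_lt h2, app_succ h3, app_eq]
        refine ⟨?_, h.lt d h4⟩
        have : p b ≠ p d := fun e => by
          have := h.inj b (by omega) d h4 e
          omega
        omega
    · rintro ⟨H1, H2⟩ b c d h1 h2 h3 h4 ⟨e1, e2⟩
      obtain ⟨b', hb', rfl⟩ := app_not_max h hv (by omega) h4 e1
      obtain ⟨d', hd', rfl⟩ := app_not_max h hv h4 (by omega) e2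
      rw [app_sh, app_sh] at e1
      rcases sh_cases hv (show c < n + 1 by omega) with rfl | ⟨c', hc', rfl⟩
      · have := H2 b' d' (by unfold sh at h1; split_ifs at h1 <;> omega) (sh_lt.mp h2)
          (lt_sh.mp h3) hd'
        omega
      · rw [app_sh, app_sh] at e2
        exact H1 b' c' d' (by unfold sh at h1; split_ifs at h1 <;> omega) (sh_lt_sh.mp h2)
          (sh_lt_sh.mp h3) hd' ⟨e1, e2⟩
  unfold al
  rw [alF_lt h hv hw, key]
  tauto

theorem al_self {n : ℕ} {p : ℕ → ℕ} {l : ℕ} (h : Valid n p l) (hG : Good n p) {v : ℕ} (hv : v ≤ n)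
    (ha : al n p v) : al (n + 1) (app p n v) v :=
  al_l (h.child hv) ((good_app h hv).mpr ⟨hG, ha⟩).2

/-- the flag condition -/
def flP (n : ℕ) (p : ℕ → ℕ) (l x : ℕ) : Prop := l < x ∧ Cut n p (l + 1) x

theorem cut_to {n : ℕ} {p : ℕ → ℕ} {l : ℕ} (h : Valid n p l) (hA : Av n p) {w x : ℕ}
    (hwx : w < x) (hc : Cut n p w x) : flP n p l x := by
  have hlx : l < x := by
    by_contra hlx
    have h1 := hc w l le_rfl hwx (by omega) h.ln
    have := h.lt_pl (x := w) (by have := h.ln; omega) (by omega)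
    omega
  refine ⟨hlx, ?_⟩
  intro b d h1 h2 h3 h4
  rcases Nat.lt_or_ge b w with h5 | h5
  · by_contra hcon
    have e1 : p b ≠ p d := fun e => by
      have := h.inj b (by omega) d h4 e
      omega
    apply hA l b w d (by omega) h5 (by omega) h4
    exact ⟨by omega, hc w d le_rfl hwx h3 h4, h.lt_pl (by omega) (by omega)⟩
  · exact hc b d h5 h2 h3 h4

theorem cut_from {n : ℕ} {p : ℕ → ℕ} {l : ℕ} (h : Valid n p l) {w x : ℕ}
    (hN : NoP n p w) (hf : flP n p l x) : Cut n p w x := by
  obtain ⟨h0, hf⟩ := hf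
  intro b d h1 h2 h3 h4
  rcases Nat.lt_trichotomy b l with h5 | h5 | h5
  · by_contra hcon
    have e1 : p b ≠ p d := fun e => by
      have := h.inj b (by omega) d h4 e
      omega
    exact hN b l d h1 h5 (by omega) h4 ⟨by omega, h.lt_pl (by omega) (by omega)⟩
  · rw [h5]; exact h.lt_pl (by omega) (by omega)
  · exact hf b d (by omega) h2 h3 h4

open Classical in
noncomputable def fl (n : ℕ) (p : ℕ → ℕ) (l x : ℕ) : Bool := decide (flP n p l x)

theorem fl_true {n : ℕ} {p : ℕ → ℕ} {l x : ℕ} : fl n p l x = true ↔ flP n p l x := by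
  simp [fl]

theorem fl_false {n : ℕ} {p : ℕ → ℕ} {l x : ℕ} : fl n p l x = false ↔ ¬ flP n p l x := by
  simp [fl]

theorem fl_congr {n n' : ℕ} {p p' : ℕ → ℕ} {l l' x x' : ℕ} (h : flP n p l x ↔ flP n' p' l' x') :
    fl n p l x = fl n' p' l' x' := by
  rw [Bool.eq_iff_iff, fl_true, fl_true, h]

theorem fl_succ {n : ℕ} {p : ℕ → ℕ} {v x : ℕ}
    (hx : v ≤ x) : flP (n + 1) (app p n v) v (x + 1) ↔ Cut n p v x := by
  unfold flP
  rw [Cut_shift hx]
  constructor
  · exact fun h => h.2
  · exact fun h => ⟨by omega, h⟩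

open Classical in
theorem cnt {n : ℕ} {p : ℕ → ℕ} {l : ℕ} (h : Valid n p l) (hG : Good n p) {v : ℕ} (hv : v ≤ n)
    (ha : al n p v) : Nat.count (al (n + 1) (app p n v)) (v + 1) =
      a1 (fl n p l v) (Sg (al n p) (fl n p l) 0 v) := by
  rw [Nat.count_succ, if_pos (al_self h hG hv ha)]
  unfold a1
  rw [Sg_length]
  by_cases hf : flP n p l v
  · rw [if_pos (fl_true.mpr hf)]
    have h0 : ∀ k ≤ v, Nat.count (al (n + 1) (app p n v)) k + (if l < k then 1 else 0) =
        Nat.count (al n p) k := by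
      intro k
      induction k with
      | zero => intro _; simp
      | succ k ih =>
        intro hk
        have ih := ih (by omega)
        rw [Nat.count_succ, Nat.count_succ]
        have h1 := al_lt h hv (show k < v by omega)
        by_cases hal : al n p k
        · have h2 : Cut n p k v := cut_from h hal.2 hf
          rcases eq_or_ne k l with rfl | hne
          · rw [if_neg (by rw [h1]; tauto), if_pos hal, if_pos (by omega)]
            rw [if_neg (by omega)] at ih
            omega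
          · rw [if_pos (by rw [h1]; tauto), if_pos hal]
            by_cases hlk : l < k
            · rw [if_pos (by omega)]; rw [if_pos hlk] at ih; omega
            · rw [if_neg (by omega)]; rw [if_neg hlk] at ih; omega
        · rw [if_neg (by rw [h1]; tauto), if_neg hal]
          have hne : k ≠ l := by
            rintro rfl
            exact hal (al_l h hG.2)
          by_cases hlk : l < k
          · rw [if_pos (by omega)]; rw [if_pos hlk] at ih; omega
          · rw [if_neg (by omega)]; rw [if_neg hlk] at ih; omega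
    have := h0 v le_rfl
    rw [if_pos hf.1] at this
    exact this
  · rw [if_neg (fun hc => hf (fl_true.mp hc))]
    have h0 : ∀ k ≤ v, Nat.count (al (n + 1) (app p n v)) k = 0 := by
      intro k
      induction k with
      | zero => intro _; simp
      | succ k ih =>
        intro hk
        rw [Nat.count_succ, ih (by omega), if_neg]
        rw [al_lt h hv (by omega)]
        rintro ⟨_, _, hc⟩
        exact hf (cut_to h hG.2 (by omega) hc)
    rw [h0 v le_rfl]

theorem main (m n : ℕ) (p : ℕ → ℕ) (l : ℕ) (h : Valid n p l) (hG : Good n p) :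
    DD Good m n p = Nb a1 m (Sg (al n p) (fl n p l) 0 (n + 1)) := by
  apply flag_model Good al fl a1 _ _ _ _ _ _ m n p l h hG
  · intro n p l v h hG hv
    rw [good_app h hv]
    tauto
  · intro n p l v h hG hv ha x hx hxn
    exact al_succ hx
  · intro n p l v h hG hv ha x hx hxn hax
    have : flP (n + 1) (app p n v) v (x + 1) ↔ flP n p l x := by
      rw [fl_succ (by omega)]
      exact ⟨fun hc => cut_to h hG.2 hx hc, fun hf => cut_from h ha.2 hf⟩
    exact fl_congr this
  · intro n p l v h hG hv ha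
    have : flP (n + 1) (app p n v) v (v + 1) := by
      rw [fl_succ le_rfl]
      intro b d h1 h2
      omega
    exact fl_true.mpr this
  · intro n p l v h hG hv ha w hw
    rw [fl_false]
    rintro ⟨h1, _⟩
    omega
  · intro n p l v h hG hv ha
    exact cnt h hG hv ha

end P2431

end Fish41
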