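import Pool.Agent.Helper41.Fish2431

/-!
Fishburn permutations avoiding 3241.
-/

namespace Fish41

open Finset

namespace P3241

def Av (n : ℕ) (p : ℕ → ℕ) : Prop :=
  ∀ a b c d, a < b → b < c → c < d → d < n → ¬ (p c < p b ∧ p b < p d ∧ p d < p a)

def NoQ (n : ℕ) (p : ℕ → ℕ) (v : ℕ) : Prop :=
  ∀ b c d, v ≤ b → b < c → c < d → d < n → ¬ (p c < p b ∧ p b < p d)

def Good (n : ℕ) (p : ℕ → ℕ) : Prop := FishP n p ∧ Av n p

def al (n : ℕ) (p : ℕ → ℕ) (v : ℕ) : Prop := alF n p v ∧ NoQ n p v

/-- increasing positions on `[w, v)` -/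
def Inc (p : ℕ → ℕ) (w v : ℕ) : Prop := ∀ b c, w ≤ b → b < c → c < v → p b < p c

theorem av_app {n : ℕ} {p : ℕ → ℕ} {l : ℕ} (h : Valid n p l) {v : ℕ} (hv : v ≤ n) :
    Av (n + 1) (app p n v) ↔ Av n p ∧ NoQ n p v := by
  constructor
  · intro H
    constructor
    · intro a b c d hab hbc hcd hd hc
      apply H (sh v a) (sh v b) (sh v c) (sh v d) (sh_lt_sh.mpr hab) (sh_lt_sh.mpr hbc)
        (sh_lt_sh.mpr hcd) ((sh_lt_succ hv).mpr hd)
      simp only [app_sh]
      exact hc
    · intro b c d hvb hbc hcd hd hc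
      apply H v (b + 1) (c + 1) (d + 1) (by omega) (by omega) (by omega) (by omega)
      rw [app_succ (by omega), app_succ (by omega), app_succ (by omega), app_eq]
      exact ⟨hc.1, hc.2, h.lt d (by omega)⟩
  · rintro ⟨H1, H2⟩ a b c d hab hbc hcd hd ⟨e1, e2, e3⟩
    have ha : a < n + 1 := by omega
    have hc : c < n + 1 := by omega
    obtain ⟨b', hb', rfl⟩ := app_not_max h hv (by omega) hd e2
    obtain ⟨d', hd', rfl⟩ := app_not_max h hv hd (by omega) e3
    obtain ⟨c', hc', rfl⟩ := app_not_max h hv hc (by omega) e1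
    rw [app_sh, app_sh] at e1 e2
    rw [sh_lt_sh] at hbc hcd
    rcases sh_cases hv ha with rfl | ⟨a', ha', rfl⟩
    · exact H2 b' c' d' (lt_sh.mp hab) hbc hcd hd' ⟨e1, e2⟩
    · rw [app_sh, app_sh] at e3
      exact H1 a' b' c' d' (sh_lt_sh.mp hab) hbc hcd hd' ⟨e1, e2, e3⟩

theorem good_app {n : ℕ} {p : ℕ → ℕ} {l : ℕ} (h : Valid n p l) {v : ℕ} (hv : v ≤ n) :
    Good (n + 1) (app p n v) ↔ Good n p ∧ al n p v := by
  unfold Good al alF
  rw [fish_app h hv, av_app h hv]
  tauto

theorem NoQ_l {n : ℕ} {p : ℕ → ℕ} {l : ℕ} (h : Valid n p l) (hA : Av n p) : NoQ n p l := by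
  rintro b c d h1 h2 h3 h4 ⟨e1, e2⟩
  rcases Nat.eq_or_lt_of_le h1 with rfl | h1
  · have := h.lt_pl (x := d) h4 (by omega)
    omega
  · exact hA l b c d h1 h2 h3 h4 ⟨e1, e2, h.lt_pl (by omega) (by omega)⟩

theorem NoQ.mono {n : ℕ} {p : ℕ → ℕ} {v w : ℕ} (h : NoQ n p v) (hw : v ≤ w) : NoQ n p w :=
  fun b c d h1 h2 h3 h4 => h b c d (hw.trans h1) h2 h3 h4

theorem al_l {n : ℕ} {p : ℕ → ℕ} {l : ℕ} (h : Valid n p l) (hA : Av n p) : al n p l :=
  ⟨alF_l h, NoQ_l h hA⟩

theorem al_succ {n : ℕ} {p : ℕ → ℕ} {v x : ℕ} (hx : v ≤ x) :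
    al (n + 1) (app p n v) (x + 1) ↔ al n p x := by
  unfold al
  rw [alF_succ hx]
  apply and_congr_right
  intro _
  constructor
  · rintro H b c d h1 h2 h3 h4 ⟨e1, e2⟩
    apply H (b + 1) (c + 1) (d + 1) (by omega) (by omega) (by omega) (by omega)
    rw [app_succ (by omega), app_succ (by omega), app_succ (by omega)]
    exact ⟨e1, e2⟩
  · rintro H b c d h1 h2 h3 h4 ⟨e1, e2⟩
    obtain ⟨b', rfl⟩ : ∃ b', b = b' + 1 := ⟨b - 1, by omega⟩
    obtain ⟨c', rfl⟩ : ∃ b', c = b' + 1 := ⟨c - 1, by omega⟩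
    obtain ⟨d', rfl⟩ : ∃ b', d = b' + 1 := ⟨d - 1, by omega⟩
    rw [app_succ (by omega), app_succ (by omega)] at e1 e2
    exact H b' c' d' (by omega) (by omega) (by omega) (by omega) ⟨e1, e2⟩

theorem al_lt {n : ℕ} {p : ℕ → ℕ} {l : ℕ} (h : Valid n p l) {v w : ℕ} (hv : v ≤ n) (hw : w < v) :
    al (n + 1) (app p n v) w ↔ al n p w ∧ w ≠ l ∧ Inc p w v := by
  have key : NoQ (n + 1) (app p n v) w ↔ NoQ n p w ∧ Inc p w v := by
    constructor
    · intro H
      constructor
      · rintro b c d h1 h2 h3 h4 ⟨e1, e2⟩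
        apply H (sh v b) (sh v c) (sh v d) (by unfold sh; split_ifs <;> omega)
          (sh_lt_sh.mpr h2) (sh_lt_sh.mpr h3) ((sh_lt_succ hv).mpr h4)
        simp only [app_sh]
        exact ⟨e1, e2⟩
      · intro b c h1 h2 h3
        by_contra hc
        apply H b c v h1 h2 h3 (by omega)
        rw [app_lt h3, app_lt (by omega), app_eq]
        refine ⟨?_, h.lt b (by omega)⟩
        have : p b ≠ p c := fun e => by
          have := h.inj b (by omega) c (by omega) e
          omega
        omega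
    · rintro ⟨H1, H2⟩ b c d h1 h2 h3 h4 ⟨e1, e2⟩
      have hc : c < n + 1 := by omega
      obtain ⟨b', hb', rfl⟩ := app_not_max h hv (by omega) h4 e2
      obtain ⟨c', hc', rfl⟩ := app_not_max h hv hc (by omega) e1
      rw [app_sh, app_sh] at e1
      rcases sh_cases hv h4 with rfl | ⟨d', hd', rfl⟩
      · have := H2 b' c' (by unfold sh at h1; split_ifs at h1 <;> omega) (sh_lt_sh.mp h2)
          (sh_lt.mp h3)
        omega
      · rw [app_sh, app_sh] at e2
        exact H1 b' c' d' (by unfold sh at h1; split_ifs at h1 <;> omega) (sh_lt_sh.mp h2)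
          (sh_lt_sh.mp h3) hd' ⟨e1, e2⟩
  unfold al
  rw [alF_lt h hv hw, key]
  tauto

theorem al_self {n : ℕ} {p : ℕ → ℕ} {l : ℕ} (h : Valid n p l) (hG : Good n p) {v : ℕ} (hv : v ≤ n)
    (ha : al n p v) : al (n + 1) (app p n v) v :=
  al_l (h.child hv) ((good_app h hv).mpr ⟨hG, ha⟩).2

/-- the flag condition -/
def flP (n : ℕ) (p : ℕ → ℕ) (l x : ℕ) : Prop := l < x ∧ (x = n ∨ p x < p (x - 1))

open Classical in
noncomputable def fl (n : ℕ) (p : ℕ → ℕ) (l x : ℕ) : Bool := decide (flP n p l x)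

theorem fl_true {n : ℕ} {p : ℕ → ℕ} {l x : ℕ} : fl n p l x = true ↔ flP n p l x := by
  simp [fl]

theorem fl_false {n : ℕ} {p : ℕ → ℕ} {l x : ℕ} : fl n p l x = false ↔ ¬ flP n p l x := by
  simp [fl]

theorem fl_congr {n n' : ℕ} {p p' : ℕ → ℕ} {l l' x x' : ℕ} (h : flP n p l x ↔ flP n' p' l' x') :
    fl n p l x = fl n' p' l' x' := by
  rw [Bool.eq_iff_iff, fl_true, fl_true, h]

theorem inc_succ {p : ℕ → ℕ} {w v : ℕ} (hw : w < v) :
    Inc p w (v + 1) ↔ Inc p w v ∧ p (v - 1) < p v := by
  constructor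
  · intro H
    exact ⟨fun b c h1 h2 h3 => H b c h1 h2 (by omega), H (v - 1) v (by omega) (by omega) (by omega)⟩
  · rintro ⟨H1, H2⟩ b c h1 h2 h3
    rcases Nat.lt_or_ge c v with h4 | h4
    · exact H1 b c h1 h2 h4
    · have h5 : c = v := by omega
      rw [h5] at h2 ⊢
      rcases Nat.lt_or_ge b (v - 1) with h6 | h6
      · exact (H1 b (v - 1) h1 h6 (by omega)).trans H2
      · have : b = v - 1 := by omega
        rw [this]; exact H2

/-- a descent slot above the last value is allowed -/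
theorem al_of_desc {n : ℕ} {p : ℕ → ℕ} {l : ℕ} (h : Valid n p l) (hG : Good n p) {x : ℕ}
    (hlx : l < x) (hd : p x < p (x - 1)) : al n p x := by
  refine ⟨?_, (NoQ_l h hG.2).mono hlx.le⟩
  intro hxn y hxy hyn he
  obtain ⟨x', rfl⟩ : ∃ x', x = x' + 1 := ⟨x - 1, by omega⟩
  have := hG.1 x' y hxy hyn he
  simp only [Nat.add_sub_cancel] at hd
  omega

/-- below the last value, allowed slots see increasing positions -/
theorem inc_of_al {n : ℕ} {p : ℕ → ℕ} {l : ℕ} (h : Valid n p l) {w v : ℕ} (hv : v ≤ l + 1)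
    (ha : al n p w) : Inc p w v := by
  intro b c h1 h2 h3
  rcases Nat.lt_or_ge c l with h4 | h4
  · by_contra hc
    have : p b ≠ p c := fun e => by
      have := h.inj b (by have := h.ln; omega) c (by have := h.ln; omega) e
      omega
    exact ha.2 b c l h1 h2 h4 h.ln ⟨by omega, h.lt_pl (by have := h.ln; omega) (by omega)⟩
  · have h5 : c = l := by omega
    rw [h5]
    exact h.lt_pl (by have := h.ln; omega) (by omega)

theorem not_inc {n : ℕ} {p : ℕ → ℕ} {l : ℕ} (h : Valid n p l) {w v : ℕ} (hv : l + 1 < v)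
    (hvn : v ≤ n) (hw : w ≤ l) : ¬ Inc p w v := by
  intro H
  have h1 := H l (l + 1) hw (by omega) hv
  have h2 := h.lt_pl (x := l + 1) (by omega) (by omega)
  omega

open Classical in
/-- number of surviving slots below `v` -/
noncomputable def sv (n : ℕ) (p : ℕ → ℕ) (l v k : ℕ) : ℕ :=
  Nat.count (fun w => al n p w ∧ w ≠ l ∧ Inc p w v) k

open Classical in
theorem cnt_eq {n : ℕ} {p : ℕ → ℕ} {l : ℕ} (h : Valid n p l) {v : ℕ} (hv : v ≤ n) :
    ∀ k ≤ v, Nat.count (al (n + 1) (app p n v)) k = sv n p l v k := by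
  intro k
  induction k with
  | zero => intro _; simp [sv]
  | succ k ih =>
    intro hk
    have ih := ih (by omega)
    unfold sv at ih ⊢
    rw [Nat.count_succ, Nat.count_succ, ih]
    simp only [al_lt h hv (show k < v by omega)]

open Classical in
theorem sv_low {n : ℕ} {p : ℕ → ℕ} {l : ℕ} (h : Valid n p l) {v : ℕ} (hv : v ≤ l + 1) :
    ∀ k ≤ l, k ≤ v → sv n p l v k = Nat.count (al n p) k := by
  intro k
  induction k with
  | zero => intro _ _; simp [sv]
  | succ k ih =>
    intro hk hkv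
    have ih := ih (by omega) (by omega)
    unfold sv at ih ⊢
    rw [Nat.count_succ, Nat.count_succ, ih]
    have : (al n p k ∧ k ≠ l ∧ Inc p k v) ↔ al n p k := by
      constructor
      · exact fun h => h.1
      · exact fun ha => ⟨ha, by omega, inc_of_al h hv ha⟩
    simp only [this]

open Classical in
theorem sv_zero {n : ℕ} {p : ℕ → ℕ} {l v : ℕ} : ∀ k,
    (∀ w < k, ¬ (al n p w ∧ w ≠ l ∧ Inc p w v)) → sv n p l v k = 0 := by
  intro k
  induction k with
  | zero => intro _; simp [sv]
  | succ k ih =>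
    intro H
    have ih := ih (fun w hw => H w (by omega))
    unfold sv at ih ⊢
    rw [Nat.count_succ, ih, if_neg (H k (by omega))]

open Classical in
theorem sv_congr {n : ℕ} {p : ℕ → ℕ} {l v v' : ℕ} : ∀ k,
    (∀ w < k, (al n p w ∧ w ≠ l ∧ Inc p w v) ↔ (al n p w ∧ w ≠ l ∧ Inc p w v')) →
    sv n p l v k = sv n p l v' k := by
  intro k
  induction k with
  | zero => intro _; simp [sv]
  | succ k ih =>
    intro H
    have ih := ih (fun w hw => H w (by omega))
    unfold sv at ih ⊢
    rw [Nat.count_succ, Nat.count_succ, ih]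
    simp only [H k (by omega)]

open Classical in
theorem sv_high {n : ℕ} {p : ℕ → ℕ} {l : ℕ} (h : Valid n p l) (hG : Good n p) :
    ∀ v, l + 2 ≤ v → v ≤ n → ∀ b, sv n p l v v + 1 = a2 b (Sg (al n p) (fl n p l) 0 v) := by
  intro v hv
  induction v, hv using Nat.le_induction with
  | base =>
    intro hvn b
    have hfl : flP n p l (l + 1) := by
      refine ⟨by omega, Or.inr ?_⟩
      exact h.lt_pl (by omega) (by omega)
    have hal : al n p (l + 1) := al_of_desc h hG (by omega) (h.lt_pl (by omega) (by simp))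
    rw [Sg_pos (by omega) hal, fl_true.mpr hfl, a2]
    have h0 : sv n p l (l + 2) (l + 1) = 0 := by
      apply sv_zero
      rintro w hw ⟨_, _, h3⟩
      exact not_inc h (by omega) hvn (by omega) h3
    unfold sv at h0 ⊢
    rw [Nat.count_succ, h0, if_pos]
    refine ⟨hal, by omega, ?_⟩
    intro b c h1 h2 h3
    omega
  | succ v hv ih =>
    intro hvn b
    have ih := ih (by omega)
    have hn : p v ≠ p (v - 1) := fun e => by
      have := h.inj v (by omega) (v - 1) (by omega) e
      omega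
    have hincv : Inc p v (v + 1) := by
      intro b c h1 h2 h3
      omega
    rcases Nat.lt_or_gt_of_ne hn with hd | hd
    · have hal : al n p v := al_of_desc h hG (by omega) hd
      have hfl : flP n p l v := ⟨by omega, Or.inr hd⟩
      rw [Sg_pos (by omega) hal, fl_true.mpr hfl, a2]
      have h0 : sv n p l (v + 1) v = 0 := by
        apply sv_zero
        rintro w hw ⟨_, _, h3⟩
        rw [inc_succ hw] at h3
        omega
      unfold sv at h0 ⊢
      rw [Nat.count_succ, h0, if_pos]
      exact ⟨hal, by omega, hincv⟩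
    · have hfl : ¬ flP n p l v := by
        rintro ⟨_, h1⟩
        omega
      have h0 : sv n p l (v + 1) v = sv n p l v v := by
        apply sv_congr
        intro w hw
        rw [inc_succ hw]
        tauto
      by_cases hal : al n p v
      · rw [Sg_pos (by omega) hal, fl_false.mpr hfl, a2, ← ih b]
        unfold sv at h0 ⊢
        rw [Nat.count_succ, h0, if_pos]
        exact ⟨hal, by omega, hincv⟩
      · rw [Sg_neg hal, ← ih b]
        unfold sv at h0 ⊢
        rw [Nat.count_succ, h0, if_neg (by tauto)]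

theorem a2_rep' (b : Bool) (r : ℕ) : a2 b (List.replicate r false) = r + if b then 0 else 1 := by
  have := a2_rep b [] r
  rw [List.append_nil] at this
  rw [this]; rfl

open Classical in
theorem cnt {n : ℕ} {p : ℕ → ℕ} {l : ℕ} (h : Valid n p l) (hG : Good n p) {v : ℕ} (hv : v ≤ n)
    (ha : al n p v) : Nat.count (al (n + 1) (app p n v)) (v + 1) =
      a2 (fl n p l v) (Sg (al n p) (fl n p l) 0 v) := by
  rw [Nat.count_succ, if_pos (al_self h hG hv ha), cnt_eq h hv v le_rfl]
  rcases Nat.lt_or_ge v (l + 2) with h1 | h1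
  · have h2 : Sg (al n p) (fl n p l) 0 v = List.replicate (Nat.count (al n p) v) false := by
      apply Sg_false
      intro w hw
      rw [fl_false]
      rintro ⟨h3, _⟩
      omega
    rw [h2, a2_rep']
    rcases Nat.lt_or_ge l v with h3 | h3
    · have h4 : v = l + 1 := by omega
      have h5 : flP n p l v := by
        refine ⟨h3, ?_⟩
        rcases Nat.eq_or_lt_of_le hv with h6 | h6
        · exact Or.inl h6
        · right
          rw [h4, Nat.add_sub_cancel]
          exact h.lt_pl (by omega) (by omega)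
      rw [fl_true.mpr h5, if_pos rfl, h4]
      have h6 := sv_low h le_rfl l le_rfl (by omega)
      unfold sv at h6 ⊢
      rw [Nat.count_succ, Nat.count_succ, if_pos (al_l h hG.2), if_neg (by tauto), h6]
    · have h5 : ¬ flP n p l v := by
        rintro ⟨h3, _⟩
        omega
      rw [fl_false.mpr h5, sv_low h (by omega) v h3 le_rfl]
      simp
  · exact sv_high h hG v h1 hv _

theorem main (m n : ℕ) (p : ℕ → ℕ) (l : ℕ) (h : Valid n p l) (hG : Good n p) :
    DD Good m n p = Nb a2 m (Sg (al n p) (fl n p l) 0 (n + 1)) := by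
  apply flag_model Good al fl a2 _ _ _ _ _ _ m n p l h hG
  · intro n p l v h hG hv
    rw [good_app h hv]
    tauto
  · intro n p l v h hG hv ha x hx hxn
    exact al_succ hx
  · intro n p l v h hG hv ha x hx hxn hax
    apply fl_congr
    unfold flP
    obtain ⟨x', rfl⟩ : ∃ x', x = x' + 1 := ⟨x - 1, by omega⟩
    rw [app_succ (by omega), Nat.add_sub_cancel, app_succ (by omega), Nat.add_sub_cancel]
    constructor
    · rintro ⟨_, h2⟩
      have h3 : x' + 1 = n ∨ p (x' + 1) < p x' := by
        rcases h2 with h2 | h2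
        · left; omega
        · right; exact h2
      refine ⟨?_, h3⟩
      by_contra h4
      have hln := h.ln
      rcases h3 with h3 | h3
      · omega
      · rcases Nat.eq_or_lt_of_le (show x' + 1 ≤ l by omega) with h5 | h5
        · have := h.lt_pl (x := x') (by omega) (by omega)
          rw [← h5] at this
          omega
        · exact ha.2 x' (x' + 1) l (by omega) (by omega) h5 hln
            ⟨h3, h.lt_pl (by omega) (by omega)⟩
    · rintro ⟨_, h2⟩
      refine ⟨by omega, ?_⟩
      rcases h2 with h2 | h2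
      · left; omega
      · right; exact h2
  · intro n p l v h hG hv ha
    rw [fl_true]
    refine ⟨by omega, ?_⟩
    rcases Nat.eq_or_lt_of_le hv with h6 | h6
    · left; omega
    · right
      rw [Nat.add_sub_cancel, app_succ le_rfl, app_eq]
      exact h.lt v h6
  · intro n p l v h hG hv ha w hw
    rw [fl_false]
    rintro ⟨h1, _⟩
    omega
  · intro n p l v h hG hv ha
    exact cnt h hG hv ha

end P3241

end Fish41
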