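import Pool.Agent.Helper41.FishT2

/-!
The two generating trees have the same level sizes.
-/

namespace Fish41

open PowerSeries Finset

theorem X_dvd_ph {k : ℕ} {D : SS} (h : (X : SS) ^ k ∣ D) : (X : SS) ^ k ∣ ph D := by
  obtain ⟨q, hq⟩ := h
  rw [hq, map_mul, map_pow, ph_X]
  exact dvd_mul_right _ _

theorem eq_unique (H H' : SS)
    (h : (zz - (1 + X * ph H)) * ((1 - X) * H - zz) + X * zz * (ph H - zz) * H =
      X ^ 2 * zz * H ^ 2)
    (h' : (zz - (1 + X * ph H')) * ((1 - X) * H' - zz) + X * zz * (ph H' - zz) * H' =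
      X ^ 2 * zz * H' ^ 2) : H = H' := by
  have key : ∀ k : ℕ, (X : SS) ^ k ∣ H - H' := by
    intro k
    induction k with
    | zero => simp
    | succ k ih =>
      have ih2 := X_dvd_ph ih
      rw [map_sub] at ih2
      obtain ⟨q, hq⟩ := ih
      obtain ⟨r, hr⟩ := ih2
      have h1 : (zz - 1) * (1 - X) * (H - H') = X * (X ^ k * (r * ((1 - X) * H - zz) +
          ph H' * (1 - X) * q - zz * r * H - zz * (ph H' - zz) * q + X * zz * (H + H') * q)) := by
        linear_combination h - h' +
          X * (((1 - X) * H - zz) - zz * H) * hr +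
          X * (ph H' * (1 - X) - zz * (ph H' - zz) + X * zz * (H + H')) * hq
      have h2 : X ^ k * ((zz - 1) * (1 - X) * q) = X ^ k * (X * (r * ((1 - X) * H - zz) +
          ph H' * (1 - X) * q - zz * r * H - zz * (ph H' - zz) * q + X * zz * (H + H') * q)) := by
        rw [hq] at h1
        linear_combination h1
      have h3 := mul_left_cancel₀ (pow_ne_zero k (PowerSeries.X_ne_zero)) h2
      have h4 : (X : SS) ∣ (zz - 1) * (1 - X) * q := by rw [h3]; exact dvd_mul_right _ _
      have hp : Prime (X : SS) := PowerSeries.X_prime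
      have h5 : ¬ (X : SS) ∣ (zz - 1) := by
        rw [PowerSeries.X_dvd_iff]
        simp only [zz, map_sub, map_one, PowerSeries.constantCoeff_C]
        intro h
        have := congrArg (fun p => Polynomial.eval 0 p) h
        simp at this
      have h6 : ¬ (X : SS) ∣ (1 - X) := by
        rw [PowerSeries.X_dvd_iff]
        simp
      have h7 : (X : SS) ∣ q := by
        rcases hp.dvd_or_dvd h4 with h | h
        · rcases hp.dvd_or_dvd h with h | h
          · exact absurd h h5
          · exact absurd h h6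
        · exact h
      obtain ⟨t, ht⟩ := h7
      refine ⟨t, ?_⟩
      rw [hq, ht]; ring
  ext1 k
  have h1 := PowerSeries.X_pow_dvd_iff.mp (key (k + 1)) k (by omega)
  rw [map_sub, sub_eq_zero] at h1
  exact h1

theorem H_eq : T1.H 1 = T2.U 0 := by
  apply eq_unique
  · rw [T1.ph_H1]; exact T1.main
  · rw [T2.ph_U]; exact T2.main

theorem lev_eq_poly (m : ℕ) :
    lev c1 (fun _ => (1 : Polynomial ℤ)) m (1, []) = lev c2 (fun _ => (1 : Polynomial ℤ)) m (0, []) := by
  have h := congrArg ph H_eq
  rw [T1.ph_H1, T2.ph_U] at h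
  have h1 := congrArg (coeff m) h
  unfold T1.F T1.K T2.u T2.K at h1
  have e1 := HH_coeff_const c1 (fun _ => (1 : Polynomial ℤ)) m (1, [])
  have e2 := HH_coeff_const c2 (fun _ => (1 : Polynomial ℤ)) m (0, [])
  simp only [map_one] at e1 e2
  rw [← e1, ← e2, h1]

/-- The two generating trees have the same level sizes. -/
theorem lev_eq (m : ℕ) :
    lev c1 (fun _ => (1 : ℕ)) m (1, []) = lev c2 (fun _ => (1 : ℕ)) m (0, []) := by
  have h := lev_eq_poly m
  have e1 := lev_map c1 (Nat.castAddMonoidHom (Polynomial ℤ)) (fun _ => (1 : ℕ)) m (1, [])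
  have e2 := lev_map c2 (Nat.castAddMonoidHom (Polynomial ℤ)) (fun _ => (1 : ℕ)) m (0, [])
  simp only [Nat.coe_castAddMonoidHom, Nat.cast_one] at e1 e2
  rw [← e1, ← e2] at h
  exact_mod_cast h

end Fish41
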