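import Pool.Agent.Helper41.FishAlg

/-!
Generating trees on words in `{T, F}`.
-/

namespace Fish41

open Finset

section
variable {M : Type*} [AddCommMonoid M]

/-- sum over the children of a word. -/
def spl (af : Bool → List Bool → ℕ) : List Bool → (List Bool → M) → M
  | [], _ => 0
  | b :: q, f => f (true :: List.replicate (af b q) false) + spl af q (fun g => f (b :: g))

theorem spl_rep (af : Bool → List Bool → ℕ) (q : List Bool) : ∀ (r : ℕ) (f : List Bool → M),
    spl af (List.replicate r false ++ q) f =
    ∑ u ∈ range r, f (List.replicate u false ++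
      true :: List.replicate (af false (List.replicate (r - 1 - u) false ++ q)) false) +
    spl af q (fun g => f (List.replicate r false ++ g)) := by
  intro r
  induction r with
  | zero => intro f; simp
  | succ r ih =>
    intro f
    rw [List.replicate_succ, List.cons_append, spl, ih, Finset.sum_range_succ']
    have : ∀ u, r + 1 - 1 - (u + 1) = r - 1 - u := by intro u; omega
    simp only [this, List.replicate_succ, List.cons_append, List.replicate_zero, List.nil_append]
    rw [show r + 1 - 1 - 0 = r by omega]
    rw [← add_assoc, add_comm (f _)]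

end

/-- number of descendants -/
def Nb (af : Bool → List Bool → ℕ) : ℕ → List Bool → ℕ
  | 0, _ => 1
  | m + 1, g => spl af g (Nb af m)

def bl (s : ℕ) : List ℕ → List Bool
  | [] => true :: List.replicate s false
  | r :: l => true :: (List.replicate r false ++ bl s l)

theorem bl_length (s : ℕ) (l : List ℕ) : (bl s l).length = s + wt l + 1 := by
  induction l with
  | nil => simp [bl]
  | cons r l ih => simp [bl, ih]; omega

def a1 (b : Bool) (q : List Bool) : ℕ := if b then q.length else 1

def a2 (b : Bool) : List Bool → ℕ
  | [] => if b then 0 else 1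
  | true :: _ => 2
  | false :: q => a2 b q + 1

theorem a2_rep (b : Bool) (q : List Bool) (r : ℕ) :
    a2 b (List.replicate r false ++ q) = r + a2 b q := by
  induction r with
  | zero => simp
  | succ r ih => rw [List.replicate_succ, List.cons_append, a2, ih]; omega

theorem a2_bl (b : Bool) (s : ℕ) (l : List ℕ) : a2 b (bl s l) = 2 := by
  cases l <;> simp [bl, a2]

section
variable {M : Type*} [AddCommMonoid M]

theorem spl_a1 (s : ℕ) : ∀ (l : List ℕ) (f : List Bool → M),
    spl a1 (bl s l) f = ((c1 (s, l)).map (fun x => f (bl x.1 x.2))).sum := by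
  intro l
  induction l with
  | nil =>
    intro f
    rw [c1_nil, show bl s [] = true :: List.replicate s false from rfl, spl]
    have h := spl_rep a1 [] s (fun g => f (true :: g))
    rw [List.append_nil] at h
    rw [h]
    simp [spl, a1, bl, add_comm]
  | cons r l ih =>
    intro f
    rw [c1_cons, show bl s (r :: l) = true :: (List.replicate r false ++ bl s l) from rfl, spl,
      spl_rep, ih]
    simp only [a1, bl, List.length_append, List.length_replicate, bl_length, if_true,
      Bool.false_eq_true, if_false, wt_cons]
    rw [show r + (s + wt l + 1) = s + (r + 1 + wt l) by ring]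
    abel

theorem spl_a2 (s : ℕ) : ∀ (l : List ℕ) (f : List Bool → M),
    spl a2 (bl (s + 1) l) f = ((c2 (s, l)).map (fun x => f (bl (x.1 + 1) x.2))).sum := by
  intro l
  induction l with
  | nil =>
    intro f
    rw [c2_nil, show bl (s + 1) [] = true :: List.replicate (s + 1) false from rfl, spl]
    have h := spl_rep a2 [] (s + 1) (fun g => f (true :: g))
    rw [List.append_nil] at h
    rw [h]
    have h0 := a2_rep true [] (s + 1)
    rw [List.append_nil] at h0
    rw [h0]
    have h2 : ∀ r, a2 false (List.replicate r false ++ []) = r + 1 := by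
      intro r; rw [a2_rep]; simp [a2]
    simp only [h2, spl, add_zero]
    rw [add_comm]
    congr 1
    rw [← Finset.sum_range_reflect]
    apply Finset.sum_congr rfl
    intro k hk
    rw [Finset.mem_range] at hk
    rw [show s + 1 - 1 - (s + 1 - 1 - k) = k by omega, show s + 1 - 1 - k = s - k by omega]
    simp [bl]
  | cons c l ih =>
    intro f
    rw [c2_cons, show bl (s + 1) (c :: l) = true :: (List.replicate c false ++ bl (s + 1) l) from rfl,
      spl, spl_rep, ih, a2_rep, a2_bl]
    have h2 : ∀ r, a2 false (List.replicate r false ++ bl (s + 1) l) = r + 2 := by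
      intro r; rw [a2_rep, a2_bl]
    simp only [h2]
    have h3 : ∑ u ∈ range c, f (true :: (List.replicate u false ++
        true :: List.replicate (c - 1 - u + 2) false)) =
        ∑ k ∈ range c, f (bl (k + 1 + 1) [c - 1 - k]) := by
      rw [← Finset.sum_range_reflect]
      apply Finset.sum_congr rfl
      intro k hk
      rw [Finset.mem_range] at hk
      rw [show c - 1 - (c - 1 - k) = k by omega]
      simp [bl]
    rw [h3]
    simp only [bl]
    rw [show c + 1 + 1 = c + 2 by ring]
    abel

end

theorem Nb_a1 (m s : ℕ) (l : List ℕ) : Nb a1 m (bl s l) = lev c1 (fun _ => (1 : ℕ)) m (s, l) := by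
  induction m generalizing s l with
  | zero => rfl
  | succ m ih =>
    rw [Nb, spl_a1, lev]
    simp only [ih]

theorem Nb_a2 (m s : ℕ) (l : List ℕ) :
    Nb a2 m (bl (s + 1) l) = lev c2 (fun _ => (1 : ℕ)) m (s, l) := by
  induction m generalizing s l with
  | zero => rfl
  | succ m ih =>
    rw [Nb, spl_a2, lev]
    simp only [ih]

/-- The main equality of the two trees. -/
theorem Nb_eq (m : ℕ) : Nb a1 m [true, false] = Nb a2 m [true, false] := by
  have h1 := Nb_a1 m 1 []
  have h2 := Nb_a2 m 0 []
  have h : bl 1 [] = [true, false] := rfl
  have h' : bl (0 + 1) [] = [true, false] := rfl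
  rw [h] at h1
  rw [h'] at h2
  rw [h1, h2, lev_eq]

/-! ### the third tree -/

def enc (prev : ℕ) : List ℕ → ℕ → List Bool
  | [], a => List.replicate (a - prev) false
  | c :: cs, a => List.replicate (c - prev) false ++ true :: enc c cs a

/-- sorted list above `prev` and below `a` -/
def okl (prev a : ℕ) : List ℕ → Prop
  | [] => prev ≤ a
  | c :: cs => prev ≤ c ∧ c ≤ a ∧ okl c a cs

theorem okl_le {prev a : ℕ} {cs : List ℕ} (h : okl prev a cs) : prev ≤ a := by
  cases cs with
  | nil => exact h
  | cons c cs => exact h.1.trans h.2.1

theorem okl_mem {prev a : ℕ} {cs : List ℕ} (h : okl prev a cs) : ∀ c ∈ cs, prev ≤ c := by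
  induction cs generalizing prev with
  | nil => simp
  | cons c cs ih =>
    intro x hx
    rcases List.mem_cons.mp hx with rfl | hx
    · exact h.1
    · exact h.1.trans (ih h.2.2 x hx)

theorem enc_length {prev a : ℕ} {cs : List ℕ} (h : okl prev a cs) :
    (enc prev cs a).length = a - prev + cs.length := by
  induction cs generalizing prev with
  | nil => simp [enc]
  | cons c cs ih =>
    have := okl_le h.2.2
    have := h.1
    simp [enc, ih h.2.2]; omega

theorem spl_enc {M : Type*} [AddCommMonoid M] (a : ℕ) : ∀ (cs : List ℕ) (prev : ℕ)
    (_ : okl prev a cs) (f : List Bool → M),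
    spl a1 (enc prev cs a) f =
      ∑ t ∈ range cs.length, f (enc prev (cs.take (t + 1)) (a + (cs.length - 1 - t))) +
      ∑ j ∈ Ico prev a, f (enc prev (cs.filter (fun c => decide (c ≤ j)) ++ [j]) (j + 1)) := by
  intro cs
  induction cs with
  | nil =>
    intro prev h f
    simp only [enc]
    have h1 := spl_rep a1 [] (a - prev) f
    rw [List.append_nil] at h1
    rw [h1, Finset.sum_Ico_eq_sum_range]
    simp only [spl, List.length_nil, range_zero, sum_empty, zero_add, add_zero]
    apply Finset.sum_congr rfl
    intro u _
    simp [enc, a1]
  | cons c cs ih =>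
    intro prev h f
    simp only [enc]
    rw [spl_rep, spl, ih c h.2.2]
    rw [← Finset.sum_Ico_consecutive _ h.1 h.2.1]
    rw [Finset.sum_Ico_eq_sum_range _ prev c]
    have e1 : ∀ u ∈ range (c - prev), f (List.replicate u false ++ true :: List.replicate
        (a1 false (List.replicate (c - prev - 1 - u) false ++ true :: enc c cs a)) false) =
        f (enc prev ((c :: cs).filter (fun c => decide (c ≤ prev + u)) ++ [prev + u])
          (prev + u + 1)) := by
      intro u hu
      rw [Finset.mem_range] at hu
      have : (c :: cs).filter (fun c => decide (c ≤ prev + u)) = [] := by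
        rw [List.filter_eq_nil_iff]
        intro x hx
        have h2 : c ≤ x := by
          rcases List.mem_cons.mp hx with rfl | hx
          · exact le_rfl
          · exact okl_mem h.2.2 x hx
        simp only [decide_eq_true_eq]
        omega
      rw [this]
      simp [enc, a1]
    rw [Finset.sum_congr rfl e1]
    have e2 : ∀ j ∈ Ico c a, f (enc prev ((c :: cs).filter (fun c => decide (c ≤ j)) ++ [j])
        (j + 1)) = f (List.replicate (c - prev) false ++ true ::
          enc c (cs.filter (fun c => decide (c ≤ j)) ++ [j]) (j + 1)) := by
      intro j hj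
      rw [Finset.mem_Ico] at hj
      rw [List.filter_cons_of_pos (by simpa using hj.1)]
      simp [enc]
    rw [Finset.sum_congr rfl e2]
    rw [List.length_cons, Finset.sum_range_succ']
    have e3 : f (List.replicate (c - prev) false ++ true ::
        List.replicate (a1 true (enc c cs a)) false) =
        f (enc prev ((c :: cs).take (0 + 1)) (a + (cs.length + 1 - 1 - 0))) := by
      have := h.2.1
      simp only [a1, if_true, enc_length h.2.2, zero_add, List.take_succ_cons, List.take_zero, enc]
      rw [show a + (cs.length + 1 - 1 - 0) - c = a - c + cs.length by omega]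
    rw [e3]
    have e4 : ∀ t ∈ range cs.length, f (List.replicate (c - prev) false ++ true ::
        enc c (cs.take (t + 1)) (a + (cs.length - 1 - t))) =
        f (enc prev ((c :: cs).take (t + 1 + 1)) (a + (cs.length + 1 - 1 - (t + 1)))) := by
      intro t _
      rw [List.take_succ_cons, show cs.length + 1 - 1 - (t + 1) = cs.length - 1 - t by omega]
      simp [enc]
    rw [Finset.sum_congr rfl e4]
    abel

end Fish41
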