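import Mathlib

/-!
# Fishburn permutations and pattern containment: definitions
-/

namespace Fish41

/-- `π` contains the classical pattern `σ`, where `σ` is given by its one-line notation: some
subsequence of `π` (at the positions `f 0 < f 1 < …`) is order-isomorphic to `σ`. -/
def Contains {n k : ℕ} (π : Equiv.Perm (Fin n)) (σ : Fin k → ℕ) : Prop :=
  ∃ f : Fin k ↪o Fin n, ∀ i j : Fin k, σ i < σ j ↔ π (f i) < π (f j)

/-- `π` is a Fishburn permutation: there are no positions `i`, `i' = i + 1` and `j > i'` with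
`π j < π i < π i'` and `π i = π j + 1`. -/
def IsFishburn {n : ℕ} (π : Equiv.Perm (Fin n)) : Prop :=
  ¬ ∃ i i' j : Fin n, i'.val = i.val + 1 ∧ i' < j ∧ π j < π i ∧ π i < π i' ∧
    (π i).val = (π j).val + 1

/-- The set `F_n(σ)` of Fishburn permutations of size `n` that avoid the pattern `σ`. -/
def FishburnAvoiding (n : ℕ) {k : ℕ} (σ : Fin k → ℕ) : Set (Equiv.Perm (Fin n)) :=
  {π | IsFishburn π ∧ ¬ Contains π σ}

end Fish41
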