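import Mathlib

/-!
Evaluation of a power series over `R⟦X⟧` at an element divisible by `X`.
-/

namespace Fish41

open PowerSeries Finset

section ev

variable {R : Type*} [CommRing R]

/-- Evaluation of `f` at `y = η`. -/
noncomputable def Ev (η : R⟦X⟧) (f : PowerSeries (R⟦X⟧)) : R⟦X⟧ :=
  PowerSeries.mk fun k => ∑ n ∈ range (k + 1), coeff k (coeff n f * η ^ n)

theorem trunc_eval (η : R⟦X⟧) (f : PowerSeries (R⟦X⟧)) (K : ℕ) :
    (trunc K f).eval η = ∑ i ∈ range K, coeff i f * η ^ i := by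
  have := PowerSeries.eval₂_trunc_eq_sum_range (s := η) (G := RingHom.id _) K f
  rw [Polynomial.eval, this]
  rfl

theorem Ev_approx {η : R⟦X⟧} (hη : X ∣ η) (f : PowerSeries (R⟦X⟧)) (K : ℕ) :
    X ^ K ∣ Ev η f - (trunc K f).eval η := by
  rw [X_pow_dvd_iff]
  intro m hm
  rw [trunc_eval, map_sub, map_sum, Ev, coeff_mk, sub_eq_zero]
  apply Finset.sum_subset
  · intro i hi
    simp only [Finset.mem_range] at hi ⊢
    omega
  · intro i _ hi
    simp only [Finset.mem_range] at hi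
    have h1 : (X : R⟦X⟧) ^ i ∣ coeff i f * η ^ i := Dvd.dvd.mul_left (pow_dvd_pow_of_dvd hη i) _
    exact (X_pow_dvd_iff.mp h1) m (by omega)

theorem Ev_unique {η : R⟦X⟧} (hη : X ∣ η) (f : PowerSeries (R⟦X⟧)) (v : R⟦X⟧)
    (h : ∀ K, X ^ K ∣ v - (trunc K f).eval η) : v = Ev η f := by
  ext k
  have h1 := dvd_sub (h (k + 1)) (Ev_approx hη f (k + 1))
  rw [sub_sub_sub_cancel_right] at h1
  have h2 := X_pow_dvd_iff.mp h1 k (by omega)
  rw [map_sub, sub_eq_zero] at h2
  exact h2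

theorem Ev_mul {η : R⟦X⟧} (hη : X ∣ η) (f g : PowerSeries (R⟦X⟧)) :
    Ev η (f * g) = Ev η f * Ev η g := by
  symm
  apply Ev_unique hη
  intro K
  obtain ⟨a, ha⟩ := Ev_approx hη f K
  obtain ⟨b, hb⟩ := Ev_approx hη g K
  have h1 : (Polynomial.X : Polynomial (R⟦X⟧)) ^ K ∣ trunc K f * trunc K g - trunc K (f * g) := by
    rw [Polynomial.X_pow_dvd_iff]
    intro d hd
    rw [Polynomial.coeff_sub, coeff_trunc, if_pos hd, sub_eq_zero]
    rw [Polynomial.coeff_mul, coeff_mul]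
    apply Finset.sum_congr rfl
    intro x hx
    rw [Finset.HasAntidiagonal.mem_antidiagonal] at hx
    rw [coeff_trunc, coeff_trunc, if_pos (by omega), if_pos (by omega)]
  obtain ⟨q, hq⟩ := h1
  have h2 := congrArg (Polynomial.eval η) hq
  rw [Polynomial.eval_sub, Polynomial.eval_mul, Polynomial.eval_mul, Polynomial.eval_pow,
    Polynomial.eval_X] at h2
  obtain ⟨t, ht⟩ := hη
  have h3 : Ev η f * Ev η g - (trunc K (f * g)).eval η =
      X ^ K * (a * Ev η g + (trunc K f).eval η * b + t ^ K * q.eval η) := by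
    have h4 : η ^ K = X ^ K * t ^ K := by rw [ht, mul_pow]
    rw [h4] at h2
    have e1 : Ev η f = (trunc K f).eval η + X ^ K * a := by rw [← ha]; ring
    have e2 : Ev η g = (trunc K g).eval η + X ^ K * b := by rw [← hb]; ring
    rw [e1, e2]
    linear_combination h2
  exact ⟨_, h3⟩

theorem Ev_add (η : R⟦X⟧) (f g : PowerSeries (R⟦X⟧)) :
    Ev η (f + g) = Ev η f + Ev η g := by
  ext k
  simp [Ev, add_mul, Finset.sum_add_distrib]

theorem Ev_C (η : R⟦X⟧) (a : R⟦X⟧) : Ev η (C a) = a := by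
  ext k
  simp only [Ev, coeff_mk]
  rw [Finset.sum_eq_single 0]
  · simp
  · intro b _ hb
    rw [coeff_C, if_neg hb]; simp
  · simp

theorem Ev_X {η : R⟦X⟧} (hη : X ∣ η) : Ev η X = η := by
  symm
  apply Ev_unique hη
  intro K
  rw [trunc_eval]
  rcases K with _ | _ | K
  · simp
  · simp [hη]
  · rw [Finset.sum_eq_single 1]
    · simp
    · intro b _ hb
      rw [coeff_X, if_neg hb]; simp
    · simp

/-- evaluation as a ring homomorphism -/
noncomputable def EvHom {η : R⟦X⟧} (hη : X ∣ η) : PowerSeries (R⟦X⟧) →+* R⟦X⟧ where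
  toFun := Ev η
  map_one' := by rw [← map_one (C (R := R⟦X⟧)), Ev_C]
  map_mul' := Ev_mul hη
  map_zero' := by rw [← map_zero (C (R := R⟦X⟧)), Ev_C]
  map_add' := Ev_add η

theorem EvHom_apply {η : R⟦X⟧} (hη : X ∣ η) (f : PowerSeries (R⟦X⟧)) : EvHom hη f = Ev η f := rfl

theorem Ev_coeff_zero {η : R⟦X⟧} (f : PowerSeries (R⟦X⟧)) :
    coeff 0 (Ev η f) = coeff 0 (coeff 0 f) := by
  simp [Ev]

end ev

end Fish41
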