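import Mathlib

/-!
Generating-tree functionals.  `c : σ → List σ` is the children function of a rooted
generating tree with states `σ`, `R⟦X⟧` records the depth.
-/

namespace Fish41

open PowerSeries Finset

section gen

variable {σ : Type*} (c : σ → List σ) {M : Type*} [AddCommMonoid M]

/-- The sum of the weights `α` over the descendants at depth `m`. -/
def lev (α : σ → M) : ℕ → σ → M
  | 0, s => α s
  | m + 1, s => ((c s).map (lev α m)).sum

variable {R : Type*} [CommRing R]

/-- The generating function of the weights of the descendants. -/
noncomputable def HH (α : σ → R⟦X⟧) (s : σ) : R⟦X⟧ :=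
  PowerSeries.mk fun k => ∑ i ∈ range (k + 1), coeff (k - i) (lev c α i s)

theorem coeff_list_sum {ι : Type*} (k : ℕ) (l : List ι) (f : ι → R⟦X⟧) :
    coeff k ((l.map f).sum) = (l.map fun i => coeff k (f i)).sum := by
  induction l with
  | nil => simp
  | cons a l ih => simp [ih]

theorem list_sum_finset {ι κ : Type*} (l : List ι) (s : Finset κ) (f : ι → κ → R) :
    (l.map fun i => ∑ j ∈ s, f i j).sum = ∑ j ∈ s, (l.map fun i => f i j).sum := by
  induction l with
  | nil => simp
  | cons a l ih => simp [ih, Finset.sum_add_distrib]

theorem HH_eq (α : σ → R⟦X⟧) (s : σ) :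
    HH c α s = α s + X * ((c s).map (HH c α)).sum := by
  ext k
  rw [map_add]
  cases k with
  | zero => simp [HH, lev]
  | succ k =>
    rw [coeff_succ_X_mul, coeff_list_sum]
    simp only [HH, coeff_mk]
    rw [Finset.sum_range_succ', list_sum_finset, add_comm]
    congr 1
    apply Finset.sum_congr rfl
    intro i hi
    rw [Nat.add_sub_add_right]
    simp only [lev]
    rw [coeff_list_sum]

theorem HH_unique (α V W : σ → R⟦X⟧)
    (hV : ∀ s, V s = α s + X * ((c s).map V).sum)
    (hW : ∀ s, W s = α s + X * ((c s).map W).sum) : ∀ s, V s = W s := by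
  have key : ∀ k s, coeff k (V s) = coeff k (W s) := by
    intro k
    induction k with
    | zero => intro s; rw [hV s, hW s]; simp
    | succ k ih =>
      intro s
      rw [hV s, hW s, map_add, map_add, coeff_succ_X_mul, coeff_succ_X_mul, coeff_list_sum,
        coeff_list_sum]
      simp only [ih]
  intro s
  ext k
  exact key k s

/-- Uniqueness on a set of states closed under children. -/
theorem HH_unique_on (P : σ → Prop) (hP : ∀ s, P s → ∀ t ∈ c s, P t) (α V W : σ → R⟦X⟧)
    (hV : ∀ s, P s → V s = α s + X * ((c s).map V).sum)
    (hW : ∀ s, P s → W s = α s + X * ((c s).map W).sum) : ∀ s, P s → V s = W s := by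
  have key : ∀ k s, P s → coeff k (V s) = coeff k (W s) := by
    intro k
    induction k with
    | zero => intro s hs; rw [hV s hs, hW s hs]; simp
    | succ k ih =>
      intro s hs
      rw [hV s hs, hW s hs, map_add, map_add, coeff_succ_X_mul, coeff_succ_X_mul, coeff_list_sum,
        coeff_list_sum]
      congr 2
      apply List.map_congr_left
      intro t ht
      exact ih t (hP s hs t ht)
  intro s hs
  ext k
  exact key k s hs

theorem HH_coeff_zero (α : σ → R⟦X⟧) (s : σ) : coeff 0 (HH c α s) = coeff 0 (α s) := by
  rw [HH_eq]; simp

/-- If the weights are constants, the coefficients are the level sums. -/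
theorem HH_coeff_const (α : σ → R) (m : ℕ) (s : σ) :
    coeff m (HH c (fun s => C (α s)) s) = lev c α m s := by
  induction m generalizing s with
  | zero => rw [HH_coeff_zero]; simp [lev]
  | succ m ih =>
    rw [HH_eq, map_add, coeff_succ_X_mul, coeff_list_sum]
    simp only [ih, lev]
    simp

theorem lev_map {N : Type*} [AddCommMonoid N] (f : M →+ N) (α : σ → M) (m : ℕ) (s : σ) :
    f (lev c α m s) = lev c (fun t => f (α t)) m s := by
  induction m generalizing s with
  | zero => rfl
  | succ m ih =>
    simp only [lev]
    rw [map_list_sum, List.map_map]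
    congr 1
    apply List.map_congr_left
    intro t _
    simp [ih]

end gen

end Fish41
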