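import Pool.Agent.Helper41.FishBool

/-!
Position functions of permutations, appending a last entry, and the flag model.
-/

namespace Fish41

open Finset

/-- Append a new last entry of value `v` (to the position function `p` of a permutation of
`0, …, n-1`). -/
def app (p : ℕ → ℕ) (n v : ℕ) : ℕ → ℕ := fun x => if x < v then p x else if x = v then n else p (x - 1)

theorem app_lt {p : ℕ → ℕ} {n v x : ℕ} (h : x < v) : app p n v x = p x := by
  simp [app, h]

theorem app_eq {p : ℕ → ℕ} {n v : ℕ} : app p n v v = n := by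
  simp [app]

theorem app_succ {p : ℕ → ℕ} {n v x : ℕ} (h : v ≤ x) : app p n v (x + 1) = p x := by
  simp only [app]
  rw [if_neg (by omega), if_neg (by omega)]
  rfl

/-- shifting of values -/
def sh (v x : ℕ) : ℕ := if x < v then x else x + 1

theorem app_sh {p : ℕ → ℕ} {n v x : ℕ} : app p n v (sh v x) = p x := by
  unfold sh
  split_ifs with h
  · exact app_lt h
  · exact app_succ (by omega)

theorem sh_cases {v y n : ℕ} (hv : v ≤ n) (hy : y < n + 1) : y = v ∨ ∃ x < n, y = sh v x := by
  rcases Nat.lt_trichotomy y v with h | h | h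
  · right; exact ⟨y, by omega, by simp [sh, h]⟩
  · left; exact h
  · right
    refine ⟨y - 1, by omega, ?_⟩
    unfold sh
    rw [if_neg (by omega)]
    omega

theorem sh_lt_sh {v x y : ℕ} : sh v x < sh v y ↔ x < y := by
  unfold sh; split_ifs <;> omega

theorem sh_lt {v x : ℕ} : sh v x < v ↔ x < v := by
  unfold sh; split_ifs <;> omega

theorem lt_sh {v x : ℕ} : v < sh v x ↔ v ≤ x := by
  unfold sh; split_ifs <;> omega

theorem sh_lt_succ {v x n : ℕ} (hv : v ≤ n) : sh v x < n + 1 ↔ x < n := by
  unfold sh; split_ifs <;> omega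

/-- `p` is the position function of a permutation of `0, …, n-1` whose last entry is `l`. -/
structure Valid (n : ℕ) (p : ℕ → ℕ) (l : ℕ) : Prop where
  lt : ∀ x < n, p x < n
  inj : ∀ x < n, ∀ y < n, p x = p y → x = y
  ln : l < n
  pl : p l + 1 = n

theorem Valid.lt_pl {n : ℕ} {p : ℕ → ℕ} {l : ℕ} (h : Valid n p l) {x : ℕ} (hx : x < n)
    (hxl : x ≠ l) : p x < p l := by
  have h1 := h.lt x hx
  have h2 : p x ≠ p l := fun e => hxl (h.inj x hx l h.ln e)
  have := h.pl
  omega

theorem Valid.child {n : ℕ} {p : ℕ → ℕ} {l : ℕ} (h : Valid n p l) {v : ℕ} (hv : v ≤ n) :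
    Valid (n + 1) (app p n v) v where
  lt := by
    intro x hx
    rcases sh_cases hv hx with rfl | ⟨y, hy, rfl⟩
    · rw [app_eq]; omega
    · rw [app_sh]; have := h.lt y hy; omega
  inj := by
    intro x hx y hy he
    rcases sh_cases hv hx with rfl | ⟨x, hx', rfl⟩
    · rcases sh_cases hv hy with rfl | ⟨y, hy', rfl⟩
      · rfl
      · rw [app_eq, app_sh] at he; have := h.lt y hy'; omega
    · rcases sh_cases hv hy with rfl | ⟨y, hy', rfl⟩
      · rw [app_eq, app_sh] at he; have := h.lt x hx'; omega
      · rw [app_sh, app_sh] at he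
        rw [h.inj x hx' y hy' he]
  ln := by omega
  pl := by rw [app_eq]

/-- The Fishburn condition. -/
def FishP (n : ℕ) (p : ℕ → ℕ) : Prop :=
  ∀ x y, x + 1 < y → y < n → p y = p (x + 1) + 1 → p x < p (x + 1)

def NA (n : ℕ) (p : ℕ → ℕ) (v : ℕ) : Prop := ∀ y, v < y → y < n → p y ≠ p v + 1

theorem fish_app {n : ℕ} {p : ℕ → ℕ} {l : ℕ} (h : Valid n p l) {v : ℕ} (hv : v ≤ n) :
    FishP (n + 1) (app p n v) ↔ FishP n p ∧ (v < n → NA n p v) := by
  constructor
  · intro H
    constructor
    · intro x y hxy hy he
      by_contra hc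
      rcases Nat.lt_trichotomy (x + 1) v with h1 | h1 | h1
      · rcases Nat.lt_or_ge y v with h2 | h2
        · have := H x y hxy (by omega) (by rw [app_lt h2, app_lt h1]; exact he)
          rw [app_lt h1, app_lt (by omega)] at this
          exact hc this
        · have := H x (y + 1) (by omega) (by omega) (by rw [app_succ h2, app_lt h1]; exact he)
          rw [app_lt h1, app_lt (by omega)] at this
          exact hc this
      · subst h1
        have := H (x + 1) (y + 1) (by omega) (by omega)
          (by rw [app_succ (by omega), app_succ (by omega)]; exact he)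
        rw [app_succ le_rfl, app_eq] at this
        have := h.lt (x + 1) (by omega)
        omega
      · have := H (x + 1) (y + 1) (by omega) (by omega)
          (by rw [app_succ (by omega), app_succ (by omega)]; exact he)
        rw [app_succ (by omega), app_succ (by omega)] at this
        exact hc this
    · intro hvn y hvy hyn he
      have := H v (y + 1) (by omega) (by omega)
        (by rw [app_succ (by omega), app_succ (by omega)]; exact he)
      rw [app_succ (by omega), app_eq] at this
      have := h.lt v (by omega)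
      omega
  · rintro ⟨H1, H2⟩ x y hxy hy he
    rcases Nat.lt_trichotomy (x + 1) v with h1 | h1 | h1
    · rw [app_lt h1] at he ⊢
      rw [app_lt (by omega)]
      rcases Nat.lt_trichotomy y v with h2 | h2 | h2
      · rw [app_lt h2] at he
        exact H1 x y hxy (by omega) he
      · rw [h2, app_eq] at he
        have e1 : x + 1 = l := by
          have := h.pl
          exact h.inj _ (by omega) _ h.ln (by omega)
        exact e1 ▸ h.lt_pl (by omega) (by omega)
      · obtain ⟨y', rfl⟩ : ∃ y', y = y' + 1 := ⟨y - 1, by omega⟩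
        rw [app_succ (by omega)] at he
        exact H1 x y' (by omega) (by omega) he
    · rw [h1, app_eq] at he ⊢
      rw [app_lt (by omega)]
      have := h.lt x (by omega)
      exact this
    · rcases Nat.lt_trichotomy x v with h2 | h2 | h2
      · omega
      · rw [h2, app_succ le_rfl] at he
        obtain ⟨y', rfl⟩ : ∃ y', y = y' + 1 := ⟨y - 1, by omega⟩
        rw [app_succ (by omega)] at he
        exact absurd he (H2 (by omega) y' (by omega) (by omega))
      · obtain ⟨x', rfl⟩ : ∃ x', x = x' + 1 := ⟨x - 1, by omega⟩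
        obtain ⟨y', rfl⟩ : ∃ y', y = y' + 1 := ⟨y - 1, by omega⟩
        rw [app_succ (by omega), app_succ (by omega)] at he
        rw [app_succ (by omega), app_succ (by omega)]
        exact H1 x' y' (by omega) (by omega) he

/-- The slot `v` is allowed for the Fishburn condition. -/
def alF (n : ℕ) (p : ℕ → ℕ) (v : ℕ) : Prop := v < n → NA n p v

theorem alF_succ {n : ℕ} {p : ℕ → ℕ} {v x : ℕ} (hx : v ≤ x) :
    alF (n + 1) (app p n v) (x + 1) ↔ alF n p x := by
  unfold alF NA
  constructor
  · intro H hxn y hxy hyn he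
    exact H (by omega) (y + 1) (by omega) (by omega)
      (by rw [app_succ (by omega), app_succ hx]; exact he)
  · intro H hxn y hxy hyn he
    obtain ⟨y', rfl⟩ : ∃ y', y = y' + 1 := ⟨y - 1, by omega⟩
    rw [app_succ (by omega), app_succ hx] at he
    exact H (by omega) y' (by omega) (by omega) he

theorem alF_self {n : ℕ} {p : ℕ → ℕ} {l : ℕ} (h : Valid n p l) {v : ℕ} (hv : v ≤ n) :
    alF (n + 1) (app p n v) v := by
  intro _ y hvy hyn he
  rw [app_eq] at he
  have := (h.child hv).lt y hyn
  omega

theorem alF_l {n : ℕ} {p : ℕ → ℕ} {l : ℕ} (h : Valid n p l) : alF n p l := by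
  intro _ y hvy hyn he
  have := h.pl
  have := h.lt y hyn
  omega

theorem alF_lt {n : ℕ} {p : ℕ → ℕ} {l : ℕ} (h : Valid n p l) {v w : ℕ} (hv : v ≤ n)
    (hw : w < v) : alF (n + 1) (app p n v) w ↔ alF n p w ∧ w ≠ l := by
  unfold alF NA
  constructor
  · intro H
    constructor
    · intro _ y hwy hyn he
      rcases Nat.lt_or_ge y v with h1 | h1
      · exact H (by omega) y hwy (by omega) (by rw [app_lt h1, app_lt hw]; exact he)
      · exact H (by omega) (y + 1) (by omega) (by omega)
          (by rw [app_succ h1, app_lt hw]; exact he)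
    · rintro rfl
      exact H (by omega) v hw (by omega) (by rw [app_eq, app_lt hw]; exact h.pl.symm)
  · rintro ⟨H, hl⟩ _ y hwy hyn he
    rw [app_lt hw] at he
    rcases Nat.lt_trichotomy y v with h1 | h1 | h1
    · rw [app_lt h1] at he
      exact H (by omega) y hwy (by omega) he
    · rw [h1, app_eq] at he
      have := h.pl
      exact hl (h.inj _ (by omega) _ h.ln (by omega))
    · obtain ⟨y', rfl⟩ : ∃ y', y = y' + 1 := ⟨y - 1, by omega⟩
      rw [app_succ (by omega)] at he
      exact H (by omega) y' (by omega) (by omega) he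

/-! ### the counting function -/

open Classical in
/-- number of good permutations obtained by appending `m` entries -/
noncomputable def DD (Good : ℕ → (ℕ → ℕ) → Prop) : ℕ → ℕ → (ℕ → ℕ) → ℕ
  | 0, _, _ => 1
  | m + 1, n, p => ∑ v ∈ range (n + 1),
      if Good (n + 1) (app p n v) then DD Good m (n + 1) (app p n v) else 0

open Classical in
/-- The list of values `fl k` over allowed slots `k` in `[lo, hi)`, in descending order. -/
noncomputable def Sg {β : Type*} (al : ℕ → Prop) (fl : ℕ → β) (lo : ℕ) : ℕ → List β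
  | 0 => []
  | k + 1 => if lo ≤ k ∧ al k then fl k :: Sg al fl lo k else Sg al fl lo k

theorem Sg_pos {β : Type*} {al : ℕ → Prop} {fl : ℕ → β} {lo k : ℕ} (h : lo ≤ k) (h2 : al k) :
    Sg al fl lo (k + 1) = fl k :: Sg al fl lo k := by
  rw [Sg, if_pos ⟨h, h2⟩]

theorem Sg_neg {β : Type*} {al : ℕ → Prop} {fl : ℕ → β} {lo k : ℕ} (h2 : ¬ al k) :
    Sg al fl lo (k + 1) = Sg al fl lo k := by
  rw [Sg, if_neg (by tauto)]

theorem Sg_le {β : Type*} {al : ℕ → Prop} {fl : ℕ → β} {lo k : ℕ} (h : k ≤ lo) :
    Sg al fl lo k = [] := by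
  induction k with
  | zero => rfl
  | succ k ih => rw [Sg, if_neg (by omega)]; exact ih (by omega)

theorem spl_Sg {M : Type*} [AddCommMonoid M] (af : Bool → List Bool → ℕ) (al : ℕ → Prop)
    [DecidablePred al]
    (fl : ℕ → Bool) : ∀ (k : ℕ) (f : List Bool → M), spl af (Sg al fl 0 k) f =
    ∑ v ∈ range k, if al v then
      f (Sg al fl (v + 1) k ++ true :: List.replicate (af (fl v) (Sg al fl 0 v)) false) else 0 := by
  intro k
  induction k with
  | zero => intro f; simp [Sg, spl]
  | succ k ih =>
    intro f
    rw [Finset.sum_range_succ]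
    by_cases h : al k
    · rw [Sg_pos (by omega) h, spl, ih, if_pos h, Sg_le le_rfl, List.nil_append, add_comm]
      congr 1
      apply Finset.sum_congr rfl
      intro v hv
      rw [Finset.mem_range] at hv
      rw [Sg_pos (by omega) h]
      rfl
    · rw [Sg_neg h, ih, if_neg h, add_zero]
      apply Finset.sum_congr rfl
      intro v hv
      rw [Sg_neg h]

/-- all flags false: the list is a run of `false`. -/
theorem Sg_false {al : ℕ → Prop} [DecidablePred al] {fl : ℕ → Bool} : ∀ (k : ℕ)
    (_ : ∀ w < k, fl w = false),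
    Sg al fl 0 k = List.replicate (Nat.count al k) false := by
  intro k
  induction k with
  | zero => intro _; rfl
  | succ k ih =>
    intro h
    have ih' := ih (fun w hw => h w (by omega))
    by_cases hk : al k
    · rw [Sg_pos (by omega) hk, ih', Nat.count_succ, if_pos hk, h k (by omega)]; rfl
    · rw [Sg_neg hk, ih', Nat.count_succ, if_neg hk]; rfl

theorem Sg_length {β : Type*} {al : ℕ → Prop} [DecidablePred al] {fl : ℕ → β} : ∀ (k : ℕ),
    (Sg al fl 0 k).length = Nat.count al k := by
  intro k
  induction k with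
  | zero => rfl
  | succ k ih =>
    by_cases hk : al k
    · rw [Sg_pos (by omega) hk, Nat.count_succ, if_pos hk, List.length_cons, ih]
    · rw [Sg_neg hk, ih, Nat.count_succ, if_neg hk]; rfl

/-- Shifting. -/
theorem Sg_shift {β : Type*} {al al' : ℕ → Prop} {fl fl' : ℕ → β} {v : ℕ} : ∀ (k : ℕ)
    (_ : v + 1 ≤ k)
    (_ : ∀ x, v < x → x < k → (al' (x + 1) ↔ al x))
    (_ : ∀ x, v < x → x < k → al x → fl' (x + 1) = fl x),
    Sg al' fl' 0 (k + 1) = Sg al fl (v + 1) k ++ Sg al' fl' 0 (v + 2) := by
  intro k
  induction k with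
  | zero => intro h; omega
  | succ k ih =>
    intro h h1 h2
    rcases Nat.eq_or_lt_of_le h with h3 | h3
    · have : k = v := by omega
      subst this
      rw [Sg_le le_rfl]; rfl
    · have ih' := ih (by omega) (fun x hx hx' => h1 x hx (by omega))
        (fun x hx hx' => h2 x hx (by omega))
      by_cases hk : al k
      · rw [Sg_pos (by omega) ((h1 k (by omega) (by omega)).mpr hk), ih',
          Sg_pos (by omega) hk, h2 k (by omega) (by omega) hk]
        rfl
      · rw [Sg_neg (fun h' => hk ((h1 k (by omega) (by omega)).mp h')), ih', Sg_neg hk]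

open Classical in
/-- The flag model. -/
theorem flag_model (Good : ℕ → (ℕ → ℕ) → Prop) (al : ℕ → (ℕ → ℕ) → ℕ → Prop)
    (fl : ℕ → (ℕ → ℕ) → ℕ → ℕ → Bool) (af : Bool → List Bool → ℕ)
    (h1 : ∀ n p l v, Valid n p l → Good n p → v ≤ n → (Good (n + 1) (app p n v) ↔ al n p v))
    (h2 : ∀ n p l v, Valid n p l → Good n p → v ≤ n → al n p v → ∀ x, v ≤ x → x ≤ n →
      (al (n + 1) (app p n v) (x + 1) ↔ al n p x))
    (h3 : ∀ n p l v, Valid n p l → Good n p → v ≤ n → al n p v → ∀ x, v < x → x ≤ n → al n p x →
      fl (n + 1) (app p n v) v (x + 1) = fl n p l x)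
    (h4 : ∀ n p l v, Valid n p l → Good n p → v ≤ n → al n p v →
      fl (n + 1) (app p n v) v (v + 1) = true)
    (h5 : ∀ n p l v, Valid n p l → Good n p → v ≤ n → al n p v → ∀ w, w ≤ v →
      fl (n + 1) (app p n v) v w = false)
    (h6 : ∀ n p l v, Valid n p l → Good n p → v ≤ n → al n p v →
      Nat.count (al (n + 1) (app p n v)) (v + 1) = af (fl n p l v) (Sg (al n p) (fl n p l) 0 v)) :
    ∀ m n p l, Valid n p l → Good n p → DD Good m n p =
      Nb af m (Sg (al n p) (fl n p l) 0 (n + 1)) := by
  intro m
  induction m with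
  | zero => intro n p l _ _; rfl
  | succ m ih =>
    intro n p l hV hG
    rw [DD, Nb, spl_Sg]
    apply Finset.sum_congr rfl
    intro v hv
    rw [Finset.mem_range] at hv
    have hvn : v ≤ n := by omega
    have hiff := h1 n p l v hV hG hvn
    by_cases hal : al n p v
    · rw [if_pos (hiff.mpr hal), if_pos hal, ih (n + 1) (app p n v) v (hV.child hvn) (hiff.mpr hal)]
      congr 1
      have hs := Sg_shift (al := al n p) (al' := al (n + 1) (app p n v)) (fl := fl n p l)
        (fl' := fl (n + 1) (app p n v) v) (v := v) (n + 1) (by omega)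
        (fun x hx hx' => h2 n p l v hV hG hvn hal x (by omega) (by omega))
        (fun x hx hx' hx'' => h3 n p l v hV hG hvn hal x (by omega) (by omega) hx'')
      rw [hs]
      congr 1
      rw [Sg_pos (by omega) ((h2 n p l v hV hG hvn hal v le_rfl hvn).mpr hal),
        h4 n p l v hV hG hvn hal, Sg_false (v + 1)
          (fun w hw => h5 n p l v hV hG hvn hal w (by omega)), h6 n p l v hV hG hvn hal]
    · rw [if_neg (fun h' => hal (hiff.mp h')), if_neg hal]

end Fish41
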