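import Pool.Agent.Helper41.Fish2413
import Pool.Agent.Helper41.FishDefs

/-!
Counting permutations via position functions.
-/

namespace Fish41

open Finset

/-- The position function of a permutation (`0` outside the range). -/
def pos {n : ℕ} (π : Equiv.Perm (Fin n)) : ℕ → ℕ :=
  fun x => if h : x < n then (π.symm ⟨x, h⟩).val else 0

theorem pos_of_lt {n : ℕ} (π : Equiv.Perm (Fin n)) {x : ℕ} (h : x < n) :
    pos π x = (π.symm ⟨x, h⟩).val := by
  simp [pos, h]

theorem pos_apply {n : ℕ} (π : Equiv.Perm (Fin n)) (i : Fin n) : pos π (π i).val = i.val := by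
  rw [pos_of_lt π (π i).isLt]
  simp

/-- append a last entry -/
def snoc {n : ℕ} (π : Equiv.Perm (Fin n)) (v : Fin (n + 1)) : Equiv.Perm (Fin (n + 1)) :=
  ((finSuccEquiv' (Fin.last n)).trans (Equiv.optionCongr π)).trans (finSuccEquiv' v).symm

theorem snoc_last {n : ℕ} (π : Equiv.Perm (Fin n)) (v : Fin (n + 1)) :
    snoc π v (Fin.last n) = v := by
  simp [snoc]

theorem snoc_castSucc {n : ℕ} (π : Equiv.Perm (Fin n)) (v : Fin (n + 1)) (i : Fin n) :
    snoc π v i.castSucc = v.succAbove (π i) := by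
  have : (finSuccEquiv' (Fin.last n)) i.castSucc = some i := by
    have h := finSuccEquiv'_succAbove (Fin.last n) i
    rwa [Fin.succAbove_last] at h
  simp [snoc, this]

theorem snoc_inj {n : ℕ} : Function.Injective
    (fun x : Equiv.Perm (Fin n) × Fin (n + 1) => snoc x.1 x.2) := by
  rintro ⟨π, v⟩ ⟨π', v'⟩ h
  simp only at h
  have h1 : v = v' := by
    have := congrArg (fun σ => σ (Fin.last n)) h
    simpa [snoc_last] using this
  subst h1
  have h2 : π = π' := by
    ext i
    have := congrArg (fun σ => σ i.castSucc) h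
    simp only [snoc_castSucc] at this
    rw [Fin.succAbove_right_injective this]
  rw [h2]

theorem snoc_bij {n : ℕ} : Function.Bijective
    (fun x : Equiv.Perm (Fin n) × Fin (n + 1) => snoc x.1 x.2) := by
  rw [Fintype.bijective_iff_injective_and_card]
  refine ⟨snoc_inj, ?_⟩
  rw [Fintype.card_prod, Fintype.card_perm, Fintype.card_perm, Fintype.card_fin, Fintype.card_fin,
    Nat.factorial_succ, mul_comm]

theorem pos_snoc {n : ℕ} (π : Equiv.Perm (Fin n)) (v : Fin (n + 1)) :
    pos (snoc π v) = app (pos π) n v.val := by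
  funext x
  by_cases hx : x < n + 1
  · rw [pos_of_lt _ hx]
    obtain ⟨i, hi⟩ : ∃ i, snoc π v i = ⟨x, hx⟩ := (snoc π v).surjective _
    rw [← hi, Equiv.symm_apply_apply]
    have hxv : x = (snoc π v i).val := by rw [hi]
    rw [hxv]
    induction i using Fin.lastCases with
    | last =>
      rw [snoc_last, app_eq]; rfl
    | cast i =>
      rw [snoc_castSucc]
      have : (v.succAbove (π i)).val = sh v.val (π i).val := by
        unfold Fin.succAbove sh
        simp only [Fin.lt_def, Fin.val_castSucc]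
        split_ifs <;> simp
      rw [this, app_sh, pos_apply]
      rfl
  · have h1 : ¬ (x < v.val) := by have := v.isLt; omega
    have h2 : x ≠ v.val := by have := v.isLt; omega
    rw [app, if_neg h1, if_neg h2]
    have h3 : ¬ (x - 1 < n) := by omega
    simp [pos, hx, h3]

theorem valid_pos {n : ℕ} (π : Equiv.Perm (Fin (n + 1))) :
    Valid (n + 1) (pos π) (π (Fin.last n)).val where
  lt := by
    intro x hx
    rw [pos_of_lt π hx]
    exact Fin.isLt _
  inj := by
    intro x hx y hy he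
    rw [pos_of_lt π hx, pos_of_lt π hy] at he
    have h1 := Fin.ext he
    have h2 := π.symm.injective h1
    exact congrArg Fin.val h2
  ln := Fin.isLt _
  pl := by rw [pos_apply]; rfl

theorem sum_perm {n : ℕ} (F : (ℕ → ℕ) → ℕ) :
    ∑ σ : Equiv.Perm (Fin (n + 1)), F (pos σ) =
      ∑ π : Equiv.Perm (Fin n), ∑ v ∈ range (n + 1), F (app (pos π) n v) := by
  rw [← Function.Bijective.sum_comp snoc_bij (fun σ => F (pos σ)), Fintype.sum_prod_type]
  apply Finset.sum_congr rfl
  intro π _
  rw [Finset.sum_range]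
  apply Finset.sum_congr rfl
  intro v _
  rw [pos_snoc]

open Classical in
theorem card_good (Good : ℕ → (ℕ → ℕ) → Prop)
    (hc : ∀ n p l v, Valid n p l → v ≤ n → Good (n + 1) (app p n v) → Good n p) : ∀ (m n : ℕ),
    ∑ σ : Equiv.Perm (Fin (n + 1 + m)), (if Good (n + 1 + m) (pos σ) then 1 else 0) =
      ∑ π : Equiv.Perm (Fin (n + 1)), if Good (n + 1) (pos π) then DD Good m (n + 1) (pos π)
        else 0 := by
  intro m
  induction m with
  | zero => intro n; rfl
  | succ m ih =>
    intro n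
    have e : n + 1 + (m + 1) = n + 1 + 1 + m := by omega
    rw [e, ih (n + 1)]
    rw [sum_perm (fun p => if Good (n + 1 + 1) p then DD Good m (n + 1 + 1) p else 0)]
    apply Finset.sum_congr rfl
    intro π _
    by_cases hG : Good (n + 1) (pos π)
    · rw [if_pos hG, DD]
    · rw [if_neg hG]
      apply Finset.sum_eq_zero
      intro v hv
      rw [Finset.mem_range] at hv
      rw [if_neg]
      exact fun h => hG (hc _ _ _ v (valid_pos π) (by omega) h)

open Classical in
theorem card_good' (Good : ℕ → (ℕ → ℕ) → Prop)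
    (hc : ∀ n p l v, Valid n p l → v ≤ n → Good (n + 1) (app p n v) → Good n p)
    (h1 : Good 1 (fun _ => 0)) (m : ℕ) :
    Nat.card {σ : Equiv.Perm (Fin (m + 1)) // Good (m + 1) (pos σ)} =
      DD Good m 1 (fun _ => 0) := by
  have h := card_good Good hc m 0
  rw [show 0 + 1 + m = m + 1 by omega] at h
  rw [Nat.card_eq_fintype_card, Fintype.card_subtype, Finset.card_filter, h]
  have h2 : ∀ π : Equiv.Perm (Fin (0 + 1)), pos π = fun _ => 0 := by
    intro π
    funext x
    unfold pos
    split_ifs with hx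
    · have := (π.symm ⟨x, hx⟩).isLt
      omega
    · rfl
  simp only [h2]
  rw [Finset.sum_const, if_pos h1]
  simp

theorem valid_one : Valid 1 (fun _ => 0) 0 where
  lt := by intro x hx; simp
  inj := by intro x hx y hy _; omega
  ln := by omega
  pl := rfl

theorem fish_one : FishP 1 (fun _ => 0) := by
  intro x y h1 h2
  omega

theorem alF_one (x : ℕ) : alF 1 (fun _ => 0) x := by
  intro h1 y h2 h3
  omega

theorem card_2431 (m : ℕ) :
    Nat.card {σ : Equiv.Perm (Fin (m + 1)) // P2431.Good (m + 1) (pos σ)} =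
      Nb a1 m [true, false] := by
  have hG : P2431.Good 1 (fun _ => 0) := ⟨fish_one, fun a b c d _ _ _ _ => by omega⟩
  rw [card_good' P2431.Good (fun n p l v h hv hg => ((P2431.good_app h hv).mp hg).1) hG,
    P2431.main m 1 _ 0 valid_one hG]
  congr 1
  have hal : ∀ x, P2431.al 1 (fun _ => 0) x := fun x => ⟨alF_one x, fun b c d _ _ _ _ => by omega⟩
  rw [Sg_pos (by omega) (hal 1), Sg_pos (by omega) (hal 0), Sg,
    P2431.fl_true.mpr ⟨by omega, fun b d _ _ _ _ => by omega⟩,
    P2431.fl_false.mpr (by rintro ⟨h, _⟩; omega)]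

theorem card_3241 (m : ℕ) :
    Nat.card {σ : Equiv.Perm (Fin (m + 1)) // P3241.Good (m + 1) (pos σ)} =
      Nb a2 m [true, false] := by
  have hG : P3241.Good 1 (fun _ => 0) := ⟨fish_one, fun a b c d _ _ _ _ => by omega⟩
  rw [card_good' P3241.Good (fun n p l v h hv hg => ((P3241.good_app h hv).mp hg).1) hG,
    P3241.main m 1 _ 0 valid_one hG]
  congr 1
  have hal : ∀ x, P3241.al 1 (fun _ => 0) x := fun x => ⟨alF_one x, fun b c d _ _ _ _ => by omega⟩
  rw [Sg_pos (by omega) (hal 1), Sg_pos (by omega) (hal 0), Sg,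
    P3241.fl_true.mpr ⟨by omega, Or.inl rfl⟩,
    P3241.fl_false.mpr (by rintro ⟨h, _⟩; omega)]

theorem card_2413 (m : ℕ) :
    Nat.card {σ : Equiv.Perm (Fin (m + 1)) // P2413.Good (m + 1) (pos σ)} =
      Nb a1 m [true, false] := by
  classical
  have hG : P2413.Good 1 (fun _ => 0) := ⟨fish_one, fun a b c d _ _ _ _ => by omega⟩
  rw [card_good' P2413.Good (fun n p l v h hv hg => ((P2413.good_app h hv).mp hg).1) hG,
    P2413.main m 1 _ 0 valid_one hG]
  congr 1
  have hal : ∀ x, P2413.al 1 (fun _ => 0) x := fun x => ⟨alF_one x, fun b c d _ _ _ _ => by omega⟩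
  have h0 : P2413.cv 1 (fun _ => 0) 0 1 = 0 := by
    unfold P2413.cv
    rw [Nat.count_succ, Nat.count_zero, if_neg]
    rintro ⟨_, h⟩
    exact h (fun b d _ _ _ _ => by omega)
  rw [Sg_pos (by omega) (hal 1), Sg_le (by omega), h0, Nat.count_succ, Nat.count_zero,
    if_pos (hal 0)]
  rfl

/-! ### patterns -/

theorem contains_iff4 {n : ℕ} (π : Equiv.Perm (Fin n)) (σ : Fin 4 → ℕ) :
    Contains π σ ↔ ∃ i0 i1 i2 i3 : Fin n, i0 < i1 ∧ i1 < i2 ∧ i2 < i3 ∧
      ∀ j k, σ j < σ k ↔ π (![i0, i1, i2, i3] j) < π (![i0, i1, i2, i3] k) := by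
  constructor
  · rintro ⟨f, hf⟩
    refine ⟨f 0, f 1, f 2, f 3, ?_, ?_, ?_, ?_⟩
    · exact f.strictMono (by decide)
    · exact f.strictMono (by decide)
    · exact f.strictMono (by decide)
    · intro j k
      have : ∀ j, (![f 0, f 1, f 2, f 3] : Fin 4 → Fin n) j = f j := by
        intro j; fin_cases j <;> rfl
      rw [this, this]
      exact hf j k
  · rintro ⟨i0, i1, i2, i3, h01, h12, h23, H⟩
    refine ⟨OrderEmbedding.ofStrictMono ![i0, i1, i2, i3] ?_, ?_⟩
    · rw [Fin.strictMono_iff_lt_succ]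
      intro i
      fin_cases i
      · exact h01
      · exact h12
      · exact h23
    · intro j k
      simpa using H j k

theorem isFishburn_iff {n : ℕ} (π : Equiv.Perm (Fin n)) : IsFishburn π ↔ FishP n (pos π) := by
  unfold IsFishburn FishP
  constructor
  · intro H x y hxy hy he
    by_contra hc
    have hx1 : x + 1 < n := by omega
    have hx : x < n := by omega
    rw [pos_of_lt π hy, pos_of_lt π hx1] at he
    rw [pos_of_lt π hx, pos_of_lt π hx1] at hc
    apply H
    refine ⟨π.symm ⟨x + 1, hx1⟩, π.symm ⟨y, hy⟩, π.symm ⟨x, hx⟩, he, ?_, ?_, ?_, ?_⟩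
    · rw [Fin.lt_def]
      have h1 : π.symm ⟨x + 1, hx1⟩ ≠ π.symm ⟨x, hx⟩ := by
        intro h; have := π.symm.injective h; simp at this
      have h2 : π.symm ⟨y, hy⟩ ≠ π.symm ⟨x, hx⟩ := by
        intro h; have := π.symm.injective h; simp at this; omega
      have h1' := fun h => h1 (Fin.ext h)
      have h2' := fun h => h2 (Fin.ext h)
      omega
    · simp
    · simp [hxy]
    · simp
  · rintro H ⟨i, i', j, h1, h2, h3, h4, h5⟩
    have h6 := H (π j).val (π i').val (by rw [← h5]; exact h4) (Fin.isLt _)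
      (by rw [← h5, pos_apply, pos_apply, h1])
    rw [← h5, pos_apply, pos_apply] at h6
    rw [Fin.lt_def] at h2
    omega

theorem av_2431 {n : ℕ} (π : Equiv.Perm (Fin n)) :
    ¬ Contains π ![2, 4, 3, 1] ↔ P2431.Av n (pos π) := by
  constructor
  · rintro H a b c d hab hbc hcd hd ⟨e1, e2, e3⟩
    apply H
    rw [contains_iff4]
    rw [pos_of_lt π (by omega), pos_of_lt π (by omega)] at e1 e2 e3
    refine ⟨π.symm ⟨b, by omega⟩, π.symm ⟨d, by omega⟩, π.symm ⟨c, by omega⟩,
      π.symm ⟨a, by omega⟩, e1, e2, e3, ?_⟩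
    intro j k
    fin_cases j <;> fin_cases k <;> simp <;> omega
  · intro H hC
    rw [contains_iff4] at hC
    obtain ⟨i0, i1, i2, i3, h01, h12, h23, hσ⟩ := hC
    have e1 := (hσ 3 0).mp (by decide)
    have e2 := (hσ 0 2).mp (by decide)
    have e3 := (hσ 2 1).mp (by decide)
    apply H _ _ _ _ e1 e2 e3 (Fin.isLt _)
    simp only [pos_apply]
    exact ⟨h01, h12, h23⟩

theorem av_2413 {n : ℕ} (π : Equiv.Perm (Fin n)) :
    ¬ Contains π ![2, 4, 1, 3] ↔ P2413.Av n (pos π) := by
  constructor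
  · rintro H a b c d hab hbc hcd hd ⟨e1, e2, e3⟩
    apply H
    rw [contains_iff4]
    rw [pos_of_lt π (by omega), pos_of_lt π (by omega)] at e1 e2 e3
    refine ⟨π.symm ⟨b, by omega⟩, π.symm ⟨d, by omega⟩, π.symm ⟨a, by omega⟩,
      π.symm ⟨c, by omega⟩, e1, e2, e3, ?_⟩
    intro j k
    fin_cases j <;> fin_cases k <;> simp <;> omega
  · intro H hC
    rw [contains_iff4] at hC
    obtain ⟨i0, i1, i2, i3, h01, h12, h23, hσ⟩ := hC
    have e1 := (hσ 2 0).mp (by decide)
    have e2 := (hσ 0 3).mp (by decide)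
    have e3 := (hσ 3 1).mp (by decide)
    apply H _ _ _ _ e1 e2 e3 (Fin.isLt _)
    simp only [pos_apply]
    exact ⟨h01, h12, h23⟩

theorem av_3241 {n : ℕ} (π : Equiv.Perm (Fin n)) :
    ¬ Contains π ![3, 2, 4, 1] ↔ P3241.Av n (pos π) := by
  constructor
  · rintro H a b c d hab hbc hcd hd ⟨e1, e2, e3⟩
    apply H
    rw [contains_iff4]
    rw [pos_of_lt π (by omega), pos_of_lt π (by omega)] at e1 e2 e3
    refine ⟨π.symm ⟨c, by omega⟩, π.symm ⟨b, by omega⟩, π.symm ⟨d, by omega⟩,
      π.symm ⟨a, by omega⟩, e1, e2, e3, ?_⟩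
    intro j k
    fin_cases j <;> fin_cases k <;> simp <;> omega
  · intro H hC
    rw [contains_iff4] at hC
    obtain ⟨i0, i1, i2, i3, h01, h12, h23, hσ⟩ := hC
    have e1 := (hσ 3 1).mp (by decide)
    have e2 := (hσ 1 0).mp (by decide)
    have e3 := (hσ 0 2).mp (by decide)
    apply H _ _ _ _ e1 e2 e3 (Fin.isLt _)
    simp only [pos_apply]
    exact ⟨h01, h12, h23⟩

theorem card_of_iff {n k : ℕ} (σ : Fin k → ℕ) (Q : (ℕ → ℕ) → Prop)
    (h : ∀ π : Equiv.Perm (Fin n), ¬ Contains π σ ↔ Q (pos π)) :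
    (FishburnAvoiding n σ).ncard =
      Nat.card {π : Equiv.Perm (Fin n) // FishP n (pos π) ∧ Q (pos π)} := by
  rw [← Nat.card_coe_set_eq]
  apply Nat.card_congr
  apply Equiv.subtypeEquivRight
  intro π
  show (IsFishburn π ∧ ¬ Contains π σ) ↔ _
  rw [isFishburn_iff, h]

theorem fish_main (n : ℕ) :
    (FishburnAvoiding n ![2, 4, 1, 3]).ncard = (FishburnAvoiding n ![2, 4, 3, 1]).ncard ∧
    (FishburnAvoiding n ![2, 4, 3, 1]).ncard = (FishburnAvoiding n ![3, 2, 4, 1]).ncard := by
  rw [card_of_iff _ _ av_2413, card_of_iff _ _ av_2431, card_of_iff _ _ av_3241]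
  cases n with
  | zero =>
    have h1 : ∀ π : Equiv.Perm (Fin 0), P2413.Av 0 (pos π) := fun π a b c d _ _ _ h => by omega
    have h2 : ∀ π : Equiv.Perm (Fin 0), P2431.Av 0 (pos π) := fun π a b c d _ _ _ h => by omega
    have h3 : ∀ π : Equiv.Perm (Fin 0), P3241.Av 0 (pos π) := fun π a b c d _ _ _ h => by omega
    simp only [h1, h2, h3, and_self]
  | succ m =>
    have e1 := card_2413 m
    have e2 := card_2431 m
    have e3 := card_3241 m
    unfold P2413.Good at e1
    unfold P2431.Good at e2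
    unfold P3241.Good at e3
    rw [e1, e2, e3, Nb_eq]
    exact ⟨rfl, rfl⟩

end Fish41
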