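import Pool.Agent.Helper41.FishGen

/-!
Algebraic analysis of the first generating tree.
-/

namespace Fish41

open PowerSeries Finset

/-- The coefficient ring `ℤ[z]⟦X⟧`. -/
abbrev SS := PowerSeries (Polynomial ℤ)

/-- The variable `z` of the coefficient ring. -/
noncomputable def zz : SS := PowerSeries.C (Polynomial.X : Polynomial ℤ)

/-- Evaluation at `z = 1`. -/
noncomputable def ph : SS →+* SS :=
  PowerSeries.map ((Polynomial.C : ℤ →+* Polynomial ℤ).comp (Polynomial.evalRingHom (1 : ℤ)))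

@[simp] theorem ph_zz : ph zz = 1 := by
  simp [ph, zz]

@[simp] theorem ph_X : ph (X : SS) = X := by
  simp [ph]

theorem ph_ph (f : SS) : ph (ph f) = ph f := by
  ext1 k
  simp [ph]

/-- The weight of a list of parts. -/
def wt (l : List ℕ) : ℕ := (l.map (· + 1)).sum

@[simp] theorem wt_nil : wt [] = 0 := rfl
@[simp] theorem wt_cons (r : ℕ) (l : List ℕ) : wt (r :: l) = r + 1 + wt l := by
  simp [wt]

theorem list_range_sum {M : Type*} [AddCommMonoid M] (f : ℕ → M) (n : ℕ) :
    ((List.range n).map f).sum = ∑ i ∈ range n, f i := by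
  induction n with
  | zero => simp
  | succ n ih => rw [List.range_succ, Finset.sum_range_succ]; simp [ih]

/-- The first generating tree. -/
def c1 (x : ℕ × List ℕ) : List (ℕ × List ℕ) :=
  match x with
  | (s, []) => (List.range s).map (fun t => (1, [t])) ++ [(s, [])]
  | (s, r :: l) => (c1 (s, l)).map (fun x => (x.1, r :: x.2)) ++ [(s + wt (r :: l), [])] ++
      (List.range r).map (fun u => (1, [u]))
termination_by x.2.length

theorem c1_nil {M : Type*} [AddCommMonoid M] (f : ℕ × List ℕ → M) (s : ℕ) :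
    ((c1 (s, [])).map f).sum = ∑ t ∈ range s, f (1, [t]) + f (s, []) := by
  rw [c1]
  simp [← list_range_sum, Function.comp_def]

theorem c1_cons {M : Type*} [AddCommMonoid M] (f : ℕ × List ℕ → M) (s r : ℕ) (l : List ℕ) :
    ((c1 (s, r :: l)).map f).sum = ((c1 (s, l)).map (fun x => f (x.1, r :: x.2))).sum +
      f (s + wt (r :: l), []) + ∑ u ∈ range r, f (1, [u]) := by
  rw [c1]
  simp [← list_range_sum, Function.comp_def, add_assoc]

namespace T1

/-- generating function with weight `z ^ N` -/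
noncomputable def V (x : ℕ × List ℕ) : SS := HH c1 (fun x => zz ^ (x.1 + wt x.2)) x

theorem V_eq (x : ℕ × List ℕ) : V x = zz ^ (x.1 + wt x.2) + X * ((c1 x).map V).sum :=
  HH_eq _ _ _

noncomputable def K (x : ℕ × List ℕ) : SS := HH c1 (fun _ => 1) x

theorem K_eq (x : ℕ × List ℕ) : K x = 1 + X * ((c1 x).map K).sum :=
  HH_eq _ _ _

theorem map_sum_hom {ι : Type*} (l : List ι) (f : SS →+* SS) (g : ι → SS) :
    f ((l.map g).sum) = (l.map (fun i => f (g i))).sum := by
  rw [map_list_sum, List.map_map]; rfl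

theorem ph_V (x : ℕ × List ℕ) : ph (V x) = K x := by
  refine HH_unique c1 (fun _ => 1) (fun x => ph (V x)) K ?_ K_eq x
  intro s
  try dsimp only
  rw [V_eq, map_add, map_mul, map_pow, map_sum_hom]
  simp

/-- The lift of a state. -/
def lft (a : ℕ) : ℕ × List ℕ → ℕ × List ℕ
  | (s, []) => (s + a, [])
  | (s, r :: l) => (s, (r + a) :: l)

noncomputable def E (a : ℕ) : SS := X * ∑ u ∈ range a, V (1, [u])

theorem V_lft (a : ℕ) (x : ℕ × List ℕ) :
    V (lft a x) = zz ^ a * V x + E a * K x := by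
  refine HH_unique c1 (fun x => zz ^ (x.1 + wt x.2 + a) + E a) (fun x => V (lft a x))
    (fun x => zz ^ a * V x + E a * K x) ?_ ?_ x
  · rintro ⟨s, l⟩
    try dsimp only
    rw [V_eq]
    cases l with
    | nil =>
      simp only [lft, c1_nil, wt_nil, E]
      rw [show s + a = a + s from add_comm _ _, Finset.sum_range_add]
      have : ∀ t, a + t = t + a := fun t => add_comm _ _
      simp only [this]
      ring
    | cons r l =>
      simp only [lft, c1_cons, wt_cons, E]
      rw [show r + a = a + r from add_comm _ _, Finset.sum_range_add]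
      have : ∀ t, a + t = t + a := fun t => add_comm _ _
      simp only [this]
      rw [show s + (r + a + 1 + wt l) = s + (r + 1 + wt l) + a by ring]
      try simp only [zero_add, add_zero]
      ring
  · rintro ⟨s, l⟩
    try dsimp only
    rw [V_eq, K_eq]
    rw [List.sum_map_add, List.sum_map_mul_left, List.sum_map_mul_left]
    ring

/-- `H_a` -/
noncomputable def H (a : ℕ) : SS := V (a, [])
noncomputable def F : SS := K (1, [])
noncomputable def Y : SS := (1 - X) * F
noncomputable def Rr : SS := (1 - X) * H 1 - zz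

theorem ph_H1 : ph (H 1) = F := ph_V _

theorem ph_F : ph F = F := by
  rw [← ph_H1, ph_ph]

theorem ph_Y : ph Y = Y := by
  simp [Y, ph_F]

theorem E_eq (a : ℕ) : E a = (1 - X) * H a - zz ^ a := by
  have h := V_eq (a, [])
  rw [c1_nil] at h
  simp only [wt_nil, add_zero] at h
  unfold E H
  linear_combination -h

theorem H_succ (a : ℕ) : H (a + 1) = zz ^ a * H 1 + ((1 - X) * H a - zz ^ a) * F := by
  have h := V_lft a (1, [])
  simp only [lft] at h
  rw [← E_eq]
  unfold H F
  rw [add_comm a 1, h]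

theorem G_eq (a : ℕ) :
    (zz - Y) * ((1 - X) * H (a + 1) - zz ^ (a + 1)) = Rr * (zz ^ (a + 1) - Y ^ (a + 1)) := by
  induction a with
  | zero => simp [Rr]; ring
  | succ a ih =>
    rw [H_succ (a + 1)]
    have : ∀ G : SS, (zz - Y) * G = Rr * (zz ^ (a + 1) - Y ^ (a + 1)) →
        (zz - Y) * ((1 - X) * (zz ^ (a + 1) * H 1 + G * F) - zz ^ (a + 1 + 1)) =
        Rr * (zz ^ (a + 1 + 1) - Y ^ (a + 1 + 1)) := by
      intro G hG
      have h2 : (1 - X) * F = Y := rfl
      have h3 : (1 - X) * H 1 = Rr + zz := by unfold Rr; ring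
      rw [pow_succ zz (a + 1), pow_succ Y (a + 1)]
      linear_combination (1 - X) * F * hG + Rr * (zz ^ (a + 1) - Y ^ (a + 1)) * h2 +
        (zz - Y) * zz ^ (a + 1) * h3
    exact this _ ih

noncomputable def Ps (x : ℕ × List ℕ) : SS := HH c1 (fun x => H (x.1 + wt x.2 + 1)) x

theorem Ps_eq (x : ℕ × List ℕ) : Ps x = H (x.1 + wt x.2 + 1) + X * ((c1 x).map Ps).sum :=
  HH_eq _ _ _

noncomputable def KY (x : ℕ × List ℕ) : SS := HH c1 (fun x => Y ^ (x.1 + wt x.2)) x

theorem KY_eq (x : ℕ × List ℕ) : KY x = Y ^ (x.1 + wt x.2) + X * ((c1 x).map KY).sum :=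
  HH_eq _ _ _

theorem ph_KY (x : ℕ × List ℕ) : ph (KY x) = KY x := by
  refine HH_unique c1 (fun x => Y ^ (x.1 + wt x.2)) (fun x => ph (KY x)) KY ?_ KY_eq x
  intro s
  try dsimp only
  rw [KY_eq, map_add, map_mul, map_pow, map_sum_hom, ph_Y]
  simp

theorem Ps_val (x : ℕ × List ℕ) : (zz - Y) * (1 - X) * Ps x =
    ((zz - Y) * zz + Rr * zz) * V x - Rr * Y * KY x := by
  refine HH_unique c1 (fun x => (zz - Y) * (1 - X) * H (x.1 + wt x.2 + 1))
    (fun x => (zz - Y) * (1 - X) * Ps x)
    (fun x => ((zz - Y) * zz + Rr * zz) * V x - Rr * Y * KY x) ?_ ?_ x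
  · intro x
    try dsimp only
    rw [Ps_eq, List.sum_map_mul_left]
    ring
  · intro x
    try dsimp only
    rw [V_eq, KY_eq]
    have : ((c1 x).map (fun i => ((zz - Y) * zz + Rr * zz) * V i - Rr * Y * KY i)).sum
        = ((zz - Y) * zz + Rr * zz) * ((c1 x).map V).sum - Rr * Y * ((c1 x).map KY).sum := by
      have h0 : (fun i => ((zz - Y) * zz + Rr * zz) * V i - Rr * Y * KY i) =
          fun i => ((zz - Y) * zz + Rr * zz) * V i + (-(Rr * Y)) * KY i := by
        funext i; ring
      rw [h0, List.sum_map_add, List.sum_map_mul_left, List.sum_map_mul_left]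
      ring
    rw [this]
    have h := G_eq (x.1 + wt x.2)
    rw [pow_succ zz, pow_succ Y] at h
    linear_combination (-1 : SS) * h

theorem X1_eq (x : ℕ × List ℕ) : V (x.1, 0 :: x.2) = zz * V x + X * Ps x := by
  refine HH_unique c1 (fun x => zz ^ (x.1 + wt x.2 + 1) + X * H (x.1 + wt x.2 + 1))
    (fun x => V (x.1, 0 :: x.2))
    (fun x => zz * V x + X * Ps x) ?_ ?_ x
  · intro x
    try dsimp only
    rw [V_eq, c1_cons]
    simp only [wt_cons, range_zero, sum_empty, zero_add, add_zero]
    rw [show x.1 + (1 + wt x.2) = x.1 + wt x.2 + 1 by ring]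
    unfold H
    ring
  · intro x
    try dsimp only
    rw [V_eq, Ps_eq]
    rw [List.sum_map_add, List.sum_map_mul_left, List.sum_map_mul_left]
    ring

theorem Rr_eq : Rr = X * V (1, [0]) := by
  have h := E_eq 1
  unfold E at h
  simp at h
  unfold Rr
  rw [h]

theorem eq_b : (zz - Y) * (1 - X) * (Rr - X * zz * H 1) =
    X ^ 2 * ((zz - Y + Rr) * zz * H 1 - Rr * Y * KY (1, [])) := by
  have h1 := X1_eq (1, [])
  have h2 := Ps_val (1, [])
  have h3 := Rr_eq
  simp only at h1
  unfold H
  linear_combination (zz - Y) * (1 - X) * h3 + (zz - Y) * (1 - X) * X * h1 + X ^ 2 * h2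

theorem Y_ne : (1 : SS) - Y ≠ 0 := by
  have h := congrArg ph Rr_eq
  rw [map_mul, ph_X, ph_V] at h
  have h1 : ph Rr = Y - 1 := by
    simp [Rr, ph_H1, Y]
  rw [h1] at h
  intro h0
  have h2 : X * K (1, [0]) = 0 := by rw [← h]; linear_combination -h0
  have h3 : K (1, [0]) = 0 := by
    rcases mul_eq_zero.mp h2 with h | h
    · exact absurd h PowerSeries.X_ne_zero
    · exact h
  have h4 : coeff 0 (K (1, [0])) = 1 := by
    unfold K
    rw [HH_coeff_zero]; simp
  rw [h3] at h4
  simp at h4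

theorem oneX_ne : (1 : SS) - X ≠ 0 := by
  intro h
  have := congrArg (coeff 0) h
  simp at this

theorem eq_K : X ^ 2 * (Y * KY (1, [])) = (1 - X) * (Y - 1 - X * F) := by
  have h := congrArg ph eq_b
  have h1 : ph Rr = Y - 1 := by
    simp [Rr, ph_H1, Y]
  simp only [map_mul, map_sub, map_add, map_pow, map_one, ph_X, ph_zz, ph_Y, ph_H1, ph_KY, h1]
    at h
  have h2 : (1 - Y) * ((1 - X) * (Y - 1 - X * F)) = (1 - Y) * (X ^ 2 * (Y * KY (1, []))) := by
    linear_combination h
  exact (mul_left_cancel₀ Y_ne h2).symm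

/-- The polynomial equation satisfied by the generating function. -/
theorem main : (zz - (1 + X * F)) * ((1 - X) * H 1 - zz) + X * zz * (F - zz) * H 1 =
    X ^ 2 * zz * (H 1) ^ 2 := by
  have h := eq_b
  have h2 := eq_K
  have hY : Y = (1 - X) * F := rfl
  have hR : Rr = (1 - X) * H 1 - zz := rfl
  apply mul_left_cancel₀ oneX_ne
  have h3 : (1 - X) * Rr * (zz - (1 + X * F)) = X * zz * H 1 * (zz - Y) +
      X ^ 2 * zz * H 1 * Rr := by
    linear_combination h - Rr * h2
  rw [hR, hY] at h3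
  linear_combination h3

end T1

end Fish41
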