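import Pool.Agent.Helper41.FishT1
import Pool.Agent.Helper41.FishEv

/-!
Algebraic analysis of the second generating tree.
-/

namespace Fish41

open PowerSeries Finset

/-- The second generating tree. -/
def c2 (x : ℕ × List ℕ) : List (ℕ × List ℕ) :=
  match x with
  | (a, []) => (List.range (a + 1)).map (fun k => (k, [a - k])) ++ [(a, [])]
  | (a, c :: l) => (c2 (a, l)).map (fun x => (x.1, c :: x.2)) ++
      (List.range c).map (fun k => (k + 1, [c - 1 - k])) ++ [(c + 1, [])]
termination_by x.2.length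

theorem c2_nil {M : Type*} [AddCommMonoid M] (f : ℕ × List ℕ → M) (a : ℕ) :
    ((c2 (a, [])).map f).sum = ∑ k ∈ range (a + 1), f (k, [a - k]) + f (a, []) := by
  rw [c2]
  simp only [List.map_append, List.sum_append, List.map_map, ← list_range_sum]
  simp [Function.comp_def]

theorem c2_cons {M : Type*} [AddCommMonoid M] (f : ℕ × List ℕ → M) (a c : ℕ) (l : List ℕ) :
    ((c2 (a, c :: l)).map f).sum = ((c2 (a, l)).map (fun x => f (x.1, c :: x.2))).sum +
      (∑ k ∈ range c, f (k + 1, [c - 1 - k]) + f (c + 1, [])) := by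
  rw [c2]
  simp only [List.map_append, List.sum_append, List.map_map, ← list_range_sum]
  simp [Function.comp_def, add_assoc]

namespace T2

/-- generating function with weight `z ^ N` -/
noncomputable def V (x : ℕ × List ℕ) : SS := HH c2 (fun x => zz ^ (x.1 + wt x.2 + 1)) x

theorem V_eq (x : ℕ × List ℕ) : V x = zz ^ (x.1 + wt x.2 + 1) + X * ((c2 x).map V).sum :=
  HH_eq _ _ _

noncomputable def K (x : ℕ × List ℕ) : SS := HH c2 (fun _ => 1) x

theorem K_eq (x : ℕ × List ℕ) : K x = 1 + X * ((c2 x).map K).sum :=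
  HH_eq _ _ _

theorem ph_V (x : ℕ × List ℕ) : ph (V x) = K x := by
  refine HH_unique c2 (fun _ => 1) (fun x => ph (V x)) K ?_ K_eq x
  intro s
  rw [V_eq, map_add, map_mul, map_pow, T1.map_sum_hom]
  simp

noncomputable def Ex (c : ℕ) : SS := X * (∑ k ∈ range c, V (k + 1, [c - 1 - k]) + V (c + 1, []))

theorem V_cons (c : ℕ) (x : ℕ × List ℕ) :
    V (x.1, c :: x.2) = zz ^ (c + 1) * V x + Ex c * K x := by
  refine HH_unique c2 (fun x => zz ^ (x.1 + wt x.2 + 1 + (c + 1)) + Ex c)
    (fun x => V (x.1, c :: x.2))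
    (fun x => zz ^ (c + 1) * V x + Ex c * K x) ?_ ?_ x
  · rintro ⟨s, l⟩
    dsimp only
    rw [V_eq, c2_cons]
    simp only [wt_cons, Ex]
    ring
  · rintro ⟨s, l⟩
    dsimp only
    rw [V_eq, K_eq]
    rw [List.sum_map_add, List.sum_map_mul_left, List.sum_map_mul_left]
    ring

noncomputable def U (n : ℕ) : SS := V (n, [])
noncomputable def u (n : ℕ) : SS := K (n, [])

theorem ph_U (n : ℕ) : ph (U n) = u n := ph_V _

theorem ph_u (n : ℕ) : ph (u n) = u n := by rw [← ph_U, ph_ph]

theorem V_one (k b : ℕ) : V (k, [b]) = zz ^ (b + 1) * U k + Ex b * u k :=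
  V_cons b (k, [])

theorem U_eq (n : ℕ) : (1 - X) * U n = zz ^ (n + 1) + X * ∑ k ∈ range (n + 1), V (k, [n - k]) := by
  have h := V_eq (n, [])
  rw [c2_nil] at h
  simp only [wt_nil, add_zero] at h
  unfold U
  linear_combination h

theorem U_eq' (n : ℕ) : (1 - X) * U n = zz ^ (n + 1) +
    X * ∑ p ∈ antidiagonal n, (zz ^ (p.2 + 1) * U p.1 + Ex p.2 * u p.1) := by
  rw [U_eq, Finset.Nat.sum_antidiagonal_eq_sum_range_succ_mk]
  congr 2
  apply Finset.sum_congr rfl
  intro k _
  exact V_one k (n - k)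

theorem Ex_eq (c : ℕ) : Ex c * (1 + X * u 0) =
    (1 - X) * U c - zz ^ (c + 1) * (1 + X * U 0) + X * U (c + 1) := by
  have h := U_eq c
  rw [Finset.sum_range_succ'] at h
  have h1 : ∑ k ∈ range c, V (k + 1, [c - (k + 1)]) = ∑ k ∈ range c, V (k + 1, [c - 1 - k]) := by
    apply Finset.sum_congr rfl
    intro k _
    rw [show c - (k + 1) = c - 1 - k by omega]
  rw [h1, Nat.sub_zero, V_one 0 c] at h
  have h2 : Ex c = X * (∑ k ∈ range c, V (k + 1, [c - 1 - k]) + V (c + 1, [])) := rfl
  have h3 : V (c + 1, []) = U (c + 1) := rfl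
  rw [h3] at h2
  linear_combination h2 - h

/-- series in `y` -/
noncomputable def A : PowerSeries SS := PowerSeries.mk U
noncomputable def a1 : PowerSeries SS := PowerSeries.mk u
noncomputable def W : PowerSeries SS := PowerSeries.mk Ex
noncomputable def w1 : PowerSeries SS := PowerSeries.mk (fun n => ph (Ex n))
noncomputable def Z : PowerSeries SS := PowerSeries.mk (fun n => zz ^ (n + 1))
noncomputable def Z1 : PowerSeries SS := PowerSeries.mk (fun _ => 1)

section aux

variable {R : Type*} [CommRing R]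

theorem ser_conv (A Z a W : ℕ → R) (e x : R)
    (h : ∀ n, e * A n = Z n + x * ∑ p ∈ antidiagonal n, (Z p.2 * A p.1 + W p.2 * a p.1)) :
    C e * PowerSeries.mk A = PowerSeries.mk Z +
      C x * (PowerSeries.mk A * PowerSeries.mk Z + PowerSeries.mk a * PowerSeries.mk W) := by
  ext n
  rw [map_add, coeff_C_mul, coeff_C_mul, map_add, coeff_mul, coeff_mul, coeff_mk, coeff_mk, h n,
    ← Finset.sum_add_distrib]
  congr 2
  apply Finset.sum_congr rfl
  intro p _
  rw [coeff_mk, coeff_mk, coeff_mk, coeff_mk]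
  ring

theorem ser_shift (W A Z : ℕ → R) (c d e x : R)
    (h : ∀ n, W n * c = e * A n - Z n * d + x * A (n + 1)) :
    X * (PowerSeries.mk W * C c) =
      X * (C e * PowerSeries.mk A - PowerSeries.mk Z * C d) +
        C x * (PowerSeries.mk A - C (A 0)) := by
  ext n
  cases n with
  | zero => simp
  | succ n =>
    rw [map_add, coeff_succ_X_mul, coeff_succ_X_mul, coeff_mul_C, map_sub, coeff_C_mul,
      coeff_mul_C, coeff_C_mul, map_sub, coeff_C, coeff_mk, coeff_mk, coeff_mk, coeff_mk, h n]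
    simp

end aux

theorem s1 : C (1 - X) * A = Z + C (X : SS) * (A * Z + a1 * W) := by
  apply ser_conv
  intro n
  exact U_eq' n

theorem s1' : C (1 - X) * a1 = Z1 + C (X : SS) * (a1 * Z1 + a1 * w1) := by
  apply ser_conv
  intro n
  have h := congrArg ph (U_eq' n)
  simp only [map_mul, map_sub, map_add, map_pow, map_sum, map_one, ph_zz, ph_X, ph_U, ph_u,
    one_pow] at h
  exact h

theorem s2 : X * (W * C (1 + X * u 0)) =
    X * (C (1 - X) * A - Z * C (1 + X * U 0)) + C X * (A - C (U 0)) := by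
  apply ser_shift
  intro n
  exact Ex_eq n

theorem s2' : X * (w1 * C (1 + X * u 0)) =
    X * (C (1 - X) * a1 - Z1 * C (1 + X * u 0)) + C X * (a1 - C (u 0)) := by
  apply ser_shift
  intro n
  have h := congrArg ph (Ex_eq n)
  simp only [map_mul, map_sub, map_add, map_pow, map_one, ph_zz, ph_X, ph_U, ph_u,
    one_pow] at h
  exact h

theorem s3 : (1 - C zz * X) * Z = C (zz) := by
  ext1 n
  rw [sub_mul, one_mul, mul_assoc, map_sub, coeff_C_mul]
  cases n with
  | zero => simp [Z]
  | succ n =>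
    rw [coeff_succ_X_mul, coeff_C, if_neg (by omega)]
    simp [Z]; ring

theorem s3' : (1 - X) * Z1 = 1 := by
  ext1 n
  rw [sub_mul, one_mul, map_sub]
  cases n with
  | zero => simp [Z1]
  | succ n =>
    rw [coeff_succ_X_mul, coeff_one, if_neg (by omega)]
    simp [Z1]

/-- `U 0 = z * B`. -/
noncomputable def B : SS := HH c2 (fun x => zz ^ (x.1 + wt x.2)) (0, [])

theorem U0_eq : U 0 = zz * B := by
  refine HH_unique c2 (fun x => zz ^ (x.1 + wt x.2 + 1)) V
    (fun x => zz * HH c2 (fun x => zz ^ (x.1 + wt x.2)) x) V_eq ?_ (0, [])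
  intro x
  rw [HH_eq, List.sum_map_mul_left]
  ring

noncomputable def C2 : SS := HH c2 (fun x => zz ^ (x.1 + wt x.2 - 1)) (1, [])

theorem c2_closed : ∀ (l : List ℕ) (s : ℕ), 1 ≤ s + wt l →
    ∀ t ∈ c2 (s, l), 1 ≤ t.1 + wt t.2 := by
  intro l
  induction l with
  | nil =>
    intro s hs t ht
    rw [c2] at ht
    simp only [wt_nil, add_zero] at hs
    simp only [List.mem_append, List.mem_map, List.mem_range, List.mem_singleton] at ht
    rcases ht with ⟨k, hk, rfl⟩ | rfl
    · simp only [wt_cons, wt_nil]; omega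
    · simp; omega
  | cons c l ih =>
    intro s hs t ht
    rw [c2] at ht
    simp only [List.mem_append, List.mem_map, List.mem_range, List.mem_singleton] at ht
    rcases ht with (⟨x, _, rfl⟩ | ⟨k, hk, rfl⟩) | rfl
    · simp only [wt_cons]; omega
    · simp only [wt_cons]; omega
    · simp only [wt_nil]; omega

theorem U1_eq : U 1 = zz ^ 2 * C2 := by
  refine HH_unique_on c2 (fun x => 1 ≤ x.1 + wt x.2) (fun x hx => c2_closed x.2 x.1 hx)
    (fun x => zz ^ (x.1 + wt x.2 + 1)) V
    (fun x => zz ^ 2 * HH c2 (fun x => zz ^ (x.1 + wt x.2 - 1)) x) (fun x _ => V_eq x) ?_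
    (1, []) (by simp)
  intro x hx
  rw [HH_eq, List.sum_map_mul_left]
  rw [mul_add, ← pow_add, show 2 + (x.1 + wt x.2 - 1) = x.1 + wt x.2 + 1 by omega]
  ring

theorem zz_ne : zz ≠ 0 := by
  intro h
  have := congrArg (coeff 0) h
  simp [zz] at this

theorem B_rel : (1 - X - X * zz) * B = 1 + X ^ 2 * u 0 * zz * C2 := by
  have h1 := U_eq 0
  rw [zero_add, Finset.sum_range_one, Nat.sub_zero, V_one] at h1
  have h2 : Ex 0 = X * U 1 := by simp [Ex, U]
  rw [h2, U1_eq, U0_eq] at h1
  apply mul_left_cancel₀ zz_ne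
  linear_combination h1

theorem B_unit : IsUnit B := by
  rw [PowerSeries.isUnit_iff_constantCoeff]
  rw [← coeff_zero_eq_constantCoeff_apply, B, HH_coeff_zero]
  simp

theorem oneX_unit : IsUnit ((1 : SS) - X) := by
  rw [PowerSeries.isUnit_iff_constantCoeff]
  simp

theorem exists_eta : ∃ η : SS, (X ∣ η) ∧ (1 - X) * B * η = X ^ 2 * u 0 * C2 := by
  obtain ⟨b, hb⟩ := B_unit.exists_right_inv
  obtain ⟨c, hc⟩ := oneX_unit.exists_right_inv
  refine ⟨X ^ 2 * u 0 * C2 * b * c, ⟨X * u 0 * C2 * b * c, by ring⟩, ?_⟩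
  linear_combination (X ^ 2 * u 0 * C2 * (1 - X) * c) * hb + (X ^ 2 * u 0 * C2) * hc

theorem u0_ne : u 0 ≠ 0 := by
  intro h
  have h1 : coeff 0 (u 0) = 1 := by unfold u K; rw [HH_coeff_zero]; simp
  rw [h] at h1; simp at h1

theorem B_ne : B ≠ 0 := by
  intro h
  have h1 : coeff 0 B = 1 := by unfold B; rw [HH_coeff_zero]; simp
  rw [h] at h1; simp at h1

theorem C2_ne : C2 ≠ 0 := by
  intro h
  have h1 : coeff 0 C2 = 1 := by unfold C2; rw [HH_coeff_zero]; simp
  rw [h] at h1; simp at h1

theorem c_ne : (1 : SS) + X * u 0 ≠ 0 := by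
  intro h
  have := congrArg (coeff 0) h
  simp at this

/-- The polynomial equation satisfied by the generating function. -/
theorem main : (zz - (1 + X * u 0)) * ((1 - X) * U 0 - zz) + X * zz * (u 0 - zz) * U 0 =
    X ^ 2 * zz * (U 0) ^ 2 := by
  obtain ⟨η, hη, hη2⟩ := exists_eta
  have hB := B_rel
  have hX : (X : SS) ≠ 0 := PowerSeries.X_ne_zero
  -- relation between η and B
  have r0 : zz * ((1 - X) * B * η) = (1 - X - X * zz) * B - 1 := by
    rw [hη2, hB]; ring
  have hη0 : η ≠ 0 := by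
    intro h
    rw [h, mul_zero] at hη2
    have : (X : SS) ^ 2 * u 0 * C2 ≠ 0 :=
      mul_ne_zero (mul_ne_zero (pow_ne_zero _ hX) u0_ne) C2_ne
    exact this hη2.symm
  have hd0 : ∀ d : SS, d = X + (1 - X) * η → d ≠ 0 := by
    intro d hd h0
    rw [hd] at h0
    have h1 : X * B = X * (-(X * u 0 * C2)) := by linear_combination B * h0 - hη2
    have h2 := mul_left_cancel₀ hX h1
    have h3 : coeff 0 B = 1 := by unfold B; rw [HH_coeff_zero]; simp
    rw [h2] at h3
    simp at h3
  -- evaluations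
  have e1 := congrArg (EvHom hη) s1
  have e1' := congrArg (EvHom hη) s1'
  have e2 := congrArg (EvHom hη) s2
  have e2' := congrArg (EvHom hη) s2'
  have e3 := congrArg (EvHom hη) s3
  have e3' := congrArg (EvHom hη) s3'
  have hC : ∀ b : SS, EvHom hη (C b) = b := fun b => Ev_C η b
  have hXX : EvHom hη X = η := Ev_X hη
  simp only [map_mul, map_sub, map_add, map_one, hC, hXX] at e1 e1' e2 e2' e3 e3'
  have hA : EvHom hη A - U 0 ≠ 0 := by
    have h1 : A = C (U 0) + X * PowerSeries.mk (fun n => U (n + 1)) := by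
      ext1 n
      cases n with
      | zero => simp [A]
      | succ n =>
        rw [map_add, coeff_succ_X_mul, coeff_C, if_neg (by omega)]
        simp [A]
    have h2 : EvHom hη A - U 0 = η * EvHom hη (PowerSeries.mk (fun n => U (n + 1))) := by
      conv_lhs => rw [h1]
      rw [map_add, map_mul, hC, hXX]
      ring
    rw [h2]
    apply mul_ne_zero hη0
    intro h3
    have h4 := congrArg (coeff 0) h3
    rw [EvHom_apply, Ev_coeff_zero] at h4
    simp only [coeff_mk, zero_add] at h4
    rw [U, V, HH_coeff_zero] at h4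
    simp [zz] at h4
  generalize EvHom hη A = As at *
  generalize EvHom hη a1 = a at *
  generalize EvHom hη W = Ws at *
  generalize EvHom hη w1 = ws at *
  generalize EvHom hη Z = Zs at *
  generalize EvHom hη Z1 = Z1s at *
  have hc := c_ne
  have hU := U0_eq
  have hB0 := B_ne
  have hz := zz_ne
  generalize u 0 = F at *
  generalize U 0 = U0 at *
  generalize B = B at *
  have k3 : (1 + X * F) * η * Ws = (1 - X) * η * As + X * (As - U0) - η * Zs * (1 + X * U0) := by
    linear_combination e2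
  have k3' : (1 + X * F) * η * ws = (1 - X) * η * a + X * (a - F) - η * Z1s * (1 + X * F) := by
    linear_combination e2'
  -- kernel equation
  have k1 : (((1 - X) * (1 + X * F) * η - X * a * (X + (1 - X) * η)) * (1 - zz * η) -
      X * (1 + X * F) * η * zz) * As = η * zz * ((1 + X * F) - X * a) - X ^ 2 * a * U0 := by
    linear_combination (1 + X * F) * η * (1 - zz * η) * e1 + X * a * (1 - zz * η) * k3 +
      ((1 + X * F) * η + X * (1 + X * F) * η * As - X * a * η * (1 + X * U0)) * e3
  have k2 : (((1 - X) * (1 + X * F) * η - X * a * (X + (1 - X) * η)) * (1 - η) -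
      X * (1 + X * F) * η) * a = η * ((1 + X * F) - X * a) - X ^ 2 * a * F := by
    linear_combination (1 + X * F) * η * (1 - η) * e1' + X * a * (1 - η) * k3' +
      ((1 + X * F) * η + X * (1 + X * F) * η * a - X * a * η * (1 + X * F)) * e3'
  -- the kernel vanishes
  have k4 : (As - U0) * (((1 - X) * (1 + X * F) * η - X * a * (X + (1 - X) * η)) * (1 - zz * η) -
      X * (1 + X * F) * η * zz) = 0 := by
    rw [hU] at k1 ⊢
    linear_combination k1 + zz * η * ((1 + X * F) - X * a) * r0
  have k5 : ((1 - X) * (1 + X * F) * η - X * a * (X + (1 - X) * η)) * (1 - zz * η) -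
      X * (1 + X * F) * η * zz = 0 := by
    rcases mul_eq_zero.mp k4 with h | h
    · exact absurd h hA
    · exact h
  have k6 : η * ((1 + X * F) - X * a) = X ^ 2 * a * B := by
    rw [k5, zero_mul, hU] at k1
    apply mul_left_cancel₀ hz
    linear_combination -k1
  have k7 : X * a * (η + X * B) = (1 + X * F) * η := by linear_combination -k6
  -- elimination of `a`
  have k8 : (η + X * B) * (1 - η) * ((1 - X) * (1 + X * F) * η + X ^ 2 * F) =
      X * (η + X * B) ^ 2 + (X + (1 - X) * η) * (1 - η) * (1 + X * F) * η := by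
    apply mul_left_cancel₀ (mul_ne_zero hc hη0)
    linear_combination X * (η + X * B) ^ 2 * k2 - (η + X * B) * (1 - η) *
      ((1 - X) * (1 + X * F) * η + X ^ 2 * F) * k7 +
      (X + (1 - X) * η) * (1 - η) * (X * a * (η + X * B) + (1 + X * F) * η) * k7
  have k9 : (1 - η) * ((1 - X) * (1 + X * F) * η * B - η + X ^ 2 * F * B) = (η + X * B) ^ 2 := by
    apply mul_left_cancel₀ hX
    linear_combination k8
  obtain ⟨d, hd⟩ : ∃ d, d = X + (1 - X) * η := ⟨_, rfl⟩
  have hdz : zz * B * d = (1 - X) * B - 1 := by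
    rw [hd]; linear_combination r0
  have h_iv : (1 - d) * B * ((d - X) * zz + (1 - X) * X * F) = d * (1 + X * zz * B) ^ 2 := by
    apply mul_left_cancel₀ (hd0 d hd)
    rw [hd] at hdz ⊢
    linear_combination (1 - X) ^ 2 * k9 + ((1 - (X + (1 - X) * η)) * ((X + (1 - X) * η) - X) -
      X * (2 * (X + (1 - X) * η) + X * zz * B * (X + (1 - X) * η) + X * ((1 - X) * B - 1))) * hdz
  apply mul_left_cancel₀ (mul_ne_zero T1.oneX_ne hB0)
  rw [hU]
  linear_combination zz * (zz * B * h_iv - (zz * B - zz * B * d - ((1 - X) * B - 1) -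
    (-X * zz * B + X * F * (1 - X) * B) - (1 + X * zz * B) ^ 2) * hdz)

end T2

end Fish41
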