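import Pool.Agent.Helper20.GracefulCore

/-!
# `P(4N, 4m+1)` is graceful for `5m + 2 ≤ N`, `2 ≤ m`
-/

namespace Pool.Agent.Helper41.Graceful

open Pool.Agent.Helper20.Graceful

/-- labels of the vertices `u_i`, `i < 4 N` -/
def uD (N m i : ℕ) : ℕ :=
  if i % 2 = 0 then
    if i < 2 * N then i / 2
    else if i < 2 * N + 2 then 3 * N - (1)
    else i / 2 - (1)
  else
    12 * N - (i / 2)

/-- labels of the vertices `v_i`, `i < 4 N` -/
def vD (N m i : ℕ) : ℕ :=
  if i % 2 = 0 then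
    if i < 2 * m then 6 * N - (1 + i / 2)
    else if i < 2 * m + 2 then 8 * N + m
    else if i + 2 * m < 2 * N then 8 * N - (i / 2)
    else if i < 2 * N then 6 * N - (2 * m + 1 + i / 2)
    else if i < 2 * N + 2 then 9 * N
    else if i < 2 * N + 2 * m + 2 then 10 * N - (1 + i / 2)
    else if i + 2 * m < 4 * N then 8 * N - (i / 2)
    else 10 * N + 2 * m - (i / 2)
  else
    if i + 4 * m + 1 < 2 * N then 4 * N + 1 + i / 2
    else if i + 4 * m < 2 * N + 1 then 7 * N
    else if i + 2 * m + 1 < 2 * N then 6 * N + 2 * m + 2 + i / 2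
    else if i + 2 * m < 2 * N + 1 then 7 * N + 1 - (m)
    else if i + 2 * m < 4 * N + 1 then 4 * N + i / 2
    else 2 * N + i / 2 - (1)

lemma uD_p0 (N m i : ℕ) (hm : 2 ≤ m) (hN : 5 * m + 2 ≤ N) (hp : i % 2 = 0) (h1 : 0 ≤ i) (h2 : i + 2 ≤ 2 * N) :
    uD N m i = i / 2 := by
  unfold uD; split_ifs <;> omega

lemma uD_p1 (N m i : ℕ) (hm : 2 ≤ m) (hN : 5 * m + 2 ≤ N) (hp : i % 2 = 0) (h1 : 2 * N ≤ i) (h2 : i ≤ 2 * N) :
    uD N m i + 1 = 3 * N := by
  unfold uD; split_ifs <;> omega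

lemma uD_p2 (N m i : ℕ) (hm : 2 ≤ m) (hN : 5 * m + 2 ≤ N) (hp : i % 2 = 0) (h1 : 2 * N + 2 ≤ i) (h2 : i + 2 ≤ 4 * N) :
    uD N m i + 1 = i / 2 := by
  unfold uD; split_ifs <;> omega

lemma uD_p3 (N m i : ℕ) (hm : 2 ≤ m) (hN : 5 * m + 2 ≤ N) (hp : i % 2 = 1) (h1 : 1 ≤ i) (h2 : i + 1 ≤ 4 * N) :
    uD N m i + i / 2 = 12 * N := by
  unfold uD; split_ifs <;> omega

lemma vD_p0 (N m i : ℕ) (hm : 2 ≤ m) (hN : 5 * m + 2 ≤ N) (hp : i % 2 = 0) (h1 : 0 ≤ i) (h2 : i + 2 ≤ 2 * m) :
    vD N m i + 1 + i / 2 = 6 * N := by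
  unfold vD; split_ifs <;> omega

lemma vD_p1 (N m i : ℕ) (hm : 2 ≤ m) (hN : 5 * m + 2 ≤ N) (hp : i % 2 = 0) (h1 : 2 * m ≤ i) (h2 : i ≤ 2 * m) :
    vD N m i = 8 * N + m := by
  unfold vD; split_ifs <;> omega

lemma vD_p2 (N m i : ℕ) (hm : 2 ≤ m) (hN : 5 * m + 2 ≤ N) (hp : i % 2 = 0) (h1 : 2 * m + 2 ≤ i) (h2 : i + 2 * m + 2 ≤ 2 * N) :
    vD N m i + i / 2 = 8 * N := by
  unfold vD; split_ifs <;> omega

lemma vD_p3 (N m i : ℕ) (hm : 2 ≤ m) (hN : 5 * m + 2 ≤ N) (hp : i % 2 = 0) (h1 : 2 * N ≤ i + 2 * m) (h2 : i + 2 ≤ 2 * N) :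
    vD N m i + 2 * m + 1 + i / 2 = 6 * N := by
  unfold vD; split_ifs <;> omega

lemma vD_p4 (N m i : ℕ) (hm : 2 ≤ m) (hN : 5 * m + 2 ≤ N) (hp : i % 2 = 0) (h1 : 2 * N ≤ i) (h2 : i ≤ 2 * N) :
    vD N m i = 9 * N := by
  unfold vD; split_ifs <;> omega

lemma vD_p5 (N m i : ℕ) (hm : 2 ≤ m) (hN : 5 * m + 2 ≤ N) (hp : i % 2 = 0) (h1 : 2 * N + 2 ≤ i) (h2 : i ≤ 2 * N + 2 * m) :
    vD N m i + 1 + i / 2 = 10 * N := by
  unfold vD; split_ifs <;> omega

lemma vD_p6 (N m i : ℕ) (hm : 2 ≤ m) (hN : 5 * m + 2 ≤ N) (hp : i % 2 = 0) (h1 : 2 * N + 2 * m + 2 ≤ i) (h2 : i + 2 * m + 2 ≤ 4 * N) :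
    vD N m i + i / 2 = 8 * N := by
  unfold vD; split_ifs <;> omega

lemma vD_p7 (N m i : ℕ) (hm : 2 ≤ m) (hN : 5 * m + 2 ≤ N) (hp : i % 2 = 0) (h1 : 4 * N ≤ i + 2 * m) (h2 : i + 2 ≤ 4 * N) :
    vD N m i + i / 2 = 10 * N + 2 * m := by
  unfold vD; split_ifs <;> omega

lemma vD_p8 (N m i : ℕ) (hm : 2 ≤ m) (hN : 5 * m + 2 ≤ N) (hp : i % 2 = 1) (h1 : 1 ≤ i) (h2 : i + 4 * m + 3 ≤ 2 * N) :
    vD N m i = 4 * N + 1 + i / 2 := by
  unfold vD; split_ifs <;> omega

lemma vD_p9 (N m i : ℕ) (hm : 2 ≤ m) (hN : 5 * m + 2 ≤ N) (hp : i % 2 = 1) (h1 : 2 * N ≤ i + 4 * m + 1) (h2 : i + 4 * m + 1 ≤ 2 * N) :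
    vD N m i = 7 * N := by
  unfold vD; split_ifs <;> omega

lemma vD_p10 (N m i : ℕ) (hm : 2 ≤ m) (hN : 5 * m + 2 ≤ N) (hp : i % 2 = 1) (h1 : 2 * N + 1 ≤ i + 4 * m) (h2 : i + 2 * m + 3 ≤ 2 * N) :
    vD N m i = 6 * N + 2 * m + 2 + i / 2 := by
  unfold vD; split_ifs <;> omega

lemma vD_p11 (N m i : ℕ) (hm : 2 ≤ m) (hN : 5 * m + 2 ≤ N) (hp : i % 2 = 1) (h1 : 2 * N ≤ i + 2 * m + 1) (h2 : i + 2 * m + 1 ≤ 2 * N) :
    vD N m i + m = 7 * N + 1 := by
  unfold vD; split_ifs <;> omega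

lemma vD_p12 (N m i : ℕ) (hm : 2 ≤ m) (hN : 5 * m + 2 ≤ N) (hp : i % 2 = 1) (h1 : 2 * N + 1 ≤ i + 2 * m) (h2 : i + 2 * m + 1 ≤ 4 * N) :
    vD N m i = 4 * N + i / 2 := by
  unfold vD; split_ifs <;> omega

lemma vD_p13 (N m i : ℕ) (hm : 2 ≤ m) (hN : 5 * m + 2 ≤ N) (hp : i % 2 = 1) (h1 : 4 * N + 1 ≤ i + 2 * m) (h2 : i + 1 ≤ 4 * N) :
    vD N m i + 1 = 2 * N + i / 2 := by
  unfold vD; split_ifs <;> omega

lemma surjD (N m : ℕ) (hm : 2 ≤ m) (hN : 5 * m + 2 ≤ N) (d : ℕ) (hd1 : 1 ≤ d) (hd2 : d ≤ 3 * (4 * N)) :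
    ∃ t : Fin 3, ∃ i < 4 * N, dif (uD N m) (vD N m) (4 * N) (4 * m + 1) t i = d := by
  rcases Nat.mod_two_eq_zero_or_one d with hq | hq
  · by_cases h0_0 : d ≤ 2 * m
    · refine ⟨2, 4 * N - (2 * m + 1 + d), ?_, ?_⟩
      · omega
      · have e1 := vD_p12 N m (4 * N - (2 * m + 1 + d)) hm hN (by omega) (by omega) (by omega)
        have hs : shiftIdx (4 * N) (4 * m + 1) (4 * N - (2 * m + 1 + d)) = (4 * N - (2 * m + 1 + d)) + (4 * m + 1) - 4 * N := by
          unfold shiftIdx; split_ifs <;> omega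
        have e2 := vD_p0 N m ((4 * N - (2 * m + 1 + d)) + (4 * m + 1) - 4 * N) hm hN (by omega) (by omega) (by omega)
        simp only [dif]; rw [hs]; omega
    by_cases h0_1 : d + 2 ≤ 4 * m
    · refine ⟨2, 2 * N - (4 * m + 2 + d), ?_, ?_⟩
      · omega
      · have e1 := vD_p2 N m (2 * N - (4 * m + 2 + d)) hm hN (by omega) (by omega) (by omega)
        have hs : shiftIdx (4 * N) (4 * m + 1) (2 * N - (4 * m + 2 + d)) = (2 * N - (4 * m + 2 + d)) + (4 * m + 1) := by
          unfold shiftIdx; split_ifs <;> omega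
        have e2 := vD_p10 N m ((2 * N - (4 * m + 2 + d)) + (4 * m + 1)) hm hN (by omega) (by omega) (by omega)
        simp only [dif]; rw [hs]; omega
    by_cases h0_2 : d ≤ 4 * m
    · refine ⟨2, 2 * N - (6 * m + 2), ?_, ?_⟩
      · omega
      · have e1 := vD_p2 N m (2 * N - (6 * m + 2)) hm hN (by omega) (by omega) (by omega)
        have hs : shiftIdx (4 * N) (4 * m + 1) (2 * N - (6 * m + 2)) = (2 * N - (6 * m + 2)) + (4 * m + 1) := by
          unfold shiftIdx; split_ifs <;> omega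
        have e2 := vD_p11 N m ((2 * N - (6 * m + 2)) + (4 * m + 1)) hm hN (by omega) (by omega) (by omega)
        simp only [dif]; rw [hs]; omega
    by_cases h0_3 : d + 4 * m + 2 ≤ 2 * N
    · refine ⟨2, 4 * N - (2 * m + d), ?_, ?_⟩
      · omega
      · have e1 := vD_p6 N m (4 * N - (2 * m + d)) hm hN (by omega) (by omega) (by omega)
        have hs : shiftIdx (4 * N) (4 * m + 1) (4 * N - (2 * m + d)) = (4 * N - (2 * m + d)) + (4 * m + 1) := by
          unfold shiftIdx; split_ifs <;> omega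
        have e2 := vD_p12 N m ((4 * N - (2 * m + d)) + (4 * m + 1)) hm hN (by omega) (by omega) (by omega)
        simp only [dif]; rw [hs]; omega
    by_cases h0_4 : d + 2 * m + 2 ≤ 2 * N
    · refine ⟨2, 2 * N - (2 * m + 2 + d), ?_, ?_⟩
      · omega
      · have e1 := vD_p0 N m (2 * N - (2 * m + 2 + d)) hm hN (by omega) (by omega) (by omega)
        have hs : shiftIdx (4 * N) (4 * m + 1) (2 * N - (2 * m + 2 + d)) = (2 * N - (2 * m + 2 + d)) + (4 * m + 1) := by
          unfold shiftIdx; split_ifs <;> omega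
        have e2 := vD_p8 N m ((2 * N - (2 * m + 2 + d)) + (4 * m + 1)) hm hN (by omega) (by omega) (by omega)
        simp only [dif]; rw [hs]; omega
    by_cases h0_5 : d + 4 ≤ 2 * N
    · refine ⟨2, 4 * N - (4 * m + 3 + d), ?_, ?_⟩
      · omega
      · have e1 := vD_p10 N m (4 * N - (4 * m + 3 + d)) hm hN (by omega) (by omega) (by omega)
        have hs : shiftIdx (4 * N) (4 * m + 1) (4 * N - (4 * m + 3 + d)) = (4 * N - (4 * m + 3 + d)) + (4 * m + 1) := by
          unfold shiftIdx; split_ifs <;> omega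
        have e2 := vD_p5 N m ((4 * N - (4 * m + 3 + d)) + (4 * m + 1)) hm hN (by omega) (by omega) (by omega)
        simp only [dif]; rw [hs]; omega
    by_cases h0_6 : d + 2 ≤ 2 * N
    · refine ⟨2, 2 * N - (2 * m + 1), ?_, ?_⟩
      · omega
      · have e1 := vD_p11 N m (2 * N - (2 * m + 1)) hm hN (by omega) (by omega) (by omega)
        have hs : shiftIdx (4 * N) (4 * m + 1) (2 * N - (2 * m + 1)) = (2 * N - (2 * m + 1)) + (4 * m + 1) := by
          unfold shiftIdx; split_ifs <;> omega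
        have e2 := vD_p5 N m ((2 * N - (2 * m + 1)) + (4 * m + 1)) hm hN (by omega) (by omega) (by omega)
        simp only [dif]; rw [hs]; omega
    by_cases h0_7 : d ≤ 2 * N
    · refine ⟨2, 2 * N - (4 * m + 1), ?_, ?_⟩
      · omega
      · have e1 := vD_p9 N m (2 * N - (4 * m + 1)) hm hN (by omega) (by omega) (by omega)
        have hs : shiftIdx (4 * N) (4 * m + 1) (2 * N - (4 * m + 1)) = (2 * N - (4 * m + 1)) + (4 * m + 1) := by
          unfold shiftIdx; split_ifs <;> omega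
        have e2 := vD_p4 N m ((2 * N - (4 * m + 1)) + (4 * m + 1)) hm hN (by omega) (by omega) (by omega)
        simp only [dif]; rw [hs]; omega
    by_cases h0_8 : d ≤ 2 * N + 4 * m
    · refine ⟨2, 4 * N - (2 * m + d), ?_, ?_⟩
      · omega
      · have e1 := vD_p2 N m (4 * N - (2 * m + d)) hm hN (by omega) (by omega) (by omega)
        have hs : shiftIdx (4 * N) (4 * m + 1) (4 * N - (2 * m + d)) = (4 * N - (2 * m + d)) + (4 * m + 1) := by
          unfold shiftIdx; split_ifs <;> omega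
        have e2 := vD_p12 N m ((4 * N - (2 * m + d)) + (4 * m + 1)) hm hN (by omega) (by omega) (by omega)
        simp only [dif]; rw [hs]; omega
    by_cases h0_9 : d + 2 * m + 2 ≤ 4 * N
    · refine ⟨2, 4 * N - (2 * m + 1 + d), ?_, ?_⟩
      · omega
      · have e1 := vD_p8 N m (4 * N - (2 * m + 1 + d)) hm hN (by omega) (by omega) (by omega)
        have hs : shiftIdx (4 * N) (4 * m + 1) (4 * N - (2 * m + 1 + d)) = (4 * N - (2 * m + 1 + d)) + (4 * m + 1) := by
          unfold shiftIdx; split_ifs <;> omega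
        have e2 := vD_p2 N m ((4 * N - (2 * m + 1 + d)) + (4 * m + 1)) hm hN (by omega) (by omega) (by omega)
        simp only [dif]; rw [hs]; omega
    by_cases h0_10 : d + 2 * m ≤ 4 * N
    · refine ⟨2, 2 * N, ?_, ?_⟩
      · omega
      · have e1 := vD_p4 N m (2 * N) hm hN (by omega) (by omega) (by omega)
        have hs : shiftIdx (4 * N) (4 * m + 1) (2 * N) = (2 * N) + (4 * m + 1) := by
          unfold shiftIdx; split_ifs <;> omega
        have e2 := vD_p12 N m ((2 * N) + (4 * m + 1)) hm hN (by omega) (by omega) (by omega)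
        simp only [dif]; rw [hs]; omega
    by_cases h0_11 : d ≤ 4 * N
    · refine ⟨2, 8 * N + 1 - (2 * m + d), ?_, ?_⟩
      · omega
      · have e1 := vD_p13 N m (8 * N + 1 - (2 * m + d)) hm hN (by omega) (by omega) (by omega)
        have hs : shiftIdx (4 * N) (4 * m + 1) (8 * N + 1 - (2 * m + d)) = (8 * N + 1 - (2 * m + d)) + (4 * m + 1) - 4 * N := by
          unfold shiftIdx; split_ifs <;> omega
        have e2 := vD_p2 N m ((8 * N + 1 - (2 * m + d)) + (4 * m + 1) - 4 * N) hm hN (by omega) (by omega) (by omega)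
        simp only [dif]; rw [hs]; omega
    by_cases h0_12 : d + 2 ≤ 4 * N + 2 * m
    · refine ⟨1, 6 * N - (2 * m + 1 + d), ?_, ?_⟩
      · omega
      · have e1 := uD_p3 N m (6 * N - (2 * m + 1 + d)) hm hN (by omega) (by omega) (by omega)
        have e2 := vD_p10 N m (6 * N - (2 * m + 1 + d)) hm hN (by omega) (by omega) (by omega)
        simp only [dif]; omega
    by_cases h0_13 : d ≤ 4 * N + 2 * m
    · refine ⟨1, 2 * N - (2 * m + 1), ?_, ?_⟩
      · omega
      · have e1 := uD_p3 N m (2 * N - (2 * m + 1)) hm hN (by omega) (by omega) (by omega)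
        have e2 := vD_p11 N m (2 * N - (2 * m + 1)) hm hN (by omega) (by omega) (by omega)
        simp only [dif]; omega
    by_cases h0_14 : d ≤ 6 * N + 2 * m
    · refine ⟨1, 8 * N + 1 - (d), ?_, ?_⟩
      · omega
      · have e1 := uD_p3 N m (8 * N + 1 - (d)) hm hN (by omega) (by omega) (by omega)
        have e2 := vD_p12 N m (8 * N + 1 - (d)) hm hN (by omega) (by omega) (by omega)
        simp only [dif]; omega
    by_cases h0_15 : d + 2 * m + 2 ≤ 8 * N
    · refine ⟨1, 8 * N - (d), ?_, ?_⟩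
      · omega
      · have e1 := uD_p0 N m (8 * N - (d)) hm hN (by omega) (by omega) (by omega)
        have e2 := vD_p2 N m (8 * N - (d)) hm hN (by omega) (by omega) (by omega)
        simp only [dif]; omega
    by_cases h0_16 : d + 2 ≤ 8 * N
    · refine ⟨1, 10 * N - (d), ?_, ?_⟩
      · omega
      · have e1 := uD_p2 N m (10 * N - (d)) hm hN (by omega) (by omega) (by omega)
        have e2 := vD_p5 N m (10 * N - (d)) hm hN (by omega) (by omega) (by omega)
        simp only [dif]; omega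
    by_cases h0_17 : d ≤ 8 * N
    · refine ⟨1, 2 * m, ?_, ?_⟩
      · omega
      · have e1 := uD_p0 N m (2 * m) hm hN (by omega) (by omega) (by omega)
        have e2 := vD_p1 N m (2 * m) hm hN (by omega) (by omega) (by omega)
        simp only [dif]; omega
    by_cases h0_18 : d ≤ 8 * N + 2
    · refine ⟨0, 2 * N - (1), ?_, ?_⟩
      · omega
      · have e1 := uD_p3 N m (2 * N - (1)) hm hN (by omega) (by omega) (by omega)
        have hs : shiftIdx (4 * N) (1) (2 * N - (1)) = (2 * N - (1)) + (1) := by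
          unfold shiftIdx; split_ifs <;> omega
        have e2 := uD_p1 N m ((2 * N - (1)) + (1)) hm hN (by omega) (by omega) (by omega)
        simp only [dif]; rw [hs]; omega
    by_cases h0_19 : d ≤ 10 * N
    · refine ⟨0, 12 * N + 1 - (d), ?_, ?_⟩
      · omega
      · have e1 := uD_p3 N m (12 * N + 1 - (d)) hm hN (by omega) (by omega) (by omega)
        have hs : shiftIdx (4 * N) (1) (12 * N + 1 - (d)) = (12 * N + 1 - (d)) + (1) := by
          unfold shiftIdx; split_ifs <;> omega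
        have e2 := uD_p2 N m ((12 * N + 1 - (d)) + (1)) hm hN (by omega) (by omega) (by omega)
        simp only [dif]; rw [hs]; omega
    refine ⟨0, 12 * N - (d), ?_, ?_⟩
    · omega
    · have e1 := uD_p0 N m (12 * N - (d)) hm hN (by omega) (by omega) (by omega)
      have hs : shiftIdx (4 * N) (1) (12 * N - (d)) = (12 * N - (d)) + (1) := by
        unfold shiftIdx; split_ifs <;> omega
      have e2 := uD_p3 N m ((12 * N - (d)) + (1)) hm hN (by omega) (by omega) (by omega)
      simp only [dif]; rw [hs]; omega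
  · by_cases h1_0 : d + 1 ≤ 2 * m
    · refine ⟨2, 2 * N - (4 * m + 2 + d), ?_, ?_⟩
      · omega
      · have e1 := vD_p8 N m (2 * N - (4 * m + 2 + d)) hm hN (by omega) (by omega) (by omega)
        have hs : shiftIdx (4 * N) (4 * m + 1) (2 * N - (4 * m + 2 + d)) = (2 * N - (4 * m + 2 + d)) + (4 * m + 1) := by
          unfold shiftIdx; split_ifs <;> omega
        have e2 := vD_p3 N m ((2 * N - (4 * m + 2 + d)) + (4 * m + 1)) hm hN (by omega) (by omega) (by omega)
        simp only [dif]; rw [hs]; omega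
    by_cases h1_1 : d + 1 ≤ 4 * m
    · refine ⟨2, 2 * N + d - (4 * m + 1), ?_, ?_⟩
      · omega
      · have e1 := vD_p3 N m (2 * N + d - (4 * m + 1)) hm hN (by omega) (by omega) (by omega)
        have hs : shiftIdx (4 * N) (4 * m + 1) (2 * N + d - (4 * m + 1)) = (2 * N + d - (4 * m + 1)) + (4 * m + 1) := by
          unfold shiftIdx; split_ifs <;> omega
        have e2 := vD_p12 N m ((2 * N + d - (4 * m + 1)) + (4 * m + 1)) hm hN (by omega) (by omega) (by omega)
        simp only [dif]; rw [hs]; omega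
    by_cases h1_2 : d ≤ 4 * m + 1
    · refine ⟨2, 2 * N - (8 * m + 2), ?_, ?_⟩
      · omega
      · have e1 := vD_p2 N m (2 * N - (8 * m + 2)) hm hN (by omega) (by omega) (by omega)
        have hs : shiftIdx (4 * N) (4 * m + 1) (2 * N - (8 * m + 2)) = (2 * N - (8 * m + 2)) + (4 * m + 1) := by
          unfold shiftIdx; split_ifs <;> omega
        have e2 := vD_p9 N m ((2 * N - (8 * m + 2)) + (4 * m + 1)) hm hN (by omega) (by omega) (by omega)
        simp only [dif]; rw [hs]; omega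
    by_cases h1_3 : d + 1 ≤ 2 * N
    · refine ⟨2, 4 * N - (2 * m + d), ?_, ?_⟩
      · omega
      · have e1 := vD_p12 N m (4 * N - (2 * m + d)) hm hN (by omega) (by omega) (by omega)
        have hs : shiftIdx (4 * N) (4 * m + 1) (4 * N - (2 * m + d)) = (4 * N - (2 * m + d)) + (4 * m + 1) := by
          unfold shiftIdx; split_ifs <;> omega
        have e2 := vD_p6 N m ((4 * N - (2 * m + d)) + (4 * m + 1)) hm hN (by omega) (by omega) (by omega)
        simp only [dif]; rw [hs]; omega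
    by_cases h1_4 : d + 1 ≤ 2 * N + 2 * m
    · refine ⟨2, 6 * N - (2 * m + 1 + d), ?_, ?_⟩
      · omega
      · have e1 := vD_p6 N m (6 * N - (2 * m + 1 + d)) hm hN (by omega) (by omega) (by omega)
        have hs : shiftIdx (4 * N) (4 * m + 1) (6 * N - (2 * m + 1 + d)) = (6 * N - (2 * m + 1 + d)) + (4 * m + 1) - 4 * N := by
          unfold shiftIdx; split_ifs <;> omega
        have e2 := vD_p8 N m ((6 * N - (2 * m + 1 + d)) + (4 * m + 1) - 4 * N) hm hN (by omega) (by omega) (by omega)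
        simp only [dif]; rw [hs]; omega
    by_cases h1_5 : d ≤ 2 * N + 2 * m + 1
    · refine ⟨2, 4 * N - (2 * m + 1), ?_, ?_⟩
      · omega
      · have e1 := vD_p12 N m (4 * N - (2 * m + 1)) hm hN (by omega) (by omega) (by omega)
        have hs : shiftIdx (4 * N) (4 * m + 1) (4 * N - (2 * m + 1)) = (4 * N - (2 * m + 1)) + (4 * m + 1) - 4 * N := by
          unfold shiftIdx; split_ifs <;> omega
        have e2 := vD_p1 N m ((4 * N - (2 * m + 1)) + (4 * m + 1) - 4 * N) hm hN (by omega) (by omega) (by omega)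
        simp only [dif]; rw [hs]; omega
    by_cases h1_6 : d ≤ 2 * N + 4 * m + 1
    · refine ⟨2, 6 * N + 1 - (2 * m + d), ?_, ?_⟩
      · omega
      · have e1 := vD_p6 N m (6 * N + 1 - (2 * m + d)) hm hN (by omega) (by omega) (by omega)
        have hs : shiftIdx (4 * N) (4 * m + 1) (6 * N + 1 - (2 * m + d)) = (6 * N + 1 - (2 * m + d)) + (4 * m + 1) := by
          unfold shiftIdx; split_ifs <;> omega
        have e2 := vD_p13 N m ((6 * N + 1 - (2 * m + d)) + (4 * m + 1)) hm hN (by omega) (by omega) (by omega)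
        simp only [dif]; rw [hs]; omega
    by_cases h1_7 : d ≤ 2 * N + 6 * m + 1
    · refine ⟨2, 6 * N - (d), ?_, ?_⟩
      · omega
      · have e1 := vD_p12 N m (6 * N - (d)) hm hN (by omega) (by omega) (by omega)
        have hs : shiftIdx (4 * N) (4 * m + 1) (6 * N - (d)) = (6 * N - (d)) + (4 * m + 1) := by
          unfold shiftIdx; split_ifs <;> omega
        have e2 := vD_p7 N m ((6 * N - (d)) + (4 * m + 1)) hm hN (by omega) (by omega) (by omega)
        simp only [dif]; rw [hs]; omega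
    by_cases h1_8 : d + 4 * m + 3 ≤ 4 * N
    · refine ⟨2, 4 * N - (2 * m + 1 + d), ?_, ?_⟩
      · omega
      · have e1 := vD_p2 N m (4 * N - (2 * m + 1 + d)) hm hN (by omega) (by omega) (by omega)
        have hs : shiftIdx (4 * N) (4 * m + 1) (4 * N - (2 * m + 1 + d)) = (4 * N - (2 * m + 1 + d)) + (4 * m + 1) := by
          unfold shiftIdx; split_ifs <;> omega
        have e2 := vD_p8 N m ((4 * N - (2 * m + 1 + d)) + (4 * m + 1)) hm hN (by omega) (by omega) (by omega)
        simp only [dif]; rw [hs]; omega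
    by_cases h1_9 : d + 2 * m + 3 ≤ 4 * N
    · refine ⟨2, 6 * N - (2 * m + 1 + d), ?_, ?_⟩
      · omega
      · have e1 := vD_p5 N m (6 * N - (2 * m + 1 + d)) hm hN (by omega) (by omega) (by omega)
        have hs : shiftIdx (4 * N) (4 * m + 1) (6 * N - (2 * m + 1 + d)) = (6 * N - (2 * m + 1 + d)) + (4 * m + 1) := by
          unfold shiftIdx; split_ifs <;> omega
        have e2 := vD_p12 N m ((6 * N - (2 * m + 1 + d)) + (4 * m + 1)) hm hN (by omega) (by omega) (by omega)
        simp only [dif]; rw [hs]; omega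
    by_cases h1_10 : d + 2 * m + 1 ≤ 4 * N
    · refine ⟨2, 2 * m, ?_, ?_⟩
      · omega
      · have e1 := vD_p1 N m (2 * m) hm hN (by omega) (by omega) (by omega)
        have hs : shiftIdx (4 * N) (4 * m + 1) (2 * m) = (2 * m) + (4 * m + 1) := by
          unfold shiftIdx; split_ifs <;> omega
        have e2 := vD_p8 N m ((2 * m) + (4 * m + 1)) hm hN (by omega) (by omega) (by omega)
        simp only [dif]; rw [hs]; omega
    by_cases h1_11 : d + 1 ≤ 4 * N
    · refine ⟨1, 6 * N - (2 * m + 1 + d), ?_, ?_⟩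
      · omega
      · have e1 := uD_p0 N m (6 * N - (2 * m + 1 + d)) hm hN (by omega) (by omega) (by omega)
        have e2 := vD_p3 N m (6 * N - (2 * m + 1 + d)) hm hN (by omega) (by omega) (by omega)
        simp only [dif]; omega
    by_cases h1_12 : d + 1 ≤ 4 * N + 2 * m
    · refine ⟨2, 8 * N - (1 + d), ?_, ?_⟩
      · omega
      · have e1 := vD_p7 N m (8 * N - (1 + d)) hm hN (by omega) (by omega) (by omega)
        have hs : shiftIdx (4 * N) (4 * m + 1) (8 * N - (1 + d)) = (8 * N - (1 + d)) + (4 * m + 1) - 4 * N := by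
          unfold shiftIdx; split_ifs <;> omega
        have e2 := vD_p8 N m ((8 * N - (1 + d)) + (4 * m + 1) - 4 * N) hm hN (by omega) (by omega) (by omega)
        simp only [dif]; rw [hs]; omega
    by_cases h1_13 : d ≤ 4 * N + 2 * m + 1
    · refine ⟨1, 2 * N - (4 * m + 1), ?_, ?_⟩
      · omega
      · have e1 := uD_p3 N m (2 * N - (4 * m + 1)) hm hN (by omega) (by omega) (by omega)
        have e2 := vD_p9 N m (2 * N - (4 * m + 1)) hm hN (by omega) (by omega) (by omega)
        simp only [dif]; omega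
    by_cases h1_14 : d + 2 * m + 1 ≤ 6 * N
    · refine ⟨1, 8 * N + 1 - (d), ?_, ?_⟩
      · omega
      · have e1 := uD_p2 N m (8 * N + 1 - (d)) hm hN (by omega) (by omega) (by omega)
        have e2 := vD_p6 N m (8 * N + 1 - (d)) hm hN (by omega) (by omega) (by omega)
        simp only [dif]; omega
    by_cases h1_15 : d + 1 ≤ 6 * N
    · refine ⟨1, 6 * N - (1 + d), ?_, ?_⟩
      · omega
      · have e1 := uD_p0 N m (6 * N - (1 + d)) hm hN (by omega) (by omega) (by omega)
        have e2 := vD_p0 N m (6 * N - (1 + d)) hm hN (by omega) (by omega) (by omega)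
        simp only [dif]; omega
    by_cases h1_16 : d ≤ 6 * N + 1
    · refine ⟨1, 2 * N, ?_, ?_⟩
      · omega
      · have e1 := uD_p1 N m (2 * N) hm hN (by omega) (by omega) (by omega)
        have e2 := vD_p4 N m (2 * N) hm hN (by omega) (by omega) (by omega)
        simp only [dif]; omega
    by_cases h1_17 : d ≤ 6 * N + 2 * m + 1
    · refine ⟨1, 10 * N + 2 - (d), ?_, ?_⟩
      · omega
      · have e1 := uD_p3 N m (10 * N + 2 - (d)) hm hN (by omega) (by omega) (by omega)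
        have e2 := vD_p13 N m (10 * N + 2 - (d)) hm hN (by omega) (by omega) (by omega)
        simp only [dif]; omega
    by_cases h1_18 : d ≤ 6 * N + 4 * m + 1
    · refine ⟨1, 10 * N + 2 * m + 1 - (d), ?_, ?_⟩
      · omega
      · have e1 := uD_p2 N m (10 * N + 2 * m + 1 - (d)) hm hN (by omega) (by omega) (by omega)
        have e2 := vD_p7 N m (10 * N + 2 * m + 1 - (d)) hm hN (by omega) (by omega) (by omega)
        simp only [dif]; omega
    by_cases h1_19 : d + 1 ≤ 8 * N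
    · refine ⟨1, 8 * N - (d), ?_, ?_⟩
      · omega
      · have e1 := uD_p3 N m (8 * N - (d)) hm hN (by omega) (by omega) (by omega)
        have e2 := vD_p8 N m (8 * N - (d)) hm hN (by omega) (by omega) (by omega)
        simp only [dif]; omega
    by_cases h1_20 : d ≤ 8 * N + 1
    · refine ⟨0, 2 * N, ?_, ?_⟩
      · omega
      · have e1 := uD_p1 N m (2 * N) hm hN (by omega) (by omega) (by omega)
        have hs : shiftIdx (4 * N) (1) (2 * N) = (2 * N) + (1) := by
          unfold shiftIdx; split_ifs <;> omega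
        have e2 := uD_p3 N m ((2 * N) + (1)) hm hN (by omega) (by omega) (by omega)
        simp only [dif]; rw [hs]; omega
    by_cases h1_21 : d + 1 ≤ 10 * N
    · refine ⟨0, 12 * N + 1 - (d), ?_, ?_⟩
      · omega
      · have e1 := uD_p2 N m (12 * N + 1 - (d)) hm hN (by omega) (by omega) (by omega)
        have hs : shiftIdx (4 * N) (1) (12 * N + 1 - (d)) = (12 * N + 1 - (d)) + (1) := by
          unfold shiftIdx; split_ifs <;> omega
        have e2 := uD_p3 N m ((12 * N + 1 - (d)) + (1)) hm hN (by omega) (by omega) (by omega)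
        simp only [dif]; rw [hs]; omega
    by_cases h1_22 : d ≤ 10 * N + 1
    · refine ⟨0, 4 * N - (1), ?_, ?_⟩
      · omega
      · have e1 := uD_p3 N m (4 * N - (1)) hm hN (by omega) (by omega) (by omega)
        have hs : shiftIdx (4 * N) (1) (4 * N - (1)) = (4 * N - (1)) + (1) - 4 * N := by
          unfold shiftIdx; split_ifs <;> omega
        have e2 := uD_p0 N m ((4 * N - (1)) + (1) - 4 * N) hm hN (by omega) (by omega) (by omega)
        simp only [dif]; rw [hs]; omega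
    refine ⟨0, 12 * N - (d), ?_, ?_⟩
    · omega
    · have e1 := uD_p3 N m (12 * N - (d)) hm hN (by omega) (by omega) (by omega)
      have hs : shiftIdx (4 * N) (1) (12 * N - (d)) = (12 * N - (d)) + (1) := by
        unfold shiftIdx; split_ifs <;> omega
      have e2 := uD_p0 N m ((12 * N - (d)) + (1)) hm hN (by omega) (by omega) (by omega)
      simp only [dif]; rw [hs]; omega

lemma inj_uD (N m : ℕ) (hm : 2 ≤ m) (hN : 5 * m + 2 ≤ N) : ∀ i < 4 * N, ∀ j < 4 * N, uD N m i = uD N m j → i = j := by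
  intro i hi j hj h
  unfold uD at h
  split_ifs at h <;> omega

lemma inj_vD (N m : ℕ) (hm : 2 ≤ m) (hN : 5 * m + 2 ≤ N) : ∀ i < 4 * N, ∀ j < 4 * N, vD N m i = vD N m j → i = j := by
  intro i hi j hj h
  unfold vD at h
  split_ifs at h <;> omega

lemma ne_uvD (N m : ℕ) (hm : 2 ≤ m) (hN : 5 * m + 2 ≤ N) : ∀ i < 4 * N, ∀ j < 4 * N, uD N m i ≠ vD N m j := by
  intro i hi j hj h
  unfold uD vD at h
  split_ifs at h <;> omega

lemma le_uD (N m : ℕ) (hm : 2 ≤ m) (hN : 5 * m + 2 ≤ N) : ∀ i < 4 * N, uD N m i ≤ 3 * (4 * N) := by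
  intro i hi
  unfold uD
  split_ifs <;> omega

lemma le_vD (N m : ℕ) (hm : 2 ≤ m) (hN : 5 * m + 2 ≤ N) : ∀ i < 4 * N, vD N m i ≤ 3 * (4 * N) := by
  intro i hi
  unfold vD
  split_ifs <;> omega

theorem gracefulD (N m : ℕ) (hm : 2 ≤ m) (hN : 5 * m + 2 ≤ N) : IsGraceful (genPetersen (4 * N) (4 * m + 1)) :=
  graceful_of_labels (4 * N) (4 * m + 1) (by omega) (by omega) (uD N m) (vD N m)
    (inj_uD N m hm hN) (inj_vD N m hm hN) (ne_uvD N m hm hN) (le_uD N m hm hN) (le_vD N m hm hN)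
    (surjD N m hm hN)

end Pool.Agent.Helper41.Graceful
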