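import Pool.Agent.Helper20.GracefulCore

/-!
# `P(4N, 5)` is graceful for `9 ≤ N`
-/

namespace Pool.Agent.Helper41.Graceful

open Pool.Agent.Helper20.Graceful

/-- labels of the vertices `u_i`, `i < 4 N` -/
def uE (N m i : ℕ) : ℕ :=
  if i % 2 = 0 then
    if i < 2 * N then i / 2
    else if i < 2 * N + 2 then 3 * N - (1)
    else i / 2 - (1)
  else
    12 * N - (i / 2)

/-- labels of the vertices `v_i`, `i < 4 N` -/
def vE (N m i : ℕ) : ℕ :=
  if i % 2 = 0 then
    if i < 2 then 6 * N - (1)
    else if i < 4 then 4 * N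
    else if i + 6 < 2 * N then 8 * N - (i / 2)
    else if i + 4 < 2 * N then 7 * N - (1)
    else if i < 2 * N then 8 * N - (1 + i / 2)
    else if i < 2 * N + 2 then 3 * N
    else if i < 2 * N + 4 then 9 * N - (2)
    else if i + 2 < 4 * N then 8 * N - (i / 2)
    else 8 * N + 3
  else
    if i < 3 then 8 * N + 2
    else if i + 5 < 2 * N then 4 * N + 1 + i / 2
    else if i + 3 < 2 * N then 3 * N + 3
    else if i + 1 < 2 * N then 5 * N - (2)
    else if i < 2 * N + 1 then 3 * N + 2
    else if i + 1 < 4 * N then 4 * N + i / 2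
    else 4 * N - (5)

lemma uE_p0 (N m i : ℕ) (hN : 9 ≤ N) (hp : i % 2 = 0) (h1 : 0 ≤ i) (h2 : i + 2 ≤ 2 * N) :
    uE N m i = i / 2 := by
  unfold uE; split_ifs <;> omega

lemma uE_p1 (N m i : ℕ) (hN : 9 ≤ N) (hp : i % 2 = 0) (h1 : 2 * N ≤ i) (h2 : i ≤ 2 * N) :
    uE N m i + 1 = 3 * N := by
  unfold uE; split_ifs <;> omega

lemma uE_p2 (N m i : ℕ) (hN : 9 ≤ N) (hp : i % 2 = 0) (h1 : 2 * N + 2 ≤ i) (h2 : i + 2 ≤ 4 * N) :
    uE N m i + 1 = i / 2 := by
  unfold uE; split_ifs <;> omega

lemma uE_p3 (N m i : ℕ) (hN : 9 ≤ N) (hp : i % 2 = 1) (h1 : 1 ≤ i) (h2 : i + 1 ≤ 4 * N) :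
    uE N m i + i / 2 = 12 * N := by
  unfold uE; split_ifs <;> omega

lemma vE_p0 (N m i : ℕ) (hN : 9 ≤ N) (hp : i % 2 = 0) (h1 : 0 ≤ i) (h2 : i ≤ 0) :
    vE N m i + 1 = 6 * N := by
  unfold vE; split_ifs <;> omega

lemma vE_p1 (N m i : ℕ) (hN : 9 ≤ N) (hp : i % 2 = 0) (h1 : 2 ≤ i) (h2 : i ≤ 2) :
    vE N m i = 4 * N := by
  unfold vE; split_ifs <;> omega

lemma vE_p2 (N m i : ℕ) (hN : 9 ≤ N) (hp : i % 2 = 0) (h1 : 4 ≤ i) (h2 : i + 8 ≤ 2 * N) :
    vE N m i + i / 2 = 8 * N := by
  unfold vE; split_ifs <;> omega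

lemma vE_p3 (N m i : ℕ) (hN : 9 ≤ N) (hp : i % 2 = 0) (h1 : 2 * N ≤ i + 6) (h2 : i + 6 ≤ 2 * N) :
    vE N m i + 1 = 7 * N := by
  unfold vE; split_ifs <;> omega

lemma vE_p4 (N m i : ℕ) (hN : 9 ≤ N) (hp : i % 2 = 0) (h1 : 2 * N ≤ i + 4) (h2 : i + 2 ≤ 2 * N) :
    vE N m i + 1 + i / 2 = 8 * N := by
  unfold vE; split_ifs <;> omega

lemma vE_p5 (N m i : ℕ) (hN : 9 ≤ N) (hp : i % 2 = 0) (h1 : 2 * N ≤ i) (h2 : i ≤ 2 * N) :
    vE N m i = 3 * N := by
  unfold vE; split_ifs <;> omega

lemma vE_p6 (N m i : ℕ) (hN : 9 ≤ N) (hp : i % 2 = 0) (h1 : 2 * N + 2 ≤ i) (h2 : i ≤ 2 * N + 2) :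
    vE N m i + 2 = 9 * N := by
  unfold vE; split_ifs <;> omega

lemma vE_p7 (N m i : ℕ) (hN : 9 ≤ N) (hp : i % 2 = 0) (h1 : 2 * N + 4 ≤ i) (h2 : i + 4 ≤ 4 * N) :
    vE N m i + i / 2 = 8 * N := by
  unfold vE; split_ifs <;> omega

lemma vE_p8 (N m i : ℕ) (hN : 9 ≤ N) (hp : i % 2 = 0) (h1 : 4 * N ≤ i + 2) (h2 : i + 2 ≤ 4 * N) :
    vE N m i = 8 * N + 3 := by
  unfold vE; split_ifs <;> omega

lemma vE_p9 (N m i : ℕ) (hN : 9 ≤ N) (hp : i % 2 = 1) (h1 : 1 ≤ i) (h2 : i ≤ 1) :
    vE N m i = 8 * N + 2 := by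
  unfold vE; split_ifs <;> omega

lemma vE_p10 (N m i : ℕ) (hN : 9 ≤ N) (hp : i % 2 = 1) (h1 : 3 ≤ i) (h2 : i + 7 ≤ 2 * N) :
    vE N m i = 4 * N + 1 + i / 2 := by
  unfold vE; split_ifs <;> omega

lemma vE_p11 (N m i : ℕ) (hN : 9 ≤ N) (hp : i % 2 = 1) (h1 : 2 * N ≤ i + 5) (h2 : i + 5 ≤ 2 * N) :
    vE N m i = 3 * N + 3 := by
  unfold vE; split_ifs <;> omega

lemma vE_p12 (N m i : ℕ) (hN : 9 ≤ N) (hp : i % 2 = 1) (h1 : 2 * N ≤ i + 3) (h2 : i + 3 ≤ 2 * N) :
    vE N m i + 2 = 5 * N := by
  unfold vE; split_ifs <;> omega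

lemma vE_p13 (N m i : ℕ) (hN : 9 ≤ N) (hp : i % 2 = 1) (h1 : 2 * N ≤ i + 1) (h2 : i + 1 ≤ 2 * N) :
    vE N m i = 3 * N + 2 := by
  unfold vE; split_ifs <;> omega

lemma vE_p14 (N m i : ℕ) (hN : 9 ≤ N) (hp : i % 2 = 1) (h1 : 2 * N + 1 ≤ i) (h2 : i + 3 ≤ 4 * N) :
    vE N m i = 4 * N + i / 2 := by
  unfold vE; split_ifs <;> omega

lemma vE_p15 (N m i : ℕ) (hN : 9 ≤ N) (hp : i % 2 = 1) (h1 : 4 * N ≤ i + 1) (h2 : i + 1 ≤ 4 * N) :
    vE N m i + 5 = 4 * N := by
  unfold vE; split_ifs <;> omega

lemma surjE (N m : ℕ) (hN : 9 ≤ N) (d : ℕ) (hd1 : 1 ≤ d) (hd2 : d ≤ 3 * (4 * N)) :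
    ∃ t : Fin 3, ∃ i < 4 * N, dif (uE N m) (vE N m) (4 * N) (5) t i = d := by
  rcases Nat.mod_two_eq_zero_or_one d with hq | hq
  · by_cases h0_0 : d ≤ 2
    · refine ⟨2, 4 * N - (5), ?_, ?_⟩
      · omega
      · have e1 := vE_p14 N m (4 * N - (5)) hN (by omega) (by omega) (by omega)
        have hs : shiftIdx (4 * N) (5) (4 * N - (5)) = (4 * N - (5)) + (5) - 4 * N := by
          unfold shiftIdx; split_ifs <;> omega
        have e2 := vE_p0 N m ((4 * N - (5)) + (5) - 4 * N) hN (by omega) (by omega) (by omega)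
        simp only [dif]; rw [hs]; omega
    by_cases h0_1 : d ≤ 4
    · refine ⟨2, 2, ?_, ?_⟩
      · omega
      · have e1 := vE_p1 N m (2) hN (by omega) (by omega) (by omega)
        have hs : shiftIdx (4 * N) (5) (2) = (2) + (5) := by
          unfold shiftIdx; split_ifs <;> omega
        have e2 := vE_p10 N m ((2) + (5)) hN (by omega) (by omega) (by omega)
        simp only [dif]; rw [hs]; omega
    by_cases h0_2 : d + 6 ≤ 2 * N
    · refine ⟨2, 4 * N - (2 + d), ?_, ?_⟩
      · omega
      · have e1 := vE_p7 N m (4 * N - (2 + d)) hN (by omega) (by omega) (by omega)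
        have hs : shiftIdx (4 * N) (5) (4 * N - (2 + d)) = (4 * N - (2 + d)) + (5) := by
          unfold shiftIdx; split_ifs <;> omega
        have e2 := vE_p14 N m ((4 * N - (2 + d)) + (5)) hN (by omega) (by omega) (by omega)
        simp only [dif]; rw [hs]; omega
    by_cases h0_3 : d + 4 ≤ 2 * N
    · refine ⟨2, 0, ?_, ?_⟩
      · omega
      · have e1 := vE_p0 N m (0) hN (by omega) (by omega) (by omega)
        have hs : shiftIdx (4 * N) (5) (0) = (0) + (5) := by
          unfold shiftIdx; split_ifs <;> omega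
        have e2 := vE_p10 N m ((0) + (5)) hN (by omega) (by omega) (by omega)
        simp only [dif]; rw [hs]; omega
    by_cases h0_4 : d + 2 ≤ 2 * N
    · refine ⟨2, 4 * N - (3), ?_, ?_⟩
      · omega
      · have e1 := vE_p14 N m (4 * N - (3)) hN (by omega) (by omega) (by omega)
        have hs : shiftIdx (4 * N) (5) (4 * N - (3)) = (4 * N - (3)) + (5) - 4 * N := by
          unfold shiftIdx; split_ifs <;> omega
        have e2 := vE_p1 N m ((4 * N - (3)) + (5) - 4 * N) hN (by omega) (by omega) (by omega)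
        simp only [dif]; rw [hs]; omega
    by_cases h0_5 : d ≤ 2 * N
    · refine ⟨2, 4 * N - (4), ?_, ?_⟩
      · omega
      · have e1 := vE_p7 N m (4 * N - (4)) hN (by omega) (by omega) (by omega)
        have hs : shiftIdx (4 * N) (5) (4 * N - (4)) = (4 * N - (4)) + (5) - 4 * N := by
          unfold shiftIdx; split_ifs <;> omega
        have e2 := vE_p9 N m ((4 * N - (4)) + (5) - 4 * N) hN (by omega) (by omega) (by omega)
        simp only [dif]; rw [hs]; omega
    by_cases h0_6 : d ≤ 2 * N + 2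
    · refine ⟨2, 2 * N, ?_, ?_⟩
      · omega
      · have e1 := vE_p5 N m (2 * N) hN (by omega) (by omega) (by omega)
        have hs : shiftIdx (4 * N) (5) (2 * N) = (2 * N) + (5) := by
          unfold shiftIdx; split_ifs <;> omega
        have e2 := vE_p14 N m ((2 * N) + (5)) hN (by omega) (by omega) (by omega)
        simp only [dif]; rw [hs]; omega
    by_cases h0_7 : d ≤ 2 * N + 4
    · refine ⟨2, 2 * N - (11), ?_, ?_⟩
      · omega
      · have e1 := vE_p10 N m (2 * N - (11)) hN (by omega) (by omega) (by omega)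
        have hs : shiftIdx (4 * N) (5) (2 * N - (11)) = (2 * N - (11)) + (5) := by
          unfold shiftIdx; split_ifs <;> omega
        have e2 := vE_p3 N m ((2 * N - (11)) + (5)) hN (by omega) (by omega) (by omega)
        simp only [dif]; rw [hs]; omega
    by_cases h0_8 : d ≤ 2 * N + 6
    · refine ⟨2, 2 * N - (8), ?_, ?_⟩
      · omega
      · have e1 := vE_p2 N m (2 * N - (8)) hN (by omega) (by omega) (by omega)
        have hs : shiftIdx (4 * N) (5) (2 * N - (8)) = (2 * N - (8)) + (5) := by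
          unfold shiftIdx; split_ifs <;> omega
        have e2 := vE_p12 N m ((2 * N - (8)) + (5)) hN (by omega) (by omega) (by omega)
        simp only [dif]; rw [hs]; omega
    by_cases h0_9 : d ≤ 2 * N + 8
    · refine ⟨2, 4 * N - (6), ?_, ?_⟩
      · omega
      · have e1 := vE_p7 N m (4 * N - (6)) hN (by omega) (by omega) (by omega)
        have hs : shiftIdx (4 * N) (5) (4 * N - (6)) = (4 * N - (6)) + (5) := by
          unfold shiftIdx; split_ifs <;> omega
        have e2 := vE_p15 N m ((4 * N - (6)) + (5)) hN (by omega) (by omega) (by omega)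
        simp only [dif]; rw [hs]; omega
    by_cases h0_10 : d + 6 ≤ 4 * N
    · refine ⟨2, 4 * N - (3 + d), ?_, ?_⟩
      · omega
      · have e1 := vE_p10 N m (4 * N - (3 + d)) hN (by omega) (by omega) (by omega)
        have hs : shiftIdx (4 * N) (5) (4 * N - (3 + d)) = (4 * N - (3 + d)) + (5) := by
          unfold shiftIdx; split_ifs <;> omega
        have e2 := vE_p2 N m ((4 * N - (3 + d)) + (5)) hN (by omega) (by omega) (by omega)
        simp only [dif]; rw [hs]; omega
    by_cases h0_11 : d + 4 ≤ 4 * N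
    · refine ⟨2, 2 * N - (1), ?_, ?_⟩
      · omega
      · have e1 := vE_p13 N m (2 * N - (1)) hN (by omega) (by omega) (by omega)
        have hs : shiftIdx (4 * N) (5) (2 * N - (1)) = (2 * N - (1)) + (5) := by
          unfold shiftIdx; split_ifs <;> omega
        have e2 := vE_p7 N m ((2 * N - (1)) + (5)) hN (by omega) (by omega) (by omega)
        simp only [dif]; rw [hs]; omega
    by_cases h0_12 : d + 2 ≤ 4 * N
    · refine ⟨1, 1, ?_, ?_⟩
      · omega
      · have e1 := uE_p3 N m (1) hN (by omega) (by omega) (by omega)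
        have e2 := vE_p9 N m (1) hN (by omega) (by omega) (by omega)
        simp only [dif]; omega
    by_cases h0_13 : d ≤ 4 * N
    · refine ⟨2, 2 * N - (3), ?_, ?_⟩
      · omega
      · have e1 := vE_p12 N m (2 * N - (3)) hN (by omega) (by omega) (by omega)
        have hs : shiftIdx (4 * N) (5) (2 * N - (3)) = (2 * N - (3)) + (5) := by
          unfold shiftIdx; split_ifs <;> omega
        have e2 := vE_p6 N m ((2 * N - (3)) + (5)) hN (by omega) (by omega) (by omega)
        simp only [dif]; rw [hs]; omega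
    by_cases h0_14 : d ≤ 4 * N + 2
    · refine ⟨2, 2 * N - (10), ?_, ?_⟩
      · omega
      · have e1 := vE_p2 N m (2 * N - (10)) hN (by omega) (by omega) (by omega)
        have hs : shiftIdx (4 * N) (5) (2 * N - (10)) = (2 * N - (10)) + (5) := by
          unfold shiftIdx; split_ifs <;> omega
        have e2 := vE_p11 N m ((2 * N - (10)) + (5)) hN (by omega) (by omega) (by omega)
        simp only [dif]; rw [hs]; omega
    by_cases h0_15 : d ≤ 6 * N
    · refine ⟨1, 8 * N + 1 - (d), ?_, ?_⟩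
      · omega
      · have e1 := uE_p3 N m (8 * N + 1 - (d)) hN (by omega) (by omega) (by omega)
        have e2 := vE_p14 N m (8 * N + 1 - (d)) hN (by omega) (by omega) (by omega)
        simp only [dif]; omega
    by_cases h0_16 : d ≤ 6 * N + 2
    · refine ⟨1, 2 * N - (6), ?_, ?_⟩
      · omega
      · have e1 := uE_p0 N m (2 * N - (6)) hN (by omega) (by omega) (by omega)
        have e2 := vE_p3 N m (2 * N - (6)) hN (by omega) (by omega) (by omega)
        simp only [dif]; omega
    by_cases h0_17 : d ≤ 6 * N + 4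
    · refine ⟨1, 2 * N - (3), ?_, ?_⟩
      · omega
      · have e1 := uE_p3 N m (2 * N - (3)) hN (by omega) (by omega) (by omega)
        have e2 := vE_p12 N m (2 * N - (3)) hN (by omega) (by omega) (by omega)
        simp only [dif]; omega
    by_cases h0_18 : d ≤ 6 * N + 6
    · refine ⟨1, 4 * N - (1), ?_, ?_⟩
      · omega
      · have e1 := uE_p3 N m (4 * N - (1)) hN (by omega) (by omega) (by omega)
        have e2 := vE_p15 N m (4 * N - (1)) hN (by omega) (by omega) (by omega)
        simp only [dif]; omega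
    by_cases h0_19 : d + 4 ≤ 8 * N
    · refine ⟨1, 8 * N - (d), ?_, ?_⟩
      · omega
      · have e1 := uE_p0 N m (8 * N - (d)) hN (by omega) (by omega) (by omega)
        have e2 := vE_p2 N m (8 * N - (d)) hN (by omega) (by omega) (by omega)
        simp only [dif]; omega
    by_cases h0_20 : d + 2 ≤ 8 * N
    · refine ⟨1, 2 * N + 2, ?_, ?_⟩
      · omega
      · have e1 := uE_p2 N m (2 * N + 2) hN (by omega) (by omega) (by omega)
        have e2 := vE_p6 N m (2 * N + 2) hN (by omega) (by omega) (by omega)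
        simp only [dif]; omega
    by_cases h0_21 : d ≤ 8 * N
    · refine ⟨1, 2 * N - (5), ?_, ?_⟩
      · omega
      · have e1 := uE_p3 N m (2 * N - (5)) hN (by omega) (by omega) (by omega)
        have e2 := vE_p11 N m (2 * N - (5)) hN (by omega) (by omega) (by omega)
        simp only [dif]; omega
    by_cases h0_22 : d ≤ 8 * N + 2
    · refine ⟨0, 2 * N - (1), ?_, ?_⟩
      · omega
      · have e1 := uE_p3 N m (2 * N - (1)) hN (by omega) (by omega) (by omega)
        have hs : shiftIdx (4 * N) (1) (2 * N - (1)) = (2 * N - (1)) + (1) := by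
          unfold shiftIdx; split_ifs <;> omega
        have e2 := uE_p1 N m ((2 * N - (1)) + (1)) hN (by omega) (by omega) (by omega)
        simp only [dif]; rw [hs]; omega
    by_cases h0_23 : d ≤ 10 * N
    · refine ⟨0, 12 * N + 1 - (d), ?_, ?_⟩
      · omega
      · have e1 := uE_p3 N m (12 * N + 1 - (d)) hN (by omega) (by omega) (by omega)
        have hs : shiftIdx (4 * N) (1) (12 * N + 1 - (d)) = (12 * N + 1 - (d)) + (1) := by
          unfold shiftIdx; split_ifs <;> omega
        have e2 := uE_p2 N m ((12 * N + 1 - (d)) + (1)) hN (by omega) (by omega) (by omega)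
        simp only [dif]; rw [hs]; omega
    refine ⟨0, 12 * N - (d), ?_, ?_⟩
    · omega
    · have e1 := uE_p0 N m (12 * N - (d)) hN (by omega) (by omega) (by omega)
      have hs : shiftIdx (4 * N) (1) (12 * N - (d)) = (12 * N - (d)) + (1) := by
        unfold shiftIdx; split_ifs <;> omega
      have e2 := uE_p3 N m ((12 * N - (d)) + (1)) hN (by omega) (by omega) (by omega)
      simp only [dif]; rw [hs]; omega
  · by_cases h1_0 : d ≤ 1
    · refine ⟨1, 2 * N, ?_, ?_⟩
      · omega
      · have e1 := uE_p1 N m (2 * N) hN (by omega) (by omega) (by omega)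
        have e2 := vE_p5 N m (2 * N) hN (by omega) (by omega) (by omega)
        simp only [dif]; omega
    by_cases h1_1 : d ≤ 3
    · refine ⟨2, 2 * N - (5), ?_, ?_⟩
      · omega
      · have e1 := vE_p11 N m (2 * N - (5)) hN (by omega) (by omega) (by omega)
        have hs : shiftIdx (4 * N) (5) (2 * N - (5)) = (2 * N - (5)) + (5) := by
          unfold shiftIdx; split_ifs <;> omega
        have e2 := vE_p5 N m ((2 * N - (5)) + (5)) hN (by omega) (by omega) (by omega)
        simp only [dif]; rw [hs]; omega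
    by_cases h1_2 : d ≤ 5
    · refine ⟨2, 1, ?_, ?_⟩
      · omega
      · have e1 := vE_p9 N m (1) hN (by omega) (by omega) (by omega)
        have hs : shiftIdx (4 * N) (5) (1) = (1) + (5) := by
          unfold shiftIdx; split_ifs <;> omega
        have e2 := vE_p2 N m ((1) + (5)) hN (by omega) (by omega) (by omega)
        simp only [dif]; rw [hs]; omega
    by_cases h1_3 : d + 3 ≤ 2 * N
    · refine ⟨2, 4 * N - (2 + d), ?_, ?_⟩
      · omega
      · have e1 := vE_p14 N m (4 * N - (2 + d)) hN (by omega) (by omega) (by omega)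
        have hs : shiftIdx (4 * N) (5) (4 * N - (2 + d)) = (4 * N - (2 + d)) + (5) := by
          unfold shiftIdx; split_ifs <;> omega
        have e2 := vE_p7 N m ((4 * N - (2 + d)) + (5)) hN (by omega) (by omega) (by omega)
        simp only [dif]; rw [hs]; omega
    by_cases h1_4 : d ≤ 2 * N + 1
    · refine ⟨2, 4 * N - (3 + d), ?_, ?_⟩
      · omega
      · have e1 := vE_p4 N m (4 * N - (3 + d)) hN (by omega) (by omega) (by omega)
        have hs : shiftIdx (4 * N) (5) (4 * N - (3 + d)) = (4 * N - (3 + d)) + (5) := by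
          unfold shiftIdx; split_ifs <;> omega
        have e2 := vE_p14 N m ((4 * N - (3 + d)) + (5)) hN (by omega) (by omega) (by omega)
        simp only [dif]; rw [hs]; omega
    by_cases h1_5 : d ≤ 2 * N + 5
    · refine ⟨2, 4 * N - (4 + d), ?_, ?_⟩
      · omega
      · have e1 := vE_p10 N m (4 * N - (4 + d)) hN (by omega) (by omega) (by omega)
        have hs : shiftIdx (4 * N) (5) (4 * N - (4 + d)) = (4 * N - (4 + d)) + (5) := by
          unfold shiftIdx; split_ifs <;> omega
        have e2 := vE_p4 N m ((4 * N - (4 + d)) + (5)) hN (by omega) (by omega) (by omega)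
        simp only [dif]; rw [hs]; omega
    by_cases h1_6 : d ≤ 2 * N + 7
    · refine ⟨2, 4 * N - (7), ?_, ?_⟩
      · omega
      · have e1 := vE_p14 N m (4 * N - (7)) hN (by omega) (by omega) (by omega)
        have hs : shiftIdx (4 * N) (5) (4 * N - (7)) = (4 * N - (7)) + (5) := by
          unfold shiftIdx; split_ifs <;> omega
        have e2 := vE_p8 N m ((4 * N - (7)) + (5)) hN (by omega) (by omega) (by omega)
        simp only [dif]; rw [hs]; omega
    by_cases h1_7 : d + 7 ≤ 4 * N
    · refine ⟨2, 4 * N - (3 + d), ?_, ?_⟩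
      · omega
      · have e1 := vE_p2 N m (4 * N - (3 + d)) hN (by omega) (by omega) (by omega)
        have hs : shiftIdx (4 * N) (5) (4 * N - (3 + d)) = (4 * N - (3 + d)) + (5) := by
          unfold shiftIdx; split_ifs <;> omega
        have e2 := vE_p10 N m ((4 * N - (3 + d)) + (5)) hN (by omega) (by omega) (by omega)
        simp only [dif]; rw [hs]; omega
    by_cases h1_8 : d + 5 ≤ 4 * N
    · refine ⟨2, 2 * N + 2, ?_, ?_⟩
      · omega
      · have e1 := vE_p6 N m (2 * N + 2) hN (by omega) (by omega) (by omega)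
        have hs : shiftIdx (4 * N) (5) (2 * N + 2) = (2 * N + 2) + (5) := by
          unfold shiftIdx; split_ifs <;> omega
        have e2 := vE_p14 N m ((2 * N + 2) + (5)) hN (by omega) (by omega) (by omega)
        simp only [dif]; rw [hs]; omega
    by_cases h1_9 : d + 3 ≤ 4 * N
    · refine ⟨2, 2 * N - (6), ?_, ?_⟩
      · omega
      · have e1 := vE_p3 N m (2 * N - (6)) hN (by omega) (by omega) (by omega)
        have hs : shiftIdx (4 * N) (5) (2 * N - (6)) = (2 * N - (6)) + (5) := by
          unfold shiftIdx; split_ifs <;> omega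
        have e2 := vE_p13 N m ((2 * N - (6)) + (5)) hN (by omega) (by omega) (by omega)
        simp only [dif]; rw [hs]; omega
    by_cases h1_10 : d + 1 ≤ 4 * N
    · refine ⟨1, 2, ?_, ?_⟩
      · omega
      · have e1 := uE_p0 N m (2) hN (by omega) (by omega) (by omega)
        have e2 := vE_p1 N m (2) hN (by omega) (by omega) (by omega)
        simp only [dif]; omega
    by_cases h1_11 : d ≤ 4 * N + 1
    · refine ⟨2, 4 * N - (2), ?_, ?_⟩
      · omega
      · have e1 := vE_p8 N m (4 * N - (2)) hN (by omega) (by omega) (by omega)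
        have hs : shiftIdx (4 * N) (5) (4 * N - (2)) = (4 * N - (2)) + (5) - 4 * N := by
          unfold shiftIdx; split_ifs <;> omega
        have e2 := vE_p10 N m ((4 * N - (2)) + (5) - 4 * N) hN (by omega) (by omega) (by omega)
        simp only [dif]; rw [hs]; omega
    by_cases h1_12 : d ≤ 4 * N + 3
    · refine ⟨2, 4 * N - (1), ?_, ?_⟩
      · omega
      · have e1 := vE_p15 N m (4 * N - (1)) hN (by omega) (by omega) (by omega)
        have hs : shiftIdx (4 * N) (5) (4 * N - (1)) = (4 * N - (1)) + (5) - 4 * N := by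
          unfold shiftIdx; split_ifs <;> omega
        have e2 := vE_p2 N m ((4 * N - (1)) + (5) - 4 * N) hN (by omega) (by omega) (by omega)
        simp only [dif]; rw [hs]; omega
    by_cases h1_13 : d + 3 ≤ 6 * N
    · refine ⟨1, 8 * N + 1 - (d), ?_, ?_⟩
      · omega
      · have e1 := uE_p2 N m (8 * N + 1 - (d)) hN (by omega) (by omega) (by omega)
        have e2 := vE_p7 N m (8 * N + 1 - (d)) hN (by omega) (by omega) (by omega)
        simp only [dif]; omega
    by_cases h1_14 : d + 1 ≤ 6 * N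
    · refine ⟨1, 0, ?_, ?_⟩
      · omega
      · have e1 := uE_p0 N m (0) hN (by omega) (by omega) (by omega)
        have e2 := vE_p0 N m (0) hN (by omega) (by omega) (by omega)
        simp only [dif]; omega
    by_cases h1_15 : d ≤ 6 * N + 3
    · refine ⟨1, 8 * N - (1 + d), ?_, ?_⟩
      · omega
      · have e1 := uE_p0 N m (8 * N - (1 + d)) hN (by omega) (by omega) (by omega)
        have e2 := vE_p4 N m (8 * N - (1 + d)) hN (by omega) (by omega) (by omega)
        simp only [dif]; omega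
    by_cases h1_16 : d ≤ 6 * N + 5
    · refine ⟨1, 4 * N - (2), ?_, ?_⟩
      · omega
      · have e1 := uE_p2 N m (4 * N - (2)) hN (by omega) (by omega) (by omega)
        have e2 := vE_p8 N m (4 * N - (2)) hN (by omega) (by omega) (by omega)
        simp only [dif]; omega
    by_cases h1_17 : d + 3 ≤ 8 * N
    · refine ⟨1, 8 * N - (d), ?_, ?_⟩
      · omega
      · have e1 := uE_p3 N m (8 * N - (d)) hN (by omega) (by omega) (by omega)
        have e2 := vE_p10 N m (8 * N - (d)) hN (by omega) (by omega) (by omega)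
        simp only [dif]; omega
    by_cases h1_18 : d + 1 ≤ 8 * N
    · refine ⟨1, 2 * N - (1), ?_, ?_⟩
      · omega
      · have e1 := uE_p3 N m (2 * N - (1)) hN (by omega) (by omega) (by omega)
        have e2 := vE_p13 N m (2 * N - (1)) hN (by omega) (by omega) (by omega)
        simp only [dif]; omega
    by_cases h1_19 : d ≤ 8 * N + 1
    · refine ⟨0, 2 * N, ?_, ?_⟩
      · omega
      · have e1 := uE_p1 N m (2 * N) hN (by omega) (by omega) (by omega)
        have hs : shiftIdx (4 * N) (1) (2 * N) = (2 * N) + (1) := by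
          unfold shiftIdx; split_ifs <;> omega
        have e2 := uE_p3 N m ((2 * N) + (1)) hN (by omega) (by omega) (by omega)
        simp only [dif]; rw [hs]; omega
    by_cases h1_20 : d + 1 ≤ 10 * N
    · refine ⟨0, 12 * N + 1 - (d), ?_, ?_⟩
      · omega
      · have e1 := uE_p2 N m (12 * N + 1 - (d)) hN (by omega) (by omega) (by omega)
        have hs : shiftIdx (4 * N) (1) (12 * N + 1 - (d)) = (12 * N + 1 - (d)) + (1) := by
          unfold shiftIdx; split_ifs <;> omega
        have e2 := uE_p3 N m ((12 * N + 1 - (d)) + (1)) hN (by omega) (by omega) (by omega)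
        simp only [dif]; rw [hs]; omega
    by_cases h1_21 : d ≤ 10 * N + 1
    · refine ⟨0, 4 * N - (1), ?_, ?_⟩
      · omega
      · have e1 := uE_p3 N m (4 * N - (1)) hN (by omega) (by omega) (by omega)
        have hs : shiftIdx (4 * N) (1) (4 * N - (1)) = (4 * N - (1)) + (1) - 4 * N := by
          unfold shiftIdx; split_ifs <;> omega
        have e2 := uE_p0 N m ((4 * N - (1)) + (1) - 4 * N) hN (by omega) (by omega) (by omega)
        simp only [dif]; rw [hs]; omega
    refine ⟨0, 12 * N - (d), ?_, ?_⟩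
    · omega
    · have e1 := uE_p3 N m (12 * N - (d)) hN (by omega) (by omega) (by omega)
      have hs : shiftIdx (4 * N) (1) (12 * N - (d)) = (12 * N - (d)) + (1) := by
        unfold shiftIdx; split_ifs <;> omega
      have e2 := uE_p0 N m ((12 * N - (d)) + (1)) hN (by omega) (by omega) (by omega)
      simp only [dif]; rw [hs]; omega

lemma inj_uE (N m : ℕ) (hN : 9 ≤ N) : ∀ i < 4 * N, ∀ j < 4 * N, uE N m i = uE N m j → i = j := by
  intro i hi j hj h
  unfold uE at h
  split_ifs at h <;> omega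

lemma inj_vE (N m : ℕ) (hN : 9 ≤ N) : ∀ i < 4 * N, ∀ j < 4 * N, vE N m i = vE N m j → i = j := by
  intro i hi j hj h
  unfold vE at h
  split_ifs at h <;> omega

lemma ne_uvE (N m : ℕ) (hN : 9 ≤ N) : ∀ i < 4 * N, ∀ j < 4 * N, uE N m i ≠ vE N m j := by
  intro i hi j hj h
  unfold uE vE at h
  split_ifs at h <;> omega

lemma le_uE (N m : ℕ) (hN : 9 ≤ N) : ∀ i < 4 * N, uE N m i ≤ 3 * (4 * N) := by
  intro i hi
  unfold uE
  split_ifs <;> omega

lemma le_vE (N m : ℕ) (hN : 9 ≤ N) : ∀ i < 4 * N, vE N m i ≤ 3 * (4 * N) := by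
  intro i hi
  unfold vE
  split_ifs <;> omega

theorem gracefulE (N m : ℕ) (hN : 9 ≤ N) : IsGraceful (genPetersen (4 * N) (5)) :=
  graceful_of_labels (4 * N) (5) (by omega) (by omega) (uE N m) (vE N m)
    (inj_uE N m hN) (inj_vE N m hN) (ne_uvE N m hN) (le_uE N m hN) (le_vE N m hN)
    (surjE N m hN)

end Pool.Agent.Helper41.Graceful
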