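import Pool.Agent.Helper20.GracefulCore

/-!
# `P(4N, 1)` is graceful for `2 ≤ N`
-/

namespace Pool.Agent.Helper41.Graceful

open Pool.Agent.Helper20.Graceful

/-- labels of the vertices `u_i`, `i < 4 N` -/
def uF (N m i : ℕ) : ℕ :=
  if i % 2 = 0 then
    if i < 2 * N then i / 2
    else if i < 2 * N + 2 then 3 * N - (1)
    else i / 2 - (1)
  else
    12 * N - (i / 2)

/-- labels of the vertices `v_i`, `i < 4 N` -/
def vF (N m i : ℕ) : ℕ :=
  if i % 2 = 0 then
    if i < 2 * N then 8 * N - (i / 2)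
    else if i < 2 * N + 2 then 9 * N
    else 8 * N - (i / 2)
  else
    if i + 1 < 2 * N then 4 * N + 1 + i / 2
    else if i < 2 * N + 1 then 7 * N
    else 4 * N + i / 2

lemma uF_p0 (N m i : ℕ) (hN : 2 ≤ N) (hp : i % 2 = 0) (h1 : 0 ≤ i) (h2 : i + 2 ≤ 2 * N) :
    uF N m i = i / 2 := by
  unfold uF; split_ifs <;> omega

lemma uF_p1 (N m i : ℕ) (hN : 2 ≤ N) (hp : i % 2 = 0) (h1 : 2 * N ≤ i) (h2 : i ≤ 2 * N) :
    uF N m i + 1 = 3 * N := by
  unfold uF; split_ifs <;> omega

lemma uF_p2 (N m i : ℕ) (hN : 2 ≤ N) (hp : i % 2 = 0) (h1 : 2 * N + 2 ≤ i) (h2 : i + 2 ≤ 4 * N) :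
    uF N m i + 1 = i / 2 := by
  unfold uF; split_ifs <;> omega

lemma uF_p3 (N m i : ℕ) (hN : 2 ≤ N) (hp : i % 2 = 1) (h1 : 1 ≤ i) (h2 : i + 1 ≤ 4 * N) :
    uF N m i + i / 2 = 12 * N := by
  unfold uF; split_ifs <;> omega

lemma vF_p0 (N m i : ℕ) (hN : 2 ≤ N) (hp : i % 2 = 0) (h1 : 0 ≤ i) (h2 : i + 2 ≤ 2 * N) :
    vF N m i + i / 2 = 8 * N := by
  unfold vF; split_ifs <;> omega

lemma vF_p1 (N m i : ℕ) (hN : 2 ≤ N) (hp : i % 2 = 0) (h1 : 2 * N ≤ i) (h2 : i ≤ 2 * N) :
    vF N m i = 9 * N := by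
  unfold vF; split_ifs <;> omega

lemma vF_p2 (N m i : ℕ) (hN : 2 ≤ N) (hp : i % 2 = 0) (h1 : 2 * N + 2 ≤ i) (h2 : i + 2 ≤ 4 * N) :
    vF N m i + i / 2 = 8 * N := by
  unfold vF; split_ifs <;> omega

lemma vF_p3 (N m i : ℕ) (hN : 2 ≤ N) (hp : i % 2 = 1) (h1 : 1 ≤ i) (h2 : i + 3 ≤ 2 * N) :
    vF N m i = 4 * N + 1 + i / 2 := by
  unfold vF; split_ifs <;> omega

lemma vF_p4 (N m i : ℕ) (hN : 2 ≤ N) (hp : i % 2 = 1) (h1 : 2 * N ≤ i + 1) (h2 : i + 1 ≤ 2 * N) :
    vF N m i = 7 * N := by
  unfold vF; split_ifs <;> omega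

lemma vF_p5 (N m i : ℕ) (hN : 2 ≤ N) (hp : i % 2 = 1) (h1 : 2 * N + 1 ≤ i) (h2 : i + 1 ≤ 4 * N) :
    vF N m i = 4 * N + i / 2 := by
  unfold vF; split_ifs <;> omega

lemma surjF (N m : ℕ) (hN : 2 ≤ N) (d : ℕ) (hd1 : 1 ≤ d) (hd2 : d ≤ 3 * (4 * N)) :
    ∃ t : Fin 3, ∃ i < 4 * N, dif (uF N m) (vF N m) (4 * N) (1) t i = d := by
  rcases Nat.mod_two_eq_zero_or_one d with hq | hq
  · by_cases h0_0 : d + 2 ≤ 2 * N
    · refine ⟨2, 4 * N - (d), ?_, ?_⟩
      · omega
      · have e1 := vF_p2 N m (4 * N - (d)) hN (by omega) (by omega) (by omega)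
        have hs : shiftIdx (4 * N) (1) (4 * N - (d)) = (4 * N - (d)) + (1) := by
          unfold shiftIdx; split_ifs <;> omega
        have e2 := vF_p5 N m ((4 * N - (d)) + (1)) hN (by omega) (by omega) (by omega)
        simp only [dif]; rw [hs]; omega
    by_cases h0_1 : d ≤ 2 * N
    · refine ⟨2, 2 * N - (1), ?_, ?_⟩
      · omega
      · have e1 := vF_p4 N m (2 * N - (1)) hN (by omega) (by omega) (by omega)
        have hs : shiftIdx (4 * N) (1) (2 * N - (1)) = (2 * N - (1)) + (1) := by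
          unfold shiftIdx; split_ifs <;> omega
        have e2 := vF_p1 N m ((2 * N - (1)) + (1)) hN (by omega) (by omega) (by omega)
        simp only [dif]; rw [hs]; omega
    by_cases h0_2 : d + 2 ≤ 4 * N
    · refine ⟨2, 4 * N - (1 + d), ?_, ?_⟩
      · omega
      · have e1 := vF_p3 N m (4 * N - (1 + d)) hN (by omega) (by omega) (by omega)
        have hs : shiftIdx (4 * N) (1) (4 * N - (1 + d)) = (4 * N - (1 + d)) + (1) := by
          unfold shiftIdx; split_ifs <;> omega
        have e2 := vF_p0 N m ((4 * N - (1 + d)) + (1)) hN (by omega) (by omega) (by omega)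
        simp only [dif]; rw [hs]; omega
    by_cases h0_3 : d ≤ 4 * N
    · refine ⟨2, 2 * N, ?_, ?_⟩
      · omega
      · have e1 := vF_p1 N m (2 * N) hN (by omega) (by omega) (by omega)
        have hs : shiftIdx (4 * N) (1) (2 * N) = (2 * N) + (1) := by
          unfold shiftIdx; split_ifs <;> omega
        have e2 := vF_p5 N m ((2 * N) + (1)) hN (by omega) (by omega) (by omega)
        simp only [dif]; rw [hs]; omega
    by_cases h0_4 : d ≤ 6 * N
    · refine ⟨1, 8 * N + 1 - (d), ?_, ?_⟩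
      · omega
      · have e1 := uF_p3 N m (8 * N + 1 - (d)) hN (by omega) (by omega) (by omega)
        have e2 := vF_p5 N m (8 * N + 1 - (d)) hN (by omega) (by omega) (by omega)
        simp only [dif]; omega
    by_cases h0_5 : d ≤ 8 * N
    · refine ⟨1, 8 * N - (d), ?_, ?_⟩
      · omega
      · have e1 := uF_p0 N m (8 * N - (d)) hN (by omega) (by omega) (by omega)
        have e2 := vF_p0 N m (8 * N - (d)) hN (by omega) (by omega) (by omega)
        simp only [dif]; omega
    by_cases h0_6 : d ≤ 8 * N + 2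
    · refine ⟨0, 2 * N - (1), ?_, ?_⟩
      · omega
      · have e1 := uF_p3 N m (2 * N - (1)) hN (by omega) (by omega) (by omega)
        have hs : shiftIdx (4 * N) (1) (2 * N - (1)) = (2 * N - (1)) + (1) := by
          unfold shiftIdx; split_ifs <;> omega
        have e2 := uF_p1 N m ((2 * N - (1)) + (1)) hN (by omega) (by omega) (by omega)
        simp only [dif]; rw [hs]; omega
    by_cases h0_7 : d ≤ 10 * N
    · refine ⟨0, 12 * N + 1 - (d), ?_, ?_⟩
      · omega
      · have e1 := uF_p3 N m (12 * N + 1 - (d)) hN (by omega) (by omega) (by omega)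
        have hs : shiftIdx (4 * N) (1) (12 * N + 1 - (d)) = (12 * N + 1 - (d)) + (1) := by
          unfold shiftIdx; split_ifs <;> omega
        have e2 := uF_p2 N m ((12 * N + 1 - (d)) + (1)) hN (by omega) (by omega) (by omega)
        simp only [dif]; rw [hs]; omega
    refine ⟨0, 12 * N - (d), ?_, ?_⟩
    · omega
    · have e1 := uF_p0 N m (12 * N - (d)) hN (by omega) (by omega) (by omega)
      have hs : shiftIdx (4 * N) (1) (12 * N - (d)) = (12 * N - (d)) + (1) := by
        unfold shiftIdx; split_ifs <;> omega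
      have e2 := uF_p3 N m ((12 * N - (d)) + (1)) hN (by omega) (by omega) (by omega)
      simp only [dif]; rw [hs]; omega
  · by_cases h1_0 : d ≤ 1
    · refine ⟨2, 2 * N - (2), ?_, ?_⟩
      · omega
      · have e1 := vF_p0 N m (2 * N - (2)) hN (by omega) (by omega) (by omega)
        have hs : shiftIdx (4 * N) (1) (2 * N - (2)) = (2 * N - (2)) + (1) := by
          unfold shiftIdx; split_ifs <;> omega
        have e2 := vF_p4 N m ((2 * N - (2)) + (1)) hN (by omega) (by omega) (by omega)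
        simp only [dif]; rw [hs]; omega
    by_cases h1_1 : d + 1 ≤ 2 * N
    · refine ⟨2, 4 * N - (d), ?_, ?_⟩
      · omega
      · have e1 := vF_p5 N m (4 * N - (d)) hN (by omega) (by omega) (by omega)
        have hs : shiftIdx (4 * N) (1) (4 * N - (d)) = (4 * N - (d)) + (1) := by
          unfold shiftIdx; split_ifs <;> omega
        have e2 := vF_p2 N m ((4 * N - (d)) + (1)) hN (by omega) (by omega) (by omega)
        simp only [dif]; rw [hs]; omega
    by_cases h1_2 : d ≤ 2 * N + 1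
    · refine ⟨2, 4 * N - (1), ?_, ?_⟩
      · omega
      · have e1 := vF_p5 N m (4 * N - (1)) hN (by omega) (by omega) (by omega)
        have hs : shiftIdx (4 * N) (1) (4 * N - (1)) = (4 * N - (1)) + (1) - 4 * N := by
          unfold shiftIdx; split_ifs <;> omega
        have e2 := vF_p0 N m ((4 * N - (1)) + (1) - 4 * N) hN (by omega) (by omega) (by omega)
        simp only [dif]; rw [hs]; omega
    by_cases h1_3 : d + 1 ≤ 4 * N
    · refine ⟨2, 4 * N - (1 + d), ?_, ?_⟩
      · omega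
      · have e1 := vF_p0 N m (4 * N - (1 + d)) hN (by omega) (by omega) (by omega)
        have hs : shiftIdx (4 * N) (1) (4 * N - (1 + d)) = (4 * N - (1 + d)) + (1) := by
          unfold shiftIdx; split_ifs <;> omega
        have e2 := vF_p3 N m ((4 * N - (1 + d)) + (1)) hN (by omega) (by omega) (by omega)
        simp only [dif]; rw [hs]; omega
    by_cases h1_4 : d ≤ 4 * N + 1
    · refine ⟨1, 2 * N - (1), ?_, ?_⟩
      · omega
      · have e1 := uF_p3 N m (2 * N - (1)) hN (by omega) (by omega) (by omega)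
        have e2 := vF_p4 N m (2 * N - (1)) hN (by omega) (by omega) (by omega)
        simp only [dif]; omega
    by_cases h1_5 : d + 1 ≤ 6 * N
    · refine ⟨1, 8 * N + 1 - (d), ?_, ?_⟩
      · omega
      · have e1 := uF_p2 N m (8 * N + 1 - (d)) hN (by omega) (by omega) (by omega)
        have e2 := vF_p2 N m (8 * N + 1 - (d)) hN (by omega) (by omega) (by omega)
        simp only [dif]; omega
    by_cases h1_6 : d ≤ 6 * N + 1
    · refine ⟨1, 2 * N, ?_, ?_⟩
      · omega
      · have e1 := uF_p1 N m (2 * N) hN (by omega) (by omega) (by omega)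
        have e2 := vF_p1 N m (2 * N) hN (by omega) (by omega) (by omega)
        simp only [dif]; omega
    by_cases h1_7 : d + 1 ≤ 8 * N
    · refine ⟨1, 8 * N - (d), ?_, ?_⟩
      · omega
      · have e1 := uF_p3 N m (8 * N - (d)) hN (by omega) (by omega) (by omega)
        have e2 := vF_p3 N m (8 * N - (d)) hN (by omega) (by omega) (by omega)
        simp only [dif]; omega
    by_cases h1_8 : d ≤ 8 * N + 1
    · refine ⟨0, 2 * N, ?_, ?_⟩
      · omega
      · have e1 := uF_p1 N m (2 * N) hN (by omega) (by omega) (by omega)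
        have hs : shiftIdx (4 * N) (1) (2 * N) = (2 * N) + (1) := by
          unfold shiftIdx; split_ifs <;> omega
        have e2 := uF_p3 N m ((2 * N) + (1)) hN (by omega) (by omega) (by omega)
        simp only [dif]; rw [hs]; omega
    by_cases h1_9 : d + 1 ≤ 10 * N
    · refine ⟨0, 12 * N + 1 - (d), ?_, ?_⟩
      · omega
      · have e1 := uF_p2 N m (12 * N + 1 - (d)) hN (by omega) (by omega) (by omega)
        have hs : shiftIdx (4 * N) (1) (12 * N + 1 - (d)) = (12 * N + 1 - (d)) + (1) := by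
          unfold shiftIdx; split_ifs <;> omega
        have e2 := uF_p3 N m ((12 * N + 1 - (d)) + (1)) hN (by omega) (by omega) (by omega)
        simp only [dif]; rw [hs]; omega
    by_cases h1_10 : d ≤ 10 * N + 1
    · refine ⟨0, 4 * N - (1), ?_, ?_⟩
      · omega
      · have e1 := uF_p3 N m (4 * N - (1)) hN (by omega) (by omega) (by omega)
        have hs : shiftIdx (4 * N) (1) (4 * N - (1)) = (4 * N - (1)) + (1) - 4 * N := by
          unfold shiftIdx; split_ifs <;> omega
        have e2 := uF_p0 N m ((4 * N - (1)) + (1) - 4 * N) hN (by omega) (by omega) (by omega)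
        simp only [dif]; rw [hs]; omega
    refine ⟨0, 12 * N - (d), ?_, ?_⟩
    · omega
    · have e1 := uF_p3 N m (12 * N - (d)) hN (by omega) (by omega) (by omega)
      have hs : shiftIdx (4 * N) (1) (12 * N - (d)) = (12 * N - (d)) + (1) := by
        unfold shiftIdx; split_ifs <;> omega
      have e2 := uF_p0 N m ((12 * N - (d)) + (1)) hN (by omega) (by omega) (by omega)
      simp only [dif]; rw [hs]; omega

lemma inj_uF (N m : ℕ) (hN : 2 ≤ N) : ∀ i < 4 * N, ∀ j < 4 * N, uF N m i = uF N m j → i = j := by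
  intro i hi j hj h
  unfold uF at h
  split_ifs at h <;> omega

lemma inj_vF (N m : ℕ) (hN : 2 ≤ N) : ∀ i < 4 * N, ∀ j < 4 * N, vF N m i = vF N m j → i = j := by
  intro i hi j hj h
  unfold vF at h
  split_ifs at h <;> omega

lemma ne_uvF (N m : ℕ) (hN : 2 ≤ N) : ∀ i < 4 * N, ∀ j < 4 * N, uF N m i ≠ vF N m j := by
  intro i hi j hj h
  unfold uF vF at h
  split_ifs at h <;> omega

lemma le_uF (N m : ℕ) (hN : 2 ≤ N) : ∀ i < 4 * N, uF N m i ≤ 3 * (4 * N) := by
  intro i hi
  unfold uF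
  split_ifs <;> omega

lemma le_vF (N m : ℕ) (hN : 2 ≤ N) : ∀ i < 4 * N, vF N m i ≤ 3 * (4 * N) := by
  intro i hi
  unfold vF
  split_ifs <;> omega

theorem gracefulF (N m : ℕ) (hN : 2 ≤ N) : IsGraceful (genPetersen (4 * N) (1)) :=
  graceful_of_labels (4 * N) (1) (by omega) (by omega) (uF N m) (vF N m)
    (inj_uF N m hN) (inj_vF N m hN) (ne_uvF N m hN) (le_uF N m hN) (le_vF N m hN)
    (surjF N m hN)

end Pool.Agent.Helper41.Graceful
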