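import Pool.Agent.Helper20.GracefulCore

/-!
# `P(28,5)` and `P(32,5)` are graceful (explicit labellings)
-/

namespace Pool.Agent.Helper41.Graceful
open Pool.Agent.Helper20.Graceful

/-- outer labels -/
def lu28 (i : ℕ) : ℕ := ([0, 84, 1, 83, 2, 82, 3, 81, 4, 80, 5, 79, 6, 78, 20, 77, 7, 76, 8, 75, 9, 74, 10, 73, 11, 72, 12, 71] : List ℕ).getD i 0

/-- inner labels -/
def lv28 (i : ℕ) : ℕ := ([42, 44, 52, 46, 47, 30, 50, 38, 14, 56, 31, 68, 21, 37, 59, 69, 34, 26, 15, 29, 65, 53, 54, 40, 60, 17, 66, 18] : List ℕ).getD i 0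

set_option maxRecDepth 100000 in
theorem surj28 : ∀ d < 85, 1 ≤ d → ∃ t : Fin 3, ∃ i < 28, dif lu28 lv28 28 5 t i = d := by
  decide +kernel

set_option maxRecDepth 100000 in
theorem graceful28_5 : IsGraceful (genPetersen 28 5) :=
  graceful_of_labels 28 5 (by omega) (by omega) lu28 lv28 (by decide +kernel) (by decide +kernel)
    (by decide +kernel) (by decide +kernel) (by decide +kernel)
    (fun d h1 h2 => surj28 d (by omega) h1)

/-- outer labels -/
def lu32 (i : ℕ) : ℕ := ([0, 96, 1, 95, 2, 94, 3, 93, 4, 92, 5, 91, 6, 90, 7, 89, 23, 88, 8, 87, 9, 86, 10, 85, 11, 84, 12, 83, 13, 82, 14, 81] : List ℕ).getD i 0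

/-- inner labels -/
def lv32 (i : ℕ) : ℕ := ([60, 51, 33, 59, 35, 41, 34, 37, 65, 58, 48, 54, 50, 44, 55, 38, 78, 80, 71, 30, 47, 64, 68, 36, 70, 32, 62, 21, 77, 28, 43, 63] : List ℕ).getD i 0

set_option maxRecDepth 100000 in
theorem surj32 : ∀ d < 97, 1 ≤ d → ∃ t : Fin 3, ∃ i < 32, dif lu32 lv32 32 5 t i = d := by
  decide +kernel

set_option maxRecDepth 100000 in
theorem graceful32_5 : IsGraceful (genPetersen 32 5) :=
  graceful_of_labels 32 5 (by omega) (by omega) lu32 lv32 (by decide +kernel) (by decide +kernel)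
    (by decide +kernel) (by decide +kernel) (by decide +kernel)
    (fun d h1 h2 => surj32 d (by omega) h1)

end Pool.Agent.Helper41.Graceful
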