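import Mathlib

/-!
# p-intersection representations of graphs: definitions
-/

namespace Pool.Agent.Helper41.PInt

/-- `S` is a `p`-intersection representation of `G` on a ground set with `t` elements: two
distinct vertices are adjacent if and only if their sets share at least `p` elements. -/
def IsRep {V : Type} (G : SimpleGraph V) (p t : ℕ) (S : V → Finset (Fin t)) : Prop :=
  ∀ u v : V, u ≠ v → (G.Adj u v ↔ p ≤ (S u ∩ S v).card)

/-- The `p`-intersection number of `G`: the least `t` such that `G` has a `p`-intersection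
representation on `t` elements. -/
noncomputable def theta {V : Type} (G : SimpleGraph V) (p : ℕ) : ℕ :=
  sInf {t : ℕ | ∃ S : V → Finset (Fin t), IsRep G p t S}

/-- The graph `𝒦(n × k)`: the vertex `(α, l)` (row `α`, part `l`) is adjacent to `(β, m)`
if and only if `α ≠ β` and `l ≠ m`. -/
def graphK (n k : ℕ) : SimpleGraph (Fin n × Fin k) where
  Adj x y := x.1 ≠ y.1 ∧ x.2 ≠ y.2
  symm := ⟨fun _ _ h => ⟨Ne.symm h.1, Ne.symm h.2⟩⟩
  loopless := ⟨fun _ h => h.1 rfl⟩

/-- The complete `k`-partite graph with parts of size `n`: the vertex `(α, l)` (in part `l`) is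
adjacent to `(β, m)` if and only if `l ≠ m`. -/
def multipartite (n k : ℕ) : SimpleGraph (Fin n × Fin k) where
  Adj x y := x.2 ≠ y.2
  symm := ⟨fun _ _ h => Ne.symm h⟩
  loopless := ⟨fun _ h => h rfl⟩

end Pool.Agent.Helper41.PInt
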