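import Mathlib
import Pool.Agent.Helper41.PIntDefs

/-!
# The lower bound `k (k - 1) ≤ p t` for `p`-intersection representations of `𝒦(n × k)`
-/

namespace Pool.Agent.Helper41.PInt

open Finset

/-- number of members of the family containing `x` -/
def deg {k t : ℕ} (A : Fin k → Finset (Fin t)) (x : Fin t) : ℤ :=
  ∑ l, if x ∈ A l then 1 else 0

lemma card_inter_eq {t : ℕ} (A B : Finset (Fin t)) :
    ((A ∩ B).card : ℤ) = ∑ x, (if x ∈ A then 1 else 0) * (if x ∈ B then 1 else 0) := by
  rw [Finset.card_eq_sum_ones, Nat.cast_sum, ← Finset.sum_filter_add_sum_filter_not univ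
    (fun x => x ∈ A ∩ B)]
  have h1 : ∑ x ∈ univ.filter (fun x => ¬ x ∈ A ∩ B),
      ((if x ∈ A then (1 : ℤ) else 0) * (if x ∈ B then 1 else 0)) = 0 := by
    apply Finset.sum_eq_zero
    intro x hx
    simp only [mem_filter, mem_univ, true_and, mem_inter, not_and_or] at hx
    rcases hx with hx | hx <;> simp [hx]
  rw [h1, add_zero]
  have h2 : univ.filter (fun x => x ∈ A ∩ B) = A ∩ B := by ext; simp
  rw [h2]
  apply Finset.sum_congr rfl
  intro x hx
  rw [mem_inter] at hx
  simp [hx.1, hx.2]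

lemma double_count {k t : ℕ} (A B : Fin k → Finset (Fin t)) :
    ∑ l, ∑ m, ((A l ∩ B m).card : ℤ) = ∑ x, deg A x * deg B x := by
  simp_rw [card_inter_eq, deg, Finset.sum_mul_sum]
  rw [Finset.sum_comm]
  rw [Finset.sum_congr rfl (fun m _ => Finset.sum_comm)]
  rw [Finset.sum_comm]
  refine Finset.sum_congr rfl (fun x _ => ?_)
  rw [Finset.sum_comm]

lemma sum_card {k t : ℕ} (A : Fin k → Finset (Fin t)) :
    ∑ l, ((A l).card : ℤ) = ∑ x, deg A x := by
  unfold deg
  rw [Finset.sum_comm]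
  refine Finset.sum_congr rfl (fun l _ => ?_)
  have := card_inter_eq (A l) (A l)
  rw [Finset.inter_self] at this
  rw [this]
  refine Finset.sum_congr rfl (fun x _ => ?_)
  split_ifs <;> simp

lemma sum_ite_diag (k : ℕ) (c : Fin k → ℤ) (d : ℤ) :
    ∑ l : Fin k, ∑ m : Fin k, (if l = m then c l else d) = ∑ l, c l + (k * k - k) * d := by
  have h : ∀ l : Fin k, ∑ m : Fin k, (if l = m then c l else d) = c l + (k - 1) * d := by
    intro l
    have : ∀ m : Fin k, (if l = m then c l else d) = d + (if l = m then c l - d else 0) := by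
      intro m; split_ifs <;> ring
    simp_rw [this]
    rw [Finset.sum_add_distrib]
    simp
    ring
  simp_rw [h]
  rw [Finset.sum_add_distrib]
  simp
  ring

/-- the sets of one row -/
lemma row_bound {k t p : ℕ} (A : Fin k → Finset (Fin t))
    (h : ∀ l m, l ≠ m → (A l ∩ A m).card < p) :
    ∑ x, (deg A x * deg A x - deg A x) ≤ (k * k - k) * (p - 1) := by
  rw [Finset.sum_sub_distrib, ← double_count, ← sum_card]
  have h1 : ∑ l, ∑ m, ((A l ∩ A m).card : ℤ)
      ≤ ∑ l : Fin k, ∑ m : Fin k, (if l = m then ((A l).card : ℤ) else ((p : ℤ) - 1)) := by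
    refine Finset.sum_le_sum (fun l _ => Finset.sum_le_sum (fun m _ => ?_))
    split_ifs with hlm
    · subst hlm; simp
    · have := h l m hlm
      omega
  rw [sum_ite_diag] at h1
  linarith

/-- the sets of two different rows -/
lemma cross_bound {k t p : ℕ} (A B : Fin k → Finset (Fin t))
    (h : ∀ l m, l ≠ m → p ≤ (A l ∩ B m).card) :
    (k * k - k) * p ≤ ∑ x, deg A x * deg B x := by
  rw [← double_count]
  have h1 : ∑ l : Fin k, ∑ m : Fin k, (if l = m then (0 : ℤ) else (p : ℤ))
      ≤ ∑ l, ∑ m, ((A l ∩ B m).card : ℤ) := by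
    refine Finset.sum_le_sum (fun l _ => Finset.sum_le_sum (fun m _ => ?_))
    split_ifs with hlm
    · positivity
    · exact_mod_cast h l m hlm
  rw [sum_ite_diag k (fun _ => 0) p] at h1
  simpa using h1

lemma pointwise (p a b : ℤ) (hp : 1 ≤ p) :
    0 ≤ p * ((a * a - a) + (b * b - b)) - (2 * p - 1) * (a * b) + p * p := by
  nlinarith [mul_nonneg (sub_nonneg.2 hp) (sq_nonneg (a - b)), sq_nonneg (a - b),
    sq_nonneg (a - p), sq_nonneg (b - p)]

/-- two families with small intersections inside each family, large across -/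
lemma two_families {k t p : ℕ} (hp : 1 ≤ p) (A B : Fin k → Finset (Fin t))
    (hA : ∀ l m, l ≠ m → (A l ∩ A m).card < p) (hB : ∀ l m, l ≠ m → (B l ∩ B m).card < p)
    (hAB : ∀ l m, l ≠ m → p ≤ (A l ∩ B m).card) : k * k ≤ p * t + k := by
  have h1 := row_bound A hA
  have h2 := row_bound B hB
  have h3 := cross_bound A B hAB
  have hp' : (1 : ℤ) ≤ p := by exact_mod_cast hp
  have h4 : 0 ≤ ∑ x : Fin t, ((p : ℤ) * ((deg A x * deg A x - deg A x)
      + (deg B x * deg B x - deg B x)) - (2 * p - 1) * (deg A x * deg B x) + p * p) :=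
    Finset.sum_nonneg (fun x _ => pointwise p _ _ hp')
  rw [Finset.sum_add_distrib, Finset.sum_sub_distrib, ← Finset.mul_sum, ← Finset.mul_sum,
    Finset.sum_add_distrib] at h4
  simp only [sum_const, card_univ, Fintype.card_fin, nsmul_eq_mul] at h4
  have h5 : (p : ℤ) * ((k * k - k) - p * t) ≤ 0 := by
    have e1 : (p : ℤ) * (∑ x, (deg A x * deg A x - deg A x) + ∑ x, (deg B x * deg B x - deg B x))
        ≤ p * (2 * ((k * k - k) * (p - 1))) := by
      apply mul_le_mul_of_nonneg_left _ (by positivity)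
      linarith
    have e2 : (2 * (p : ℤ) - 1) * ((k * k - k) * p) ≤ (2 * p - 1) * ∑ x, deg A x * deg B x :=
      mul_le_mul_of_nonneg_left h3 (by linarith)
    nlinarith
  have h6 : ((k : ℤ) * k - k) - p * t ≤ 0 := by
    by_contra hc
    push Not at hc
    have : 0 < (p : ℤ) * ((k * k - k) - p * t) := mul_pos (by linarith) hc
    linarith
  have h7 : ((k * k : ℕ) : ℤ) ≤ ((p * t + k : ℕ) : ℤ) := by push_cast; linarith
  exact_mod_cast h7

/-- the lower bound -/
lemma lower_bound {n k p t : ℕ} (hn : 2 ≤ n) (hp : 1 ≤ p) (S : Fin n × Fin k → Finset (Fin t))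
    (hS : IsRep (graphK n k) p t S) : k * k ≤ p * t + k := by
  have h01 : (⟨0, by omega⟩ : Fin n) ≠ ⟨1, by omega⟩ := by
    intro h; simp at h
  refine two_families hp (fun l => S (⟨0, by omega⟩, l)) (fun l => S (⟨1, by omega⟩, l)) ?_ ?_ ?_
  · intro l m hlm
    have h := hS (⟨0, by omega⟩, l) (⟨0, by omega⟩, m) (by simpa using hlm)
    by_contra hc
    exact (h.2 (not_lt.1 hc)).1 rfl
  · intro l m hlm
    have h := hS (⟨1, by omega⟩, l) (⟨1, by omega⟩, m) (by simpa using hlm)
    by_contra hc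
    exact (h.2 (not_lt.1 hc)).1 rfl
  · intro l m hlm
    have h := hS (⟨0, by omega⟩, l) (⟨1, by omega⟩, m) (by simp)
    exact h.1 ⟨h01, hlm⟩

end Pool.Agent.Helper41.PInt
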