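import Mathlib
import Pool.Agent.Helper41.PIntDefs

/-!
# The construction of `p`-intersection representations of `𝒦(n × k)` from rings
-/

namespace Pool.Agent.Helper41.PInt

open Finset

/-- the ring has an element `ζ` with `ζ ^ p = 1` and units `c α` such that all differences
of different elements `c α * ζ ^ i` are units -/
def Good (p n : ℕ) (R : Type) [CommRing R] : Prop :=
  ∃ (ζ : R) (c : Fin n → R), ζ ^ p = 1 ∧ (∀ α, IsUnit (c α)) ∧
    ∀ (α β : Fin n) (i j : ℕ), i < p → j < p → (α, i) ≠ (β, j) →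
      IsUnit (c α * ζ ^ i - c β * ζ ^ j)

lemma good_pi {p n : ℕ} {ι : Type} (F : ι → Type) [∀ i, CommRing (F i)]
    (h : ∀ i, Good p n (F i)) : Good p n (∀ i, F i) := by
  choose ζ c h1 h2 h3 using h
  refine ⟨ζ, fun α i => c i α, ?_, ?_, ?_⟩
  · ext i; exact h1 i
  · intro α
    rw [Pi.isUnit_iff]
    exact fun i => h2 i α
  · intro α β i j hi hj hne
    rw [Pi.isUnit_iff]
    intro s
    exact h3 s α β i j hi hj hne

lemma good_prod {p n : ℕ} {R R' : Type} [CommRing R] [CommRing R']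
    (h : Good p n R) (h' : Good p n R') : Good p n (R × R') := by
  obtain ⟨ζ, c, h1, h2, h3⟩ := h
  obtain ⟨ζ', c', h1', h2', h3'⟩ := h'
  refine ⟨(ζ, ζ'), fun α => (c α, c' α), ?_, ?_, ?_⟩
  · ext
    · exact h1
    · exact h1'
  · intro α
    rw [Prod.isUnit_iff]
    exact ⟨h2 α, h2' α⟩
  · intro α β i j hi hj hne
    rw [Prod.isUnit_iff]
    exact ⟨h3 α β i j hi hj hne, h3' α β i j hi hj hne⟩

lemma good_field {p n q : ℕ} (hp : 0 < p) (hq : q.Prime) (hmod : q ≡ 1 [MOD p])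
    (hlarge : n * p < q) : Good p n (ZMod q) := by
  have : Fact q.Prime := ⟨hq⟩
  obtain ⟨γ, hγ⟩ := IsCyclic.exists_generator (α := (ZMod q)ˣ)
  have hord : orderOf γ = q - 1 := by
    rw [orderOf_eq_card_of_forall_mem_zpowers hγ, Nat.card_eq_fintype_card, ZMod.card_units]
  have hdvd : p ∣ q - 1 := (Nat.modEq_iff_dvd' hq.one_lt.le).1 hmod.symm
  obtain ⟨e, he⟩ := hdvd
  have hen : n ≤ e := by
    have h1 : n * p ≤ p * e := by omega
    rw [Nat.mul_comm] at h1
    exact Nat.le_of_mul_le_mul_left h1 hp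
  have key : ∀ (α β : Fin n) (i j : ℕ), i < p → j < p →
      γ ^ (α.1 + e * i) = γ ^ (β.1 + e * j) → (α, i) = (β, j) := by
    intro α β i j hi hj h
    have hα : α.1 < e := lt_of_lt_of_le α.2 hen
    have hβ : β.1 < e := lt_of_lt_of_le β.2 hen
    have hi' : α.1 + e * i < orderOf γ := by
      rw [hord, he]
      calc α.1 + e * i < e + e * i := by omega
        _ = e * (i + 1) := by ring
        _ ≤ e * p := Nat.mul_le_mul_left _ hi
        _ = p * e := Nat.mul_comm _ _
    have hj' : β.1 + e * j < orderOf γ := by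
      rw [hord, he]
      calc β.1 + e * j < e + e * j := by omega
        _ = e * (j + 1) := by ring
        _ ≤ e * p := Nat.mul_le_mul_left _ hj
        _ = p * e := Nat.mul_comm _ _
    have h2 : α.1 + e * i = β.1 + e * j := pow_injOn_Iio_orderOf hi' hj' h
    have h3 : i = j := by
      have h4 : (α.1 + e * i) / e = (β.1 + e * j) / e := by rw [h2]
      have he0 : 0 < e := by omega
      rw [Nat.add_mul_div_left _ _ he0, Nat.add_mul_div_left _ _ he0, Nat.div_eq_of_lt hα,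
        Nat.div_eq_of_lt hβ] at h4
      omega
    subst h3
    have h5 : α = β := Fin.ext (by omega)
    rw [h5]
  refine ⟨((γ ^ e : (ZMod q)ˣ) : ZMod q), fun α => ((γ ^ α.1 : (ZMod q)ˣ) : ZMod q), ?_, ?_, ?_⟩
  · rw [← Units.val_pow_eq_pow_val, ← pow_mul, Nat.mul_comm, ← he, ← hord, pow_orderOf_eq_one]
    rfl
  · intro α
    exact Units.isUnit _
  · intro α β i j hi hj hne
    rw [isUnit_iff_ne_zero]
    intro h0
    rw [sub_eq_zero, ← Units.val_pow_eq_pow_val, ← Units.val_pow_eq_pow_val, ← Units.val_mul,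
      ← Units.val_mul] at h0
    have h1 := Units.ext h0
    rw [← pow_mul, ← pow_mul, ← pow_add, ← pow_add] at h1
    exact hne (key α β i j hi hj h1)

section construction

variable {p n : ℕ} {R : Type} [CommRing R] [DecidableEq R]

/-- the orbit of `y` under multiplication by powers of `ζ` -/
def orb (p : ℕ) (ζ y : R) : Finset R := (Finset.range p).image (fun i => y * ζ ^ i)

lemma mem_orb {ζ y z : R} : z ∈ orb p ζ y ↔ ∃ i < p, y * ζ ^ i = z := by
  simp [orb]

lemma orb_subset {ζ y z : R} (hζ : ζ ^ p = 1) (hp : 0 < p) (h : z ∈ orb p ζ y) :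
    orb p ζ z ⊆ orb p ζ y := by
  obtain ⟨i, hi, rfl⟩ := mem_orb.1 h
  intro w hw
  obtain ⟨j, hj, rfl⟩ := mem_orb.1 hw
  rw [mem_orb]
  refine ⟨(i + j) % p, Nat.mod_lt _ hp, ?_⟩
  rw [mul_assoc, ← pow_add]
  congr 1
  conv_rhs => rw [← Nat.mod_add_div (i + j) p, pow_add, pow_mul, hζ, one_pow, mul_one]

lemma orb_eq {ζ y z : R} (hζ : ζ ^ p = 1) (hp : 0 < p) (h : z ∈ orb p ζ y) :
    orb p ζ z = orb p ζ y := by
  refine Finset.Subset.antisymm (orb_subset hζ hp h) (orb_subset hζ hp ?_)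
  obtain ⟨i, hi, rfl⟩ := mem_orb.1 h
  rw [mem_orb]
  rcases Nat.eq_zero_or_pos i with rfl | hi0
  · exact ⟨0, hp, by simp⟩
  · refine ⟨p - i, by omega, ?_⟩
    rw [mul_assoc, ← pow_add, Nat.add_sub_cancel' hi.le, hζ, mul_one]

lemma self_mem_orb {ζ y : R} (hp : 0 < p) : y ∈ orb p ζ y := mem_orb.2 ⟨0, hp, by simp⟩

lemma ne_zero_of_mem_orb {ζ y z : R} (hζ : ζ ^ p = 1) (hp : 0 < p) (h : z ∈ orb p ζ y)
    (hy : y ≠ 0) : z ≠ 0 := by
  rintro rfl
  have h1 : y ∈ orb p ζ 0 := by rw [orb_eq hζ hp h]; exact self_mem_orb hp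
  obtain ⟨i, -, hi⟩ := mem_orb.1 h1
  rw [zero_mul] at hi
  exact hy hi.symm

lemma card_orb {ζ y : R} (hu : ∀ i j : ℕ, i < p → j < p → i ≠ j → IsUnit (ζ ^ i - ζ ^ j))
    (hy : y ≠ 0) : (orb p ζ y).card = p := by
  unfold orb
  rw [Finset.card_image_of_injOn, card_range]
  intro i hi j hj hij
  by_contra hne
  have h1 : y * (ζ ^ i - ζ ^ j) = 0 := by
    simp only at hij
    rw [mul_sub, hij, sub_self]
  have h2 := (hu i j (by simpa using hi) (by simpa using hj) hne)
  exact hy ((h2.mul_left_eq_zero).1 h1)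

variable [Fintype R]

/-- the set of orbits of nonzero elements -/
def orbits (p : ℕ) (ζ : R) : Finset (Finset R) := (univ.erase 0).image (orb p ζ)

lemma mem_orbits {ζ : R} {A : Finset R} :
    A ∈ orbits p ζ ↔ ∃ y, y ≠ 0 ∧ orb p ζ y = A := by
  simp [orbits]

lemma card_orbits {ζ : R} (hζ : ζ ^ p = 1) (hp : 0 < p)
    (hu : ∀ i j : ℕ, i < p → j < p → i ≠ j → IsUnit (ζ ^ i - ζ ^ j)) :
    (orbits p ζ).card * p ≤ Fintype.card R - 1 := by
  have h1 : ((orbits p ζ).biUnion id).card = ∑ A ∈ orbits p ζ, (id A).card := by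
    apply Finset.card_biUnion
    intro A hA B hB hAB
    rw [Function.onFun, Finset.disjoint_left]
    intro x hxA hxB
    obtain ⟨y, hy, rfl⟩ := mem_orbits.1 hA
    obtain ⟨z, hz, rfl⟩ := mem_orbits.1 hB
    exact hAB ((orb_eq hζ hp hxA).symm.trans (orb_eq hζ hp hxB))
  have h2 : ∑ A ∈ orbits p ζ, (id A).card = (orbits p ζ).card * p := by
    rw [Finset.sum_const_nat]
    intro A hA
    obtain ⟨y, hy, rfl⟩ := mem_orbits.1 hA
    exact card_orb hu hy
  rw [← h2, ← h1, ← Finset.card_univ, ← Finset.card_erase_of_mem (mem_univ (0 : R))]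
  apply Finset.card_le_card
  intro x hx
  rw [mem_biUnion] at hx
  obtain ⟨A, hA, hxA⟩ := hx
  obtain ⟨y, hy, rfl⟩ := mem_orbits.1 hA
  rw [mem_erase]
  exact ⟨ne_zero_of_mem_orb hζ hp hxA hy, mem_univ _⟩

/-- the set of the vertex in row `α` and column `x` -/
def block (p : ℕ) (ζ a x : R) : Finset (Finset R × R) :=
  ((orbits p ζ) ×ˢ univ).filter (fun AB => ∃ y ∈ AB.1, x = AB.2 + a * y)

lemma mem_block {ζ a x : R} {AB : Finset R × R} : AB ∈ block p ζ a x ↔
    AB.1 ∈ orbits p ζ ∧ ∃ y ∈ AB.1, x = AB.2 + a * y := by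
  simp [block]

/-- elements of the intersection of two blocks -/
lemma mem_inter_blocks {ζ a b x z : R} (hζ : ζ ^ p = 1) (hp : 0 < p) {AB : Finset R × R}
    (h1 : AB ∈ block p ζ a x) (h2 : AB ∈ block p ζ b z) :
    ∃ y, y ≠ 0 ∧ ∃ i < p, y * (a - b * ζ ^ i) = x - z ∧ AB = (orb p ζ y, x - a * y) := by
  rw [mem_block] at h1 h2
  obtain ⟨hA, y, hy, hx⟩ := h1
  obtain ⟨-, y', hy', hz⟩ := h2
  obtain ⟨y0, hy0, hA0⟩ := mem_orbits.1 hA
  rw [← hA0] at hy
  have hAy : AB.1 = orb p ζ y := by rw [← hA0]; exact (orb_eq hζ hp hy).symm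
  rw [hAy] at hy'
  obtain ⟨i, hi, rfl⟩ := mem_orb.1 hy'
  refine ⟨y, ne_zero_of_mem_orb hζ hp hy hy0, i, hi, ?_, ?_⟩
  · rw [hx, hz]; ring
  · ext1
    · exact hAy
    · rw [hx]; simp

lemma block_inter_same_col {ζ a b x : R} (hζ : ζ ^ p = 1) (hp : 0 < p)
    (hu : ∀ i < p, IsUnit (a - b * ζ ^ i)) : (block p ζ a x ∩ block p ζ b x).card = 0 := by
  rw [Finset.card_eq_zero]
  by_contra hne
  obtain ⟨AB, hAB⟩ := Finset.nonempty_iff_ne_empty.2 hne
  rw [mem_inter] at hAB
  obtain ⟨y, hy, i, hi, h1, -⟩ := mem_inter_blocks hζ hp hAB.1 hAB.2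
  rw [sub_self] at h1
  exact hy (((hu i hi).mul_left_eq_zero).1 h1)

lemma block_inter_same_row {ζ a x z : R} (hζ : ζ ^ p = 1) (hp : 0 < p)
    (hu : ∀ i < p, i ≠ 0 → IsUnit (a - a * ζ ^ i)) (hxz : x ≠ z) :
    (block p ζ a x ∩ block p ζ a z).card < p := by
  have hsub : block p ζ a x ∩ block p ζ a z ⊆ ((Finset.range p).erase 0).image
      (fun i => (orb p ζ ((x - z) * Ring.inverse (a - a * ζ ^ i)),
        x - a * ((x - z) * Ring.inverse (a - a * ζ ^ i)))) := by
    intro AB hAB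
    rw [mem_inter] at hAB
    obtain ⟨y, hy, i, hi, h1, h2⟩ := mem_inter_blocks hζ hp hAB.1 hAB.2
    have hi0 : i ≠ 0 := by
      rintro rfl
      rw [pow_zero, mul_one, sub_self, mul_zero] at h1
      exact hxz (sub_eq_zero.1 h1.symm)
    rw [mem_image]
    refine ⟨i, by rw [mem_erase, mem_range]; exact ⟨hi0, hi⟩, ?_⟩
    have h3 : (x - z) * Ring.inverse (a - a * ζ ^ i) = y := by
      rw [← h1, mul_assoc, Ring.mul_inverse_cancel _ (hu i hi hi0), mul_one]
    rw [h3, h2]
  have h4 := Finset.card_le_card hsub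
  have h5 := h4.trans Finset.card_image_le
  rw [Finset.card_erase_of_mem (by simpa using hp), card_range] at h5
  omega

lemma block_inter_edge {ζ a b x z : R} (ha : IsUnit a)
    (hu : ∀ i < p, IsUnit (a - b * ζ ^ i))
    (hu2 : ∀ i j, i < p → j < p → i ≠ j → IsUnit (b * ζ ^ i - b * ζ ^ j)) (hxz : x ≠ z)
    (hp : 0 < p) :
    p ≤ (block p ζ a x ∩ block p ζ b z).card := by
  have hy : ∀ i < p, (x - z) * Ring.inverse (a - b * ζ ^ i) * (a - b * ζ ^ i) = x - z := by
    intro i hi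
    rw [mul_assoc, Ring.inverse_mul_cancel _ (hu i hi), mul_one]
  have hy0 : ∀ i < p, (x - z) * Ring.inverse (a - b * ζ ^ i) ≠ 0 := by
    intro i hi h0
    have := hy i hi
    rw [h0, zero_mul] at this
    exact hxz (sub_eq_zero.1 this.symm)
  have hsub : (Finset.range p).image
      (fun i => (orb p ζ ((x - z) * Ring.inverse (a - b * ζ ^ i)),
        x - a * ((x - z) * Ring.inverse (a - b * ζ ^ i))))
      ⊆ block p ζ a x ∩ block p ζ b z := by
    intro AB hAB
    rw [mem_image] at hAB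
    obtain ⟨i, hi, rfl⟩ := hAB
    rw [mem_range] at hi
    rw [mem_inter, mem_block, mem_block]
    refine ⟨⟨mem_orbits.2 ⟨_, hy0 i hi, rfl⟩, _, self_mem_orb hp, by simp⟩,
      mem_orbits.2 ⟨_, hy0 i hi, rfl⟩, _, mem_orb.2 ⟨i, hi, rfl⟩, ?_⟩
    simp only
    have h1 := hy i hi
    linear_combination h1
  refine le_trans ?_ (Finset.card_le_card hsub)
  rw [Finset.card_image_of_injOn, card_range]
  intro i hi j hj hij
  have hi' : i < p := by simpa using hi
  have hj' : j < p := by simpa using hj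
  by_contra hne
  simp only [Prod.mk.injEq] at hij
  have h1 := hij.2
  have h2 : a * ((x - z) * Ring.inverse (a - b * ζ ^ i))
      = a * ((x - z) * Ring.inverse (a - b * ζ ^ j)) := by
    linear_combination -h1
  have h3 := ha.mul_left_cancel h2
  have h4 : (x - z) * Ring.inverse (a - b * ζ ^ i) * (b * ζ ^ i - b * ζ ^ j) = 0 := by
    have e1 := hy i hi'
    have e2 := hy j hj'
    rw [← h3] at e2
    linear_combination e2 - e1
  exact hy0 i hi' (((hu2 i j hi' hj' hne).mul_left_eq_zero).1 h4)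

end construction

/-- transport of a family of sets to `Fin t` -/
lemma transport {V X : Type} [DecidableEq X] (T : Finset X) (S' : V → Finset X)
    (h : ∀ v, S' v ⊆ T) : ∃ S : V → Finset (Fin T.card),
      ∀ u v, (S u ∩ S v).card = (S' u ∩ S' v).card := by
  refine ⟨fun v => univ.filter (fun i => ((T.equivFin.symm i : T) : X) ∈ S' v), ?_⟩
  intro u v
  rw [← Finset.card_map (T.equivFin.symm.toEmbedding.trans (Function.Embedding.subtype _))]
  congr 1
  ext x
  simp only [mem_map, mem_inter, mem_filter, mem_univ, true_and, Function.Embedding.trans_apply,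
    Equiv.coe_toEmbedding, Function.Embedding.subtype_apply]
  constructor
  · rintro ⟨i, ⟨h1, h2⟩, rfl⟩
    exact ⟨h1, h2⟩
  · rintro ⟨h1, h2⟩
    refine ⟨T.equivFin ⟨x, h u h1⟩, ?_, ?_⟩ <;> simp [h1, h2]

/-- the representation -/
lemma upper_bound {p n k : ℕ} (hp : 0 < p) (R : Type) [CommRing R] [Fintype R]
    (hR : Good p n R) (hk : k ≤ Fintype.card R) :
    ∃ t, (∃ S : Fin n × Fin k → Finset (Fin t), IsRep (graphK n k) p t S) ∧
      p * t ≤ Fintype.card R * (Fintype.card R - 1) := by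
  classical
  obtain ⟨ζ, c, hζ, hc, hu⟩ := hR
  obtain ⟨κ⟩ : Nonempty (Fin k ↪ R) :=
    Function.Embedding.nonempty_of_card_le (by simpa using hk)
  rcases Nat.eq_zero_or_pos n with rfl | hn
  · refine ⟨0, ⟨fun _ => ∅, ?_⟩, by simp⟩
    intro u
    exact u.1.elim0
  have hu1 : ∀ i j : ℕ, i < p → j < p → i ≠ j → IsUnit (ζ ^ i - ζ ^ j) := by
    intro i j hi hj hij
    have h1 := hu ⟨0, hn⟩ ⟨0, hn⟩ i j hi hj (by simpa using hij)
    rw [← mul_sub] at h1
    exact isUnit_of_mul_isUnit_right h1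
  obtain ⟨S, hS⟩ := transport ((orbits p ζ) ×ˢ (univ : Finset R))
    (fun v : Fin n × Fin k => block p ζ (c v.1) (κ v.2)) (fun v => Finset.filter_subset _ _)
  refine ⟨_, ⟨S, ?_⟩, ?_⟩
  · rintro ⟨α, l⟩ ⟨β, m⟩ hne
    rw [hS]
    by_cases hαβ : α = β
    · subst hαβ
      have hlm : l ≠ m := fun h => hne (by rw [h])
      have h1 := block_inter_same_row (a := c α) hζ hp (x := κ l) (z := κ m) (by
        intro i hi hi0
        have := hu α α 0 i hp hi (by simpa using hi0.symm)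
        simpa using this) (fun h => hlm (κ.injective h))
      constructor
      · intro h; exact absurd rfl h.1
      · intro h; exact absurd h (not_le.2 h1)
    · have hu' : ∀ i < p, IsUnit (c α - c β * ζ ^ i) := by
        intro i hi
        have := hu α β 0 i hp hi (by simp [hαβ])
        simpa using this
      by_cases hlm : l = m
      · subst hlm
        have h1 := block_inter_same_col (x := κ l) hζ hp hu'
        constructor
        · intro h; exact absurd rfl h.2
        · intro h; simp only at h; omega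
      · have h1 := block_inter_edge (hc α) hu' (fun i j hi hj hij =>
          hu β β i j hi hj (by simpa using hij)) (fun h => hlm (κ.injective h)) hp
        exact ⟨fun _ => h1, fun _ => ⟨hαβ, hlm⟩⟩
  · rw [Finset.card_product, card_univ, ← mul_assoc, Nat.mul_comm p, Nat.mul_comm]
    exact Nat.mul_le_mul_left _ (card_orbits hζ hp hu1)

end Pool.Agent.Helper41.PInt
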