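import Mathlib
import Pool.Agent.Helper41.PIntDefs
import Pool.Agent.Helper41.PIntLower
import Pool.Agent.Helper41.PIntUpper

/-!
# First-order asymptotics of the `p`-intersection number of `𝒦(n × k)`
-/

namespace Pool.Agent.Helper41.PInt

open Filter Topology

/-- steps along a small positive combination `a x - b y` -/
lemma step_aux {x y ε : ℝ} (hy : 0 < y) {a b : ℕ}
    (h0 : 0 < a * x - b * y) (h1 : a * x - b * y < ε) :
    ∃ L0 : ℝ, ∀ L ≥ L0, ∃ i j : ℕ, L ≤ i * x + j * y ∧ i * x + j * y ≤ L + ε := by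
  set δ := a * x - b * y with hδ
  obtain ⟨M, hM⟩ := exists_nat_gt (y / δ)
  refine ⟨(M * b + 1) * y, ?_⟩
  intro L hL
  have hL0 : 0 ≤ L := le_trans (by positivity) hL
  -- `J y ≤ L < (J + 1) y`
  set J := ⌊L / y⌋₊ with hJ
  have hJ1 : J * y ≤ L := by
    have := Nat.floor_le (div_nonneg hL0 hy.le)
    calc (J : ℝ) * y ≤ L / y * y := by gcongr
      _ = L := by field_simp
  have hJ2 : L < (J + 1) * y := by
    have := Nat.lt_floor_add_one (L / y)
    calc L = L / y * y := by field_simp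
      _ < (J + 1) * y := by gcongr
  have hMb : M * b ≤ J := by
    rw [hJ]
    apply Nat.le_floor
    rw [le_div_iff₀ hy]
    push_cast
    nlinarith
  -- number of steps
  set t := ⌈(L - J * y) / δ⌉₊ with ht
  have ht1 : L ≤ J * y + t * δ := by
    have := Nat.le_ceil ((L - J * y) / δ)
    rw [← ht] at this
    rw [div_le_iff₀ h0] at this
    linarith
  have ht2 : J * y + t * δ ≤ L + ε := by
    have h2 : (0 : ℝ) ≤ (L - J * y) / δ := div_nonneg (by linarith) h0.le
    have := Nat.ceil_lt_add_one h2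
    rw [← ht] at this
    have h3 : (t : ℝ) * δ < ((L - J * y) / δ + 1) * δ := by gcongr
    rw [add_mul, div_mul_cancel₀ _ h0.ne'] at h3
    linarith
  have htM : t ≤ M := by
    rw [ht]
    apply Nat.ceil_le.2
    have h4 : (L - J * y) / δ ≤ y / δ := by
      gcongr
      linarith
    linarith
  have htb : t * b ≤ J := le_trans (Nat.mul_le_mul_right b htM) hMb
  refine ⟨t * a, J - t * b, ?_, ?_⟩
  · rw [Nat.cast_sub htb]
    push_cast
    calc L ≤ J * y + t * δ := ht1
      _ = t * a * x + (J - t * b) * y := by rw [hδ]; ring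
  · rw [Nat.cast_sub htb]
    push_cast
    calc t * a * x + (J - t * b) * y = J * y + t * δ := by rw [hδ]; ring
      _ ≤ L + ε := ht2

lemma dense_combinations {x y : ℝ} (hx : 0 < x) (hy : 0 < y)
    (hind : ∀ a b : ℕ, 0 < a → (a : ℝ) * x ≠ b * y) {ε : ℝ} (hε : 0 < ε) :
    ∃ L0 : ℝ, ∀ L ≥ L0, ∃ i j : ℕ, L ≤ i * x + j * y ∧ i * x + j * y ≤ L + ε := by
  -- Dirichlet approximation of `x / y`
  obtain ⟨N, hN⟩ := exists_nat_gt (y / ε + 1)
  have hN0 : 0 < N := by
    have : (0 : ℝ) < N := lt_trans (by positivity) hN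
    exact_mod_cast this
  obtain ⟨j, k, hk0, -, hjk⟩ := Real.exists_int_int_abs_mul_sub_le (x / y) hN0
  have hbound : |(k : ℝ) * x - j * y| < ε := by
    have h1 : (k : ℝ) * x - j * y = (k * (x / y) - j) * y := by
      field_simp
    rw [h1, abs_mul, abs_of_pos hy]
    have h2 : |(k : ℝ) * (x / y) - j| * y ≤ 1 / (N + 1) * y := by gcongr
    refine lt_of_le_of_lt h2 ?_
    rw [div_mul_eq_mul_div, one_mul, div_lt_iff₀ (by positivity)]
    have h3 : y / ε < N + 1 := by linarith
    rw [div_lt_iff₀ hε] at h3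
    linarith
  have hj0 : 0 ≤ j := by
    by_contra hc
    push Not at hc
    have h1 : (j : ℝ) ≤ -1 := by exact_mod_cast (by omega : j ≤ -1)
    have h2 : (0 : ℝ) < k * (x / y) := by
      have : (0 : ℝ) < k := by exact_mod_cast hk0
      positivity
    have h3 := (abs_le.1 hjk).2
    have h4 : (1 : ℝ) / (N + 1) < 1 := by
      rw [div_lt_one (by positivity)]
      have : (0 : ℝ) < N := by exact_mod_cast hN0
      linarith
    linarith
  obtain ⟨b, rfl⟩ := Int.eq_ofNat_of_zero_le hj0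
  obtain ⟨a, rfl⟩ := Int.eq_ofNat_of_zero_le hk0.le
  have ha : 0 < a := by exact_mod_cast hk0
  simp only [Int.cast_natCast] at hbound
  rcases lt_trichotomy ((a : ℝ) * x - b * y) 0 with hneg | hzero | hpos
  · rw [abs_of_neg hneg] at hbound
    obtain ⟨L0, h⟩ := step_aux (x := y) (y := x) (ε := ε) hx (a := b) (b := a) (by linarith)
      (by linarith)
    refine ⟨L0, fun L hL => ?_⟩
    obtain ⟨i, j, h1, h2⟩ := h L hL
    exact ⟨j, i, by linarith, by linarith⟩
  · exact absurd (sub_eq_zero.1 hzero) (hind a b ha)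
  · rw [abs_of_pos hpos] at hbound
    exact step_aux hy hpos hbound

lemma log_independent {q r : ℕ} (hq : q.Prime) (hr : r.Prime) (hqr : q ≠ r) (a b : ℕ)
    (ha : 0 < a) : (a : ℝ) * Real.log q ≠ b * Real.log r := by
  intro h
  rw [← Real.log_pow, ← Real.log_pow] at h
  have hq0 : (0 : ℝ) < (q : ℝ) ^ a := by have := hq.pos; positivity
  have hr0 : (0 : ℝ) < (r : ℝ) ^ b := by have := hr.pos; positivity
  have h1 := Real.log_injOn_pos hq0 hr0 h
  have h2 : q ^ a = r ^ b := by exact_mod_cast h1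
  have h3 : q ∣ r ^ b := by rw [← h2]; exact dvd_pow_self q ha.ne'
  exact hqr ((Nat.prime_dvd_prime_iff_eq hq hr).1 (hq.dvd_of_dvd_pow h3))

/-- for large `k` there is a good ring of size between `k` and `(1 + ε) k` -/
lemma exists_good {p n : ℕ} (hp : 0 < p) {δ : ℝ} (hδ : 0 < δ) :
    ∀ᶠ k : ℕ in atTop, ∃ (R : Type) (_ : CommRing R) (_ : Fintype R), Good p n R ∧
      k ≤ Fintype.card R ∧ (Fintype.card R : ℝ) ≤ (1 + δ) * k := by
  obtain ⟨q, hq, hqn, hqm⟩ := Nat.exists_prime_gt_modEq_one (k := p) (n * p) hp.ne'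
  obtain ⟨r, hr, hrq, hrm⟩ := Nat.exists_prime_gt_modEq_one (k := p) (max (n * p) q) hp.ne'
  have hrn : n * p < r := lt_of_le_of_lt (le_max_left _ _) hrq
  have hrq' : q < r := lt_of_le_of_lt (le_max_right _ _) hrq
  have hlq : 0 < Real.log q := Real.log_pos (by exact_mod_cast hq.one_lt)
  have hlr : 0 < Real.log r := Real.log_pos (by exact_mod_cast hr.one_lt)
  obtain ⟨L0, hL0⟩ := dense_combinations hlq hlr (log_independent hq hr hrq'.ne)
    (Real.log_pos (by linarith : (1 : ℝ) < 1 + δ))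
  obtain ⟨K, hK⟩ := exists_nat_gt (Real.exp L0)
  filter_upwards [eventually_ge_atTop K] with k hk
  have hk1 : Real.exp L0 < k := lt_of_lt_of_le hK (by exact_mod_cast hk)
  have hk0 : (0 : ℝ) < k := lt_trans (Real.exp_pos _) hk1
  obtain ⟨i, j, h1, h2⟩ := hL0 (Real.log k) ((Real.lt_log_iff_exp_lt hk0).2 hk1).le
  have hfq := good_field (n := n) hp hq hqm hqn
  have hfr := good_field (n := n) hp hr hrm hrn
  have hq0 := hq.pos
  have hr0 := hr.pos
  have : NeZero q := ⟨hq.ne_zero⟩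
  have : NeZero r := ⟨hr.ne_zero⟩
  have hcard : Fintype.card ((Fin i → ZMod q) × (Fin j → ZMod r)) = q ^ i * r ^ j := by
    simp [ZMod.card]
  have hval : ((q ^ i * r ^ j : ℕ) : ℝ) = Real.exp (i * Real.log q + j * Real.log r) := by
    rw [Real.exp_add, ← Real.log_pow, ← Real.log_pow, Real.exp_log (by positivity),
      Real.exp_log (by positivity)]
    push_cast
    rfl
  refine ⟨(Fin i → ZMod q) × (Fin j → ZMod r), inferInstance, inferInstance,
    good_prod (good_pi _ fun _ => hfq) (good_pi _ fun _ => hfr), ?_, ?_⟩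
  · rw [hcard]
    have : (k : ℝ) ≤ ((q ^ i * r ^ j : ℕ) : ℝ) := by
      rw [hval, ← Real.exp_log hk0]
      exact Real.exp_le_exp.2 h1
    exact_mod_cast this
  · rw [hcard, hval]
    calc Real.exp (i * Real.log q + j * Real.log r)
        ≤ Real.exp (Real.log k + Real.log (1 + δ)) := Real.exp_le_exp.2 h2
      _ = (1 + δ) * k := by
          rw [Real.exp_add, Real.exp_log hk0, Real.exp_log (by linarith)]
          ring

/-- both bounds for `theta`, for all large `k` -/
lemma theta_bounds {p n : ℕ} (hp : 1 ≤ p) (hn : 2 ≤ n) {δ : ℝ} (hδ : 0 < δ) :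
    ∀ᶠ k : ℕ in atTop, (k : ℝ) ^ 2 - k ≤ p * theta (graphK n k) p ∧
      (p : ℝ) * theta (graphK n k) p ≤ ((1 + δ) * k) ^ 2 := by
  filter_upwards [exists_good (p := p) (n := n) hp hδ] with k hk
  obtain ⟨R, hRc, hRf, hgood, hkR, hRk⟩ := hk
  obtain ⟨t, hS, ht⟩ := upper_bound (k := k) hp R hgood hkR
  have hne : {t : ℕ | ∃ S : Fin n × Fin k → Finset (Fin t), IsRep (graphK n k) p t S}.Nonempty :=
    ⟨t, hS⟩
  constructor
  · obtain ⟨S, hS'⟩ := Nat.sInf_mem hne
    have h1 := lower_bound hn hp S hS'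
    have h2 : ((k * k : ℕ) : ℝ) ≤ ((p * theta (graphK n k) p + k : ℕ) : ℝ) := by
      exact_mod_cast h1
    push_cast at h2
    linarith [sq (k : ℝ)]
  · have h1 : theta (graphK n k) p ≤ t := Nat.sInf_le hS
    have h2 : p * theta (graphK n k) p ≤ Fintype.card R * Fintype.card R :=
      (Nat.mul_le_mul_left p h1).trans (ht.trans (Nat.mul_le_mul_left _ (Nat.sub_le _ _)))
    have h3 : ((p * theta (graphK n k) p : ℕ) : ℝ) ≤ ((Fintype.card R * Fintype.card R : ℕ) : ℝ) := by
      exact_mod_cast h2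
    push_cast at h3
    have h4 : (Fintype.card R : ℝ) * Fintype.card R ≤ ((1 + δ) * k) ^ 2 := by
      rw [sq]
      gcongr
    linarith

end Pool.Agent.Helper41.PInt
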