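import Mathlib

/-!
Permanental minors of an `n × k` matrix, given by its columns `M : Fin k → ι → F`.
-/

namespace PermFq

open Finset

section defs

variable {F : Type*} [Field F] {ι : Type*} [DecidableEq ι]

/-- `cf k M R` is the sum over the injections `g : Fin k → ι` with image `R` of
`∏ j, M j (g j)` (a permanental minor). -/
def cf : (k : ℕ) → (Fin k → ι → F) → Finset ι → F
  | 0, _, R => if R = ∅ then 1 else 0
  | k + 1, M, R => ∑ i ∈ R, M 0 i * cf k (Fin.tail M) (R.erase i)

theorem cf_card {k : ℕ} {M : Fin k → ι → F} {R : Finset ι} (h : cf k M R ≠ 0) : R.card = k := by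
  induction k generalizing R with
  | zero =>
    rw [cf] at h
    split_ifs at h with h1
    · simp [h1]
    · exact absurd rfl h
  | succ k ih =>
    rw [cf] at h
    obtain ⟨i, hi, hi2⟩ := Finset.exists_ne_zero_of_sum_ne_zero h
    have h3 := ih (right_ne_zero_of_mul hi2)
    rw [Finset.card_erase_of_mem hi] at h3
    have := Finset.card_pos.mpr ⟨i, hi⟩
    omega

theorem cf_map {κ : Type*} [DecidableEq κ] (e : κ ↪ ι) (k : ℕ) (M : Fin k → ι → F)
    (R : Finset κ) : cf k (fun j i => M j (e i)) R = cf k M (R.map e) := by
  induction k generalizing R with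
  | zero => simp [cf]
  | succ k ih =>
    rw [cf, cf, Finset.sum_map]
    apply Finset.sum_congr rfl
    intro i _
    rw [← Finset.map_erase, ← ih]
    rfl

/-- The linear map `x ↦ (minors of [M | x])`. -/
def Phi {k : ℕ} (M : Fin k → ι → F) : (ι → F) →ₗ[F] (Finset ι → F) where
  toFun x R := ∑ i ∈ R, x i * cf k M (R.erase i)
  map_add' x y := by
    funext R
    simp [add_mul, Finset.sum_add_distrib]
  map_smul' c x := by
    funext R
    simp [Finset.mul_sum, mul_assoc]

theorem Phi_apply {k : ℕ} (M : Fin k → ι → F) (x : ι → F) (R : Finset ι) :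
    Phi M x R = ∑ i ∈ R, x i * cf k M (R.erase i) := rfl

theorem cf_cons {k : ℕ} (M : Fin k → ι → F) (x : ι → F) :
    cf (k + 1) (Fin.cons x M) = Phi M x := by
  funext R
  rw [cf, Phi_apply]
  simp

/-- the row tensors -/
def T {k : ℕ} (M : Fin k → ι → F) (i : ι) : Finset ι → F :=
  fun R => if i ∈ R then cf k M (R.erase i) else 0

theorem Phi_eq [Fintype ι] {k : ℕ} (M : Fin k → ι → F) (x : ι → F) :
    Phi M x = ∑ i, x i • T M i := by
  funext R
  rw [Phi_apply, Finset.sum_apply]
  simp only [Pi.smul_apply, T, smul_eq_mul, mul_ite, mul_zero]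
  rw [← Finset.sum_filter]
  congr 1
  ext i
  simp

theorem Phi_single [Fintype ι] {k : ℕ} (M : Fin k → ι → F) (i : ι) :
    Phi M (Pi.single i 1) = T M i := by
  rw [Phi_eq]
  rw [Finset.sum_eq_single i]
  · simp
  · intro j _ hj
    simp [hj]
  · simp

/-- Row collapse: subtract row `b` from row `a` and forget row `b`. -/
theorem cf_collapse {a b : ι} (k : ℕ) (M : Fin k → ι → F) (R : Finset ι)
    (hb : b ∉ R) :
    cf k (fun j => Function.update (M j) a (M j a - M j b)) R =
      cf k M R - if a ∈ R then cf k M (insert b (R.erase a)) else 0 := by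
  induction k generalizing R with
  | zero =>
    have h3 : insert b (R.erase a) ≠ ∅ := Finset.insert_ne_empty _ _
    simp only [cf, if_neg h3, ite_self, sub_zero]
  | succ k ih =>
    have ht : Fin.tail (fun j => Function.update (M j) a (M j a - M j b)) =
        fun j => Function.update (Fin.tail M j) a (Fin.tail M j a - Fin.tail M j b) := rfl
    rw [cf, ht]
    by_cases ha : a ∈ R
    · rw [if_pos ha, ← Finset.add_sum_erase _ _ ha]
      rw [ih (Fin.tail M) (R.erase a) (by simp [hb]), if_neg (by simp)]
      rw [cf, ← Finset.add_sum_erase R _ ha]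
      rw [cf, Finset.sum_insert (by simp [hb])]
      rw [Finset.erase_insert (by simp [hb])]
      have e1 : ∀ i ∈ R.erase a, Function.update (M 0) a (M 0 a - M 0 b) i *
          cf k (fun j => Function.update (Fin.tail M j) a (Fin.tail M j a - Fin.tail M j b))
            (R.erase i) = M 0 i * cf k (Fin.tail M) (R.erase i) -
              M 0 i * cf k (Fin.tail M) ((insert b (R.erase a)).erase i) := by
        intro i hi
        have hia : i ≠ a := Finset.ne_of_mem_erase hi
        have hiR : i ∈ R := Finset.mem_of_mem_erase hi
        have hib : i ≠ b := fun h => hb (h ▸ hiR)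
        rw [Function.update_of_ne hia, ih (Fin.tail M) (R.erase i) (by simp [hb]),
          if_pos (by simp [ha, hia.symm])]
        rw [mul_sub]
        congr 3
        rw [Finset.erase_right_comm, Finset.erase_insert_of_ne hib.symm]
      rw [Finset.sum_congr rfl e1, Finset.sum_sub_distrib]
      simp only [Function.update_self, sub_zero]
      ring
    · rw [if_neg ha, sub_zero, cf]
      apply Finset.sum_congr rfl
      intro i hi
      have hia : i ≠ a := fun h => ha (h ▸ hi)
      rw [Function.update_of_ne hia, ih (Fin.tail M) (R.erase i) (by simp [hb]),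
        if_neg (by simp [ha]), sub_zero]

/-- Equality of two row tensors in terms of the collapsed matrix. -/
theorem T_eq_iff {a b : ι} (hab : a ≠ b) {k : ℕ} (M : Fin k → ι → F) :
    T M a = T M b ↔ ∀ R : Finset ι, b ∉ R →
      cf k (fun j => Function.update (M j) a (M j a - M j b)) R = 0 := by
  constructor
  · intro h R hb
    rw [cf_collapse k M R hb]
    by_cases ha : a ∈ R
    · rw [if_pos ha]
      have h1 := congrFun h (insert b R)
      simp only [T] at h1
      rw [if_pos (by simp [ha]), if_pos (by simp), Finset.erase_insert hb,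
        Finset.erase_insert_of_ne hab.symm] at h1
      rw [h1, sub_self]
    · rw [if_neg ha, sub_zero]
      have h1 := congrFun h (insert a R)
      simp only [T] at h1
      rw [if_pos (by simp), if_neg (by simp [hb, hab.symm]), Finset.erase_insert ha] at h1
      exact h1
  · intro h
    funext R
    simp only [T]
    by_cases ha : a ∈ R
    · by_cases hb : b ∈ R
      · rw [if_pos ha, if_pos hb]
        have h1 := h (R.erase b) (by simp)
        rw [cf_collapse k M _ (by simp), if_pos (by simp [ha, hab]), sub_eq_zero] at h1
        rw [h1]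
        congr 1
        rw [Finset.erase_right_comm, Finset.insert_erase (by simp [hb, hab.symm])]
      · rw [if_pos ha, if_neg hb]
        have h1 := h (R.erase a) (by simp [hb])
        rw [cf_collapse k M _ (by simp [hb]), if_neg (by simp), sub_zero] at h1
        exact h1
    · by_cases hb : b ∈ R
      · rw [if_neg ha, if_pos hb]
        have h1 := h (R.erase b) (by simp)
        rw [cf_collapse k M _ (by simp), if_neg (by simp [ha]), sub_zero] at h1
        exact h1.symm
      · rw [if_neg ha, if_neg hb]

end defs

end PermFq
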