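import Pool.Agent.Helper41.PermCf

/-!
Counting matrices with vanishing permanental minors.
-/

namespace PermFq

set_option linter.unusedSectionVars false

open Finset

section count

variable {F : Type*} [Field F] [Fintype F] [DecidableEq F] {n : ℕ}

/-- number of vectors which keep all minors zero -/
def kap {k : ℕ} (M : Fin k → Fin n → F) : ℕ := #{x : Fin n → F | Phi M x = 0}

/-- number of `n × k` matrices all of whose maximal permanental minors vanish -/
def bad (F : Type*) [Field F] [Fintype F] [DecidableEq F] (n k : ℕ) : ℕ :=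
  #{M : Fin k → Fin n → F | cf k M = 0}

theorem bad_succ (n k : ℕ) : bad F n (k + 1) = ∑ M : Fin k → Fin n → F, kap M := by
  unfold bad kap
  simp only [Finset.card_filter]
  rw [← Equiv.sum_comp (Fin.consEquiv (fun _ : Fin (k + 1) => Fin n → F)),
    Fintype.sum_prod_type_right]
  apply Finset.sum_congr rfl
  intro M _
  apply Finset.sum_congr rfl
  intro x _
  have : cf (k + 1) ((Fin.consEquiv (fun _ : Fin (k + 1) => Fin n → F)) (x, M)) = Phi M x :=
    cf_cons M x
  rw [this]

theorem card_functional {V : Type*} [AddCommGroup V] [Module F V] [Fintype V] [DecidableEq V]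
    (f : V →ₗ[F] F) (e : V) (he : f e ≠ 0) :
    #{x : V | f x = 0} * Fintype.card F = Fintype.card V := by
  rw [← Finset.card_univ (α := F), ← Finset.card_product, ← Finset.card_univ (α := V)]
  apply Finset.card_bij (fun x _ => x.1 + x.2 • e)
  · intro _ _; simp
  · rintro ⟨x, t⟩ hx ⟨y, s⟩ hy h
    simp only [Finset.mem_product, Finset.mem_filter, Finset.mem_univ, true_and, and_true] at hx hy
    simp only at h
    have h1 := congrArg f h
    rw [map_add, map_add, map_smul, map_smul, hx, hy, zero_add, zero_add] at h1
    have h2 : t = s := by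
      simpa [he] using h1
    subst h2
    have h3 : x = y := by simpa using h
    rw [h3]
  · intro y _
    refine ⟨(y - (f y / f e) • e, f y / f e), ?_, ?_⟩
    · simp only [Finset.mem_product, Finset.mem_filter, Finset.mem_univ, true_and, and_true,
        map_sub, map_smul, smul_eq_mul]
      rw [div_mul_cancel₀ _ he, sub_self]
    · simp

theorem exists_minor {k : ℕ} {M : Fin k → Fin n → F} (h : cf k M ≠ 0) :
    ∃ R : Finset (Fin n), R.card = k ∧ cf k M R ≠ 0 := by
  obtain ⟨R, hR⟩ := Function.ne_iff.mp h
  exact ⟨R, cf_card hR, hR⟩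

theorem kap_zero {k : ℕ} {M : Fin k → Fin n → F} (h : cf k M = 0) :
    kap M = Fintype.card F ^ n := by
  unfold kap
  rw [Finset.filter_true_of_mem]
  · simp
  · intro x _
    funext R
    rw [Phi_apply]
    simp [h]

theorem kap_le {k : ℕ} {M : Fin k → Fin n → F} (h : cf k M ≠ 0) :
    kap M ≤ Fintype.card F ^ k := by
  obtain ⟨R, hRk, hR⟩ := exists_minor h
  have h1 : kap M ≤ Fintype.card (R → F) := by
    unfold kap
    rw [← Finset.card_univ]
    apply Finset.card_le_card_of_injOn (fun x i => x i.val) (by intro _ _; simp)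
    intro x hx y hy hxy
    simp only [Finset.coe_filter, Finset.mem_univ, true_and, Set.mem_ofPred_eq] at hx hy
    have hxyR : ∀ i ∈ R, x i = y i := fun i hi => congrFun hxy ⟨i, hi⟩
    funext j
    by_cases hj : j ∈ R
    · exact hxyR j hj
    · have h1 := congrFun hx (insert j R)
      have h2 := congrFun hy (insert j R)
      rw [Phi_apply, Finset.sum_insert hj, Finset.erase_insert hj] at h1 h2
      have h3 : ∑ i ∈ R, x i * cf k M ((insert j R).erase i) =
          ∑ i ∈ R, y i * cf k M ((insert j R).erase i) :=
        Finset.sum_congr rfl (fun i hi => by rw [hxyR i hi])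
      rw [h3] at h1
      have h4 : x j * cf k M R = y j * cf k M R := by
        have := h1.trans h2.symm
        exact add_right_cancel this
      exact mul_right_cancel₀ hR h4
  rw [Fintype.card_fun, Fintype.card_coe, hRk] at h1
  exact h1

theorem kap_top {k : ℕ} {M : Fin k → Fin (k + 1) → F} (h : cf k M ≠ 0) :
    kap M * Fintype.card F = Fintype.card F ^ (k + 1) := by
  obtain ⟨R, hRk, hR⟩ := exists_minor h
  obtain ⟨j, hj⟩ : ∃ j, j ∉ R := by
    by_contra hc
    push Not at hc
    have : R = univ := Finset.eq_univ_iff_forall.mpr hc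
    rw [this] at hRk
    simp at hRk
  have hins : insert j R = univ := by
    apply Finset.eq_univ_of_card
    rw [Finset.card_insert_of_notMem hj, hRk, Fintype.card_fin]
  let f : (Fin (k + 1) → F) →ₗ[F] F := (LinearMap.proj univ).comp (Phi M)
  have hf : ∀ x, f x = Phi M x univ := fun x => rfl
  have h1 : kap M = #{x : Fin (k + 1) → F | f x = 0} := by
    unfold kap
    congr 1
    ext x
    simp only [Finset.mem_filter, Finset.mem_univ, true_and]
    constructor
    · intro hx; rw [hf, hx]; rfl
    · intro hx
      funext S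
      by_cases hS : S = univ
      · rw [hS, ← hf, hx]; rfl
      · rw [Phi_apply]
        apply Finset.sum_eq_zero
        intro i hi
        have : cf k M (S.erase i) = 0 := by
          by_contra hc
          have h2 := cf_card hc
          rw [Finset.card_erase_of_mem hi] at h2
          apply hS
          apply Finset.eq_univ_of_card
          rw [Fintype.card_fin]
          have := Finset.card_pos.mpr ⟨i, hi⟩
          omega
        rw [this, mul_zero]
  have h2 := card_functional f (Pi.single j 1) (by
    rw [hf, Phi_single, T, if_pos (Finset.mem_univ _), ← hins, Finset.erase_insert hj]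
    exact hR)
  rw [h1, h2]
  simp

/-- The bilinear form attached to a set `V`. -/
def Bf {k : ℕ} (M : Fin k → Fin n → F) (V : Finset (Fin n)) (x y : Fin n → F) : F :=
  ∑ j ∈ V, y j * Phi M x (V.erase j)

theorem Bf_comm {k : ℕ} (M : Fin k → Fin n → F) (V : Finset (Fin n)) (x y : Fin n → F) :
    Bf M V x y = Bf M V y x := by
  unfold Bf
  simp only [Phi_apply, Finset.mul_sum]
  rw [Finset.sum_comm' (s' := fun j => V.erase j) (t' := V)]
  · apply Finset.sum_congr rfl
    intro i _
    apply Finset.sum_congr rfl
    intro j _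
    rw [Finset.erase_right_comm]
    ring
  · intro i j
    simp only [Finset.mem_erase]
    tauto

theorem Bf_add {k : ℕ} (M : Fin k → Fin n → F) (V : Finset (Fin n)) (x x' y : Fin n → F) :
    Bf M V (x + x') y = Bf M V x y + Bf M V x' y := by
  unfold Bf
  rw [← Finset.sum_add_distrib]
  apply Finset.sum_congr rfl
  intro j _
  rw [map_add, Pi.add_apply]
  ring

theorem Bf_smul {k : ℕ} (M : Fin k → Fin n → F) (V : Finset (Fin n)) (c : F) (x y : Fin n → F) :
    Bf M V (c • x) y = c * Bf M V x y := by
  unfold Bf
  rw [Finset.mul_sum]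
  apply Finset.sum_congr rfl
  intro j _
  rw [map_smul, Pi.smul_apply, smul_eq_mul]
  ring

theorem Bf_add_right {k : ℕ} (M : Fin k → Fin n → F) (V : Finset (Fin n)) (x y y' : Fin n → F) :
    Bf M V x (y + y') = Bf M V x y + Bf M V x y' := by
  rw [Bf_comm, Bf_add, Bf_comm, Bf_comm M V y']

theorem Bf_smul_right {k : ℕ} (M : Fin k → Fin n → F) (V : Finset (Fin n)) (c : F)
    (x y : Fin n → F) : Bf M V x (c • y) = c * Bf M V x y := by
  rw [Bf_comm, Bf_smul, Bf_comm]

theorem Bf_ker {k : ℕ} {M : Fin k → Fin n → F} (V : Finset (Fin n)) {x : Fin n → F}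
    (hx : Phi M x = 0) (y : Fin n → F) : Bf M V x y = 0 := by
  unfold Bf
  rw [hx]; simp

theorem Bf_single_right {k : ℕ} (M : Fin k → Fin n → F) (V : Finset (Fin n)) (x : Fin n → F)
    (j : Fin n) (hj : j ∈ V) : Bf M V x (Pi.single j 1) = Phi M x (V.erase j) := by
  unfold Bf
  rw [Finset.sum_eq_single j]
  · simp
  · intro i _ hi
    simp [hi]
  · intro h; exact absurd hj h

theorem Bf_single_self {k : ℕ} (M : Fin k → Fin n → F) (V : Finset (Fin n)) (i : Fin n) :
    Bf M V (Pi.single i 1) (Pi.single i 1) = 0 := by
  by_cases hi : i ∈ V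
  · rw [Bf_single_right M V _ i hi, Phi_single, T, if_neg (by simp)]
  · unfold Bf
    apply Finset.sum_eq_zero
    intro j hj
    have : j ≠ i := fun h => hi (h ▸ hj)
    simp [this]

theorem distinct_le (h2 : (2 : F) ≠ 0) {k : ℕ} {M : Fin k → Fin n → F} (h : cf k M ≠ 0)
    (hk : k + 2 ≤ n) :
    (univ.image (T M)).card * kap M * Fintype.card F ≤ 2 * Fintype.card F ^ n := by
  obtain ⟨R, hRk, hR⟩ := exists_minor h
  obtain ⟨i, hi⟩ : ∃ i, i ∉ R := by
    by_contra hc
    push Not at hc
    have : R = univ := Finset.eq_univ_iff_forall.mpr hc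
    rw [this, Finset.card_univ, Fintype.card_fin] at hRk
    omega
  obtain ⟨j, hj⟩ : ∃ j, j ∉ insert i R := by
    by_contra hc
    push Not at hc
    have h1 : insert i R = univ := Finset.eq_univ_iff_forall.mpr hc
    have h3 := Finset.card_insert_of_notMem hi
    rw [h1, Finset.card_univ, Fintype.card_fin] at h3
    omega
  obtain ⟨V, hV⟩ : ∃ V, V = insert j (insert i R) := ⟨_, rfl⟩
  have hjV : j ∈ V := by rw [hV]; simp
  have hij : i ≠ j := fun h => hj (by simp [h])
  have hB : Bf M V (Pi.single i 1) (Pi.single j 1) ≠ 0 := by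
    rw [Bf_single_right M V _ j hjV, Phi_single, T, hV, Finset.erase_insert hj, if_pos (by simp),
      Finset.erase_insert hi]
    exact hR
  -- the zero set
  have hZ2 : #{x : Fin n → F | Bf M V x (Pi.single j 1) = 0} * Fintype.card F ≤
      Fintype.card F ^ n := by
    rw [← Finset.card_univ (α := F), ← Finset.card_product]
    have : Fintype.card F ^ n = Fintype.card (Fin n → F) := by simp
    rw [Finset.card_univ, this, ← Finset.card_univ (α := Fin n → F)]
    apply Finset.card_le_card_of_injOn (fun x => x.1 + x.2 • (Pi.single i 1 : Fin n → F))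
      (by intro _ _; simp)
    rintro ⟨x, t⟩ hx ⟨y, s⟩ hy hxy
    simp only [Finset.coe_product, Finset.coe_filter, Finset.mem_univ, true_and, Finset.coe_univ,
      Set.mem_prod, Set.mem_ofPred_eq, Set.mem_univ, and_true] at hx hy
    simp only at hxy
    have h1 := congrArg (fun z => Bf M V z (Pi.single j 1)) hxy
    simp only [Bf_add, Bf_smul, hx, hy, zero_add] at h1
    have h3 : t = s := mul_right_cancel₀ hB h1
    subst h3
    have h4 : x = y := by simpa using hxy
    rw [h4]
  have hZ1 : #{x : Fin n → F | Bf M V x x = 0 ∧ Bf M V x (Pi.single j 1) ≠ 0} *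
      Fintype.card F ≤ Fintype.card F ^ n := by
    rw [← Finset.card_univ (α := F), ← Finset.card_product]
    have : Fintype.card F ^ n = Fintype.card (Fin n → F) := by simp
    rw [Finset.card_univ, this, ← Finset.card_univ (α := Fin n → F)]
    apply Finset.card_le_card_of_injOn (fun x => x.1 + x.2 • (Pi.single j 1 : Fin n → F))
      (by intro _ _; simp)
    rintro ⟨x, t⟩ hx ⟨y, s⟩ hy hxy
    simp only [Finset.coe_product, Finset.coe_filter, Finset.mem_univ, true_and, Finset.coe_univ,
      Set.mem_prod, Set.mem_ofPred_eq, Set.mem_univ, and_true] at hx hy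
    simp only at hxy
    have h1 : y = x + (t - s) • (Pi.single j 1 : Fin n → F) := by
      rw [sub_smul, ← add_sub_assoc, hxy]; simp
    have h3 := hy.1
    rw [h1] at h3
    simp only [Bf_add, Bf_add_right, Bf_smul, Bf_smul_right, Bf_single_self, hx.1] at h3
    rw [Bf_comm M V (Pi.single j 1) x] at h3
    have h4 : (t - s) * (2 * Bf M V x (Pi.single j 1)) = 0 := by linear_combination h3
    have h5 : t - s = 0 := by
      rcases mul_eq_zero.mp h4 with h | h
      · exact h
      · exact absurd h (mul_ne_zero h2 hx.2)
    have h6 : t = s := sub_eq_zero.mp h5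
    subst h6
    have h7 : x = y := by simpa using hxy
    rw [h7]
  have hZ : #{x : Fin n → F | Bf M V x x = 0} * Fintype.card F ≤ 2 * Fintype.card F ^ n := by
    have hsub : #{x : Fin n → F | Bf M V x x = 0} ≤
        #{x : Fin n → F | Bf M V x (Pi.single j 1) = 0} +
        #{x : Fin n → F | Bf M V x x = 0 ∧ Bf M V x (Pi.single j 1) ≠ 0} := by
      rw [← Finset.card_union_of_disjoint]
      · apply Finset.card_le_card
        intro x hx
        simp only [Finset.mem_union, Finset.mem_filter, Finset.mem_univ, true_and] at hx ⊢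
        by_cases h : Bf M V x (Pi.single j 1) = 0
        · left; exact h
        · right; exact ⟨hx, h⟩
      · rw [Finset.disjoint_left]
        intro x hx hx'
        simp only [Finset.mem_filter, Finset.mem_univ, true_and] at hx hx'
        exact hx'.2 hx
    calc _ ≤ (#{x : Fin n → F | Bf M V x (Pi.single j 1) = 0} +
        #{x : Fin n → F | Bf M V x x = 0 ∧ Bf M V x (Pi.single j 1) ≠ 0}) * Fintype.card F :=
          Nat.mul_le_mul_right _ hsub
      _ ≤ _ := by rw [add_mul]; omega
  refine le_trans (Nat.mul_le_mul_right _ ?_) hZ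
  unfold kap
  rw [← Finset.card_product]
  have hch : ∀ w ∈ univ.image (T M), ∃ a, T M a = w := by
    intro w hw
    obtain ⟨a, _, ha⟩ := Finset.mem_image.mp hw
    exact ⟨a, ha⟩
  classical
  let g : (Finset (Fin n) → F) → Fin n := fun w => if hw : ∃ a, T M a = w then hw.choose else i
  have hg : ∀ w ∈ univ.image (T M), T M (g w) = w := by
    intro w hw
    have := hch w hw
    simp only [g, dif_pos this]
    exact this.choose_spec
  apply Finset.card_le_card_of_injOn (fun x => (Pi.single (g x.1) 1 : Fin n → F) + x.2)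
  · rintro ⟨w, x⟩ hx
    simp only [Finset.coe_product, Finset.coe_filter, Finset.mem_univ, true_and,
      Set.mem_prod, Set.mem_ofPred_eq] at hx ⊢
    simp only [Bf_add, Bf_add_right, Bf_single_self, Bf_ker V hx.2]
    rw [Bf_comm, Bf_ker V hx.2]
    simp
  · rintro ⟨w, x⟩ hx ⟨w', x'⟩ hx' he
    simp only [Finset.coe_product, Finset.coe_filter, Finset.mem_univ, true_and,
      Set.mem_prod, Set.mem_ofPred_eq, Finset.mem_coe] at hx hx'
    simp only at he
    have h1 := congrArg (Phi M) he
    rw [map_add, map_add, hx.2, hx'.2, add_zero, add_zero, Phi_single, Phi_single,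
      hg w hx.1, hg w' hx'.1] at h1
    subst h1
    have h3 : x = x' := by simpa using he
    rw [h3]

end count

end PermFq
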