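import Pool.Agent.Helper41.PermPairs

/-!
The limit of the vanishing probability.
-/

namespace PermFq

set_option linter.unusedSectionVars false

open Finset Filter Topology

section lim

variable (F : Type*) [Field F] [Fintype F] [DecidableEq F]

/-- Probability that all maximal permanental minors of a `(k + m) × k` matrix vanish. -/
noncomputable def bb (m k : ℕ) : ℝ :=
  (bad F (k + m) k : ℝ) / (Fintype.card F : ℝ) ^ ((k + m) * k)

theorem q_pos : (0 : ℝ) < Fintype.card F := by
  exact_mod_cast Fintype.card_pos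

theorem q_ge_two : (2 : ℝ) ≤ Fintype.card F := by
  have : 1 < Fintype.card F := Fintype.one_lt_card
  exact_mod_cast this

theorem bb_nonneg (m k : ℕ) : 0 ≤ bb F m k := by
  unfold bb
  have := q_pos F
  positivity

theorem bb_zero (m : ℕ) : bb F m 0 = 0 := by
  unfold bb bad
  rw [Finset.filter_false_of_mem]
  · simp
  · intro M _ h
    have := congrFun h ∅
    simp [cf] at this

variable {F}

/-- pointwise lower bound for the number of pairs -/
theorem prs_ge (h2 : (2 : F) ≠ 0) {n k : ℕ} (hk : k + 2 ≤ n) (M : Fin k → Fin n → F) :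
    (n : ℝ) ^ 2 * ((if cf k M = 0 then 1 else 0) + (Fintype.card F : ℝ) / 2 *
      ((kap M : ℝ) / (Fintype.card F : ℝ) ^ n - if cf k M = 0 then 1 else 0)) ≤ prs M := by
  have hq := q_pos F
  by_cases h : cf k M = 0
  · rw [if_pos h, kap_zero h, prs_zero h]
    push_cast
    rw [div_self (by positivity)]
    simp
  · rw [if_neg h, zero_add, sub_zero]
    have h1 := distinct_le h2 h hk
    have h3 := sq_le_prs M
    have h4 : n ^ 2 * (kap M * Fintype.card F) ≤ 2 * Fintype.card F ^ n * prs M := by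
      calc n ^ 2 * (kap M * Fintype.card F) ≤
          ((univ.image (T M)).card * prs M) * (kap M * Fintype.card F) :=
            Nat.mul_le_mul_right _ h3
        _ = ((univ.image (T M)).card * kap M * Fintype.card F) * prs M := by ring
        _ ≤ _ := Nat.mul_le_mul_right _ h1
    have h5 : (n : ℝ) ^ 2 * (kap M * Fintype.card F) ≤ 2 * (Fintype.card F : ℝ) ^ n * prs M := by
      exact_mod_cast h4
    have h6 : (n : ℝ) ^ 2 * ((Fintype.card F : ℝ) / 2 * ((kap M : ℝ) / (Fintype.card F : ℝ) ^ n)) =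
        ((n : ℝ) ^ 2 * (kap M * Fintype.card F)) / (2 * (Fintype.card F : ℝ) ^ n) := by
      field_simp
    rw [h6, div_le_iff₀ (by positivity)]
    linarith

theorem card_ind (n k : ℕ) :
    ∑ M : Fin k → Fin n → F, (if cf k M = 0 then (1 : ℝ) else 0) = bad F n k := by
  unfold bad
  rw [Finset.card_filter]
  push_cast
  rfl

theorem main_ineq (h2 : (2 : F) ≠ 0) (m k : ℕ) (hm : 1 ≤ m) :
    (Fintype.card F : ℝ) / 2 * bb F m (k + 1) ≤
      ((Fintype.card F : ℝ) / 2 - 1) * bb F (m + 1) k + bb F m k + 1 / (k + 1) := by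
  obtain ⟨m, rfl⟩ : ∃ m', m = m' + 1 := ⟨m - 1, by omega⟩
  have hq := q_pos F
  -- n = k + m + 2
  have hs : ∑ M : Fin k → Fin ((k + m) + 2) → F, (((k + m + 2 : ℕ) : ℝ) ^ 2 *
      ((if cf k M = 0 then 1 else 0) + (Fintype.card F : ℝ) / 2 *
      ((kap M : ℝ) / (Fintype.card F : ℝ) ^ (k + m + 2) - if cf k M = 0 then 1 else 0))) ≤
      ∑ M : Fin k → Fin ((k + m) + 2) → F, (prs M : ℝ) :=
    Finset.sum_le_sum (fun M _ => prs_ge h2 (by omega) M)
  rw [← Finset.mul_sum, Finset.sum_add_distrib, ← Finset.mul_sum, Finset.sum_sub_distrib,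
    ← Finset.sum_div, card_ind] at hs
  have hb : (∑ M : Fin k → Fin ((k + m) + 2) → F, (kap M : ℝ)) = bad F (k + m + 2) (k + 1) := by
    rw [bad_succ]; push_cast; rfl
  have hp : (∑ M : Fin k → Fin ((k + m) + 2) → F, (prs M : ℝ)) =
      (k + m + 2) * (Fintype.card F : ℝ) ^ ((k + m + 2) * k) +
      (k + m + 2) * (k + m + 1) * ((Fintype.card F : ℝ) ^ k * bad F (k + m + 1) k) := by
    have := sum_prs (F := F) (n := k + m) k
    have h' := congrArg (Nat.cast : ℕ → ℝ) this
    push_cast at h'
    rw [h']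
  rw [hb, hp] at hs
  -- express through bb
  have e1 : (bad F (k + m + 2) k : ℝ) = bb F (m + 1 + 1) k *
      (Fintype.card F : ℝ) ^ ((k + m + 2) * k) := by
    unfold bb
    rw [show k + (m + 1 + 1) = k + m + 2 by ring, div_mul_cancel₀ _ (by positivity)]
  have e2 : (bad F (k + m + 2) (k + 1) : ℝ) = bb F (m + 1) (k + 1) *
      (Fintype.card F : ℝ) ^ ((k + m + 2) * k) * (Fintype.card F : ℝ) ^ (k + m + 2) := by
    unfold bb
    rw [show k + 1 + (m + 1) = k + m + 2 by ring, mul_assoc, ← pow_add,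
      show (k + m + 2) * k + (k + m + 2) = (k + m + 2) * (k + 1) by ring,
      div_mul_cancel₀ _ (by positivity)]
  have e3 : (Fintype.card F : ℝ) ^ k * (bad F (k + m + 1) k : ℝ) = bb F (m + 1) k *
      (Fintype.card F : ℝ) ^ ((k + m + 2) * k) := by
    unfold bb
    rw [show k + (m + 1) = k + m + 1 by ring, show (k + m + 2) * k = (k + m + 1) * k + k by ring,
      pow_add]
    field_simp
  rw [e1, e2, e3] at hs
  have hQ : (0 : ℝ) < (Fintype.card F : ℝ) ^ ((k + m + 2) * k) := by positivity
  have hQ2 : (0 : ℝ) < (Fintype.card F : ℝ) ^ (k + m + 2) := by positivity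
  rw [mul_div_cancel_right₀ _ hQ2.ne'] at hs
  generalize (Fintype.card F : ℝ) ^ ((k + m + 2) * k) = Q at *
  generalize hN : ((k : ℝ) + m + 2) = N at *
  have hcast : ((k + m + 2 : ℕ) : ℝ) = N := by rw [← hN]; push_cast; ring
  rw [hcast] at hs
  have hNpos : 0 < N := by rw [← hN]; positivity
  have hN1 : ((k : ℝ) + m + 1) = N - 1 := by rw [← hN]; ring
  rw [hN1] at hs
  have b0 := bb_nonneg F (m + 1) k
  have hs2 : N * (bb F (m + 1 + 1) k + (Fintype.card F : ℝ) / 2 *
      (bb F (m + 1) (k + 1) - bb F (m + 1 + 1) k)) ≤ 1 + (N - 1) * bb F (m + 1) k := by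
    have h3 : (N * Q) * (N * (bb F (m + 1 + 1) k + (Fintype.card F : ℝ) / 2 *
      (bb F (m + 1) (k + 1) - bb F (m + 1 + 1) k))) ≤ (N * Q) * (1 + (N - 1) * bb F (m + 1) k) := by
      nlinarith [hs]
    exact le_of_mul_le_mul_left h3 (by positivity)
  have hs3 : bb F (m + 1 + 1) k + (Fintype.card F : ℝ) / 2 *
      (bb F (m + 1) (k + 1) - bb F (m + 1 + 1) k) ≤ 1 / N + bb F (m + 1) k := by
    have h4 : N * (bb F (m + 1 + 1) k + (Fintype.card F : ℝ) / 2 *
      (bb F (m + 1) (k + 1) - bb F (m + 1 + 1) k)) ≤ N * (1 / N + bb F (m + 1) k) := by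
      rw [mul_add N (1 / N), mul_one_div_cancel hNpos.ne']
      nlinarith
    exact le_of_mul_le_mul_left h4 hNpos
  have h5 : 1 / N ≤ 1 / ((k : ℝ) + 1) := by
    apply one_div_le_one_div_of_le (by positivity)
    rw [← hN]
    have : (0 : ℝ) ≤ m := by positivity
    linarith
  linarith

theorem bb_step (m k : ℕ) :
    bb F m (k + 1) ≤ bb F (m + 1) k + 1 / (Fintype.card F : ℝ) ^ (m + 1) := by
  have hq := q_pos F
  have hs : (bad F (k + 1 + m) (k + 1) : ℝ) ≤
      (Fintype.card F : ℝ) ^ (k + 1 + m) * bad F (k + 1 + m) k +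
        (Fintype.card F : ℝ) ^ ((k + 1 + m) * k) * (Fintype.card F : ℝ) ^ k := by
    have h1 : ∀ M : Fin k → Fin (k + 1 + m) → F, (kap M : ℝ) ≤
        (Fintype.card F : ℝ) ^ (k + 1 + m) * (if cf k M = 0 then 1 else 0) +
          (Fintype.card F : ℝ) ^ k := by
      intro M
      by_cases h : cf k M = 0
      · rw [kap_zero h, if_pos h]
        push_cast
        have : (0 : ℝ) < (Fintype.card F : ℝ) ^ k := by positivity
        linarith
      · rw [if_neg h, mul_zero, zero_add]
        exact_mod_cast kap_le h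
    have h2 := Finset.sum_le_sum (s := (univ : Finset (Fin k → Fin (k + 1 + m) → F)))
      (fun M _ => h1 M)
    rw [Finset.sum_add_distrib, ← Finset.mul_sum, card_ind, Finset.sum_const, Finset.card_univ,
      nsmul_eq_mul] at h2
    have h3 : (∑ M : Fin k → Fin (k + 1 + m) → F, (kap M : ℝ)) = bad F (k + 1 + m) (k + 1) := by
      rw [bad_succ]; push_cast; rfl
    rw [h3] at h2
    have h4 : (Fintype.card (Fin k → Fin (k + 1 + m) → F) : ℝ) =
        (Fintype.card F : ℝ) ^ ((k + 1 + m) * k) := by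
      simp only [Fintype.card_fun, Fintype.card_fin]
      push_cast
      rw [← pow_mul]
    rw [h4] at h2
    exact h2
  unfold bb
  have e : (Fintype.card F : ℝ) ^ ((k + 1 + m) * (k + 1)) =
      (Fintype.card F : ℝ) ^ ((k + 1 + m) * k) *
        ((Fintype.card F : ℝ) ^ k * (Fintype.card F : ℝ) ^ (m + 1)) := by
    rw [← pow_add, ← pow_add]; congr 1; ring
  have e' : (Fintype.card F : ℝ) ^ (k + 1 + m) =
      (Fintype.card F : ℝ) ^ k * (Fintype.card F : ℝ) ^ (m + 1) := by
    rw [← pow_add]; congr 1; ring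
  rw [show k + (m + 1) = k + 1 + m by ring, e, div_le_iff₀ (by positivity)]
  refine hs.trans (le_of_eq ?_)
  rw [e']
  have hQ : (Fintype.card F : ℝ) ^ ((k + 1 + m) * k) ≠ 0 := by positivity
  have hP : (Fintype.card F : ℝ) ^ k ≠ 0 := by positivity
  have hR : (Fintype.card F : ℝ) ^ (m + 1) ≠ 0 := by positivity
  generalize (Fintype.card F : ℝ) ^ ((k + 1 + m) * k) = Q at hQ ⊢
  generalize (Fintype.card F : ℝ) ^ k = P at hP ⊢
  generalize (Fintype.card F : ℝ) ^ (m + 1) = R at hR ⊢
  field_simp

theorem bb_le (m k : ℕ) : bb F m k ≤ 1 / (Fintype.card F : ℝ) ^ m := by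
  have hq := q_pos F
  have hq2 := q_ge_two F
  induction k generalizing m with
  | zero => rw [bb_zero]; positivity
  | succ k ih =>
    refine (bb_step m k).trans ?_
    have h1 := ih (m + 1)
    have h2 : 1 / (Fintype.card F : ℝ) ^ (m + 1) + 1 / (Fintype.card F : ℝ) ^ (m + 1) ≤
        1 / (Fintype.card F : ℝ) ^ m := by
      rw [← two_mul, pow_succ, mul_one_div, div_le_div_iff₀ (by positivity) (by positivity)]
      have : (0 : ℝ) < (Fintype.card F : ℝ) ^ m := by positivity
      nlinarith
    linarith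

theorem lim_aux {u : ℕ → ℝ} {θ c : ℝ} {δ : ℕ → ℝ} (h0 : 0 ≤ θ) (h1 : θ < 1)
    (hδ : Tendsto δ atTop (𝓝 0))
    (hu : ∀ᶠ k in atTop, u (k + 1) ≤ θ * u k + (1 - θ) * c + δ k) {ε : ℝ} (hε : 0 < ε) :
    ∀ᶠ k in atTop, u k ≤ c + ε := by
  have h2 : ∀ᶠ k in atTop, δ k ≤ (1 - θ) * (ε / 2) := by
    apply hδ.eventually_le_const
    have : 0 < 1 - θ := by linarith
    positivity
  obtain ⟨N, hN⟩ := Filter.eventually_atTop.mp (hu.and h2)
  have h3 : ∀ j, u (N + j) - (c + ε / 2) ≤ θ ^ j * |u N - (c + ε / 2)| := by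
    intro j
    induction j with
    | zero => simpa using le_abs_self (u N - (c + ε / 2))
    | succ j ih =>
      have h4 := (hN (N + j) (by omega)).1
      have h5 := (hN (N + j) (by omega)).2
      have h6 : u (N + (j + 1)) - (c + ε / 2) ≤ θ * (u (N + j) - (c + ε / 2)) := by
        rw [show N + (j + 1) = N + j + 1 by ring]
        linarith
      calc _ ≤ θ * (u (N + j) - (c + ε / 2)) := h6
        _ ≤ θ * (θ ^ j * |u N - (c + ε / 2)|) := mul_le_mul_of_nonneg_left ih h0
        _ = _ := by rw [pow_succ]; ring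
  have h7 : Tendsto (fun j => θ ^ j * |u N - (c + ε / 2)|) atTop (𝓝 0) := by
    have := (tendsto_pow_atTop_nhds_zero_of_lt_one h0 h1).mul_const (|u N - (c + ε / 2)|)
    simpa using this
  have h8 : ∀ᶠ j in atTop, θ ^ j * |u N - (c + ε / 2)| ≤ ε / 2 :=
    h7.eventually_le_const (by positivity)
  obtain ⟨J, hJ⟩ := Filter.eventually_atTop.mp h8
  rw [Filter.eventually_atTop]
  refine ⟨N + J, fun k hk => ?_⟩
  obtain ⟨j, rfl⟩ : ∃ j, k = N + j := ⟨k - N, by omega⟩
  have h9 := h3 j
  have h10 := hJ j (by omega)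
  linarith

theorem bb_lim_aux (h2 : (2 : F) ≠ 0) (h3 : 3 ≤ Fintype.card F) (j : ℕ) :
    ∀ m, 1 ≤ m → ∀ ε > 0, ∀ᶠ k in atTop, bb F m k ≤ 1 / (Fintype.card F : ℝ) ^ (m + j) + ε := by
  have hq := q_pos F
  have hq3 : (3 : ℝ) ≤ Fintype.card F := by exact_mod_cast h3
  induction j with
  | zero =>
    intro m _ ε hε
    exact Filter.Eventually.of_forall (fun k => by have := bb_le (F := F) m k; simp; simp at this; linarith)
  | succ j ih =>
    intro m hm ε hε
    have ih' := ih (m + 1) (by omega) (ε / 2) (by positivity)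
    have hθ : (2 : ℝ) / Fintype.card F < 1 := by
      rw [div_lt_one hq]; linarith
    have := lim_aux (u := fun k => bb F m k) (θ := 2 / Fintype.card F)
      (c := 1 / (Fintype.card F : ℝ) ^ (m + 1 + j) + ε / 2)
      (δ := fun k => 2 / Fintype.card F * (1 / ((k : ℝ) + 1))) (by positivity) hθ
      (by
        have := (tendsto_one_div_add_atTop_nhds_zero_nat (𝕜 := ℝ)).const_mul
          ((2 : ℝ) / Fintype.card F)
        simpa using this)
      (by
        filter_upwards [ih'] with k hk
        have h4 := main_ineq h2 m k hm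
        have h5 : bb F m (k + 1) ≤ (2 / Fintype.card F) *
            (((Fintype.card F : ℝ) / 2 - 1) * bb F (m + 1) k + bb F m k + 1 / (k + 1)) := by
          have h6 := mul_le_mul_of_nonneg_left h4 (show (0 : ℝ) ≤ 2 / Fintype.card F by positivity)
          refine le_trans (le_of_eq ?_) h6
          field_simp
        have h7 : (2 / (Fintype.card F : ℝ)) *
            (((Fintype.card F : ℝ) / 2 - 1) * bb F (m + 1) k + bb F m k + 1 / (k + 1)) =
            2 / Fintype.card F * bb F m k + (1 - 2 / Fintype.card F) * bb F (m + 1) k +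
              2 / Fintype.card F * (1 / ((k : ℝ) + 1)) := by
          field_simp
          ring
        rw [h7] at h5
        have h8 : (1 - 2 / (Fintype.card F : ℝ)) * bb F (m + 1) k ≤
            (1 - 2 / (Fintype.card F : ℝ)) * (1 / (Fintype.card F : ℝ) ^ (m + 1 + j) + ε / 2) :=
          mul_le_mul_of_nonneg_left hk (by linarith)
        linarith) (show (0 : ℝ) < ε / 2 by positivity)
    filter_upwards [this] with k hk
    rw [show m + (j + 1) = m + 1 + j by ring]
    linarith

theorem bb_lim (h2 : (2 : F) ≠ 0) (h3 : 3 ≤ Fintype.card F) :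
    Tendsto (fun k => bb F 1 k) atTop (𝓝 0) := by
  have hq := q_pos F
  have hq3 : (3 : ℝ) ≤ Fintype.card F := by exact_mod_cast h3
  rw [Metric.tendsto_atTop]
  intro ε hε
  obtain ⟨j, hj⟩ : ∃ j : ℕ, 1 / (Fintype.card F : ℝ) ^ (1 + j) < ε / 2 := by
    have h4 : Tendsto (fun j : ℕ => (1 / (Fintype.card F : ℝ)) ^ j) atTop (𝓝 0) := by
      apply tendsto_pow_atTop_nhds_zero_of_lt_one (by positivity)
      rw [div_lt_one hq]; linarith
    obtain ⟨j, hj⟩ := (h4.eventually_lt_const (show (0 : ℝ) < ε / 2 by positivity)).exists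
    refine ⟨j, lt_of_le_of_lt ?_ hj⟩
    rw [one_div_pow]
    apply one_div_le_one_div_of_le (by positivity)
    apply pow_le_pow_right₀ (by linarith)
    omega
  obtain ⟨N, hN⟩ := Filter.eventually_atTop.mp
    (bb_lim_aux h2 h3 j 1 le_rfl (ε / 4) (by positivity))
  refine ⟨N, fun k hk => ?_⟩
  have h5 := hN k hk
  have h6 := bb_nonneg F 1 k
  rw [Real.dist_eq, sub_zero, abs_of_nonneg h6]
  linarith

theorem bb_top (k : ℕ) :
    bb F 0 (k + 1) = bb F 1 k + (1 - bb F 1 k) * (1 / Fintype.card F) := by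
  have hq := q_pos F
  have h1 : ∀ M : Fin k → Fin (k + 1) → F, (kap M : ℝ) =
      (Fintype.card F : ℝ) ^ (k + 1) * (if cf k M = 0 then 1 else 0) +
        (Fintype.card F : ℝ) ^ k * (1 - if cf k M = 0 then 1 else 0) := by
    intro M
    by_cases h : cf k M = 0
    · rw [kap_zero h, if_pos h]; push_cast; ring
    · rw [if_neg h]
      have h3 := kap_top h
      have h4 : (kap M : ℝ) * Fintype.card F = (Fintype.card F : ℝ) ^ k * Fintype.card F := by
        rw [← pow_succ]; exact_mod_cast h3
      have h5 := mul_right_cancel₀ hq.ne' h4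
      rw [h5]; ring
  have hs : (bad F (k + 1) (k + 1) : ℝ) =
      (Fintype.card F : ℝ) ^ (k + 1) * bad F (k + 1) k +
        (Fintype.card F : ℝ) ^ k * ((Fintype.card F : ℝ) ^ ((k + 1) * k) - bad F (k + 1) k) := by
    rw [bad_succ]
    push_cast
    simp only [h1]
    rw [Finset.sum_add_distrib, ← Finset.mul_sum, ← Finset.mul_sum, Finset.sum_sub_distrib,
      card_ind]
    congr 3
    rw [Finset.sum_const, Finset.card_univ, nsmul_eq_mul, mul_one]
    simp only [Fintype.card_fun, Fintype.card_fin]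
    push_cast
    rw [← pow_mul]
  unfold bb
  have e : (Fintype.card F : ℝ) ^ ((k + 1) * (k + 1)) =
      (Fintype.card F : ℝ) ^ ((k + 1) * k) *
        ((Fintype.card F : ℝ) ^ k * (Fintype.card F : ℝ)) := by
    rw [← pow_succ, ← pow_add]; congr 1
  have e' : (Fintype.card F : ℝ) ^ (k + 1) =
      (Fintype.card F : ℝ) ^ k * (Fintype.card F : ℝ) := pow_succ _ _
  rw [add_zero, hs, e, e']
  have hQ : (Fintype.card F : ℝ) ^ ((k + 1) * k) ≠ 0 := by positivity
  have hP : (Fintype.card F : ℝ) ^ k ≠ 0 := by positivity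
  generalize (Fintype.card F : ℝ) ^ ((k + 1) * k) = Q at hQ ⊢
  generalize (Fintype.card F : ℝ) ^ k = P at hP ⊢
  field_simp

/-- The number of square matrices with vanishing permanent. -/
theorem cf_eq_sum {ι : Type*} [DecidableEq ι] [Fintype ι] (k : ℕ) (M : Fin k → ι → F)
    (R : Finset ι) : cf k M R = ∑ g : Fin k → ι,
      if Function.Injective g ∧ univ.image g = R then ∏ j, M j (g j) else 0 := by
  induction k generalizing R with
  | zero =>
    rw [cf]
    have : (univ : Finset (Fin 0 → ι)) = {Fin.elim0} := by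
      ext g
      simp only [Finset.mem_univ, Finset.mem_singleton, true_iff]
      exact Subsingleton.elim _ _
    rw [this, Finset.sum_singleton]
    by_cases h : R = ∅
    · subst h
      rw [if_pos rfl, if_pos]
      · simp
      · exact ⟨fun a => a.elim0, by simp⟩
    · rw [if_neg h, if_neg]
      rintro ⟨_, h1⟩
      apply h
      rw [← h1]; simp
  | succ k ih =>
    rw [cf, ← Equiv.sum_comp (Fin.consEquiv (fun _ : Fin (k + 1) => ι)), Fintype.sum_prod_type]
    simp only [Fin.consEquiv, Equiv.coe_fn_mk]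
    have h1 : ∀ i : ι, ∀ g : Fin k → ι, (Function.Injective (Fin.cons i g : Fin (k + 1) → ι) ∧
        univ.image (Fin.cons i g : Fin (k + 1) → ι) = R) ↔
        (i ∈ R ∧ Function.Injective g ∧ univ.image g = R.erase i) := by
      intro i g
      have himg : univ.image (Fin.cons i g : Fin (k + 1) → ι) = insert i (univ.image g) := by
        ext x
        simp only [Finset.mem_image, Finset.mem_univ, true_and, Finset.mem_insert]
        rw [Fin.exists_fin_succ]
        simp [eq_comm]
      rw [himg, Fin.cons_injective_iff]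
      constructor
      · rintro ⟨⟨h2, h3⟩, h4⟩
        have h5 : i ∉ univ.image g := by simpa using h2
        refine ⟨by rw [← h4]; simp, h3, ?_⟩
        rw [← h4, Finset.erase_insert h5]
      · rintro ⟨h2, h3, h4⟩
        refine ⟨⟨?_, h3⟩, ?_⟩
        · have : i ∉ univ.image g := by rw [h4]; simp
          simpa using this
        · rw [h4, Finset.insert_erase h2]
    simp only [h1]
    rw [← Finset.sum_filter_add_sum_filter_not univ (fun i => i ∈ R)]
    have h6 : ∑ i ∈ univ.filter (fun i => i ∉ R), ∑ g : Fin k → ι,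
        (if i ∈ R ∧ Function.Injective g ∧ univ.image g = R.erase i then
          ∏ j, M j ((Fin.cons i g : Fin (k + 1) → ι) j) else 0) = 0 := by
      apply Finset.sum_eq_zero
      intro i hi
      apply Finset.sum_eq_zero
      intro g _
      rw [if_neg]
      rintro ⟨h7, _⟩
      exact (Finset.mem_filter.mp hi).2 h7
    rw [h6, add_zero, Finset.filter_mem_eq_inter, Finset.univ_inter]
    apply Finset.sum_congr rfl
    intro i hi
    rw [ih, Finset.mul_sum]
    apply Finset.sum_congr rfl
    intro g _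
    by_cases h8 : Function.Injective g ∧ univ.image g = R.erase i
    · rw [if_pos h8, if_pos ⟨hi, h8⟩, Fin.prod_univ_succ]
      simp [Fin.tail]
    · rw [if_neg h8, if_neg (by tauto), mul_zero]

theorem cf_permanent (n : ℕ) (M : Fin n → Fin n → F) :
    cf n M univ = Matrix.permanent (Matrix.of fun i j => M j i) := by
  rw [cf_eq_sum, Matrix.permanent]
  rw [← Finset.sum_filter]
  symm
  apply Finset.sum_bij (fun (σ : Equiv.Perm (Fin n)) _ => (σ : Fin n → Fin n))
  · intro σ _
    simp only [Finset.mem_filter, Finset.mem_univ, true_and]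
    exact ⟨σ.injective, Finset.image_univ_of_surjective σ.surjective⟩
  · intro σ _ τ _ h
    exact Equiv.coe_fn_injective h
  · intro g hg
    simp only [Finset.mem_filter, Finset.mem_univ, true_and] at hg
    exact ⟨Equiv.ofBijective g (Finite.injective_iff_bijective.mp hg.1), Finset.mem_univ _, rfl⟩
  · intro σ _
    rfl

theorem cf_zero_iff (n : ℕ) (M : Fin n → Fin n → F) : cf n M = 0 ↔ cf n M univ = 0 := by
  constructor
  · intro h; rw [h]; rfl
  · intro h
    funext R
    by_contra hc
    have h1 := cf_card hc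
    have h2 : R = univ := by
      apply Finset.eq_univ_of_card
      rw [h1, Fintype.card_fin]
    rw [h2] at hc
    exact hc h

theorem card_permanent (n : ℕ) :
    #{A : Matrix (Fin n) (Fin n) F | A.permanent = 0} = bad F n n := by
  unfold bad
  apply Finset.card_bij (fun A _ => fun j i => A i j)
  · intro A hA
    simp only [Finset.mem_filter, Finset.mem_univ, true_and] at hA ⊢
    rw [cf_zero_iff, cf_permanent]
    exact hA
  · intro A _ B _ h
    ext i j
    exact congrFun (congrFun h j) i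
  · intro M hM
    simp only [Finset.mem_filter, Finset.mem_univ, true_and] at hM
    refine ⟨Matrix.of fun i j => M j i, ?_, rfl⟩
    simp only [Finset.mem_filter, Finset.mem_univ, true_and]
    rw [← cf_permanent, hM]
    rfl

theorem permanent_limit (h2 : (2 : F) ≠ 0) :
    Tendsto (fun n : ℕ => (#{A : Matrix (Fin n) (Fin n) F | A.permanent = 0} : ℝ) /
      (Fintype.card F : ℝ) ^ (n * n)) atTop (𝓝 (1 / Fintype.card F)) := by
  have h3 : 3 ≤ Fintype.card F := by
    have h4 : 1 < Fintype.card F := Fintype.one_lt_card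
    have h5 : Fintype.card F ≠ 2 := by
      intro h
      apply h2
      have := FiniteField.cast_card_eq_zero F
      rw [h] at this
      exact_mod_cast this
    omega
  rw [← Filter.tendsto_add_atTop_iff_nat 1]
  have h6 : ∀ n : ℕ, (#{A : Matrix (Fin (n + 1)) (Fin (n + 1)) F | A.permanent = 0} : ℝ) /
      (Fintype.card F : ℝ) ^ ((n + 1) * (n + 1)) =
      bb F 1 n + (1 - bb F 1 n) * (1 / Fintype.card F) := by
    intro n
    rw [← bb_top, card_permanent]
    rfl
  simp only [h6]
  have h7 := bb_lim h2 h3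
  have h8 := h7.add (((tendsto_const_nhds (x := (1 : ℝ))).sub h7).mul_const
    (1 / (Fintype.card F : ℝ)))
  simpa using h8

end lim

end PermFq
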