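import Pool.Agent.Helper41.PermCount

/-!
Pairs of equal row tensors.
-/

namespace PermFq

set_option linter.unusedSectionVars false

open Finset

section pairs

variable {F : Type*} [Field F] [Fintype F] [DecidableEq F] {n : ℕ}

/-- number of ordered pairs of equal row tensors -/
def prs {k : ℕ} (M : Fin k → Fin n → F) : ℕ := #{p : Fin n × Fin n | T M p.1 = T M p.2}

theorem sq_le_prs {k : ℕ} (M : Fin k → Fin n → F) :
    n ^ 2 ≤ (univ.image (T M)).card * prs M := by
  have h1 : n = ∑ w ∈ univ.image (T M), #{i : Fin n | T M i = w} := by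
    have := Finset.card_eq_sum_card_image (T M) (univ : Finset (Fin n))
    rw [Finset.card_univ, Fintype.card_fin] at this
    exact this
  have h2 : prs M = ∑ w ∈ univ.image (T M), #{i : Fin n | T M i = w} ^ 2 := by
    unfold prs
    rw [Finset.card_filter, Fintype.sum_prod_type]
    have h3 : ∀ i : Fin n, ∑ j : Fin n, (if T M i = T M j then 1 else 0) =
        #{j : Fin n | T M j = T M i} := by
      intro i
      rw [Finset.card_filter]
      apply Finset.sum_congr rfl
      intro j _
      simp only [eq_comm]
    simp only [h3]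
    rw [← Finset.sum_fiberwise_of_maps_to (s := univ) (t := univ.image (T M)) (g := T M)
      (fun i _ => Finset.mem_image_of_mem _ (Finset.mem_univ i))]
    apply Finset.sum_congr rfl
    intro w _
    have h4 : ∀ i ∈ univ.filter (fun i : Fin n => T M i = w), #{j : Fin n | T M j = T M i} =
        #{j : Fin n | T M j = w} := by
      intro i hi
      rw [(Finset.mem_filter.mp hi).2]
    rw [Finset.sum_congr rfl h4, Finset.sum_const, smul_eq_mul, sq]
  rw [h2]
  conv_lhs => rw [h1]
  have := @sq_sum_le_card_mul_sum_sq _ ℕ _ _ _ _ (univ.image (T M))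
    (fun w => #{i : Fin n | T M i = w})
  exact this

theorem prs_zero {k : ℕ} {M : Fin k → Fin n → F} (h : cf k M = 0) : prs M = n ^ 2 := by
  unfold prs
  rw [Finset.filter_true_of_mem]
  · simp [sq]
  · intro p _
    have : ∀ i, T M i = 0 := by
      intro i
      funext R
      simp [T, h]
    rw [this, this]

theorem T_perm {k : ℕ} (M : Fin k → Fin n → F) (σ : Equiv.Perm (Fin n)) (i : Fin n)
    (R : Finset (Fin n)) :
    T (fun j i => M j (σ i)) i R = T M (σ i) (R.map σ.toEmbedding) := by
  unfold T
  by_cases hi : i ∈ R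
  · rw [if_pos hi, if_pos (by simpa using hi)]
    have := cf_map σ.toEmbedding k M (R.erase i)
    rw [Finset.map_erase] at this
    exact this
  · rw [if_neg hi, if_neg (by simpa using hi)]

theorem T_perm_eq {k : ℕ} (M : Fin k → Fin n → F) (σ : Equiv.Perm (Fin n)) (i j : Fin n) :
    T (fun j i => M j (σ i)) i = T (fun j i => M j (σ i)) j ↔ T M (σ i) = T M (σ j) := by
  constructor
  · intro h
    funext R
    have h1 := congrFun h (R.map σ.symm.toEmbedding)
    rw [T_perm, T_perm, Finset.map_map] at h1
    have h2 : σ.symm.toEmbedding.trans σ.toEmbedding = Function.Embedding.refl _ := by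
      ext x; simp
    rw [h2, Finset.map_refl] at h1
    exact h1
  · intro h
    funext R
    rw [T_perm, T_perm, h]

theorem exchange {k : ℕ} {i j a b : Fin n} (hij : i ≠ j) (hab : a ≠ b) :
    #{M : Fin k → Fin n → F | T M i = T M j} = #{M : Fin k → Fin n → F | T M a = T M b} := by
  -- a permutation with σ i = a, σ j = b
  obtain ⟨σ, hσi, hσj⟩ : ∃ σ : Equiv.Perm (Fin n), σ i = a ∧ σ j = b := by
    refine ⟨(Equiv.swap i a).trans (Equiv.swap ((Equiv.swap i a) j) b), ?_, ?_⟩
    · simp only [Equiv.trans_apply, Equiv.swap_apply_left]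
      rw [Equiv.swap_apply_of_ne_of_ne]
      · intro h
        have h1 : (Equiv.swap i a) i = (Equiv.swap i a) j := by rw [Equiv.swap_apply_left]; exact h
        exact hij ((Equiv.swap i a).injective h1)
      · exact hab
    · simp
  apply Finset.card_bij (fun M _ => fun j' i' => M j' (σ.symm i'))
  · intro M hM
    simp only [Finset.mem_filter, Finset.mem_univ, true_and] at hM ⊢
    rw [T_perm_eq, ← hσi, ← hσj]
    simpa using hM
  · intro M _ M' _ h
    funext j' i'
    have := congrFun (congrFun h j') (σ i')
    simpa using this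
  · intro M hM
    simp only [Finset.mem_filter, Finset.mem_univ, true_and] at hM
    refine ⟨fun j' i' => M j' (σ i'), ?_, ?_⟩
    · simp only [Finset.mem_filter, Finset.mem_univ, true_and]
      rw [T_perm_eq, hσi, hσj]
      exact hM
    · funext j' i'
      exact congrArg (M j') (σ.apply_symm_apply i')

/-- The shear equivalence. -/
def shear (F : Type*) [Field F] (n : ℕ) : F × (Fin (n + 1) → F) ≃ (Fin (n + 2) → F) where
  toFun x := Fin.cons x.1 (x.2 + Pi.single 0 x.1)
  invFun y := (y 0, Fin.tail y - Pi.single 0 (y 0))
  left_inv x := by simp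
  right_inv y := by simp

theorem collapse_iff {k : ℕ} (c : Fin k → F) (M : Fin k → Fin (n + 1) → F) :
    T (fun j => shear F n (c j, M j)) 1 = T (fun j => shear F n (c j, M j)) 0 ↔ cf k M = 0 := by
  rw [T_eq_iff (by simp)]
  have key : ∀ R : Finset (Fin (n + 1)),
      cf k (fun j => Function.update (shear F n (c j, M j)) 1
        (shear F n (c j, M j) 1 - shear F n (c j, M j) 0)) (R.map (Fin.succEmb (n + 1)))
        = cf k M R := by
    intro R
    rw [← cf_map]
    congr 1
    funext j i
    simp only [Fin.coe_succEmb]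
    by_cases hi : i = 0
    · subst hi
      have h1 : (Fin.succ (0 : Fin (n + 1))) = 1 := rfl
      rw [h1, Function.update_self]
      simp only [shear, Equiv.coe_fn_mk, Fin.cons_zero]
      rw [← h1, Fin.cons_succ]
      simp
    · have h1 : i.succ ≠ 1 := by
        intro h
        apply hi
        have h2 : (Fin.succ (0 : Fin (n + 1))) = 1 := rfl
        rw [← h2] at h
        exact Fin.succ_injective _ h
      rw [Function.update_of_ne h1]
      simp [shear, hi]
  constructor
  · intro h
    funext R
    rw [← key R]
    exact h _ (by simp [Fin.succ_ne_zero])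
  · intro h R hR
    obtain ⟨R', rfl⟩ : ∃ R' : Finset (Fin (n + 1)),
        R = R'.map (Fin.succEmb (n + 1)) := by
      refine ⟨univ.filter (fun i => i.succ ∈ R), ?_⟩
      ext x
      simp only [Finset.mem_map, Finset.mem_filter, Finset.mem_univ, true_and]
      constructor
      · intro hx
        have hx0 : x ≠ 0 := fun h => hR (h ▸ hx)
        exact ⟨x.pred hx0, by simpa using hx, by simp⟩
      · rintro ⟨y, hy, rfl⟩
        exact hy
    rw [key R', h]
    rfl

theorem collapse_count (k : ℕ) :
    #{M : Fin k → Fin (n + 2) → F | T M 1 = T M 0} = Fintype.card F ^ k * bad F (n + 1) k := by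
  have h1 : Fintype.card F ^ k = (univ : Finset (Fin k → F)).card := by simp
  rw [h1]
  unfold bad
  rw [← Finset.card_product]
  symm
  apply Finset.card_bij (fun x _ => fun j => shear F n (x.1 j, x.2 j))
  · rintro ⟨c, M⟩ hx
    simp only [Finset.mem_product, Finset.mem_univ, true_and, Finset.mem_filter] at hx ⊢
    exact (collapse_iff c M).mpr hx
  · rintro ⟨c, M⟩ _ ⟨c', M'⟩ _ h
    have h2 : ∀ j, (c j, M j) = (c' j, M' j) := fun j => (shear F n).injective (congrFun h j)
    have h3 : c = c' := funext fun j => (Prod.mk.inj (h2 j)).1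
    have h4 : M = M' := funext fun j => (Prod.mk.inj (h2 j)).2
    rw [h3, h4]
  · intro M hM
    simp only [Finset.mem_univ, true_and, Finset.mem_filter] at hM
    refine ⟨(fun j => ((shear F n).symm (M j)).1, fun j => ((shear F n).symm (M j)).2), ?_, ?_⟩
    · simp only [Finset.mem_product, Finset.mem_univ, true_and, Finset.mem_filter]
      rw [← collapse_iff (fun j => ((shear F n).symm (M j)).1)]
      simpa using hM
    · funext j
      simp

theorem sum_prs (k : ℕ) :
    ∑ M : Fin k → Fin (n + 2) → F, prs M = (n + 2) * Fintype.card F ^ ((n + 2) * k) +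
      (n + 2) * (n + 1) * (Fintype.card F ^ k * bad F (n + 1) k) := by
  have h1 : ∑ M : Fin k → Fin (n + 2) → F, prs M =
      ∑ p : Fin (n + 2) × Fin (n + 2), #{M : Fin k → Fin (n + 2) → F | T M p.1 = T M p.2} := by
    unfold prs
    simp only [Finset.card_filter]
    rw [Finset.sum_comm]
  rw [h1, Fintype.sum_prod_type]
  have h2 : ∀ i : Fin (n + 2), ∑ j, #{M : Fin k → Fin (n + 2) → F | T M i = T M j} =
      Fintype.card F ^ ((n + 2) * k) + (n + 1) * (Fintype.card F ^ k * bad F (n + 1) k) := by
    intro i
    rw [← Finset.add_sum_erase _ _ (Finset.mem_univ i)]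
    congr 1
    · rw [Finset.filter_true_of_mem (by intro _ _; rfl), Finset.card_univ]
      simp only [Fintype.card_fun, Fintype.card_fin]
      rw [← pow_mul]
    · rw [Finset.sum_congr rfl (g := fun _ => Fintype.card F ^ k * bad F (n + 1) k)]
      · rw [Finset.sum_const, Finset.card_erase_of_mem (Finset.mem_univ i), Finset.card_univ,
          Fintype.card_fin, smul_eq_mul]
        rfl
      · intro j hj
        rw [exchange (Finset.ne_of_mem_erase hj).symm (show (1 : Fin (n + 2)) ≠ 0 by simp),
          collapse_count]
  simp only [h2]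
  rw [Finset.sum_const, Finset.card_univ, Fintype.card_fin, smul_eq_mul]
  ring

end pairs

end PermFq
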