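import Mathlib

/-!
# An upho lattice that is not multiplicable

Words over `{0,1,2}`, modulo the right congruence generated by
`u00 = u10 = u20` if `u` does not end in `2`, and `u01 = u10 = u20` if `u` ends in `2`.
The states `false` / `true` record whether the last letter is different from / equal to `2`.
-/

namespace Pool.Agent.Helper41.UphoExample

/-- the state reached by reading the letter `a` -/
def nxt (a : Fin 3) : Bool := decide (a = 2)

/-- the complement of the letter `a` in the state `s` -/
def g (s : Bool) (a : Fin 3) : Fin 3 := if s = true ∧ a = 0 then 1 else 0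

lemma nxt_g (s : Bool) (a : Fin 3) : nxt (g s a) = false := by
  revert s a; decide

/-- equality of words, read from the state `s` -/
inductive E : Bool → List (Fin 3) → List (Fin 3) → Prop
  | nil (s : Bool) : E s [] []
  | cons (s : Bool) (a : Fin 3) (u v : List (Fin 3)) : E (nxt a) u v → E s (a :: u) (a :: v)
  | swap (s : Bool) (a b : Fin 3) (u v w : List (Fin 3)) : a ≠ b →
      E (nxt a) u (g s a :: w) → E (nxt b) v (g s b :: w) → E s (a :: u) (b :: v)

/-- the state reached by reading a word -/
def st : Bool → List (Fin 3) → Bool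
  | s, [] => s
  | _, a :: u => st (nxt a) u

lemma E.length_eq {s : Bool} {u v : List (Fin 3)} (h : E s u v) : u.length = v.length := by
  induction h with
  | nil s => rfl
  | cons s a u v _ ih => simp [ih]
  | swap s a b u v w _ _ _ ih1 ih2 => simp_all

lemma E.refl : ∀ (s : Bool) (u : List (Fin 3)), E s u u
  | s, [] => E.nil s
  | s, a :: u => E.cons s a u u (E.refl _ u)

lemma E.symm {s : Bool} {u v : List (Fin 3)} (h : E s u v) : E s v u := by
  induction h with
  | nil s => exact E.nil s
  | cons s a u v _ ih => exact E.cons s a v u ih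
  | swap s a b u v w hab h1 h2 _ _ => exact E.swap s b a v u w (Ne.symm hab) h2 h1

lemma E.cons_inv {s : Bool} {a : Fin 3} {u v : List (Fin 3)} (h : E s (a :: u) (a :: v)) :
    E (nxt a) u v := by
  cases h with
  | cons _ _ _ _ h => exact h
  | swap _ _ _ _ _ w hab => exact absurd rfl hab

lemma E.swap_inv {s : Bool} {a b : Fin 3} {u v : List (Fin 3)} (hab : a ≠ b)
    (h : E s (a :: u) (b :: v)) :
    ∃ w, E (nxt a) u (g s a :: w) ∧ E (nxt b) v (g s b :: w) := by
  cases h with
  | cons => exact absurd rfl hab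
  | swap _ _ _ _ _ w _ h1 h2 => exact ⟨w, h1, h2⟩

lemma E.trans_aux : ∀ (n : ℕ) (s : Bool) (u v w : List (Fin 3)), u.length = n →
    E s u v → E s v w → E s u w := by
  intro n
  induction n with
  | zero =>
    intro s u v w hn h1 h2
    have hu : u = [] := List.eq_nil_of_length_eq_zero hn
    subst hu
    cases h1
    cases h2
    exact E.nil s
  | succ n ih =>
    intro s u v w hn h1 h2
    match u, v, w, hn, h1, h2 with
    | a :: u, b :: v, c :: w, hn, h1, h2 =>
      have hlu : u.length = n := by simpa using hn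
      have hlv : v.length = n := by have := h1.length_eq; simp at this; omega
      have hlw : w.length = n := by have := h2.length_eq; simp at this; omega
      by_cases hab : a = b
      · subst hab
        have h1' := h1.cons_inv
        by_cases hac : a = c
        · subst hac
          exact E.cons s a _ _ (ih _ _ _ _ hlu h1' h2.cons_inv)
        · obtain ⟨z, hz1, hz2⟩ := h2.swap_inv hac
          exact E.swap s a c _ _ z hac (ih _ _ _ _ hlu h1' hz1) hz2
      · obtain ⟨z, hz1, hz2⟩ := h1.swap_inv hab
        by_cases hbc : b = c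
        · subst hbc
          exact E.swap s a b _ _ z hab hz1 (ih _ _ _ _ hlw h2.cons_inv.symm hz2)
        · obtain ⟨z', hz1', hz2'⟩ := h2.swap_inv hbc
          -- `g s b :: z ~ v ~ g s b :: z'`
          have hzz := ih _ _ _ _ (by simpa [hlv] using (hz2.symm.length_eq)) hz2.symm hz1'
          have hzz' : E false z z' := by
            have := hzz.cons_inv
            rwa [nxt_g] at this
          have hga : E (nxt a) (g s a :: z) (g s a :: z') :=
            E.cons _ _ _ _ (by rw [nxt_g]; exact hzz')
          have hua : E (nxt a) u (g s a :: z') := ih _ _ _ _ hlu hz1 hga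
          by_cases hac : a = c
          · subst hac
            exact E.cons s a _ _ (ih _ _ _ _ hlu hua hz2'.symm)
          · exact E.swap s a c _ _ z' hac hua hz2'

lemma E.trans {s : Bool} {u v w : List (Fin 3)} (h1 : E s u v) (h2 : E s v w) : E s u w :=
  E.trans_aux _ s u v w rfl h1 h2

lemma E.append {s : Bool} {u v : List (Fin 3)} (h : E s u v) (z : List (Fin 3)) :
    E s (u ++ z) (v ++ z) := by
  induction h with
  | nil s => exact E.refl s _
  | cons s a u v _ ih => exact E.cons s a _ _ ih
  | swap s a b u v w hab _ _ ih1 ih2 => exact E.swap s a b _ _ (w ++ z) hab ih1 ih2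

lemma E.st_eq {s : Bool} {u v : List (Fin 3)} (h : E s u v) : st s u = st s v := by
  induction h with
  | nil s => rfl
  | cons s a u v _ ih => exact ih
  | swap s a b u v w hab _ _ ih1 ih2 =>
    show st (nxt a) u = st (nxt b) v
    rw [ih1, ih2]
    show st (nxt (g s a)) w = st (nxt (g s b)) w
    rw [nxt_g, nxt_g]

lemma st_append (s : Bool) (u v : List (Fin 3)) : st s (u ++ v) = st (st s u) v := by
  induction u generalizing s with
  | nil => rfl
  | cons a u ih => exact ih (nxt a)

lemma E.left_iff (s : Bool) (x u v : List (Fin 3)) :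
    E s (x ++ u) (x ++ v) ↔ E (st s x) u v := by
  induction x generalizing s with
  | nil => exact Iff.rfl
  | cons a x ih =>
    show E s (a :: (x ++ u)) (a :: (x ++ v)) ↔ E (st (nxt a) x) u v
    rw [← ih (nxt a)]
    exact ⟨fun h => h.cons_inv, fun h => E.cons s a _ _ h⟩

/-- left divisibility of words -/
def le (s : Bool) (u v : List (Fin 3)) : Prop := ∃ z, E s (u ++ z) v

lemma le.congr {s : Bool} {u u' v v' : List (Fin 3)} (hu : E s u u') (hv : E s v v')
    (h : le s u v) : le s u' v' := by
  obtain ⟨z, hz⟩ := h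
  exact ⟨z, ((hu.append z).symm.trans hz).trans hv⟩

lemma le.refl (s : Bool) (u : List (Fin 3)) : le s u u := ⟨[], by simpa using E.refl s u⟩

lemma le.trans {s : Bool} {u v w : List (Fin 3)} (h1 : le s u v) (h2 : le s v w) : le s u w := by
  obtain ⟨z1, hz1⟩ := h1
  obtain ⟨z2, hz2⟩ := h2
  refine ⟨z1 ++ z2, ?_⟩
  rw [← List.append_assoc]
  exact (hz1.append z2).trans hz2

lemma le.length_le {s : Bool} {u v : List (Fin 3)} (h : le s u v) : u.length ≤ v.length := by
  obtain ⟨z, hz⟩ := h
  have := hz.length_eq
  simp at this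
  omega

lemma le.E_of_length {s : Bool} {u v : List (Fin 3)} (h : le s u v)
    (hl : v.length ≤ u.length) : E s u v := by
  obtain ⟨z, hz⟩ := h
  have h1 := hz.length_eq
  simp at h1
  have : z = [] := List.eq_nil_of_length_eq_zero (by omega)
  subst this
  simpa using hz

lemma le.left_iff (s : Bool) (x u v : List (Fin 3)) :
    le s (x ++ u) (x ++ v) ↔ le (st s x) u v := by
  unfold le
  constructor
  · rintro ⟨z, hz⟩
    rw [List.append_assoc, E.left_iff] at hz
    exact ⟨z, hz⟩
  · rintro ⟨z, hz⟩
    exact ⟨z, by rw [List.append_assoc, E.left_iff]; exact hz⟩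

lemma le.cons_iff (s : Bool) (a : Fin 3) (u v : List (Fin 3)) :
    le s (a :: u) (a :: v) ↔ le (nxt a) u v := le.left_iff s [a] u v

/-- existence of least common right multiples -/
lemma lcm_exists : ∀ (n : ℕ) (s : Bool) (u v : List (Fin 3)), u.length + v.length ≤ n →
    ∃ p q : List (Fin 3), p.length ≤ v.length ∧ q.length ≤ u.length ∧ E s (u ++ p) (v ++ q) ∧
      ∀ x, le s u x → le s v x → le s (u ++ p) x := by
  intro n
  induction n with
  | zero =>
    intro s u v hn
    have hu : u = [] := List.eq_nil_of_length_eq_zero (by omega)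
    have hv : v = [] := List.eq_nil_of_length_eq_zero (by omega)
    subst hu hv
    exact ⟨[], [], le_rfl, le_rfl, E.nil s, fun x h _ => h⟩
  | succ n ih =>
    intro s u v hn
    match u, v, hn with
    | [], v, _ =>
      exact ⟨v, [], le_rfl, le_rfl, by simpa using E.refl s v, fun x _ h => h⟩
    | a :: u, [], _ =>
      exact ⟨[], a :: u, le_rfl, le_rfl, by simpa using E.refl s (a :: u),
        fun x h _ => by simpa using h⟩
    | a :: u, b :: v, hn =>
      simp only [List.length_cons] at hn
      by_cases hab : a = b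
      · subst hab
        obtain ⟨p, q, hp, hq, hpq, hx⟩ := ih (nxt a) u v (by omega)
        refine ⟨p, q, by simp only [List.length_cons]; omega,
          by simp only [List.length_cons]; omega, E.cons s a _ _ hpq, ?_⟩
        intro x h1 h2
        obtain ⟨z, hz⟩ := h1
        have h3 : le s (a :: v) (a :: (u ++ z)) := le.congr (E.refl _ _) hz.symm h2
        rw [le.cons_iff] at h3
        have h4 := hx (u ++ z) ⟨z, E.refl _ _⟩ h3
        exact le.congr (E.refl _ _) hz ((le.cons_iff s a _ _).2 h4)
      · obtain ⟨p1, q1, hp1, hq1, hpq1, hx1⟩ := ih (nxt a) u [g s a] (by simp; omega)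
        obtain ⟨p2, q2, hp2, hq2, hpq2, hx2⟩ := ih (nxt b) v [g s b] (by simp; omega)
        obtain ⟨r1, r2, hr1, hr2, hr, hx3⟩ := ih false q1 q2 (by omega)
        simp only [List.length_cons, List.length_nil] at hp1 hp2
        refine ⟨p1 ++ r1, p2 ++ r2, by simp only [List.length_cons, List.length_append]; omega,
          by simp only [List.length_cons, List.length_append]; omega, ?_, ?_⟩
        · have e1 : E (nxt a) (u ++ (p1 ++ r1)) (g s a :: (q1 ++ r1)) := by
            rw [← List.append_assoc]; exact hpq1.append r1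
          have e2 : E (nxt b) (v ++ (p2 ++ r2)) (g s b :: (q1 ++ r1)) := by
            rw [← List.append_assoc]
            refine (hpq2.append r2).trans ?_
            refine E.cons _ _ _ _ ?_
            rw [nxt_g]
            exact hr.symm
          exact E.swap s a b _ _ _ hab e1 e2
        · intro x h1 h2
          obtain ⟨z, hz⟩ := h1
          have h3 : le s (b :: v) (a :: (u ++ z)) := le.congr (E.refl _ _) hz.symm h2
          obtain ⟨z2, hz2⟩ := h3
          obtain ⟨w, hw1, hw2⟩ := E.swap_inv (Ne.symm hab) hz2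
          have h4 : le (nxt a) (u ++ p1) (u ++ z) :=
            hx1 _ ⟨z, E.refl _ _⟩ ⟨w, hw2.symm⟩
          have h5 : le (nxt a) (g s a :: q1) (g s a :: w) := le.congr hpq1 hw2 h4
          rw [le.cons_iff, nxt_g] at h5
          have h6 : le (nxt b) (v ++ p2) (g s b :: w) :=
            hx2 _ ⟨z2, hw1⟩ ⟨w, E.refl _ _⟩
          have h7 : le (nxt b) (g s b :: q2) (g s b :: w) := le.congr hpq2 (E.refl _ _) h6
          rw [le.cons_iff, nxt_g] at h7
          have h8 := hx3 w h5 h7
          have h9 : le (nxt a) (g s a :: (q1 ++ r1)) (g s a :: w) := by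
            rw [le.cons_iff, nxt_g]; exact h8
          have h10 : le (nxt a) (u ++ (p1 ++ r1)) (u ++ z) := by
            rw [← List.append_assoc]
            exact le.congr (hpq1.append r1).symm hw2.symm h9
          exact le.congr (E.refl _ _) hz ((le.cons_iff s a _ _).2 h10)

/-- words modulo equality read from the state `s` -/
def sd (s : Bool) : Setoid (List (Fin 3)) where
  r := E s
  iseqv := ⟨E.refl s, E.symm, E.trans⟩

/-- the poset of words read from the state `s` -/
def P (s : Bool) : Type := Quotient (sd s)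

/-- the class of a word -/
def mk (s : Bool) (u : List (Fin 3)) : P s := Quotient.mk (sd s) u

lemma mk_eq {s : Bool} {u v : List (Fin 3)} : mk s u = mk s v ↔ E s u v :=
  ⟨fun h => Quotient.exact h, fun h => Quotient.sound h⟩

lemma exists_rep {s : Bool} (x : P s) : ∃ u, mk s u = x := Quotient.exists_rep x

instance (s : Bool) : LE (P s) where
  le := Quotient.lift₂ (s₁ := sd s) (s₂ := sd s) (le s) (fun _ _ _ _ h1 h2 => propext
    ⟨fun h => le.congr h1 h2 h, fun h => le.congr (E.symm h1) (E.symm h2) h⟩)

lemma mk_le {s : Bool} {u v : List (Fin 3)} : mk s u ≤ mk s v ↔ le s u v := Iff.rfl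

instance (s : Bool) : PartialOrder (P s) where
  le_refl x := by
    obtain ⟨u, rfl⟩ := exists_rep x
    exact le.refl s u
  le_trans x y z := by
    obtain ⟨u, rfl⟩ := exists_rep x
    obtain ⟨v, rfl⟩ := exists_rep y
    obtain ⟨w, rfl⟩ := exists_rep z
    exact le.trans
  le_antisymm x y := by
    obtain ⟨u, rfl⟩ := exists_rep x
    obtain ⟨v, rfl⟩ := exists_rep y
    intro h1 h2
    exact mk_eq.2 (h1.E_of_length h2.length_le)

/-- rank -/
def rk {s : Bool} (x : P s) : ℕ :=
  Quotient.lift (s := sd s) List.length (fun _ _ h => E.length_eq (s := s) h) x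

@[simp] lemma rk_mk {s : Bool} (u : List (Fin 3)) : rk (mk s u) = u.length := rfl

lemma rk_mono {s : Bool} {x y : P s} (h : x ≤ y) : rk x ≤ rk y := by
  obtain ⟨u, rfl⟩ := exists_rep x
  obtain ⟨v, rfl⟩ := exists_rep y
  exact le.length_le h

lemma eq_of_rk {s : Bool} {x y : P s} (h : x ≤ y) (h' : rk y ≤ rk x) : x = y := by
  obtain ⟨u, rfl⟩ := exists_rep x
  obtain ⟨v, rfl⟩ := exists_rep y
  exact mk_eq.2 (le.E_of_length h h')

lemma rk_strictMono (s : Bool) : StrictMono (rk (s := s)) := by
  intro x y h
  by_contra hc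
  exact h.ne (eq_of_rk h.le (not_lt.1 hc))

lemma exists_lub {s : Bool} (x y : P s) : ∃ z, x ≤ z ∧ y ≤ z ∧ ∀ w, x ≤ w → y ≤ w → z ≤ w := by
  obtain ⟨u, rfl⟩ := exists_rep x
  obtain ⟨v, rfl⟩ := exists_rep y
  obtain ⟨p, q, -, -, h, hx⟩ := lcm_exists _ s u v le_rfl
  refine ⟨mk s (u ++ p), ⟨p, E.refl _ _⟩, ⟨q, h.symm⟩, ?_⟩
  intro w
  obtain ⟨w, rfl⟩ := exists_rep w
  exact hx w

lemma nil_le {s : Bool} (x : P s) : mk s [] ≤ x := by
  obtain ⟨u, rfl⟩ := exists_rep x
  exact ⟨u, E.refl _ _⟩

lemma exists_glb {s : Bool} (x y : P s) : ∃ z, z ≤ x ∧ z ≤ y ∧ ∀ w, w ≤ x → w ≤ y → w ≤ z := by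
  have hne : {n | ∃ c : P s, c ≤ x ∧ c ≤ y ∧ rk c = n}.Nonempty :=
    ⟨0, mk s [], nil_le x, nil_le y, rfl⟩
  have hbd : BddAbove {n | ∃ c : P s, c ≤ x ∧ c ≤ y ∧ rk c = n} :=
    ⟨rk x, by rintro n ⟨c, hc, -, rfl⟩; exact rk_mono hc⟩
  obtain ⟨c, hcx, hcy, hc⟩ := Nat.sSup_mem hne hbd
  refine ⟨c, hcx, hcy, ?_⟩
  intro d hdx hdy
  obtain ⟨z, hz1, hz2, hz3⟩ := exists_lub c d
  have hzr : rk z ≤ rk c := by
    rw [hc]
    exact le_csSup hbd ⟨z, hz3 x hcx hdx, hz3 y hcy hdy, rfl⟩
  rw [eq_of_rk hz1 hzr]
  exact hz2

noncomputable instance (s : Bool) : Lattice (P s) where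
  sup x y := (exists_lub x y).choose
  le_sup_left x y := (exists_lub x y).choose_spec.1
  le_sup_right x y := (exists_lub x y).choose_spec.2.1
  sup_le x y z h1 h2 := (exists_lub x y).choose_spec.2.2 z h1 h2
  inf x y := (exists_glb x y).choose
  inf_le_left x y := (exists_glb x y).choose_spec.1
  inf_le_right x y := (exists_glb x y).choose_spec.2.1
  le_inf x y z h1 h2 := (exists_glb y z).choose_spec.2.2 x h1 h2

instance (s : Bool) : OrderBot (P s) where
  bot := mk s []
  bot_le := nil_le

lemma bot_eq (s : Bool) : (⊥ : P s) = mk s [] := rfl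

lemma rk_finite (s : Bool) (n : ℕ) : {x : P s | rk x = n}.Finite := by
  have h : {x : P s | rk x = n} ⊆ mk s '' {l : List (Fin 3) | l.length = n} := by
    intro x hx
    obtain ⟨u, rfl⟩ := exists_rep x
    exact ⟨u, hx, rfl⟩
  exact ((List.finite_length_eq (Fin 3) n).image _).subset h

lemma rk_covBy {s : Bool} {x y : P s} (h : x ⋖ y) : rk y = rk x + 1 := by
  obtain ⟨u, rfl⟩ := exists_rep x
  obtain ⟨v, rfl⟩ := exists_rep y
  obtain ⟨z, hz⟩ := h.le
  have hlen := hz.length_eq
  have hne : z ≠ [] := by
    rintro rfl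
    apply h.lt.ne
    exact mk_eq.2 (by simpa using hz)
  match z, hz, hne with
  | a :: z, hz, _ =>
    by_cases hzn : z = []
    · subst hzn
      simp at hlen ⊢
      omega
    · exfalso
      have h1 : mk s u < mk s (u ++ [a]) := by
        refine lt_of_le_of_ne ⟨[a], E.refl _ _⟩ ?_
        intro he
        have := (mk_eq.1 he).length_eq
        simp at this
      have h2 : mk s (u ++ [a]) < mk s v := by
        refine lt_of_le_of_ne ⟨z, by simpa using hz⟩ ?_
        intro he
        have h3 := (mk_eq.1 he).length_eq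
        simp at hlen h3
        exact hzn (List.eq_nil_of_length_eq_zero (by omega))
      exact h.2 h1 h2

/-! ### homogeneity -/

/-- the filter above `mk s x` is the poset read from the state reached by `x` -/
def toFilter (s : Bool) (x : List (Fin 3)) (z : P (st s x)) : P s :=
  Quotient.lift (s := sd (st s x)) (fun u => mk s (x ++ u))
    (fun u v h => mk_eq.2 ((E.left_iff s x u v).2 h)) z

lemma toFilter_mk (s : Bool) (x u : List (Fin 3)) :
    toFilter s x (mk (st s x) u) = mk s (x ++ u) := rfl

lemma toFilter_le_iff (s : Bool) (x : List (Fin 3)) (z w : P (st s x)) :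
    toFilter s x z ≤ toFilter s x w ↔ z ≤ w := by
  obtain ⟨u, rfl⟩ := exists_rep z
  obtain ⟨v, rfl⟩ := exists_rep w
  exact le.left_iff s x u v

lemma exists_toFilter {s : Bool} {x : List (Fin 3)} {y : P s} (h : mk s x ≤ y) :
    ∃ z, toFilter s x z = y := by
  obtain ⟨v, rfl⟩ := exists_rep y
  obtain ⟨z, hz⟩ := h
  exact ⟨mk _ z, mk_eq.2 hz⟩

lemma le_toFilter (s : Bool) (x : List (Fin 3)) (z : P (st s x)) : mk s x ≤ toFilter s x z := by
  obtain ⟨u, rfl⟩ := exists_rep z
  exact ⟨u, E.refl _ _⟩

/-- the filter above `mk s x` is the poset read from the state reached by `x` -/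
noncomputable def filterIso (s : Bool) (x : List (Fin 3)) : P (st s x) ≃o Set.Ici (mk s x) :=
  OrderIso.ofSurjective (α := P (st s x)) (β := Set.Ici (mk s x))
    (OrderEmbedding.ofMapLEIff (fun z => ⟨toFilter s x z, le_toFilter s x z⟩)
      (fun z w => toFilter_le_iff s x z w))
    (fun y => by
      obtain ⟨z, hz⟩ := exists_toFilter y.2
      exact ⟨z, Subtype.ext hz⟩)

/-- exchange of the letters `0` and `1` -/
def sw (a : Fin 3) : Fin 3 := if a = 0 then 1 else if a = 1 then 0 else a

lemma sw_sw (a : Fin 3) : sw (sw a) = a := by revert a; decide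
lemma nxt_sw (a : Fin 3) : nxt (sw a) = nxt a := by revert a; decide
lemma sw_inj {a b : Fin 3} : sw a = sw b ↔ a = b := by revert a b; decide
lemma g_false (a : Fin 3) : g false a = 0 := by revert a; decide
lemma g_true_zero : g true 0 = 1 := by decide
lemma g_true (a : Fin 3) (h : a ≠ 0) : g true a = 0 := by revert a; decide

/-- exchange `0` and `1` as first letters -/
def swW : List (Fin 3) → List (Fin 3)
  | [] => []
  | a :: u => sw a :: u

lemma swW_swW (u : List (Fin 3)) : swW (swW u) = u := by
  cases u with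
  | nil => rfl
  | cons a u => simp [swW, sw_sw]

lemma E.swap_first {u v : List (Fin 3)} (h : E false u v) : E false (swW u) (swW v) := by
  generalize hs : false = s at h
  cases h with
  | nil => exact E.nil _
  | cons _ a u v h => exact E.cons _ _ _ _ (by rw [nxt_sw]; exact h)
  | swap _ a b u v w hab h1 h2 =>
    subst hs
    refine E.swap _ _ _ _ _ w (fun h => hab (sw_inj.1 h)) ?_ ?_
    · rw [nxt_sw, g_false]; rwa [g_false] at h1
    · rw [nxt_sw, g_false]; rwa [g_false] at h2

/-- exchange `0` and `1` as second letters after a first letter `0` -/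
def phi : List (Fin 3) → List (Fin 3)
  | [] => []
  | a :: u => if a = 0 then a :: swW u else a :: u

lemma phi_phi (u : List (Fin 3)) : phi (phi u) = u := by
  cases u with
  | nil => rfl
  | cons a u =>
    by_cases h : a = 0
    · simp [phi, h, swW_swW]
    · simp [phi, h]

lemma nxt_zero : nxt 0 = false := by decide

lemma E.phi_aux {s : Bool} {u v : List (Fin 3)} (h : E s u v) : E (!s) (phi u) (phi v) := by
  cases h with
  | nil => exact E.nil _
  | cons _ a u v h =>
    by_cases ha : a = 0
    · subst ha
      rw [nxt_zero] at h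
      simp only [phi, if_true]
      exact E.cons _ _ _ _ (by rw [nxt_zero]; exact h.swap_first)
    · simp only [phi, ha, if_false]
      exact E.cons _ _ _ _ h
  | swap _ a b u v w hab h1 h2 =>
    have key : ∀ (a : Fin 3) (u : List (Fin 3)), a = 0 → E (nxt a) u (g s a :: w) →
        E (nxt a) (swW u) (g (!s) a :: w) := by
      intro a u ha h
      subst ha
      rw [nxt_zero] at h ⊢
      have := h.swap_first
      cases s
      · simpa [swW, sw, g] using this
      · simpa [swW, sw, g] using this
    have key2 : ∀ a : Fin 3, a ≠ 0 → g s a = g (!s) a := by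
      intro a ha
      cases s
      · show g false a = g true a
        rw [g_false, g_true a ha]
      · show g true a = g false a
        rw [g_false, g_true a ha]
    by_cases ha : a = 0
    · have hb : b ≠ 0 := fun h => hab (ha.trans h.symm)
      simp only [phi, ha, hb, if_true, if_false]
      subst ha
      exact E.swap _ _ _ _ _ w hab (key _ _ rfl h1) (by rw [← key2 b hb]; exact h2)
    · by_cases hb : b = 0
      · simp only [phi, ha, hb, if_true, if_false]
        subst hb
        exact E.swap _ _ _ _ _ w hab (by rw [← key2 a ha]; exact h1) (key _ _ rfl h2)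
      · simp only [phi, ha, hb, if_false]
        exact E.swap _ _ _ _ _ w hab (by rw [← key2 a ha]; exact h1)
          (by rw [← key2 b hb]; exact h2)

lemma phi_append (u z : List (Fin 3)) : ∃ z', phi (u ++ z) = phi u ++ z' := by
  match u with
  | [] => exact ⟨phi z, rfl⟩
  | [a] =>
    by_cases ha : a = 0
    · exact ⟨swW z, by simp [phi, ha, swW]⟩
    · exact ⟨z, by simp [phi, ha]⟩
  | a :: b :: u =>
    refine ⟨z, ?_⟩
    by_cases ha : a = 0
    · simp [phi, ha, swW]
    · simp [phi, ha]

lemma le.phi_aux {s : Bool} {u v : List (Fin 3)} (h : le s u v) : le (!s) (phi u) (phi v) := by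
  obtain ⟨z, hz⟩ := h
  obtain ⟨z', hz'⟩ := phi_append u z
  exact ⟨z', by rw [← hz']; exact hz.phi_aux⟩

/-- the map induced by `phi` -/
def phiP (s : Bool) (x : P s) : P (!s) :=
  Quotient.lift (s := sd s) (fun u => mk (!s) (phi u)) (fun _ _ h => mk_eq.2 (E.phi_aux h)) x

/-- the two posets are isomorphic -/
noncomputable def phiIso : P false ≃o P true :=
  OrderIso.ofSurjective (OrderEmbedding.ofMapLEIff (phiP false) (by
      intro x y
      obtain ⟨u, rfl⟩ := exists_rep x
      obtain ⟨v, rfl⟩ := exists_rep y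
      constructor
      · intro h
        have h2 : le (!true) (phi (phi u)) (phi (phi v)) := le.phi_aux (s := true) h
        rw [phi_phi, phi_phi] at h2
        exact h2
      · intro h
        exact le.phi_aux h))
    (fun y => by
      obtain ⟨v, rfl⟩ := exists_rep y
      refine ⟨mk false (phi v), ?_⟩
      show mk true (phi (phi v)) = mk true v
      rw [phi_phi])

lemma isoAll (s : Bool) : Nonempty (P s ≃o P false) := by
  cases s
  · exact ⟨OrderIso.refl _⟩
  · exact ⟨phiIso.symm⟩

lemma upho (a : P false) : Nonempty (Set.Ici a ≃o P false) := by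
  obtain ⟨x, rfl⟩ := exists_rep a
  obtain ⟨e⟩ := isoAll (st false x)
  exact ⟨(filterIso false x).symm.trans e⟩

/-! ### covers and joins of covers -/

lemma E_letters (s : Bool) (i j : Fin 3) : E s [i, g s i] [j, g s j] := by
  by_cases h : i = j
  · subst h; exact E.refl _ _
  · exact E.swap _ _ _ _ _ [] h (E.refl _ _) (E.refl _ _)

lemma le_of_two_letters {s : Bool} {i j : Fin 3} (hij : i ≠ j) {x : List (Fin 3)}
    (h1 : le s [i] x) (h2 : le s [j] x) : le s [0, g s 0] x := by
  obtain ⟨z, hz⟩ := h1
  obtain ⟨z', hz'⟩ := h2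
  obtain ⟨w, hw, -⟩ := E.swap_inv hij (hz.trans hz'.symm)
  have h3 : E s ([i, g s i] ++ w) x := (E.cons s i _ _ hw.symm).trans hz
  exact ⟨w, ((E_letters s 0 i).append w).trans h3⟩

/-- the join of the covers of `mk s u` -/
def topW (s : Bool) (u : List (Fin 3)) : P s := mk s (u ++ [0, g (st s u) 0])

lemma mk_append_le_topW (s : Bool) (u : List (Fin 3)) (a : Fin 3) :
    mk s (u ++ [a]) ≤ topW s u := by
  show le s (u ++ [a]) (u ++ [0, g (st s u) 0])
  rw [le.left_iff]
  exact ⟨[g (st s u) a], E_letters _ a 0⟩

lemma eq_of_covBy {s : Bool} {u : List (Fin 3)} {y : P s} (h : mk s u ⋖ y) :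
    ∃ a, y = mk s (u ++ [a]) := by
  obtain ⟨v, rfl⟩ := exists_rep y
  have hr := rk_covBy h
  obtain ⟨z, hz⟩ := h.le
  have hlen := hz.length_eq
  simp only [rk_mk] at hr
  simp only [List.length_append] at hlen
  match z, hz, hlen with
  | [], _, hlen => simp only [List.length_nil] at hlen; omega
  | [a], hz, _ => exact ⟨a, (mk_eq.2 hz).symm⟩
  | a :: b :: z, _, hlen => simp only [List.length_cons] at hlen; omega

lemma isLUB_covers {s : Bool} {u : List (Fin 3)} {y z : P s} (hy : mk s u ⋖ y)
    (hz : mk s u ⋖ z) (hyz : y ≠ z) : IsLUB {y, z} (topW s u) := by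
  obtain ⟨a, rfl⟩ := eq_of_covBy hy
  obtain ⟨b, rfl⟩ := eq_of_covBy hz
  have hab : a ≠ b := by rintro rfl; exact hyz rfl
  constructor
  · rintro w (rfl | rfl)
    · exact mk_append_le_topW s u a
    · exact mk_append_le_topW s u b
  · intro w hw
    have h1 : mk s (u ++ [a]) ≤ w := hw (Or.inl rfl)
    have h2 : mk s (u ++ [b]) ≤ w := hw (Or.inr rfl)
    obtain ⟨w, rfl⟩ := exists_rep w
    obtain ⟨t, ht⟩ := h1
    have hw' : E s w (u ++ ([a] ++ t)) := by rw [← List.append_assoc]; exact ht.symm
    rw [mk_eq.2 hw'] at h2 ⊢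
    have h3 : le (st s u) [b] ([a] ++ t) := (le.left_iff s u _ _).1 h2
    exact (le.left_iff s u _ _).2 (le_of_two_letters hab ⟨t, E.refl _ _⟩ h3)

lemma covBy_letter (i : Fin 3) : mk false [] ⋖ mk false [i] := by
  constructor
  · refine lt_of_le_of_ne (nil_le _) ?_
    intro h
    have := (mk_eq.1 h).length_eq
    simp at this
  · intro z h1 h2
    have h3 := rk_strictMono false h1
    have h4 := rk_strictMono false h2
    simp only [rk_mk, List.length_nil, List.length_cons] at h3 h4
    omega

lemma letter_inj {i j : Fin 3} (s : Bool) (h : mk s [i] = mk s [j]) : i = j := by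
  by_contra hij
  obtain ⟨w, hw, -⟩ := E.swap_inv hij (mk_eq.1 h)
  have := hw.length_eq
  simp at this

lemma finite_part : ∀ f : Fin 3 → Fin 3,
    ¬ (f (f 0) = f (f 1) ∧ f (f 2) ≠ f (f 0) ∧ f (f (f (f 0))) = f (f (f (f 2)))) := by
  decide

lemma not_multiplicable : ¬ ∃ _ : Monoid (P false),
    (∀ a b c : P false, a * b = a * c → b = c) ∧
    (∀ a b : P false, a * b = 1 → a = 1 ∧ b = 1) ∧
    (∀ a b : P false, a ≤ b ↔ ∃ c, a * c = b) := by
  rintro ⟨M, hc, -, hd⟩
  have one_eq : (1 : P false) = mk false [] :=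
    le_antisymm ((hd 1 _).2 ⟨_, one_mul _⟩) (nil_le _)
  have hle : ∀ y a b : P false, y * a ≤ y * b ↔ a ≤ b := by
    intro y a b
    rw [hd, hd]
    constructor
    · rintro ⟨c, h⟩
      exact ⟨c, hc y _ _ (by rw [← mul_assoc]; exact h)⟩
    · rintro ⟨c, rfl⟩
      exact ⟨c, mul_assoc _ _ _⟩
  have hlt : ∀ y a b : P false, y * a < y * b ↔ a < b := by
    intro y a b
    rw [lt_iff_le_not_ge, lt_iff_le_not_ge, hle, hle]
  have hcov : ∀ y a : P false, mk false [] ⋖ a → y ⋖ y * a := by
    intro y a ha
    rw [← one_eq] at ha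
    constructor
    · have := (hlt y 1 a).2 ha.1
      rwa [mul_one] at this
    · intro z hz1 hz2
      obtain ⟨t, rfl⟩ := (hd y z).1 hz1.le
      have h1 : y * 1 < y * t := by rwa [mul_one]
      exact ha.2 ((hlt _ _ _).1 h1) ((hlt _ _ _).1 hz2)
  -- `y * J` is the join of the covers of `y`
  have hJlub : IsLUB {mk false [0], mk false [1]} (mk false [0, 0]) :=
    isLUB_covers (u := []) (covBy_letter 0) (covBy_letter 1)
      (fun h => absurd (letter_inj _ h) (by decide))
  have htop : ∀ u : List (Fin 3), mk false u * mk false [0, 0] = topW false u := by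
    intro u
    have h1 : IsLUB {mk false u * mk false [0], mk false u * mk false [1]}
        (mk false u * mk false [0, 0]) := by
      constructor
      · rintro w (rfl | rfl)
        · exact (hle _ _ _).2 (hJlub.1 (Or.inl rfl))
        · exact (hle _ _ _).2 (hJlub.1 (Or.inr rfl))
      · intro w hw
        have h0 : mk false u * mk false [0] ≤ w := hw (Or.inl rfl)
        have h1 : mk false u * mk false [1] ≤ w := hw (Or.inr rfl)
        obtain ⟨t, rfl⟩ := (hd (mk false u) w).1
          (((hd _ _).2 ⟨mk false [0], rfl⟩ : mk false u ≤ mk false u * mk false [0]).trans h0)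
        rw [hle] at h0 h1 ⊢
        refine hJlub.2 ?_
        rintro w (rfl | rfl)
        · exact h0
        · exact h1
    refine h1.unique (isLUB_covers (hcov _ _ (covBy_letter 0)) (hcov _ _ (covBy_letter 1)) ?_)
    intro h
    exact absurd (letter_inj _ (hc _ _ _ h)) (by decide)
  -- complements of the atoms
  have hex : ∀ i : Fin 3, ∃ j : Fin 3, mk false [i] * mk false [j] = mk false [0, 0] := by
    intro i
    have h1 : mk false [i] ≤ mk false [0, 0] := mk_append_le_topW false [] i
    obtain ⟨c, hcc⟩ := (hd _ _).1 h1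
    have hcc' : mk false [] ⋖ c := by
      rw [← one_eq]
      constructor
      · rw [← hlt (mk false [i]), hcc, mul_one]
        refine lt_of_le_of_ne h1 ?_
        intro h
        have := (mk_eq.1 h).length_eq
        simp at this
      · intro t h2 h3
        rw [← hlt (mk false [i]), mul_one] at h2
        rw [← hlt (mk false [i]), hcc] at h3
        have h4 := rk_strictMono false h2
        have h5 := rk_strictMono false h3
        simp only [rk_mk, List.length_nil, List.length_cons] at h4 h5
        omega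
    obtain ⟨j, hj⟩ := eq_of_covBy hcc'
    exact ⟨j, by rw [← hcc, hj]; rfl⟩
  choose f hf using hex
  have h2 : ∀ i, mk false [i] * mk false [0, 0] = mk false [0, 0] * mk false [f (f i)] := by
    intro i
    rw [← hf (f i), ← mul_assoc, hf i, hf (f i)]
  have h4 : ∀ i, mk false [i] * mk false [0, 0] * mk false [0, 0]
      = mk false [0, 0] * mk false [0, 0] * mk false [f (f (f (f i)))] := by
    intro i
    rw [h2 i, mul_assoc, h2, mul_assoc]
  have t0 : mk false [0] * mk false [0, 0] = mk false [0, 0, 0] := htop [0]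
  have t1 : mk false [1] * mk false [0, 0] = mk false [1, 0, 0] := htop [1]
  have t2 : mk false [2] * mk false [0, 0] = mk false [2, 0, 1] := htop [2]
  have e1 : mk false [1, 0, 0] = mk false [0, 0, 0] :=
    mk_eq.2 ((E_letters false 1 0).append [0])
  have e2 : mk false [2, 0, 1] = mk false [0, 0, 1] :=
    mk_eq.2 ((E_letters false 2 0).append [1])
  have hA : f (f 0) = f (f 1) := by
    have : mk false [0, 0] * mk false [f (f 0)] = mk false [0, 0] * mk false [f (f 1)] := by
      rw [← h2, ← h2, t0, t1, e1]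
    exact letter_inj _ (hc _ _ _ this)
  have hB : f (f 2) ≠ f (f 0) := by
    intro h
    have h5 : mk false [0, 0, 1] = mk false [0, 0, 0] := by
      rw [← e2, ← t2, ← t0, h2, h2, h]
    have h6 : E false ([0, 0] ++ [1]) ([0, 0] ++ [0]) := mk_eq.1 h5
    rw [E.left_iff] at h6
    exact absurd (letter_inj _ (mk_eq.2 h6)) (by decide)
  have hC : f (f (f (f 0))) = f (f (f (f 2))) := by
    have : mk false [0, 0] * mk false [0, 0] * mk false [f (f (f (f 0)))]
        = mk false [0, 0] * mk false [0, 0] * mk false [f (f (f (f 2)))] := by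
      rw [← h4, ← h4, t0, t2, e2, htop, htop]
      refine mk_eq.2 ?_
      show E false ([0, 0] ++ [0, 0, 0]) ([0, 0] ++ [1, 0, 0])
      rw [E.left_iff]
      exact (E_letters false 0 1).append [0]
    exact letter_inj _ (hc _ _ _ this)
  exact finite_part f ⟨hA, hB, hC⟩

lemma height_lt_top (a : P false) : Order.height a < ⊤ := by
  have h := Order.height_le_height_apply_of_strictMono (rk (s := false)) (rk_strictMono false) a
  refine lt_of_le_of_lt h ?_
  rw [Order.height_nat]
  exact ENat.natCast_lt_top _

end Pool.Agent.Helper41.UphoExample
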